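import Pool.Agent.GAL.Def
import Pool.Agent.GAV.Z6

set_option autoImplicit false

open MvPolynomial LTD

namespace GAL

open GAV

variable {E : Type} [NormedAddCommGroup E] [NormedSpace ℂ E] {M μ : ℕ} {k : IntermediateField ℚ ℂ}

/-! ## [GAL-B1] basic facts about group varieties (file B1.lean)

`theta_per`: `G.per`, and `c ≠ 0` because `θ (z + l) ≠ 0` (`G.ne`). `aeval_hom`: homogeneous polynomials over an arbitrary coefficient ring `R` (as `GAV.z8_smul`, `GAV/Z8.lean`). `exists_ne`: `G.ne`. `V_self`: clear. `V_trans`: clear. `V_field`: map the polynomial to the larger field (`MvPolynomial.map`, see `GAV.z6_map`).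
`V_lat`: `theta_per` and `aeval_hom`. `zc_closed`: the set is the intersection of the zero sets of continuous functions `z ↦ aeval (θ z) f` (`θ` is continuous; `MvPolynomial.continuous_aeval`-like or induction on `f`). `zc_per`: `theta_per`, `aeval_hom`. `zc_lam`: `Λ = {z : θ z proportional to θ 0}` (`G.inj`, `G.per`): the polynomials
`θ_j(0) X_i - θ_i(0) X_j`. `rat_fin`: a range over a finite type. `zc_inter`: union of the sets of polynomials. -/

theorem theta_per (G : GV E M μ k) (l : E) (hl : l ∈ G.Λ) (z : E) :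
    ∃ c : ℂ, c ≠ 0 ∧ G.θ (z + l) = c • G.θ z := by
  obtain ⟨c, h⟩ := G.per l hl z
  refine ⟨c, ?_, h⟩
  rintro rfl
  exact G.ne (z + l) (by rw [h, zero_smul])

theorem aeval_hom {R : Type} [CommRing R] [Algebra R ℂ] {σ : Type} (f : MvPolynomial σ R) (n : ℕ)
    (hf : f.IsHomogeneous n) (c : ℂ) (p : σ → ℂ) : aeval (c • p) f = c ^ n * aeval p f := by
  rw [aeval_def, aeval_def, eval₂_eq, eval₂_eq, Finset.mul_sum]
  refine Finset.sum_congr rfl fun m hm => ?_
  have hd : m.degree = n := by
    have := hf (mem_support_iff.mp hm)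
    rw [Finsupp.degree_eq_weight_one]
    exact this
  have : ∏ i ∈ m.support, (c • p) i ^ m i = c ^ n * ∏ i ∈ m.support, p i ^ m i := by
    simp only [Pi.smul_apply, smul_eq_mul, mul_pow]
    rw [Finset.prod_mul_distrib, Finset.prod_pow_eq_pow_sum]
    congr 2
  rw [this]
  ring

theorem exists_ne (G : GV E M μ k) (z : E) : ∃ b, G.θ z b ≠ 0 := by
  by_contra h
  push Not at h
  exact G.ne z (funext h)

theorem V_self (G : GV E M μ k) (F : IntermediateField ℚ ℂ) (v : E) : v ∈ G.V F v := by
  exact fun f n _ h => h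

theorem V_trans (G : GV E M μ k) (F : IntermediateField ℚ ℂ) {u v w : E} (h : v ∈ G.V F u)
    (h' : w ∈ G.V F v) : w ∈ G.V F u := by
  exact fun f n hf h0 => h' f n hf (h f n hf h0)

theorem V_field (G : GV E M μ k) {F F' : IntermediateField ℚ ℂ} (hF : F ≤ F') (v z : E)
    (h : z ∈ G.V F' v) : z ∈ G.V F v := by
  intro f n hf h0
  have h1 := h (map (IntermediateField.inclusion hF).toRingHom f) n (hf.map _)
    (by rw [z6_map]; exact h0)
  rwa [z6_map] at h1

theorem V_lat (G : GV E M μ k) (F : IntermediateField ℚ ℂ) (v z l : E) (hl : l ∈ G.Λ)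
    (hz : z ∈ G.V F v) : z + l ∈ G.V F v := by
  intro f n hf h0
  obtain ⟨c, -, h⟩ := theta_per G l hl z
  rw [h, aeval_hom f n hf, hz f n hf h0, mul_zero]

theorem zc_closed (G : GV E M μ k) (X : Set E) (hX : G.ZC X) : IsClosed X := by
  obtain ⟨S, -, hS⟩ := hX
  have e : X = ⋂ f ∈ S, {z | aeval (G.θ z) f = 0} := by
    ext z
    rw [hS z]
    simp only [Set.mem_iInter, Set.mem_ofPred_eq]
  rw [e]
  refine isClosed_biInter fun f _ => ?_
  have hc : Continuous fun z => aeval (G.θ z) f := by
    have e : (fun z => aeval (G.θ z) f) = fun z => eval (G.θ z) f := by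
      funext z
      rw [← coe_aeval_eq_eval]
      rfl
    rw [e]
    exact (MvPolynomial.continuous_eval f).comp G.diff.continuous
  exact isClosed_singleton.preimage hc

theorem zc_per (G : GV E M μ k) (X : Set E) (hX : G.ZC X) (z l : E) (hz : z ∈ X) (hl : l ∈ G.Λ) :
    z + l ∈ X := by
  obtain ⟨S, hh, hS⟩ := hX
  rw [hS] at hz ⊢
  intro f hf
  obtain ⟨n, hn⟩ := hh f hf
  obtain ⟨c, -, h⟩ := theta_per G l hl z
  rw [h, aeval_hom f n hn, hz f hf, mul_zero]

theorem zc_sub (G : GV E M μ k) (H : AddSubgroup E) (hH : G.ZC (H : Set E)) : G.Λ ≤ H := by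
  intro l hl
  have h := zc_per G _ hH 0 l H.zero_mem hl
  rwa [zero_add] at h

theorem zc_lam (G : GV E M μ k) : G.ZC (G.Λ : Set E) := by
  refine ⟨Set.range fun p : Fin (M + 1) × Fin (M + 1) =>
    C (G.θ 0 p.2) * X p.1 - C (G.θ 0 p.1) * X p.2, ?_, ?_⟩
  · rintro _ ⟨p, rfl⟩
    refine ⟨1, ?_⟩
    have h : ∀ (c : ℂ) (i : Fin (M + 1)), (C c * X i : MvPolynomial (Fin (M + 1)) ℂ).IsHomogeneous 1 :=
      fun c i => by
        have := (isHomogeneous_C (Fin (M + 1)) c).mul (isHomogeneous_X ℂ i)
        rwa [zero_add] at this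
    exact (h _ _).sub (h _ _)
  · intro z
    constructor
    · rintro hz _ ⟨p, rfl⟩
      obtain ⟨c, -, h⟩ := theta_per G z hz 0
      rw [zero_add] at h
      simp only [map_sub, map_mul, aeval_X, algHom_C, h, Pi.smul_apply, smul_eq_mul,
        Algebra.algebraMap_self, RingHom.id_apply]
      ring
    · intro h
      obtain ⟨b, hb⟩ := exists_ne G 0
      have h1 : G.θ z = (G.θ z b / G.θ 0 b) • G.θ 0 := by
        funext i
        have := h _ ⟨(i, b), rfl⟩
        simp only [map_sub, map_mul, aeval_X, algHom_C, Algebra.algebraMap_self,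
          RingHom.id_apply] at this
        rw [Pi.smul_apply, smul_eq_mul]
        field_simp
        linear_combination this
      have h2 := G.inj z 0 _ h1
      rwa [sub_zero] at h2

theorem zc_inter (G : GV E M μ k) {ι : Type} (X : ι → Set E) (hX : ∀ i, G.ZC (X i)) :
    G.ZC (⋂ i, X i) := by
  choose S hh hS using hX
  refine ⟨⋃ i, S i, ?_, ?_⟩
  · intro f hf
    obtain ⟨i, hi⟩ := Set.mem_iUnion.1 hf
    exact hh i f hi
  · intro z
    rw [Set.mem_iInter]
    constructor
    · intro h f hf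
      obtain ⟨i, hi⟩ := Set.mem_iUnion.1 hf
      exact (hS i z).1 (h i) f hi
    · intro h i
      exact (hS i z).2 fun f hf => h f (Set.mem_iUnion.2 ⟨i, hf⟩)

theorem rat_fin (G : GV E M μ k) (z : E) : (G.rat z).Finite := by
  exact Set.finite_range _

end GAL
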