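import Pool.Agent.GAL.B1

set_option autoImplicit false

open MvPolynomial LTD

namespace GAL

open GAV

variable {E : Type} [NormedAddCommGroup E] [NormedSpace ℂ E] {M μ : ℕ} {k : IntermediateField ℚ ℂ}
variable {E' : Type} [NormedAddCommGroup E'] [NormedSpace ℂ E'] {M' μ' : ℕ}

/-! ## [GAL-B2] morphisms (file B2.lean)

`R` is `F` or `ℂ` (or `k`). `mor_id`: `Q j = X j`, `e = 1`. `mor_const`: `Q j = C (x j)`, `e = 0`, where `x j ∈ R` are coordinates of the point. `mor_sub`: given `z`, take `Q` for `φ` and `Q'` for `ψ` at `z` and `i` with `law_i(θ'(φ z), θ'(ψ z)) ≠ 0` (`G'.law_ne`); the new vector is `law_i(Q, Q')_j`, i.e. `aeval (Sum.elim Q Q')` of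
`map ι (G'.law i j)`; homogeneous of degree `μ' e + μ' e'` (`G'.law_hom`: every monomial of `law i j` has degree `μ'` in both groups of variables; compare `GAV.z7_hom` in `GAV/Z7.lean`); its value at `θ z'` is `law_i(c θ'(φ z'), c' θ'(ψ z'))_j = (c c')^{μ'} law_i(θ'(φ z'), θ'(ψ z'))_j = .. c'' θ'(φ z' - ψ z')_j` (`G'.law_eq`; the analogue of `GAV.law_smul`, prove it here),
nonzero for `z' = z` (there `c, c' ≠ 0`). `mor_comp`: substitute. `mor_pre`: for `f ∈ S` and every vector `Q` which satisfies the first two conditions of `Mor` (for some `e`) take `f(Q)` (homogeneous of degree `e n`; `IsHomogeneous` of `aeval Q f`: `MvPolynomial.IsHomogeneous.aeval`-like or by monomials): if `φ z ∈ X` all `f(Q)` vanish at `θ z`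
(`aeval_hom`); conversely use the `Q` with `Q(θ z) ≠ 0` (then `c ≠ 0`). `mor_V`: the same argument with `X = V_F(φ x)`. `mor_to_C`: map the polynomials. `mor_nsmul`: induction on `n`: `(n+1) z = n z - (0 - z)`; `0` is rational over `k`, so over `R` (`G.zero`, `ι`). -/

/-- homogeneity after substitution -/
theorem b2_hom {R : Type} [CommRing R] {σ τ ρ : Type} [Fintype σ] [Fintype τ]
    (P : MvPolynomial (σ ⊕ τ) R) (e e' K : ℕ)
    (hP : ∀ m ∈ P.support, ∑ l, m (Sum.inl l) = K ∧ ∑ l, m (Sum.inr l) = K)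
    (Q : σ → MvPolynomial ρ R) (hQ : ∀ b, (Q b).IsHomogeneous e)
    (Q' : τ → MvPolynomial ρ R) (hQ' : ∀ b, (Q' b).IsHomogeneous e') :
    (aeval (Sum.elim Q Q') P).IsHomogeneous (e * K + e' * K) := by
  rw [aeval_def, eval₂_eq']
  refine IsHomogeneous.sum _ _ _ fun m hm => ?_
  rw [Fintype.prod_sum_type]
  have h1 : (algebraMap R (MvPolynomial ρ R) (coeff m P)).IsHomogeneous 0 := by
    rw [MvPolynomial.algebraMap_apply]
    exact isHomogeneous_C _ _
  have h2 : (∏ a, (Sum.elim Q Q' (Sum.inl a)) ^ (m (Sum.inl a))).IsHomogeneous (e * K) := by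
    have := IsHomogeneous.prod (Finset.univ : Finset σ)
      (fun a => (Sum.elim Q Q' (Sum.inl a)) ^ (m (Sum.inl a)))
      (fun a => e * m (Sum.inl a)) (fun a _ => (hQ a).pow _)
    rw [← Finset.mul_sum, (hP m hm).1] at this
    exact this
  have h3 : (∏ b, (Sum.elim Q Q' (Sum.inr b)) ^ (m (Sum.inr b))).IsHomogeneous (e' * K) := by
    have := IsHomogeneous.prod (Finset.univ : Finset τ)
      (fun b => (Sum.elim Q Q' (Sum.inr b)) ^ (m (Sum.inr b)))
      (fun b => e' * m (Sum.inr b)) (fun b _ => (hQ' b).pow _)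
    rw [← Finset.mul_sum, (hP m hm).2] at this
    exact this
  have h4 := h1.mul (h2.mul h3)
  rwa [zero_add] at h4

/-- evaluation after substitution -/
theorem b2_ev {R : Type} [CommRing R] [Algebra R ℂ] {σ ρ : Type} (y : ρ → ℂ)
    (Q : σ → MvPolynomial ρ R) (f : MvPolynomial σ R) :
    aeval y (aeval Q f) = aeval (fun i => aeval y (Q i)) f :=
  comp_aeval_apply (R := R) (f := Q) (aeval y : MvPolynomial ρ R →ₐ[R] ℂ) f

/-- evaluation after a change of the coefficients -/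
theorem b2_map {R : Type} [CommRing R] [Algebra R ℂ] (ι : k →+* R)
    (hι : ∀ x, algebraMap R ℂ (ι x) = x) {σ : Type} (y : σ → ℂ) (f : MvPolynomial σ k) :
    aeval y (map ι f) = aeval y f := by
  rw [aeval_def, aeval_def, eval₂_map]
  congr 1
  ext x
  exact hι x

/-- bihomogeneity -/
theorem b2_smul {σ τ : Type} [Fintype σ] [Fintype τ] (P : MvPolynomial (σ ⊕ τ) k) (K : ℕ)
    (hP : ∀ m ∈ P.support, ∑ l, m (Sum.inl l) = K ∧ ∑ l, m (Sum.inr l) = K) (a b : ℂ)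
    (p : σ → ℂ) (q : τ → ℂ) :
    aeval (Sum.elim (a • p) (b • q)) P = a ^ K * b ^ K * aeval (Sum.elim p q) P := by
  rw [aeval_def, aeval_def, eval₂_eq', eval₂_eq', Finset.mul_sum]
  refine Finset.sum_congr rfl fun m hm => ?_
  rw [Fintype.prod_sum_type, Fintype.prod_sum_type]
  simp only [Sum.elim_inl, Sum.elim_inr, Pi.smul_apply, smul_eq_mul, mul_pow]
  rw [Finset.prod_mul_distrib, Finset.prod_mul_distrib, Finset.prod_pow_eq_pow_sum,
    Finset.prod_pow_eq_pow_sum, (hP m hm).1, (hP m hm).2]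
  ring

/-- the value of a homogeneous polynomial of a morphism -/
theorem b2_val {R : Type} [CommRing R] [Algebra R ℂ] (G : GV E M μ k) (G' : GV E' M' μ' k)
    (φ : E → E') (Q : Fin (M' + 1) → MvPolynomial (Fin (M + 1)) R) (z : E) (c : ℂ)
    (hc : ∀ j, aeval (G.θ z) (Q j) = c * G'.θ (φ z) j) (f : MvPolynomial (Fin (M' + 1)) R) (n : ℕ)
    (hf : f.IsHomogeneous n) :
    aeval (G.θ z) (aeval Q f) = c ^ n * aeval (G'.θ (φ z)) f := by
  rw [b2_ev, ← aeval_hom f n hf]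
  congr 2
  funext j
  exact hc j

theorem mor_id {R : Type} [CommRing R] [Algebra R ℂ] (G : GV E M μ k) : Mor R G G (fun z => z) := by
  intro z
  obtain ⟨b, hb⟩ := exists_ne G z
  refine ⟨1, X, fun j => isHomogeneous_X _ _, fun z' => ⟨1, fun j => ?_⟩, b, ?_⟩
  · rw [aeval_X, one_mul]
  · rwa [aeval_X]

theorem mor_const {R : Type} [CommRing R] [Algebra R ℂ] (G : GV E M μ k) (G' : GV E' M' μ' k)
    (w : E') (x : Fin (M' + 1) → R) (c : ℂ) (hc : c ≠ 0)
    (hx : ∀ j, algebraMap R ℂ (x j) = c * G'.θ w j) : Mor R G G' (fun _ => w) := by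
  intro z
  obtain ⟨b, hb⟩ := exists_ne G' w
  refine ⟨0, fun j => C (x j), fun j => isHomogeneous_C _ _, fun z' => ⟨c, fun j => ?_⟩, b, ?_⟩
  · rw [aeval_C, hx]
  · rw [aeval_C, hx]
    exact mul_ne_zero hc hb

theorem mor_sub {R : Type} [CommRing R] [Algebra R ℂ] (ι : k →+* R)
    (hι : ∀ x, algebraMap R ℂ (ι x) = x) (G : GV E M μ k) (G' : GV E' M' μ' k) (φ ψ : E → E')
    (hφ : Mor R G G' φ) (hψ : Mor R G G' ψ) : Mor R G G' (fun z => φ z - ψ z) := by
  intro z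
  obtain ⟨e, Q, hQ, hQc, j₁, hj₁⟩ := hφ z
  obtain ⟨e', Q', hQ', hQc', j₂, hj₂⟩ := hψ z
  obtain ⟨i, j₃, hi⟩ := G'.law_ne (φ z) (ψ z)
  have hsup : ∀ j, ∀ m ∈ (map ι (G'.law i j)).support,
      ∑ l, m (Sum.inl l) = μ' ∧ ∑ l, m (Sum.inr l) = μ' := fun j m hm =>
    G'.law_hom i j m (support_map_subset ι _ hm)
  have hval : ∀ z' (c c' : ℂ), (∀ j, aeval (G.θ z') (Q j) = c * G'.θ (φ z') j) →
      (∀ j, aeval (G.θ z') (Q' j) = c' * G'.θ (ψ z') j) → ∀ j,
      aeval (G.θ z') (aeval (Sum.elim Q Q') (map ι (G'.law i j))) =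
        c ^ μ' * c' ^ μ' * aeval (Sum.elim (G'.θ (φ z')) (G'.θ (ψ z'))) (G'.law i j) := by
    intro z' c c' h1 h2 j
    rw [b2_ev, b2_map ι hι, ← b2_smul _ _ (G'.law_hom i j)]
    congr 2
    funext a
    rcases a with a | a
    · exact h1 a
    · exact h2 a
  refine ⟨e * μ' + e' * μ', fun j => aeval (Sum.elim Q Q') (map ι (G'.law i j)), fun j =>
    b2_hom _ e e' μ' (hsup j) Q hQ Q' hQ', ?_, j₃, ?_⟩
  · intro z'
    obtain ⟨c, hc⟩ := hQc z'
    obtain ⟨c', hc'⟩ := hQc' z'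
    obtain ⟨c'', hc''⟩ := G'.law_eq i (φ z') (ψ z')
    refine ⟨c ^ μ' * c' ^ μ' * c'', fun j => ?_⟩
    rw [hval z' c c' hc hc' j, hc'' j]
    ring
  · obtain ⟨c, hc⟩ := hQc z
    obtain ⟨c', hc'⟩ := hQc' z
    have hc0 : c ≠ 0 := by
      rintro rfl
      exact hj₁ (by rw [hc, zero_mul])
    have hc0' : c' ≠ 0 := by
      rintro rfl
      exact hj₂ (by rw [hc', zero_mul])
    rw [hval z c c' hc hc' j₃]
    exact mul_ne_zero (mul_ne_zero (pow_ne_zero _ hc0) (pow_ne_zero _ hc0')) hi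

theorem mor_pre {R : Type} [CommRing R] [Algebra R ℂ] (G : GV E M μ k) (G' : GV E' M' μ' k)
    (φ : E → E') (hφ : Mor R G G' φ) (S : Set (MvPolynomial (Fin (M' + 1)) R))
    (hS : ∀ f ∈ S, ∃ n, f.IsHomogeneous n) :
    ∃ S' : Set (MvPolynomial (Fin (M + 1)) R), (∀ f ∈ S', ∃ n, f.IsHomogeneous n) ∧
      ∀ z, (∀ f ∈ S, aeval (G'.θ (φ z)) f = 0) ↔ ∀ f ∈ S', aeval (G.θ z) f = 0 := by
  refine ⟨{p | ∃ f ∈ S, ∃ (e : ℕ) (Q : Fin (M' + 1) → MvPolynomial (Fin (M + 1)) R),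
    (∀ j, (Q j).IsHomogeneous e) ∧
    (∀ z', ∃ c : ℂ, ∀ j, aeval (G.θ z') (Q j) = c * G'.θ (φ z') j) ∧ aeval Q f = p}, ?_, ?_⟩
  · rintro p ⟨f, hf, e, Q, hQ, -, rfl⟩
    obtain ⟨n, hn⟩ := hS f hf
    exact ⟨_, hn.aeval Q hQ⟩
  · intro z
    constructor
    · rintro h p ⟨f, hf, e, Q, hQ, hQc, rfl⟩
      obtain ⟨n, hn⟩ := hS f hf
      obtain ⟨c, hc⟩ := hQc z
      rw [b2_val G G' φ Q z c hc f n hn, h f hf, mul_zero]
    · intro h f hf
      obtain ⟨n, hn⟩ := hS f hf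
      obtain ⟨e, Q, hQ, hQc, j, hj⟩ := hφ z
      obtain ⟨c, hc⟩ := hQc z
      have hc0 : c ≠ 0 := by
        rintro rfl
        exact hj (by rw [hc, zero_mul])
      have h1 := h (aeval Q f) ⟨f, hf, e, Q, hQ, hQc, rfl⟩
      rw [b2_val G G' φ Q z c hc f n hn] at h1
      exact (mul_eq_zero.1 h1).resolve_left (pow_ne_zero _ hc0)

theorem mor_V (G : GV E M μ k) (G' : GV E' M' μ' k) (F : IntermediateField ℚ ℂ) (φ : E → E')
    (hφ : Mor F G G' φ) (x y : E) (hy : y ∈ G.V F x) : φ y ∈ G'.V F (φ x) := by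
  intro f n hn h0
  obtain ⟨e, Q, hQ, hQc, j, hj⟩ := hφ y
  obtain ⟨c, hc⟩ := hQc y
  obtain ⟨c', hc'⟩ := hQc x
  have hc0 : c ≠ 0 := by
    rintro rfl
    exact hj (by rw [hc, zero_mul])
  have h1 := hy (aeval Q f) _ (hn.aeval Q hQ)
    (by rw [b2_val G G' φ Q x c' hc' f n hn, h0, mul_zero])
  rw [b2_val G G' φ Q y c hc f n hn] at h1
  exact (mul_eq_zero.1 h1).resolve_left (pow_ne_zero _ hc0)

theorem mor_to_C (G : GV E M μ k) (G' : GV E' M' μ' k) (F : IntermediateField ℚ ℂ) (φ : E → E')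
    (hφ : Mor F G G' φ) : Mor ℂ G G' φ := by
  intro z
  obtain ⟨e, Q, hQ, hQc, j, hj⟩ := hφ z
  refine ⟨e, fun j => map (algebraMap F ℂ) (Q j), fun j => (hQ j).map _, fun z' => ?_, j, ?_⟩
  · obtain ⟨c, hc⟩ := hQc z'
    exact ⟨c, fun j => by rw [aeval_map_algebraMap, hc]⟩
  · rwa [aeval_map_algebraMap]

theorem mor_zc (G : GV E M μ k) (G' : GV E' M' μ' k) (φ : E → E') (hφ : Mor ℂ G G' φ)
    (X : Set E') (hX : G'.ZC X) : G.ZC (φ ⁻¹' X) := by
  obtain ⟨S, hS, hX⟩ := hX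
  obtain ⟨S', hS', h⟩ := mor_pre G G' φ hφ S hS
  exact ⟨S', hS', fun z => (hX (φ z)).trans (h z)⟩

theorem mor_constC (G : GV E M μ k) (G' : GV E' M' μ' k) (w : E') : Mor ℂ G G' (fun _ => w) := by
  refine mor_const G G' w (G'.θ w) 1 one_ne_zero fun j => ?_
  rw [one_mul, Algebra.algebraMap_self, RingHom.id_apply]

theorem mor_subC (G : GV E M μ k) (G' : GV E' M' μ' k) (φ ψ : E → E')
    (hφ : Mor ℂ G G' φ) (hψ : Mor ℂ G G' ψ) : Mor ℂ G G' (fun z => φ z - ψ z) :=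
  mor_sub (algebraMap k ℂ) (fun _ => rfl) G G' φ ψ hφ hψ

theorem mor_nsmul (G : GV E M μ k) (F : IntermediateField ℚ ℂ) (hk : k ≤ F) (n : ℕ) :
    Mor F G G (fun z => n • z) := by
  have h0 : Mor F G G (fun _ => (0 : E)) := by
    obtain ⟨c, hc, hx⟩ := G.zero
    exact mor_const G G 0 (fun j => (⟨c * G.θ 0 j, hk (hx j)⟩ : F)) c hc fun _ => rfl
  have hι : ∀ x : k, algebraMap F ℂ ((IntermediateField.inclusion hk).toRingHom x) = x :=
    fun _ => rfl
  have h1 : Mor F G G (fun z => 0 - z) := mor_sub _ hι G G _ _ h0 (mor_id G)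
  induction n with
  | zero =>
    simp only [zero_smul]
    exact h0
  | succ n ih =>
    have h2 := mor_sub _ hι G G _ _ ih h1
    have h3 : (fun z : E => (n + 1) • z) = fun z => n • z - (0 - z) := by
      funext z
      rw [add_smul, one_smul, zero_sub, sub_neg_eq_add]
    rw [h3]
    exact h2

end GAL
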