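import Pool.Agent.GAL.Def

set_option autoImplicit false

open MvPolynomial LTD

namespace GAL

/-! ## [GAL-B3] homogenisation (file B3.lean)

`hz_eval`: `aeval p (hz b a Q P) = ∑_c coeff_c P ∏ p_{a_i}^{c_i} p_b^{Q - ∑c_i}`, and `p_b^{Q - ∑ c_i} = p_b^Q / p_b^{∑ c_i}` (`∑ c_i ≤ Q`). `hz_hom`: every term is homogeneous of degree `∑ c_i + (Q - ∑ c_i) = Q`. `hz_val`: the first formula (`aeval` of the definition). -/

theorem hz_val {n M : ℕ} (b : Fin (M + 1)) (a : Fin n → Fin (M + 1)) (Q : ℕ)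
    (P : MvPolynomial (Fin n) ℂ) (p : Fin (M + 1) → ℂ) :
    aeval p (hz b a Q P) =
      ∑ c ∈ P.support, coeff c P * (∏ i, p (a i) ^ c i) * p b ^ (Q - ∑ i, c i) := by
  unfold hz
  rw [map_sum]
  refine Finset.sum_congr rfl fun c _ => ?_
  rw [map_mul, map_mul, map_prod, map_pow, aeval_X, aeval_C]
  congr 2
  refine Finset.prod_congr rfl fun i _ => ?_
  rw [map_pow, aeval_X]

theorem hz_hom {n M : ℕ} (b : Fin (M + 1)) (a : Fin n → Fin (M + 1)) (Q : ℕ)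
    (P : MvPolynomial (Fin n) ℂ) (hP : ∀ c ∈ P.support, ∑ i, c i ≤ Q) :
    (hz b a Q P).IsHomogeneous Q := by
  unfold hz
  refine IsHomogeneous.sum _ _ _ fun c hc => ?_
  have h1 : (∏ i, (X (a i) : MvPolynomial (Fin (M + 1)) ℂ) ^ c i).IsHomogeneous (∑ i, c i) := by
    refine IsHomogeneous.prod _ _ _ fun i _ => ?_
    have h := (isHomogeneous_X ℂ (a i)).pow (c i)
    rwa [one_mul] at h
  have h2 : ((X b : MvPolynomial (Fin (M + 1)) ℂ) ^ (Q - ∑ i, c i)).IsHomogeneous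
      (Q - ∑ i, c i) := by
    have h := (isHomogeneous_X ℂ b).pow (Q - ∑ i, c i)
    rwa [one_mul] at h
  have h3 := ((isHomogeneous_C (Fin (M + 1)) (coeff c P)).mul h1).mul h2
  have h4 : 0 + ∑ i, c i + (Q - ∑ i, c i) = Q := by
    have := hP c hc
    omega
  rwa [h4] at h3

theorem hz_eval {n M : ℕ} (b : Fin (M + 1)) (a : Fin n → Fin (M + 1)) (Q : ℕ)
    (P : MvPolynomial (Fin n) ℂ) (hP : ∀ c ∈ P.support, ∑ i, c i ≤ Q) (p : Fin (M + 1) → ℂ)
    (hb : p b ≠ 0) : aeval p (hz b a Q P) = p b ^ Q * aeval (fun i => p (a i) / p b) P := by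
  rw [hz_val, aeval_def, eval₂_eq', Finset.mul_sum]
  refine Finset.sum_congr rfl fun c hc => ?_
  have h1 : p b ^ (Q - ∑ i, c i) = p b ^ Q / p b ^ (∑ i, c i) := by
    rw [eq_div_iff (pow_ne_zero _ hb), ← pow_add, Nat.sub_add_cancel (hP c hc)]
  have h2 : ∏ i, (p (a i) / p b) ^ c i = (∏ i, p (a i) ^ c i) / p b ^ (∑ i, c i) := by
    rw [← Finset.prod_pow_eq_pow_sum, ← Finset.prod_div_distrib]
    exact Finset.prod_congr rfl fun i _ => div_pow _ _ _
  rw [h1, h2, Algebra.algebraMap_self, RingHom.id_apply]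
  ring

end GAL
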