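import Pool.Agent.GAL.B2

set_option autoImplicit false

open MvPolynomial

namespace GAL

open GAV

variable {E : Type} [NormedAddCommGroup E] [NormedSpace ℂ E] {M μ : ℕ} {k : IntermediateField ℚ ℂ}

/-! ## [GAL-C1] the Zariski closure of a subgroup is a subgroup (file C1.lean)

`hc_zc`: by definition `G.HC W` is defined by the set of all homogeneous polynomials vanishing on `W`. `hc_min`: by definition. `hc_group`: let `X = G.HC W`. For fixed `w ∈ W` the set `{z | z - w ∈ X}` is Zariski closed (`mor_zc` for the morphism `z ↦ z - w`: `mor_subC, mor_id, mor_constC`) and contains `W`, so contains `X` (`hc_min`): (1) `z - w ∈ X` for `z ∈ X, w ∈ W`.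
For fixed `z ∈ X` the set `{w | z - w ∈ X}` is Zariski closed (`w ↦ z - w`) and contains `W` by (1), so contains `X`: `z - w ∈ X` for `z, w ∈ X`. `0 ∈ W ⊆ X`. So `X` is a subgroup. -/

theorem hc_zc (G : GV E M μ k) (W : Set E) : G.ZC (G.HC W) := by
  refine ⟨{f | (∃ n, f.IsHomogeneous n) ∧ ∀ w ∈ W, aeval (G.θ w) f = 0}, fun f hf => hf.1,
    fun z => ⟨?_, ?_⟩⟩
  · rintro hz f ⟨⟨n, hn⟩, hf⟩
    exact hz f n hn hf
  · intro h f n hn hf
    exact h f ⟨⟨n, hn⟩, hf⟩

theorem hc_min (G : GV E M μ k) (W X : Set E) (hX : G.ZC X) (hW : W ⊆ X) : G.HC W ⊆ X := by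
  obtain ⟨S, hS, hX⟩ := hX
  intro z hz
  rw [hX]
  intro f hf
  obtain ⟨n, hn⟩ := hS f hf
  exact hz f n hn fun w hw => (hX w).1 (hW hw) f hf

theorem c1_sub (G : GV E M μ k) (W : Set E) : W ⊆ G.HC W :=
  fun w hw _ _ _ hf => hf w hw

theorem hc_group (G : GV E M μ k) (W : AddSubgroup E) : ∃ H : AddSubgroup E,
    G.ZC (H : Set E) ∧ (∀ z, z ∈ H ↔ z ∈ G.HC (W : Set E)) ∧ W ≤ H := by
  have h1 : ∀ z ∈ G.HC (W : Set E), ∀ w ∈ W, z - w ∈ G.HC (W : Set E) := by
    intro z hz w hw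
    have hm : Mor ℂ G G (fun x => x - w) :=
      mor_subC G G (fun x => x) (fun _ => w) (mor_id G) (mor_constC G G w)
    have hc := mor_zc G G _ hm _ (hc_zc G (W : Set E))
    exact hc_min G (W : Set E) _ hc (fun x hx => c1_sub G _ (W.sub_mem hx hw)) hz
  have h2 : ∀ z ∈ G.HC (W : Set E), ∀ w ∈ G.HC (W : Set E), z - w ∈ G.HC (W : Set E) := by
    intro z hz w hw
    have hm : Mor ℂ G G (fun x => z - x) :=
      mor_subC G G (fun _ => z) (fun x => x) (mor_constC G G z) (mor_id G)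
    have hc := mor_zc G G _ hm _ (hc_zc G (W : Set E))
    exact hc_min G (W : Set E) _ hc (fun x hx => h1 z hz x hx) hw
  have h0 : (0 : E) ∈ G.HC (W : Set E) := c1_sub G _ W.zero_mem
  have hneg : ∀ z ∈ G.HC (W : Set E), -z ∈ G.HC (W : Set E) := by
    intro z hz
    have := h2 0 h0 z hz
    rwa [zero_sub] at this
  refine ⟨{ carrier := G.HC (W : Set E), zero_mem' := h0, add_mem' := ?_, neg_mem' := ?_ },
    hc_zc G _, fun z => Iff.rfl, fun w hw => c1_sub G _ hw⟩
  · intro a b ha hb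
    have := h2 a ha (-b) (hneg b hb)
    rwa [sub_neg_eq_add] at this
  · intro a ha
    exact hneg a ha

end GAL
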