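import Pool.Agent.GAL.Def
import Pool.Agent.GAV.G1

set_option autoImplicit false

open MvPolynomial

namespace GAL

open GAV

variable {g N κ : ℕ} {k : IntermediateField ℚ ℂ}

/-! ## [GAL-H4] rational subspaces: reduction modulo the lattice, torsion points (file H4.lean)

Choose a real basis of `T` (as a real vector space) among the elements of `A.Λ ∩ T` (which span `T` over `ℝ` by `hT`; `Submodule.exists_..`/`Basis.ofSpan`-like, finitely many elements `l_1..l_m`, linearly independent over `ℝ`, spanning `T`; a finite spanning family is enough). `red_sub`: `z = ∑ s_i l_i`, `l = ∑ ⌊s_i⌋ l_i ∈ A.Λ ∩ T`, `‖z - l‖ ≤ ∑ ‖l_i‖`.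
(With a finite spanning family the coefficients `s_i` are not unique; choose any.) `tors_dense`: `z = ∑ s_i l_i`; for a large `n ≥ 1`, `z' = ∑ (⌊n s_i⌋/n) l_i ∈ T`, `n • z' ∈ A.Λ`, `‖z - z'‖ ≤ (1/n) ∑ ‖l_i‖ < ε`. -/

private theorem h4_fin (A : AV g N κ k) (T : Submodule ℂ (Fin g → ℂ)) (hT : RatSub A T) :
    ∃ s : Finset (Fin g → ℂ), (∀ l ∈ s, l ∈ A.Λ ∧ l ∈ T) ∧
      ∀ z ∈ T, ∃ f : (Fin g → ℂ) → ℝ, ∑ a ∈ s, f a • a = z := by
  have h1 : (Submodule.span ℝ {l : Fin g → ℂ | l ∈ A.Λ ∧ l ∈ T}).FG :=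
    IsNoetherian.noetherian _
  rw [Submodule.fg_span_iff_fg_span_finset_subset] at h1
  obtain ⟨s, hs, he⟩ := h1
  refine ⟨s, fun l hl => hs hl, fun z hz => ?_⟩
  have h2 := hT z hz
  rw [he, Submodule.mem_span_finset] at h2
  obtain ⟨f, -, hf⟩ := h2
  exact ⟨f, hf⟩

theorem red_sub (A : AV g N κ k) (T : Submodule ℂ (Fin g → ℂ)) (hT : RatSub A T) :
    ∃ C : ℝ, 1 ≤ C ∧ ∀ z ∈ T, ∃ l ∈ A.Λ, l ∈ T ∧ ‖z - l‖ ≤ C := by
  obtain ⟨s, hs, hsp⟩ := h4_fin A T hT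
  have h0 : 0 ≤ ∑ a ∈ s, ‖a‖ := Finset.sum_nonneg fun i _ => norm_nonneg _
  refine ⟨1 + ∑ a ∈ s, ‖a‖, by linarith, ?_⟩
  intro z hz
  obtain ⟨f, hf⟩ := hsp z hz
  refine ⟨∑ a ∈ s, ⌊f a⌋ • a, ?_, ?_, ?_⟩
  · exact AddSubgroup.sum_mem _ fun a ha => AddSubgroup.zsmul_mem _ (hs a ha).1 _
  · exact T.sum_mem fun a ha => zsmul_mem (hs a ha).2 _
  · have h1 : z - ∑ a ∈ s, ⌊f a⌋ • a = ∑ a ∈ s, (Int.fract (f a)) • a := by
      rw [← hf, ← Finset.sum_sub_distrib]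
      refine Finset.sum_congr rfl fun a _ => ?_
      rw [← Int.self_sub_floor, sub_smul, ← Int.cast_smul_eq_zsmul ℝ]
    rw [h1]
    refine (norm_sum_le _ _).trans ?_
    have h2 : ∀ a ∈ s, ‖(Int.fract (f a)) • a‖ ≤ ‖a‖ := by
      intro a _
      rw [norm_smul, Real.norm_eq_abs, abs_of_nonneg (Int.fract_nonneg _)]
      exact mul_le_of_le_one_left (norm_nonneg _) (Int.fract_lt_one _).le
    refine (Finset.sum_le_sum h2).trans ?_
    linarith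

theorem tors_dense (A : AV g N κ k) (T : Submodule ℂ (Fin g → ℂ)) (hT : RatSub A T) (z : Fin g → ℂ)
    (hz : z ∈ T) (ε : ℝ) (hε : 0 < ε) :
    ∃ z' ∈ T, ‖z - z'‖ < ε ∧ ∃ n : ℕ, 0 < n ∧ n • z' ∈ A.Λ := by
  obtain ⟨s, hs, hsp⟩ := h4_fin A T hT
  have h0 : 0 ≤ ∑ a ∈ s, ‖a‖ := Finset.sum_nonneg fun i _ => norm_nonneg _
  obtain ⟨f, hf⟩ := hsp z hz
  obtain ⟨n, hn⟩ := exists_nat_gt ((∑ a ∈ s, ‖a‖) / ε)
  have hn0 : (0 : ℝ) < n := lt_of_le_of_lt (by positivity) hn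
  have hnn : 0 < n := by exact_mod_cast hn0
  refine ⟨∑ a ∈ s, ((⌊(n : ℝ) * f a⌋ : ℝ) / n) • a, ?_, ?_, n, hnn, ?_⟩
  · exact T.sum_mem fun a ha => T.smul_of_tower_mem _ (hs a ha).2
  · have h1 : z - ∑ a ∈ s, ((⌊(n : ℝ) * f a⌋ : ℝ) / n) • a =
        ∑ a ∈ s, (Int.fract ((n : ℝ) * f a) / n) • a := by
      rw [← hf, ← Finset.sum_sub_distrib]
      refine Finset.sum_congr rfl fun a _ => ?_
      rw [← Int.self_sub_floor, sub_div, sub_smul, mul_div_cancel_left₀ _ hn0.ne']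
    rw [h1]
    have h2 : ∀ a ∈ s, ‖(Int.fract ((n : ℝ) * f a) / n) • a‖ ≤ ‖a‖ / n := by
      intro a _
      rw [norm_smul, Real.norm_eq_abs, abs_of_nonneg (div_nonneg (Int.fract_nonneg _) hn0.le),
        div_mul_eq_mul_div]
      apply div_le_div_of_nonneg_right _ hn0.le
      exact mul_le_of_le_one_left (norm_nonneg _) (Int.fract_lt_one _).le
    refine (norm_sum_le _ _).trans_lt ((Finset.sum_le_sum h2).trans_lt ?_)
    rw [← Finset.sum_div, div_lt_iff₀ hn0]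
    rw [div_lt_iff₀ hε] at hn
    linarith
  · rw [Finset.smul_sum]
    refine AddSubgroup.sum_mem _ fun a ha => ?_
    have h3 : n • (((⌊(n : ℝ) * f a⌋ : ℝ) / n) • a) = ⌊(n : ℝ) * f a⌋ • a := by
      rw [← Nat.cast_smul_eq_nsmul ℝ, smul_smul, mul_div_cancel₀ _ hn0.ne',
        Int.cast_smul_eq_zsmul]
    rw [h3]
    exact AddSubgroup.zsmul_mem _ (hs a ha).1 _

end GAL
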