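import Pool.Agent.GAL.B3

set_option autoImplicit false

open MvPolynomial

namespace GAL

/-! ## [GAL-S3] existence of the auxiliary polynomial (file S3.lean)

Linear algebra. For a coefficient family `x : (Fin (r+1) → Fin (q+1)) → ℂ` let `P_x = ∑_c x_c monomial(c)`; the map `x ↦ (aeval (p_s) (hz b a ((r+1)q) P_x))_{s ∈ Pts}` is linear: by `hz_val` its value is `∑_c x_c ∏_i p(a_i)^{c_i} p(b)^{(r+1)q - ∑ c_i}` (a sum over all `c : Fin (r+1) → Fin (q+1)`, terms with coefficient `0` may be added;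
the exponent vectors of the `P_x` are these `c`). The source has dimension `(q+1)^{r+1}`, the target `Pts.card`: there is `x ≠ 0` in the kernel (`LinearMap.exists_ne_zero_of_finrank_lt`-like, `LinearMap.ker_ne_bot_of_finrank_lt`). `∑ c_i ≤ (r+1) q`; `P_x ≠ 0`. -/

/-- the exponent vector of `c` -/
noncomputable def s3_e {r q : ℕ} (c : Fin (r + 1) → Fin (q + 1)) : Fin (r + 1) →₀ ℕ :=
  Finsupp.equivFunOnFinite.symm fun i => (c i : ℕ)

theorem s3_e_apply {r q : ℕ} (c : Fin (r + 1) → Fin (q + 1)) (i : Fin (r + 1)) :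
    s3_e c i = (c i : ℕ) := rfl

theorem s3_e_inj {r q : ℕ} : Function.Injective (s3_e (r := r) (q := q)) := by
  intro c c' h
  funext i
  apply Fin.ext
  rw [← s3_e_apply, h, s3_e_apply]

/-- the polynomial with coefficient family `x` -/
noncomputable def s3_P {r q : ℕ} (x : (Fin (r + 1) → Fin (q + 1)) → ℂ) :
    MvPolynomial (Fin (r + 1)) ℂ :=
  ∑ c, monomial (s3_e c) (x c)

theorem s3_coeff {r q : ℕ} (x : (Fin (r + 1) → Fin (q + 1)) → ℂ) (c : Fin (r + 1) → Fin (q + 1)) :
    coeff (s3_e c) (s3_P x) = x c := by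
  classical
  rw [s3_P, coeff_sum, Finset.sum_eq_single c]
  · rw [coeff_monomial, if_pos rfl]
  · intro c' _ hc'
    rw [coeff_monomial, if_neg (fun h => hc' (s3_e_inj h))]
  · intro h
    exact absurd (Finset.mem_univ c) h

theorem s3_support {r q : ℕ} (x : (Fin (r + 1) → Fin (q + 1)) → ℂ) (m : Fin (r + 1) →₀ ℕ)
    (hm : m ∈ (s3_P x).support) : ∃ c : Fin (r + 1) → Fin (q + 1), s3_e c = m := by
  classical
  by_contra h
  push Not at h
  apply mem_support_iff.1 hm
  rw [s3_P, coeff_sum]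
  exact Finset.sum_eq_zero fun c _ => by rw [coeff_monomial, if_neg (h c)]

theorem s3_val {M : ℕ} (r q : ℕ) (b : Fin (M + 1)) (a : Fin (r + 1) → Fin (M + 1))
    (x : (Fin (r + 1) → Fin (q + 1)) → ℂ) (p : Fin (M + 1) → ℂ) (Q : ℕ) :
    aeval p (hz b a Q (s3_P x)) =
      ∑ c, x c * ((∏ i, p (a i) ^ (c i : ℕ)) * p b ^ (Q - ∑ i, (c i : ℕ))) := by
  classical
  rw [hz_val]
  have h1 : (s3_P x).support ⊆ (Finset.univ : Finset (Fin (r + 1) → Fin (q + 1))).image s3_e := by
    intro m hm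
    obtain ⟨c, hc⟩ := s3_support x m hm
    exact Finset.mem_image.2 ⟨c, Finset.mem_univ _, hc⟩
  rw [Finset.sum_subset h1, Finset.sum_image (fun c _ c' _ h => s3_e_inj h)]
  · refine Finset.sum_congr rfl fun c _ => ?_
    rw [s3_coeff]
    simp only [s3_e_apply]
    ring
  · intro m _ hm
    rw [notMem_support_iff.1 hm]
    ring

theorem aux_poly {M : ℕ} (r q : ℕ) (b : Fin (M + 1)) (a : Fin (r + 1) → Fin (M + 1))
    (Pts : Finset (Fin (M + 1) → ℂ)) (hc : Pts.card < (q + 1) ^ (r + 1)) :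
    ∃ P : MvPolynomial (Fin (r + 1)) ℂ, P ≠ 0 ∧ (∀ c ∈ P.support, ∑ i, c i ≤ (r + 1) * q) ∧
      ∀ p ∈ Pts, aeval p (hz b a ((r + 1) * q) P) = 0 := by
  classical
  let φ : ((Fin (r + 1) → Fin (q + 1)) → ℂ) →ₗ[ℂ] (Pts → ℂ) :=
    { toFun := fun x p => ∑ c, x c * ((∏ i, p.1 (a i) ^ (c i : ℕ)) *
        p.1 b ^ ((r + 1) * q - ∑ i, (c i : ℕ)))
      map_add' := fun x y => by
        funext p
        rw [Pi.add_apply, ← Finset.sum_add_distrib]
        refine Finset.sum_congr rfl fun c _ => ?_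
        rw [Pi.add_apply, add_mul]
      map_smul' := fun t x => by
        funext p
        rw [RingHom.id_apply, Pi.smul_apply, smul_eq_mul, Finset.mul_sum]
        refine Finset.sum_congr rfl fun c _ => ?_
        rw [Pi.smul_apply, smul_eq_mul, mul_assoc] }
  have hker : LinearMap.ker φ ≠ ⊥ := by
    apply LinearMap.ker_ne_bot_of_finrank_lt
    rw [Module.finrank_fintype_fun_eq_card, Module.finrank_fintype_fun_eq_card, Fintype.card_fun,
      Fintype.card_fin, Fintype.card_fin, Fintype.card_coe]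
    exact hc
  obtain ⟨x, hx, hx0⟩ := (Submodule.ne_bot_iff _).1 hker
  refine ⟨s3_P x, ?_, ?_, ?_⟩
  · intro h
    apply hx0
    funext c
    rw [← s3_coeff x c, h, coeff_zero]
    rfl
  · intro m hm
    obtain ⟨c, rfl⟩ := s3_support x m hm
    calc ∑ i, s3_e c i ≤ ∑ _i : Fin (r + 1), q :=
          Finset.sum_le_sum fun i _ => by
            rw [s3_e_apply]
            have := (c i).isLt
            omega
      _ = (r + 1) * q := by
          rw [Finset.sum_const, Finset.card_univ, Fintype.card_fin, smul_eq_mul]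
  · intro p hp
    rw [s3_val]
    exact congrFun (LinearMap.mem_ker.1 hx) ⟨p, hp⟩

end GAL
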