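import Mathlib

set_option autoImplicit false

namespace GAL

/-! ## [GAL-S4] numerics for Siegel's lemma (file S4.lean)

`Q = (r+1) q`, `m = L Q`, `L = ⌈K₁⌉ + 1`. First: `m^r = (L (r+1) q)^r ≤ (L(r+1))^r (q+1)^r < (q+1)^{r+1}` as soon as `q + 1 > (L(r+1))^r`. Second: `exp(K₁ Q) ≤ exp(L Q) exp(-Q)`, and `e^m ≤ 3^m`: so `exp(K₁ Q) · 4 (5m+1)^r ≤ 3^m · 4 (5 L Q + 1)^r e^{-Q} < 3^m` for `Q` large (`4 (5 L Q + 1)^r < e^Q`: polynomial against exponential, e.g. `Real.tendsto_pow_mul_exp_neg_atTop_nhds_zero`),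
`Q ≥ q`. -/

theorem siegel_num (r : ℕ) (K₁ : ℝ) (hK : 0 ≤ K₁) : ∃ q m : ℕ, 1 ≤ m ∧
    m ^ r < (q + 1) ^ (r + 1) ∧
      Real.exp (K₁ * ((r + 1) * q : ℕ)) * ((5 * m + 1) ^ r * 4) < 3 ^ m := by
  obtain ⟨L, hL⟩ : ∃ L : ℕ, L = ⌈K₁⌉₊ + 1 := ⟨_, rfl⟩
  have hL1 : 1 ≤ L := by omega
  have hKL : K₁ ≤ (L : ℝ) - 1 := by
    have h := Nat.le_ceil K₁
    rw [hL]
    push_cast
    linarith
  have hc : (0 : ℝ) < ((5 * L + 1 : ℕ) : ℝ) ^ r * 4 := by positivity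
  have h0 : ∀ᶠ x : ℝ in Filter.atTop,
      x ^ r * Real.exp (-x) < 1 / (((5 * L + 1 : ℕ) : ℝ) ^ r * 4) :=
    (Real.tendsto_pow_mul_exp_neg_atTop_nhds_zero r).eventually
      (gt_mem_nhds (by positivity))
  have htend : Filter.Tendsto (fun q : ℕ => (((r + 1) * q : ℕ) : ℝ)) Filter.atTop
      Filter.atTop := by
    refine tendsto_natCast_atTop_atTop.comp ?_
    exact Filter.Tendsto.const_mul_atTop' (Nat.succ_pos r) Filter.tendsto_id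
  have h1 := htend.eventually h0
  obtain ⟨q, ⟨hq1, hq2⟩, hq3⟩ := ((h1.and (Filter.eventually_ge_atTop 1)).and
    (Filter.eventually_ge_atTop ((L * (r + 1)) ^ r))).exists
  have hQ1 : 1 ≤ (r + 1) * q := Nat.mul_pos (Nat.succ_pos r) hq2
  obtain ⟨Q, hQ⟩ : ∃ Q : ℕ, Q = (r + 1) * q := ⟨_, rfl⟩
  refine ⟨q, L * Q, ?_, ?_, ?_⟩
  · rw [hQ]
    exact Nat.mul_pos hL1 hQ1
  · calc (L * Q) ^ r = (L * (r + 1)) ^ r * q ^ r := by rw [hQ, ← mul_pow]; ring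
      _ ≤ q * q ^ r := Nat.mul_le_mul_right _ hq3
      _ = q ^ (r + 1) := by ring
      _ < (q + 1) ^ (r + 1) := Nat.pow_lt_pow_left (Nat.lt_succ_self q) (Nat.succ_ne_zero r)
  · rw [← hQ] at hq1 hQ1 ⊢
    have hQR : (1 : ℝ) ≤ (Q : ℝ) := by exact_mod_cast hQ1
    have hpoly : ((5 * ((L * Q : ℕ) : ℝ) + 1) ^ r * 4) < Real.exp Q := by
      have e1 : (5 * ((L * Q : ℕ) : ℝ) + 1) ≤ ((5 * L + 1 : ℕ) : ℝ) * Q := by
        push_cast
        nlinarith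
      have e2 : (5 * ((L * Q : ℕ) : ℝ) + 1) ^ r ≤ (((5 * L + 1 : ℕ) : ℝ) * Q) ^ r :=
        pow_le_pow_left₀ (by positivity) e1 r
      have e3 : (Q : ℝ) ^ r * Real.exp (-(Q : ℝ)) * (((5 * L + 1 : ℕ) : ℝ) ^ r * 4) < 1 := by
        rw [lt_div_iff₀ hc] at hq1
        exact hq1
      have e4 : (((5 * L + 1 : ℕ) : ℝ) * Q) ^ r * 4 < Real.exp Q := by
        have h5 : (((5 * L + 1 : ℕ) : ℝ) * Q) ^ r * 4
            = (Q : ℝ) ^ r * Real.exp (-(Q : ℝ)) * (((5 * L + 1 : ℕ) : ℝ) ^ r * 4)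
              * Real.exp Q := by
          rw [mul_pow, Real.exp_neg]
          field_simp
        rw [h5]
        have hE := Real.exp_pos (Q : ℝ)
        calc _ < 1 * Real.exp Q := mul_lt_mul_of_pos_right e3 hE
          _ = Real.exp Q := one_mul _
      linarith
    have hexp3 : Real.exp (((L * Q : ℕ) : ℝ)) ≤ 3 ^ (L * Q) := by
      rw [← Real.exp_one_pow]
      exact pow_le_pow_left₀ (Real.exp_pos 1).le (by linarith [Real.exp_one_lt_d9]) _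
    have hE : Real.exp (K₁ * (Q : ℝ)) ≤ Real.exp (((L : ℝ) - 1) * Q) :=
      Real.exp_le_exp.2 (mul_le_mul_of_nonneg_right hKL (by positivity))
    have hp : (0 : ℝ) < (5 * ((L * Q : ℕ) : ℝ) + 1) ^ r * 4 := by positivity
    calc Real.exp (K₁ * (Q : ℝ)) * ((5 * ((L * Q : ℕ) : ℝ) + 1) ^ r * 4)
        ≤ Real.exp (((L : ℝ) - 1) * Q) * ((5 * ((L * Q : ℕ) : ℝ) + 1) ^ r * 4) :=
          mul_le_mul_of_nonneg_right hE hp.le
      _ < Real.exp (((L : ℝ) - 1) * Q) * Real.exp Q :=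
          mul_lt_mul_of_pos_left hpoly (Real.exp_pos _)
      _ = Real.exp (((L * Q : ℕ) : ℝ)) := by
          rw [← Real.exp_add]
          push_cast
          ring_nf
      _ ≤ 3 ^ (L * Q) := hexp3

end GAL
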