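import Pool.Agent.GAL.S2
import Pool.Agent.GAL.S3
import Pool.Agent.GAL.S4
import Pool.Agent.GAL.H4
import Pool.Agent.GAV.G2

set_option autoImplicit false

open MvPolynomial Module

namespace GAL

open GAV

variable {g N κ : ℕ} {k : IntermediateField ℚ ℂ}

/-! ## [GAL-S5] Siegel's lemma for subtori (file S5.lean)

`r = finrank ℂ T`, a complex basis `f` of `T` (`finBasis`), `φ₀ : (Fin r → ℂ) → T` the corresponding isomorphism. `red_sub`: `C`; the inverse of `φ₀` is bounded: `‖φ₀⁻¹ z‖ ≤ C' ‖z‖`; with `φ ζ = φ₀((C' C) • ζ)` (constant `> 0`): for every `ζ` there is `ζ₀`, `‖ζ₀‖ ≤ 1`, `φ ζ - φ ζ₀ ∈ A.Λ`; `‖φ ζ‖ ≤ K ‖ζ‖`. `growth` (`GAV/G2.lean`): `e^{-C(1+‖z‖)²} ≤ ‖θ z‖ ≤ e^{C(1+‖z‖)²}`.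
`K₁ = C(1+K)² + C(1+3K)²`; `q, m` from `siegel_num`, `Q = (r+1) q`. `aux_poly` for `Pts` = the image of the `m^r` grid points `e` (`e_i^m = 1`; a finset of cardinality `≤ m^r`, e.g. `Fintype.piFinset (fun _ => nthRootsFinset m 1)`) under `e ↦ θ(φ e)`: `P`. `F(ζ) = aeval (θ(φ ζ)) (hz b a Q P)`, entire, `F(e) = 0`.
`ψ(ζ) = ‖F ζ‖/‖θ(φ ζ)‖^Q` is continuous and `ψ(ζ) = ψ(ζ₀)` if `φ ζ - φ ζ₀ ∈ A.Λ` (`hz_hom`, homogeneity of degree `Q`, `theta_lat` in `GAV/G1.lean`). Let `ζ*` be a maximum of `ψ` on the closed unit ball, `n = ψ(ζ*)`: `ψ ≤ n` everywhere. For `‖ζ‖ ≤ 3`: `‖F ζ‖ ≤ n ‖θ(φ ζ)‖^Q ≤ n e^{CQ(1+3K)²} = B`. `grid_schwarz` with `R = 3`: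
`n = ‖F ζ*‖/‖θ(φ ζ*)‖^Q ≤ e^{CQ(1+K)²} (5m+1)^r 4 n e^{CQ(1+3K)²}/3^m = n · (e^{K₁Q} (5m+1)^r 4/3^m)`, and the last factor is `< 1`: `n = 0`. So `F = 0` everywhere. -/

theorem s5_smul {σ : Type} (f : MvPolynomial σ ℂ) (n : ℕ) (hf : f.IsHomogeneous n) (c : ℂ)
    (p : σ → ℂ) : aeval (c • p) f = c ^ n * aeval p f := by
  rw [aeval_def, aeval_def, eval₂_eq, eval₂_eq, Finset.mul_sum]
  refine Finset.sum_congr rfl fun m hm => ?_
  have hd : m.degree = n := by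
    have := hf (mem_support_iff.mp hm)
    rw [Finsupp.degree_eq_weight_one]
    exact this
  have : ∏ i ∈ m.support, (c • p) i ^ m i = c ^ n * ∏ i ∈ m.support, p i ^ m i := by
    rw [← hd, Finsupp.degree_apply, ← Finset.prod_pow_eq_pow_sum, ← Finset.prod_mul_distrib]
    refine Finset.prod_congr rfl fun i _ => ?_
    rw [Pi.smul_apply, smul_eq_mul, mul_pow]
  rw [this]
  ring

theorem s5_diff {E : Type} [NormedAddCommGroup E] [NormedSpace ℂ E] {M : ℕ}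
    (h : E → Fin (M + 1) → ℂ) (hh : Differentiable ℂ h) (f : MvPolynomial (Fin (M + 1)) ℂ) :
    Differentiable ℂ fun z => aeval (h z) f := by
  induction f using MvPolynomial.induction_on with
  | C a =>
    simp only [aeval_C]
    exact differentiable_const _
  | add p q hp hq =>
    simp only [map_add]
    exact hp.add hq
  | mul_X p i hp =>
    simp only [map_mul, aeval_X]
    exact hp.mul (differentiable_pi.mp hh i)

/-- The maximum argument. -/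
theorem s5_zero {r Q m : ℕ} (hm : 1 ≤ m) (F : (Fin r → ℂ) → ℂ) (hF : Differentiable ℂ F)
    (G : (Fin r → ℂ) → ℝ) (hG : Continuous G) (hG0 : ∀ z, 0 < G z)
    (hred : ∀ z, ∃ z₀, ‖z₀‖ ≤ 1 ∧ ‖F z‖ / G z ^ Q = ‖F z₀‖ / G z₀ ^ Q) (u v : ℝ)
    (hu : ∀ z, ‖z‖ ≤ 1 → Real.exp (-u) ≤ G z) (hv : ∀ z, ‖z‖ ≤ 3 → G z ≤ Real.exp v)
    (hn : Real.exp ((u + v) * (Q : ℕ)) * ((5 * m + 1) ^ r * 4) < 3 ^ m)
    (h0 : ∀ e : Fin r → ℂ, (∀ i, e i ^ m = 1) → F e = 0) (z : Fin r → ℂ) : F z = 0 := by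
  have hc : Continuous fun z => ‖F z‖ / G z ^ Q :=
    (hF.continuous.norm).div (hG.pow Q) fun z => (pow_pos (hG0 z) Q).ne'
  obtain ⟨zs, hzs, hmax⟩ := (isCompact_closedBall (0 : Fin r → ℂ) 1).exists_isMaxOn
    ⟨0, Metric.mem_closedBall_self zero_le_one⟩ hc.continuousOn
  rw [mem_closedBall_zero_iff] at hzs
  obtain ⟨n, hnd⟩ : ∃ n : ℝ, n = ‖F zs‖ / G zs ^ Q := ⟨_, rfl⟩
  have hn0 : 0 ≤ n := by
    rw [hnd]
    exact div_nonneg (norm_nonneg _) (pow_pos (hG0 _) Q).le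
  have hall : ∀ z, ‖F z‖ / G z ^ Q ≤ n := by
    intro z
    obtain ⟨z₀, hz₀, h1⟩ := hred z
    rw [h1, hnd]
    exact hmax (mem_closedBall_zero_iff.mpr hz₀)
  have hB : ∀ z, ‖z‖ ≤ 3 → ‖F z‖ ≤ n * Real.exp v ^ Q := by
    intro z hz
    have h1 := (div_le_iff₀ (pow_pos (hG0 z) Q)).mp (hall z)
    refine h1.trans (mul_le_mul_of_nonneg_left ?_ hn0)
    exact pow_le_pow_left₀ (hG0 z).le (hv z hz) Q
  have hS := grid_schwarz r m hm F hF 3 _ (by norm_num) hB h0 zs hzs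
  have h3 : (0 : ℝ) < 3 ^ m := by positivity
  have hkey : n ≤ n * (Real.exp ((u + v) * (Q : ℕ)) * ((5 * m + 1) ^ r * 4) / 3 ^ m) := by
    have h1 : Real.exp (-u) ^ Q ≤ G zs ^ Q := pow_le_pow_left₀ (Real.exp_pos _).le (hu zs hzs) Q
    have h2 : n ≤ ‖F zs‖ / Real.exp (-u) ^ Q := by
      rw [hnd]
      exact div_le_div_of_nonneg_left (norm_nonneg _) (pow_pos (Real.exp_pos _) Q) h1
    refine h2.trans ?_
    rw [div_le_iff₀ (pow_pos (Real.exp_pos _) Q)]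
    refine hS.trans (le_of_eq ?_)
    have h4 : Real.exp ((u + v) * (Q : ℕ)) * Real.exp (-u) ^ Q = Real.exp v ^ Q := by
      rw [← Real.exp_nat_mul, ← Real.exp_nat_mul, ← Real.exp_add]
      congr 1
      ring
    calc (5 * (m : ℝ) + 1) ^ r * (4 * (n * Real.exp v ^ Q) / 3 ^ m)
        = n * (Real.exp v ^ Q * ((5 * m + 1) ^ r * 4) / 3 ^ m) := by ring
      _ = _ := by rw [← h4]; ring
  have hlt : Real.exp ((u + v) * (Q : ℕ)) * ((5 * m + 1) ^ r * 4) / 3 ^ m < 1 := by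
    rw [div_lt_one h3]
    exact hn
  have hn1 : n = 0 := by
    by_contra h
    have hp : 0 < n := lt_of_le_of_ne hn0 (Ne.symm h)
    have := mul_lt_mul_of_pos_left hlt hp
    rw [mul_one] at this
    exact absurd hkey (not_le.mpr this)
  have h5 := hall z
  rw [hn1] at h5
  have h6 := (div_le_iff₀ (pow_pos (hG0 z) Q)).mp h5
  rw [zero_mul] at h6
  exact norm_le_zero_iff.mp h6

theorem siegel (A : AV g N κ k) (T : Submodule ℂ (Fin g → ℂ)) (hT : RatSub A T) (b : Fin (N + 1))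
    (a : Fin (finrank ℂ T + 1) → Fin (N + 1)) :
    ∃ (Q : ℕ) (P : MvPolynomial (Fin (finrank ℂ T + 1)) ℂ), P ≠ 0 ∧
      (∀ c ∈ P.support, ∑ i, c i ≤ Q) ∧ ∀ z ∈ T, aeval (A.θ z) (hz b a Q P) = 0 := by
  classical
  obtain ⟨C, hC1, hC⟩ := red_sub A T hT
  obtain ⟨Cg, hCg1, hCg⟩ := growth A
  obtain ⟨L, hLd⟩ : ∃ L : T ≃L[ℂ] (Fin (finrank ℂ T) → ℂ), L = (finBasis ℂ T).equivFunL :=
    ⟨_, rfl⟩
  obtain ⟨C', hC'd⟩ : ∃ C' : ℝ, C' = max 1 ‖(L : T →L[ℂ] (Fin (finrank ℂ T) → ℂ))‖ := ⟨_, rfl⟩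
  have hC'1 : 1 ≤ C' := by rw [hC'd]; exact le_max_left _ _
  have hC' : ∀ z : T, ‖L z‖ ≤ C' * ‖z‖ := by
    intro z
    refine ((L : T →L[ℂ] (Fin (finrank ℂ T) → ℂ)).le_opNorm z).trans ?_
    rw [hC'd]
    exact mul_le_mul_of_nonneg_right (le_max_right _ _) (norm_nonneg _)
  obtain ⟨s, hsd⟩ : ∃ s : ℝ, s = C' * C := ⟨_, rfl⟩
  have hs0 : 0 < s := by rw [hsd]; positivity
  have hs1 : (s : ℂ) ≠ 0 := by exact_mod_cast hs0.ne'
  -- the parametrisation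
  obtain ⟨φ, hφd⟩ : ∃ φ : (Fin (finrank ℂ T) → ℂ) →L[ℂ] (Fin g → ℂ),
      φ = (s : ℂ) • (T.subtypeL.comp (L.symm : (Fin (finrank ℂ T) → ℂ) →L[ℂ] T)) := ⟨_, rfl⟩
  have hφ : ∀ x, φ x = (s : ℂ) • ((L.symm x : T) : Fin g → ℂ) := by
    intro x
    rw [hφd]
    rfl
  have hφT : ∀ z ∈ T, ∃ x, φ x = z ∧ ‖x‖ ≤ s⁻¹ * C' * ‖z‖ := by
    intro z hz
    refine ⟨(s : ℂ)⁻¹ • L ⟨z, hz⟩, ?_, ?_⟩
    · rw [hφ, map_smul, L.symm_apply_apply, Submodule.coe_smul, smul_smul, mul_inv_cancel₀ hs1,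
        one_smul]
    · rw [norm_smul, norm_inv, Complex.norm_real, Real.norm_of_nonneg hs0.le, mul_assoc]
      exact mul_le_mul_of_nonneg_left (hC' ⟨z, hz⟩) (inv_nonneg.mpr hs0.le)
  have hφm : ∀ x, φ x ∈ T := by
    intro x
    rw [hφ]
    exact T.smul_mem _ (L.symm x).2
  obtain ⟨K, hKd⟩ : ∃ K : ℝ, K = ‖φ‖ := ⟨_, rfl⟩
  have hK0 : 0 ≤ K := by rw [hKd]; exact norm_nonneg _
  have hK : ∀ x, ‖φ x‖ ≤ K * ‖x‖ := by
    intro x
    rw [hKd]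
    exact φ.le_opNorm x
  obtain ⟨q, m, hm, hqm, hnum⟩ := siegel_num (finrank ℂ T) (Cg * (1 + K) ^ 2 + Cg * (1 + 3 * K) ^ 2)
    (by positivity)
  obtain ⟨Grid, hGrid⟩ : ∃ Grid : Finset (Fin (finrank ℂ T) → ℂ),
      Grid = Fintype.piFinset fun _ => Polynomial.nthRootsFinset m (1 : ℂ) := ⟨_, rfl⟩
  have hcard : (Grid.image fun e => A.θ (φ e)).card < (q + 1) ^ (finrank ℂ T + 1) := by
    refine lt_of_le_of_lt Finset.card_image_le (lt_of_le_of_lt ?_ hqm)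
    rw [hGrid, Fintype.card_piFinset, Finset.prod_const, Finset.card_univ, Fintype.card_fin]
    refine Nat.pow_le_pow_left ?_ _
    rw [Polynomial.nthRootsFinset_def]
    exact (Multiset.toFinset_card_le _).trans (Polynomial.card_nthRoots m 1)
  obtain ⟨P, hP0, hPd, hP⟩ := aux_poly (finrank ℂ T) q b a _ hcard
  refine ⟨(finrank ℂ T + 1) * q, P, hP0, hPd, ?_⟩
  have hhom := hz_hom b a ((finrank ℂ T + 1) * q) P hPd
  have hmain : ∀ x, aeval (A.θ (φ x)) (hz b a ((finrank ℂ T + 1) * q) P) = 0 := by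
    intro x
    refine s5_zero (Q := (finrank ℂ T + 1) * q) hm
      (fun x => aeval (A.θ (φ x)) (hz b a ((finrank ℂ T + 1) * q) P))
      (s5_diff (fun x => A.θ (φ x)) (A.diff.comp φ.differentiable) _) (fun x => ‖A.θ (φ x)‖)
      ((A.diff.continuous.comp φ.continuous).norm) (fun x => norm_pos_iff.mpr (A.ne _)) ?_
      (Cg * (1 + K) ^ 2) (Cg * (1 + 3 * K) ^ 2) ?_ ?_ hnum ?_ x
    · intro x
      obtain ⟨l, hlΛ, hlT, hl⟩ := hC (φ x) (hφm x)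
      obtain ⟨x₀, hx₀, hx₀n⟩ := hφT (φ x - l) (T.sub_mem (hφm x) hlT)
      refine ⟨x₀, ?_, ?_⟩
      · refine hx₀n.trans ?_
        calc s⁻¹ * C' * ‖φ x - l‖ ≤ s⁻¹ * C' * C := mul_le_mul_of_nonneg_left hl (by positivity)
          _ = 1 := by
            rw [mul_assoc, ← hsd]
            exact inv_mul_cancel₀ hs0.ne'
      · obtain ⟨c, hc0, hc⟩ := theta_lat A l hlΛ (φ x₀)
        have h1 : φ x₀ + l = φ x := by rw [hx₀, sub_add_cancel]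
        rw [h1] at hc
        rw [hc, s5_smul _ _ hhom, norm_mul, norm_smul, norm_pow, mul_pow]
        exact mul_div_mul_left _ _ (pow_ne_zero _ (norm_ne_zero_iff.mpr hc0))
    · intro x hx
      refine le_trans (Real.exp_le_exp.mpr (neg_le_neg ?_)) (hCg (φ x)).1
      have h1 : ‖φ x‖ ≤ K := (hK x).trans (by nlinarith)
      have h2 : 0 ≤ ‖φ x‖ := norm_nonneg _
      gcongr
    · intro x hx
      refine (hCg (φ x)).2.trans (Real.exp_le_exp.mpr ?_)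
      have h1 : ‖φ x‖ ≤ 3 * K := (hK x).trans (by nlinarith)
      have h2 : 0 ≤ ‖φ x‖ := norm_nonneg _
      gcongr
    · intro e he
      refine hP _ (Finset.mem_image.mpr ⟨e, ?_, rfl⟩)
      rw [hGrid, Fintype.mem_piFinset]
      intro i
      rw [Polynomial.mem_nthRootsFinset hm]
      exact he i
  intro z hz
  obtain ⟨x, hx, -⟩ := hφT z hz
  rw [← hx]
  exact hmain x

end GAL
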