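import Pool.Agent.GAL.P7
import Pool.Agent.GAL.S5

set_option autoImplicit false

open MvPolynomial Module

namespace GAL

open GAV

variable {g N κ : ℕ} {k : IntermediateField ℚ ℂ}

/-! ## [GAL-C2] the Zariski closure of a subtorus has the same dimension (file C2.lean)

`T ≤ TT H`: for `x ∈ T`, `c • x ∈ T ⊆ HC T` (a polynomial vanishing on `T` vanishes at the points of `T`). Conversely suppose `x ∈ TT H`, `x ∉ T`. `T₂ = T ⊔ span ℂ {x}`, `finrank T₂ = finrank T + 1`, every element of `T₂` is `t + c • x ∈ H` (`t ∈ T ⊆ H`). Choose `b` with `θ_b(0) ≠ 0`. `sub_ind` for `T₂` and `z₀ = 0`: `a` (reindex `Fin (finrank T₂)` as `Fin (finrank T + 1)`: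
`finrank T₂ = finrank T + 1`; use `obtain ⟨..⟩`/`rw`/`cast` with care, e.g. generalize the number). `siegel` for `T`, this `b` and `a`: `Q, P ≠ 0`, `hz b a Q P` vanishes on `T` and is homogeneous (`hz_hom`), so it vanishes on `HC T`, so on `T₂ ⊆ H`. `sub_ind`: `P = 0`: contradiction. -/

theorem hc_TT (A : AV g N κ k) (T : Submodule ℂ (Fin g → ℂ)) (hT : RatSub A T)
    (H : AddSubgroup (Fin g → ℂ)) (hH : ∀ z, z ∈ H ↔ z ∈ (toGV A).HC (T : Set (Fin g → ℂ))) :
    TT H = T := by
  apply le_antisymm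
  · intro x hx
    by_contra hxT
    obtain ⟨b, hb⟩ : ∃ b, A.θ 0 b ≠ 0 := by
      by_contra hcon
      push Not at hcon
      exact A.ne 0 (funext hcon)
    have hfr : finrank ℂ (T ⊔ Submodule.span ℂ {x} : Submodule ℂ (Fin g → ℂ))
        = finrank ℂ T + 1 := Submodule.finrank_sup_span_singleton hxT
    have key : ∀ m : ℕ, m = finrank ℂ T + 1 →
        (∃ a : Fin m → Fin (N + 1),
          ∀ (Q : ℕ) (P : MvPolynomial (Fin m) ℂ), (∀ c ∈ P.support, ∑ i, c i ≤ Q) →
            (∀ z ∈ (T ⊔ Submodule.span ℂ {x} : Submodule ℂ (Fin g → ℂ)),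
              aeval (A.θ z) (hz b a Q P) = 0) → P = 0) → False := by
      rintro m rfl ⟨a, ha⟩
      obtain ⟨Q, P, hP0, hPQ, hPT⟩ := siegel A T hT b a
      apply hP0
      refine ha Q P hPQ ?_
      intro z hz'
      rw [Submodule.mem_sup] at hz'
      obtain ⟨t, ht, y, hy, rfl⟩ := hz'
      obtain ⟨c, rfl⟩ := Submodule.mem_span_singleton.1 hy
      have htH : t ∈ H := by
        rw [hH]
        intro f n _ hf
        exact hf t ht
      have hzH : t + c • x ∈ H := H.add_mem htH (hx c)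
      rw [hH] at hzH
      exact hzH (hz b a Q P) Q (hz_hom b a Q P hPQ) (fun w hw => hPT w hw)
    exact key _ hfr (sub_ind (toGV A) (T ⊔ Submodule.span ℂ {x}) 0 (Submodule.zero_mem _) b hb)
  · intro x hx c
    rw [hH]
    intro f n _ hf
    exact hf (c • x) (T.smul_mem c hx)

end GAL
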