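import Pool.Agent.GAL.P6
import Pool.Agent.GAL.H4
import Pool.Agent.GAL.C1

set_option autoImplicit false

open MvPolynomial LTD

namespace GAL

open GAV

variable {g N κ : ℕ} {k : IntermediateField ℚ ℂ}

/-! ## [GAL-C3] the locus of a point of a subtorus lies in the Zariski closure of the subtorus (file C3.lean)

Let `f ∈ ℂ[X]` be homogeneous of degree `n`, vanishing on `T`. The coefficients of `f` span a finite-dimensional `F`-subspace of `ℂ`, with an `F`-basis `e_1..e_r`: `f = ∑ e_i f_i`, `f_i ∈ F[X]` homogeneous of degree `n` (the coordinates of the coefficients). Let `τ ∈ T` be a torsion point (`n₀ • τ ∈ A.Λ`): `tors_rat`: `rat τ ⊆ F`; with `θ_b(τ) ≠ 0`, `p_j = θ_j(τ)/θ_b(τ) ∈ F`: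
`0 = f(θ τ) = θ_b(τ)^n ∑ e_i f_i(p)`, `f_i(p) ∈ F`, so `f_i(p) = 0` (independence), `f_i(θ τ) = 0`. The torsion points are dense in `T` (`tors_dense`) and `z ↦ f_i(θ z)` is continuous: `f_i(θ z) = 0` for all `z ∈ T`, in particular at `w`; so `f_i(θ z) = 0` for `z ∈ V_F(w)`, and `f(θ z) = ∑ e_i f_i(θ z) = 0`. -/

/-- decomposition of a complex polynomial over a basis of `ℂ` over `F` -/
theorem c3_dec (F : IntermediateField ℚ ℂ) {σ : Type} [Fintype σ] (f : MvPolynomial σ ℂ) (n : ℕ)
    (hf : f.IsHomogeneous n) : ∃ (ι : Type) (s : Finset ι) (e : ι → ℂ) (u : ι → MvPolynomial σ F),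
      (∀ i, (u i).IsHomogeneous n) ∧ (∀ p : σ → ℂ, aeval p f = ∑ i ∈ s, e i * aeval p (u i)) ∧
      ∀ p : σ → ℂ, (∀ j, p j ∈ F) → aeval p f = 0 → ∀ i, aeval p (u i) = 0 := by
  classical
  let B := Module.Basis.ofVectorSpace F ℂ
  let u : Module.Basis.ofVectorSpaceIndex F ℂ → MvPolynomial σ F := fun i =>
    ∑ m ∈ f.support, monomial m (B.repr (coeff m f) i)
  have hu : ∀ (p : σ → ℂ) i, aeval p (u i) =
      ∑ m ∈ f.support, ((B.repr (coeff m f) i : F) : ℂ) * ∏ j, p j ^ m j := by
    intro p i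
    simp only [u, map_sum, aeval_monomial]
    refine Finset.sum_congr rfl fun m _ => ?_
    rw [Finsupp.prod_fintype _ _ (fun j => pow_zero _)]
    rfl
  have hfp : ∀ p : σ → ℂ, aeval p f = ∑ m ∈ f.support, coeff m f * ∏ j, p j ^ m j := by
    intro p
    rw [aeval_def, eval₂_eq']
    rfl
  refine ⟨Module.Basis.ofVectorSpaceIndex F ℂ,
    f.support.biUnion fun m => (B.repr (coeff m f)).support, fun i => B i, u, ?_, ?_, ?_⟩
  · intro i
    refine IsHomogeneous.sum _ _ _ fun m hm => ?_
    refine isHomogeneous_monomial _ ?_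
    rw [Finsupp.degree_eq_weight_one]
    exact hf (mem_support_iff.1 hm)
  · intro p
    rw [hfp]
    have h1 : ∀ m ∈ f.support, coeff m f =
        ∑ i ∈ f.support.biUnion (fun m => (B.repr (coeff m f)).support),
          ((B.repr (coeff m f) i : F) : ℂ) * B i := by
      intro m hm
      have h2 := B.linearCombination_repr (coeff m f)
      rw [Finsupp.linearCombination_apply, Finsupp.sum] at h2
      rw [Finset.sum_subset (Finset.subset_biUnion_of_mem
        (fun m => (B.repr (coeff m f)).support) hm)] at h2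
      · conv_lhs => rw [← h2]
        rfl
      · intro i _ hi
        rw [Finsupp.notMem_support_iff.1 hi, zero_smul]
    simp only [hu, Finset.mul_sum]
    rw [Finset.sum_comm]
    refine Finset.sum_congr rfl fun m hm => ?_
    conv_lhs => rw [h1 m hm, Finset.sum_mul]
    refine Finset.sum_congr rfl fun i _ => ?_
    ring
  · intro p hp h0 i
    rw [hfp] at h0
    rw [hu]
    let q : σ → F := fun j => ⟨p j, hp j⟩
    have h1 : ∑ m ∈ f.support, (∏ j, q j ^ m j) • coeff m f = 0 := by
      rw [← h0]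
      refine Finset.sum_congr rfl fun m _ => ?_
      rw [mul_comm]
      show ((∏ j, q j ^ m j : F) : ℂ) * coeff m f = _
      congr 1
      rw [← IntermediateField.algebraMap_apply, map_prod]
      refine Finset.prod_congr rfl fun j _ => ?_
      rw [map_pow]
      rfl
    have h2 := congrArg (fun x => B.repr x i) h1
    simp only [map_sum, map_smul, map_zero, Finsupp.coe_zero, Pi.zero_apply,
      Finsupp.finsetSum_apply, Finsupp.smul_apply, smul_eq_mul] at h2
    have h3 := congrArg (fun x : F => (x : ℂ)) h2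
    simp only [ZeroMemClass.coe_zero] at h3
    rw [← h3, ← IntermediateField.algebraMap_apply, map_sum]
    refine Finset.sum_congr rfl fun m _ => ?_
    rw [map_mul, map_prod, mul_comm]
    congr 1

theorem V_hc (A : AV g N κ k) (F : IntermediateField ℚ ℂ) (hk : k ≤ F) (hF : Clo F) (t : ℕ)
    (ht : Algebra.trdeg ℚ F ≤ (t : Cardinal)) (T : Submodule ℂ (Fin g → ℂ)) (hT : RatSub A T)
    (w : Fin g → ℂ) (hw : w ∈ T) (z : Fin g → ℂ) (hz : z ∈ (toGV A).V F w) :
    z ∈ (toGV A).HC (T : Set (Fin g → ℂ)) := by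
  intro f n hf hfT
  obtain ⟨ι, s, e, u, hu, hdec, hrat⟩ := c3_dec F f n hf
  have htor : ∀ (τ : Fin g → ℂ) (m : ℕ), τ ∈ T → 0 < m → m • τ ∈ A.Λ → ∀ i,
      aeval ((toGV A).θ τ) (u i) = 0 := by
    intro τ m hτT hm hτ i
    have h1 := tors_rat (toGV A) F hk hF t ht τ m hm hτ
    obtain ⟨b, hb⟩ := exists_ne (toGV A) τ
    have h2 : (toGV A).θ τ =
        (toGV A).θ τ b • fun j => (toGV A).θ τ j / (toGV A).θ τ b := by
      funext j
      rw [Pi.smul_apply, smul_eq_mul, mul_div_cancel₀ _ hb]
    have h3 : aeval (fun j => (toGV A).θ τ j / (toGV A).θ τ b) f = 0 := by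
      have h4 := hfT τ hτT
      rw [h2, aeval_hom f n hf] at h4
      exact (mul_eq_zero.1 h4).resolve_left (pow_ne_zero _ hb)
    rw [h2, aeval_hom (u i) n (hu i),
      hrat _ (fun j => h1 ⟨(j, b), rfl⟩) h3 i, mul_zero]
  have hall : ∀ i, ∀ x ∈ T, aeval ((toGV A).θ x) (u i) = 0 := by
    intro i x hx
    have hcl : IsClosed {y : Fin g → ℂ | aeval ((toGV A).θ y) (u i) = 0} := by
      refine zc_closed (toGV A) _ ⟨{map (algebraMap F ℂ) (u i)}, ?_, ?_⟩
      · intro p hp
        rw [Set.mem_singleton_iff] at hp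
        subst hp
        exact ⟨n, (hu i).map _⟩
      · intro y
        constructor
        · intro hy p hp
          rw [Set.mem_singleton_iff] at hp
          subst hp
          rw [aeval_map_algebraMap]
          exact hy
        · intro hy
          have := hy _ rfl
          rw [aeval_map_algebraMap] at this
          exact this
    have h1 : x ∈ closure {y : Fin g → ℂ | aeval ((toGV A).θ y) (u i) = 0} := by
      rw [Metric.mem_closure_iff]
      intro ε hε
      obtain ⟨z', hz', hd, m, hm, hzm⟩ := tors_dense A T hT x hx ε hε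
      exact ⟨z', htor z' m hz' hm hzm i, by rwa [dist_eq_norm]⟩
    rw [hcl.closure_eq] at h1
    exact h1
  rw [hdec]
  refine Finset.sum_eq_zero fun i _ => ?_
  rw [hz (u i) n (hu i) (hall i w hw), mul_zero]

end GAL
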