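import Pool.Agent.GAL.B1

set_option autoImplicit false

open MvPolynomial

namespace GAL

open GAV

variable {E : Type} [NormedAddCommGroup E] [NormedSpace ℂ E] {M μ : ℕ} {k : IntermediateField ℚ ℂ}

/-! ## [GAL-H1] closed subgroups: the largest complex subspace (file H1.lean)

`real_line`: for a polynomial `f` of the set which defines `H` the function `c ↦ f(θ(c • x))`, `ℂ → ℂ`, is entire and vanishes on the reals, so everywhere (identity theorem, `AnalyticOnNhd.eqOn_of_preconnected_of_frequently_eq` or similar). So all `c • x ∈ H`.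
`small_TT`: suppose not: for every `n` there is `x_n ∈ H`, `‖x_n‖ < 1/(n+1)`, `x_n ∉ T = TT H`. Let `W` be a complement of `T` (`Submodule.exists_isCompl`), `x_n = t_n + w_n`; the projection to `W` is linear on a finite-dimensional space, hence continuous: `w_n → 0`; `w_n ≠ 0`, `w_n = x_n - t_n ∈ H` (`t_n ∈ T ⊆ H`, take `c = 1`). The unit vectors `w_n/‖w_n‖` of `W`
have a subsequence converging to `u ∈ W`, `‖u‖ = 1` (compactness of the sphere of the finite-dimensional space `E`; `W` is closed). For every real `s`: `⌊s/‖w_n‖⌋ • w_n ∈ H` and it tends to `s u` along the subsequence (`|⌊s/‖w_n‖⌋ ‖w_n‖ - s| ≤ ‖w_n‖`). `H` is closed (`zc_closed`), so `s u ∈ H` for all real `s`, `u ∈ T` (`real_line`), `u ∈ T ∩ W = 0`: contradiction.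
`quot_cnt`: `W` as above. `D = {w ∈ W | w ∈ H}`: two elements of `D` at distance `< ε` are equal (their difference is in `H`, so in `T ∩ W = 0`), so `D` is countable (a separable space: an `ε`-separated set is countable; or `Set.Countable` of a discrete subset, or cover `E` by countably many balls of radius `ε/2`). For `x ∈ H`, `x = t + w`: `w = x - t ∈ D`. -/

private theorem h1_diff (G : GV E M μ k) (x : E) (f : MvPolynomial (Fin (M + 1)) ℂ) :
    Differentiable ℂ fun c : ℂ => aeval (G.θ (c • x)) f := by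
  have h0 : Differentiable ℂ fun c : ℂ => G.θ (c • x) :=
    G.diff.comp (differentiable_id.smul_const x)
  have h1 := differentiable_pi.mp h0
  induction f using MvPolynomial.induction_on with
  | C a =>
    have : (fun c : ℂ => aeval (G.θ (c • x)) (C a : MvPolynomial (Fin (M + 1)) ℂ)) = fun _ => a := by
      funext c
      rw [aeval_C]
      rfl
    rw [this]
    exact differentiable_const a
  | add p q hp hq =>
    have : (fun c : ℂ => aeval (G.θ (c • x)) (p + q)) =
        fun c => aeval (G.θ (c • x)) p + aeval (G.θ (c • x)) q := by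
      funext c
      rw [map_add]
    rw [this]
    exact hp.add hq
  | mul_X p i hp =>
    have : (fun c : ℂ => aeval (G.θ (c • x)) (p * X i)) =
        fun c => aeval (G.θ (c • x)) p * G.θ (c • x) i := by
      funext c
      rw [map_mul, aeval_X]
    rw [this]
    exact hp.mul (h1 i)

theorem real_line (G : GV E M μ k) (H : AddSubgroup E) (hH : G.ZC (H : Set E)) (x : E)
    (hx : ∀ t : ℝ, (t : ℂ) • x ∈ H) : x ∈ TT H := by
  obtain ⟨S, -, hS⟩ := hH
  intro c
  refine (hS _).2 fun f hf => ?_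
  have hd := h1_diff G x f
  have han : AnalyticOnNhd ℂ (fun c : ℂ => aeval (G.θ (c • x)) f) Set.univ :=
    hd.differentiableOn.analyticOnNhd isOpen_univ
  have hfr : ∃ᶠ z in nhdsWithin (0 : ℂ) {0}ᶜ, aeval (G.θ (z • x)) f = 0 := by
    have ht : Filter.Tendsto (fun n : ℕ => ((1 / ((n : ℝ) + 1) : ℝ) : ℂ)) Filter.atTop
        (nhdsWithin (0 : ℂ) {0}ᶜ) := by
      refine tendsto_nhdsWithin_iff.2 ⟨?_, Filter.Eventually.of_forall fun n => ?_⟩
      · have h2 := (Complex.continuous_ofReal.tendsto 0).comp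
          (tendsto_one_div_add_atTop_nhds_zero_nat (𝕜 := ℝ))
        rw [Complex.ofReal_zero] at h2
        exact h2
      · have h3 : (1 / ((n : ℝ) + 1) : ℝ) ≠ 0 := by positivity
        exact Complex.ofReal_ne_zero.2 h3
    exact ht.frequently (Filter.Frequently.of_forall fun n => (hS _).1 (hx _) f hf)
  have h4 := han.eqOn_zero_of_preconnected_of_frequently_eq_zero isPreconnected_univ
    (Set.mem_univ 0) hfr
  exact h4 (Set.mem_univ c)

private theorem h1_proj (T W : Submodule ℂ E) (hW : IsCompl T W) :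
    ∃ P : E →ₗ[ℂ] E, (∀ x, P x ∈ W) ∧ (∀ x, x - P x ∈ T) ∧ ∀ x, P x = 0 → x ∈ T := by
  have h1 : ∀ x, x - W.subtype (Submodule.projectionOnto W T hW.symm x) ∈ T := fun x => by
    have h2 : LinearMap.ker (Submodule.projectionOnto W T hW.symm) = T :=
      Submodule.ker_projectionOnto hW.symm
    have h3 : x - W.subtype (Submodule.projectionOnto W T hW.symm x) ∈
        LinearMap.ker (Submodule.projectionOnto W T hW.symm) := by
      rw [LinearMap.mem_ker, map_sub, Submodule.subtype_apply,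
        Submodule.projectionOnto_apply_left, sub_self]
    rw [h2] at h3
    exact h3
  refine ⟨W.subtype ∘ₗ Submodule.projectionOnto W T hW.symm, fun x => Subtype.mem _, h1,
    fun x hx => ?_⟩
  have h3 := h1 x
  have h4 : W.subtype (Submodule.projectionOnto W T hW.symm x) = 0 := hx
  rwa [h4, sub_zero] at h3

theorem small_TT [FiniteDimensional ℂ E] (G : GV E M μ k) (H : AddSubgroup E)
    (hH : G.ZC (H : Set E)) : ∃ ε : ℝ, 0 < ε ∧ ∀ x ∈ H, ‖x‖ < ε → x ∈ TT H := by
  by_contra hcon
  push Not at hcon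
  have : ProperSpace E := FiniteDimensional.proper ℂ E
  have hTH : ∀ x ∈ TT H, x ∈ H := fun x hx => by
    have h := hx 1
    rwa [one_smul] at h
  obtain ⟨W, hW⟩ := Submodule.exists_isCompl (TT H)
  obtain ⟨P, hPW, hPT, hP0⟩ := h1_proj (TT H) W hW
  have hPc : Continuous P := LinearMap.continuous_of_finiteDimensional P
  choose x hxH hxn hxT using fun n : ℕ => hcon (1 / ((n : ℝ) + 1)) (by positivity)
  have hx0 : Filter.Tendsto x Filter.atTop (nhds 0) :=
    squeeze_zero_norm (fun n => (hxn n).le) (tendsto_one_div_add_atTop_nhds_zero_nat (𝕜 := ℝ))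
  have hw0 : Filter.Tendsto (fun n => P (x n)) Filter.atTop (nhds 0) := by
    have h := (hPc.tendsto 0).comp hx0
    rw [map_zero] at h
    exact h
  have hwH : ∀ n, P (x n) ∈ H := fun n => by
    have h := H.sub_mem (hxH n) (hTH _ (hPT (x n)))
    rwa [sub_sub_cancel] at h
  have hwn : ∀ n, P (x n) ≠ 0 := fun n h => hxT n (hP0 _ h)
  have hnn : ∀ n, ‖P (x n)‖ ≠ 0 := fun n => norm_ne_zero_iff.2 (hwn n)
  have hu : ∀ n, (((‖P (x n)‖⁻¹ : ℝ) : ℂ) • P (x n)) ∈ Metric.sphere (0 : E) 1 := fun n => by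
    rw [mem_sphere_zero_iff_norm, norm_smul, Complex.norm_real, norm_inv, norm_norm,
      inv_mul_cancel₀ (hnn n)]
  obtain ⟨u, hu1, φ, hφ, hlim⟩ := (isCompact_sphere (0 : E) 1).tendsto_subseq hu
  have huW : u ∈ W := by
    have hc : IsClosed (W : Set E) := W.closed_of_finiteDimensional
    exact hc.mem_of_tendsto hlim (Filter.Eventually.of_forall fun n => W.smul_mem _ (hPW _))
  have huH : ∀ s : ℝ, (s : ℂ) • u ∈ H := by
    intro s
    have hc : IsClosed (H : Set E) := zc_closed G _ hH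
    have hnorm0 : Filter.Tendsto (fun n => ‖P (x n)‖) Filter.atTop (nhds 0) := by
      have h := hw0.norm
      rwa [norm_zero] at h
    have hfl : Filter.Tendsto (fun n => ((⌊s / ‖P (x n)‖⌋ : ℝ) * ‖P (x n)‖ : ℝ)) Filter.atTop
        (nhds s) := by
      rw [tendsto_iff_dist_tendsto_zero]
      refine squeeze_zero (fun _ => dist_nonneg) (fun n => ?_) hnorm0
      have hp : 0 < ‖P (x n)‖ := norm_pos_iff.2 (hwn n)
      have h1 := Int.floor_le (s / ‖P (x n)‖)
      have h2 := Int.lt_floor_add_one (s / ‖P (x n)‖)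
      rw [le_div_iff₀ hp] at h1
      rw [div_lt_iff₀ hp] at h2
      rw [Real.dist_eq, abs_sub_comm, abs_of_nonneg (by linarith)]
      linarith
    have h3 : Filter.Tendsto (fun n => (((⌊s / ‖P (x (φ n))‖⌋ : ℝ) * ‖P (x (φ n))‖ : ℝ) : ℂ) •
        (((‖P (x (φ n))‖⁻¹ : ℝ) : ℂ) • P (x (φ n)))) Filter.atTop (nhds ((s : ℂ) • u)) := by
      refine Filter.Tendsto.smul ?_ hlim
      exact (Complex.continuous_ofReal.tendsto s).comp (hfl.comp hφ.tendsto_atTop)
    refine hc.mem_of_tendsto h3 (Filter.Eventually.of_forall fun n => ?_)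
    have h4 : (((⌊s / ‖P (x (φ n))‖⌋ : ℝ) * ‖P (x (φ n))‖ : ℝ) : ℂ) •
        (((‖P (x (φ n))‖⁻¹ : ℝ) : ℂ) • P (x (φ n))) = ⌊s / ‖P (x (φ n))‖⌋ • P (x (φ n)) := by
      rw [smul_smul, ← Complex.ofReal_mul, mul_assoc, mul_inv_cancel₀ (hnn (φ n)), mul_one,
        Complex.ofReal_intCast, Int.cast_smul_eq_zsmul]
    rw [h4]
    exact H.zsmul_mem (hwH _) _
  have huT : u ∈ TT H := real_line G H hH u huH
  have hu0 : u = 0 := by
    have h := hW.disjoint.le_bot (Submodule.mem_inf.2 ⟨huT, huW⟩)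
    exact (Submodule.mem_bot ℂ).1 h
  rw [hu0, mem_sphere_zero_iff_norm, norm_zero] at hu1
  exact zero_ne_one hu1

theorem quot_cnt [FiniteDimensional ℂ E] (G : GV E M μ k) (H : AddSubgroup E)
    (hH : G.ZC (H : Set E)) : ∃ C₀ : Set E, C₀.Countable ∧ ∀ x ∈ H, ∃ c ∈ C₀, x - c ∈ TT H := by
  have : ProperSpace E := FiniteDimensional.proper ℂ E
  have hTH : ∀ x ∈ TT H, x ∈ H := fun x hx => by
    have h := hx 1
    rwa [one_smul] at h
  obtain ⟨ε, hε, hεT⟩ := small_TT G H hH
  obtain ⟨W, hW⟩ := Submodule.exists_isCompl (TT H)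
  obtain ⟨P, hPW, hPT, -⟩ := h1_proj (TT H) W hW
  refine ⟨{w | w ∈ W ∧ w ∈ H}, ?_, fun x hx => ⟨P x, ⟨hPW x, ?_⟩, hPT x⟩⟩
  · have hd : Set.PairwiseDisjoint {w : E | w ∈ W ∧ w ∈ H} fun w => Metric.ball w (ε / 2) := by
      intro a ha b hb hab
      refine Metric.ball_disjoint_ball ?_
      by_contra h
      push Not at h
      apply hab
      have h1 : a - b ∈ TT H := hεT _ (H.sub_mem ha.2 hb.2) (by
        rw [← dist_eq_norm]
        linarith)
      have h2 := hW.disjoint.le_bot (Submodule.mem_inf.2 ⟨h1, W.sub_mem ha.1 hb.1⟩)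
      exact sub_eq_zero.1 ((Submodule.mem_bot ℂ).1 h2)
    exact hd.countable_of_isOpen (fun _ _ => Metric.isOpen_ball)
      fun w _ => ⟨w, Metric.mem_ball_self (half_pos hε)⟩
  · have h := H.sub_mem hx (hTH _ (hPT x))
    rwa [sub_sub_cancel] at h

end GAL
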