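import Pool.Agent.GAL.B1
import Pool.Agent.GAV.Z8

set_option autoImplicit false

open MvPolynomial LTD

namespace GAL

open GAV

variable {E : Type} [NormedAddCommGroup E] [NormedSpace ℂ E] {M μ : ℕ} {k : IntermediateField ℚ ℂ}

/-! ## [GAL-P5] a rational function with countably many values on a locus is rational (file P5.lean)

ADAPTATION of the proof of `GAV.not_torsion` (`GAV/Z8.lean`; there the function is `θ_a/θ_b`). Suppose `c₀ = P(θ v)/Q(θ v) ∉ F`. It lies in `F(rat v)` (divide numerator and denominator by `θ_b(v)^n`, `θ_b(v) ≠ 0`). `basis_through` for `S = G.rat v`: `y` with `y 0 = c₀`; `fresh` gives `y'` algebraically independent over `F` with `y' 0` outside the countable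
value set `Z`; `emb`: `σ`; the point `p = σ(θ_j(v)/θ_b(v))` satisfies all polynomial equations over `F` which `θ(v)/θ_b(v)` satisfies, and the inequations are preserved (`σ` is injective: `f(θ v/θ_b v) ≠ 0` implies `f(p) = σ(f(..)) ≠ 0`), so by `G.image` `p = c θ(z)`, `c ≠ 0`, `z ∈ G.V F v`, `Q(θ z) ≠ 0`, `P(θ z)/Q(θ z) = σ(c₀) = y' 0 ∉ Z`: contradiction.
`rat_of_countable`: apply it with `P = X a`, `Q = X b`: if `θ_b(v) = 0` the quotient is `0` in Lean. The set of values is the image of the countable set `G.V F v`. -/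

theorem val_rat (G : GV E M μ k) (F : IntermediateField ℚ ℂ) (hk : k ≤ F) (hF : Clo F)
    (t : ℕ) (ht : Algebra.trdeg ℚ F ≤ (t : Cardinal)) (v : E) (n : ℕ)
    (P Q : MvPolynomial (Fin (M + 1)) F) (hP : P.IsHomogeneous n) (hQ : Q.IsHomogeneous n)
    (hQ0 : aeval (G.θ v) Q ≠ 0) (Z : Set ℂ) (hZ : Z.Countable)
    (hv : ∀ z ∈ G.V F v, aeval (G.θ z) Q ≠ 0 → aeval (G.θ z) P / aeval (G.θ z) Q ∈ Z) :
    aeval (G.θ v) P / aeval (G.θ v) Q ∈ F := by
  classical
  by_contra hc0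
  have hfin := rat_fin G v
  obtain ⟨b, hb⟩ : ∃ b, G.θ v b ≠ 0 := exists_ne G v
  set c₀ := aeval (G.θ v) P / aeval (G.θ v) Q with hc₀
  let P₀ : Fin (M + 1) → ℂ := fun j => G.θ v j / G.θ v b
  have hPθ : P₀ = (G.θ v b)⁻¹ • G.θ v := by
    funext j
    simp [P₀, div_eq_inv_mul]
  have hval : ∀ f : MvPolynomial (Fin (M + 1)) F, aeval P₀ f ∈ IntermediateField.adjoin F (G.rat v) := by
    intro f
    rw [aeval_def, eval₂_eq]
    refine sum_mem fun m _ => mul_mem (IntermediateField.algebraMap_mem _ _)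
      (prod_mem fun j _ => pow_mem ?_ _)
    have h1 : P₀ j ∈ G.rat v := ⟨(j, b), rfl⟩
    exact IntermediateField.subset_adjoin F _ h1
  have hQP : aeval P₀ Q ≠ 0 := by
    rw [hPθ, aeval_hom Q n hQ]
    exact mul_ne_zero (pow_ne_zero _ (inv_ne_zero hb)) hQ0
  have hcP : c₀ = aeval P₀ P / aeval P₀ Q := by
    rw [hPθ, aeval_hom Q n hQ, aeval_hom P n hP, mul_div_mul_left _ _ (pow_ne_zero _ (inv_ne_zero hb))]
  have hc : IsAlgebraic (IntermediateField.adjoin F (G.rat v)) c₀ := by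
    have hm : c₀ ∈ IntermediateField.adjoin F (G.rat v) := by
      rw [hcP]
      exact div_mem (hval P) (hval Q)
    exact isAlgebraic_algebraMap (⟨_, hm⟩ : IntermediateField.adjoin F (G.rat v))
  obtain ⟨l, y, -, hy0, hyi, -, hyalg⟩ := basis_through F hF (G.rat v) hfin _ hc hc0
  obtain ⟨y', hy'i, hy'Z⟩ := fresh F t ht Z hZ (l + 1)
  obtain ⟨Ω, hFΩ, -, -, hΩ⟩ := clo_adjoin F t (l + 1) ht y
  obtain ⟨σ, hσF, hσy⟩ := emb F (l + 1) y y' hyi hy'i Ω hΩ
  have hmem : ∀ z ∈ G.rat v, z ∈ Ω := by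
    intro z hz
    rw [hΩ]
    apply hyalg
    exact isAlgebraic_algebraMap (⟨z, IntermediateField.subset_adjoin F _ hz⟩ :
      IntermediateField.adjoin F (G.rat v))
  let Pt : Fin (M + 1) → Ω := fun j => ⟨G.θ v j / G.θ v b, hmem _ ⟨(j, b), rfl⟩⟩
  let i : F →+* Ω := (IntermediateField.inclusion hFΩ).toRingHom
  have hi : ∀ x : F, ((i x : Ω) : ℂ) = x := fun x => rfl
  let P' : Fin (M + 1) → ℂ := fun j => σ (Pt j)
  have key1 : ∀ f : MvPolynomial (Fin (M + 1)) F, ((eval₂ i Pt f : Ω) : ℂ) = aeval P₀ f := by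
    intro f
    have := eval₂_comp_left (algebraMap Ω ℂ) i Pt f
    rw [aeval_def]
    exact this
  have key2 : ∀ f : MvPolynomial (Fin (M + 1)) F, σ (eval₂ i Pt f) = aeval P' f := by
    intro f
    have h3 := eval₂_comp_left σ i Pt f
    have h4 : σ.comp i = algebraMap F ℂ := by
      ext x
      exact hσF (i x) x.2
    rw [h4] at h3
    rw [aeval_def]
    exact h3
  have spec : ∀ f : MvPolynomial (Fin (M + 1)) F, aeval P' f = 0 ↔ aeval P₀ f = 0 := by
    intro f
    rw [← key1, ← key2, map_eq_zero]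
    exact (ZeroMemClass.coe_eq_zero).symm
  have hPb : P₀ b = 1 := div_self hb
  have hP'b : P' b = 1 := by
    have : Pt b = 1 := Subtype.ext hPb
    simp [P', this]
  have hP0 : P₀ ≠ 0 := fun h => by simp [h] at hPb
  have hP'0 : P' ≠ 0 := fun h => by simp [h] at hP'b
  have hmap : ∀ (f : MvPolynomial (Fin (M + 1)) k) (p : Fin (M + 1) → ℂ),
      aeval p (map (IntermediateField.inclusion hk).toRingHom f) = aeval p f := by
    intro f p
    rw [aeval_def, aeval_def, eval₂_map]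
    rfl
  have hsk : ∀ f : MvPolynomial (Fin (M + 1)) k, aeval P' f = 0 ↔ aeval P₀ f = 0 := by
    intro f
    rw [← hmap f P', ← hmap f P₀]
    exact spec _
  obtain ⟨z', c', hz'⟩ := (G.image P' hP'0).mp (by
    obtain ⟨h1, f, hf, h2⟩ := (G.image P₀ hP0).mpr ⟨v, _, hPθ⟩
    exact ⟨fun f hf => (hsk f).2 (h1 f hf), f, hf, fun h => h2 ((hsk f).1 h)⟩)
  have hc' : c' ≠ 0 := by
    rintro rfl
    exact hP'0 (by rw [hz', zero_smul])
  have hz'V : z' ∈ G.V F v := by
    intro f m hf h0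
    have h1 : aeval P₀ f = 0 := by
      rw [hPθ, aeval_hom f m hf, h0, mul_zero]
    have h2 := (spec f).2 h1
    rw [hz', aeval_hom f m hf] at h2
    exact (mul_eq_zero.mp h2).resolve_left (pow_ne_zero _ hc')
  have hQ' : aeval P' Q ≠ 0 := fun h => hQP ((spec Q).1 h)
  have hQz : aeval (G.θ z') Q ≠ 0 := by
    intro h
    apply hQ'
    rw [hz', aeval_hom Q n hQ, h, mul_zero]
  apply hy'Z 0
  have h1 := hv z' hz'V hQz
  have h2 : aeval (G.θ z') P / aeval (G.θ z') Q = y' 0 := by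
    have e1 : aeval (G.θ z') P / aeval (G.θ z') Q = aeval P' P / aeval P' Q := by
      rw [hz', aeval_hom Q n hQ, aeval_hom P n hP, mul_div_mul_left _ _ (pow_ne_zero _ hc')]
    rw [e1, ← key2, ← key2, ← map_div₀]
    apply hσy 0
    rw [hy0, hcP, ← key1, ← key1]
    rfl
  rwa [h2] at h1

theorem rat_of_countable (G : GV E M μ k) (F : IntermediateField ℚ ℂ) (hk : k ≤ F) (hF : Clo F)
    (t : ℕ) (ht : Algebra.trdeg ℚ F ≤ (t : Cardinal)) (v : E) (hv : (G.V F v).Countable) :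
    G.rat v ⊆ F := by
  rintro _ ⟨⟨a, b⟩, rfl⟩
  show G.θ v a / G.θ v b ∈ F
  by_cases hb : G.θ v b = 0
  · rw [hb, div_zero]
    exact F.zero_mem
  have h := val_rat G F hk hF t ht v 1 (X a) (X b) (isHomogeneous_X _ a) (isHomogeneous_X _ b)
    (by rw [aeval_X]; exact hb)
    ((fun z => aeval (G.θ z) (X a : MvPolynomial (Fin (M + 1)) F) /
      aeval (G.θ z) (X b : MvPolynomial (Fin (M + 1)) F)) '' G.V F v) (hv.image _)
    (fun z hz _ => ⟨z, hz, rfl⟩)
  rwa [aeval_X, aeval_X] at h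

end GAL
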