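import Pool.Agent.GAL.C1
import Pool.Agent.GAL.C2
import Pool.Agent.GAL.C3
import Pool.Agent.GAL.H1
import Pool.Agent.GAL.P5

set_option autoImplicit false

open MvPolynomial LTD

namespace GAL

open GAV

variable {g N κ : ℕ} {k : IntermediateField ℚ ℂ}

/-! ## [GAL-C4] the projection to the complement is rational (file C4.lean)

`w ∈ V_F(v)`: `w - v = -(v - w) ∈ TT H ⊆ H`. So `V_F(w) ⊆ V_F(v)` (`V_trans`). `hc_group` for `T` (as additive subgroup): `H'`, `TT H' = T` (`hc_TT`). Let `z ∈ V_F(w)`: `z - w = (z - v) - (w - v) ∈ H`; `z ∈ HC T` (`V_hc`), so `z ∈ H'`, `w ∈ T ⊆ H'`, `z - w ∈ H'`. `quot_cnt` for `H` and `H'`: countable `C₀, C₀'`, and `c ∈ C₀, c' ∈ C₀'` with `z - w - c ∈ TT H`,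
`z - w - c' ∈ T`. For given `(c, c')` there is at most one such `z` (the difference of two is in `TT H ∩ T = 0`, `hc.disjoint`). So `V_F(w)` is countable (`Set.Countable.biUnion`, `Set.Subsingleton.countable`): `rat_of_countable`. -/

theorem proj_rat (A : AV g N κ k) (F : IntermediateField ℚ ℂ) (hk : k ≤ F) (hF : Clo F) (t : ℕ)
    (ht : Algebra.trdeg ℚ F ≤ (t : Cardinal)) (H : AddSubgroup (Fin g → ℂ))
    (hH : (toGV A).ZC (H : Set (Fin g → ℂ))) (T : Submodule ℂ (Fin g → ℂ)) (hT : RatSub A T)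
    (hc : IsCompl (TT H) T) (v : Fin g → ℂ) (hV : ∀ z, z ∈ (toGV A).V F v ↔ z - v ∈ H)
    (w : Fin g → ℂ) (hw : w ∈ T) (hvw : v - w ∈ TT H) : A.rat w ⊆ F := by
  have hTH : ∀ x ∈ TT H, x ∈ H := fun x hx => by
    have := hx 1
    rwa [one_smul] at this
  have hwv : w - v ∈ H := by
    rw [← neg_sub]
    exact H.neg_mem (hTH _ hvw)
  have hwV : w ∈ (toGV A).V F v := (hV w).2 hwv
  obtain ⟨H', hH'Z, hH'm, hH'T⟩ := hc_group (toGV A) T.toAddSubgroup
  have hTT : TT H' = T := hc_TT A T hT H' hH'm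
  obtain ⟨C₀, hC₀, hq⟩ := quot_cnt (toGV A) H hH
  obtain ⟨C₁, hC₁, hq'⟩ := quot_cnt (toGV A) H' hH'Z
  have hcnt : ((toGV A).V F w).Countable := by
    refine Set.Countable.mono (s₂ := ⋃ c ∈ C₀, ⋃ c' ∈ C₁,
      {z : Fin g → ℂ | z - w - c ∈ TT H ∧ z - w - c' ∈ T}) ?_ ?_
    · intro z hz
      have h1 : z - w ∈ H := by
        have h2 := (hV z).1 (V_trans (toGV A) F hwV hz)
        have h3 := H.sub_mem h2 hwv
        have h4 : z - v - (w - v) = z - w := by abel
        rwa [h4] at h3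
      have h2 : z - w ∈ H' :=
        H'.sub_mem ((hH'm z).2 (V_hc A F hk hF t ht T hT w hw z hz)) (hH'T hw)
      obtain ⟨c, hc₀, h3⟩ := hq _ h1
      obtain ⟨c', hc₁, h4⟩ := hq' _ h2
      rw [hTT] at h4
      simp only [Set.mem_iUnion]
      exact ⟨c, hc₀, c', hc₁, h3, h4⟩
    · refine hC₀.biUnion fun c _ => hC₁.biUnion fun c' _ => ?_
      refine Set.Subsingleton.countable ?_
      rintro z ⟨hz, hz'⟩ y ⟨hy, hy'⟩
      have h1 : z - y ∈ TT H := by
        have h2 := (TT H).sub_mem hz hy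
        have h3 : z - w - c - (y - w - c) = z - y := by abel
        rwa [h3] at h2
      have h2 : z - y ∈ T := by
        have h2 := T.sub_mem hz' hy'
        have h3 : z - w - c' - (y - w - c') = z - y := by abel
        rwa [h3] at h2
      have h3 := Submodule.disjoint_def.1 hc.disjoint _ h1 h2
      exact sub_eq_zero.1 h3
  exact rat_of_countable (toGV A) F hk hF t ht w hcnt

end GAL
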