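import Pool.Agent.GAV.G1
import Pool.Agent.GAV.Z8

set_option autoImplicit false

/-! Semi-abelian varieties over a field `k ⊆ ℂ`, given by a projective embedding and the uniformisation. -/

open MvPolynomial

namespace GAL

open GAV

/-- A commutative algebraic group `G` over a field `k ⊆ ℂ` with Lie algebra `E`, embedded as a locally closed
subset of the projective space of dimension `M`, with its exponential map `exp_G : E → G(ℂ)`, `z ↦ (θ_0(z) : … :
θ_M(z))`: the functions `θ_j` are entire without common zero, the differences of points with the same image are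
the elements of the countable group `Λ` (the kernel of `exp_G`), the map is an immersion, its image is the set of
the points which satisfy certain polynomial equations and inequations over `k`, the origin is rational over `k`,
and the subtraction of the group is a morphism over `k`: it is given by finitely many vectors of bihomogeneous
polynomials over `k` of bidegree `(μ, μ)`, at least one of which does not vanish at a given pair of points. -/
structure GV (E : Type) [NormedAddCommGroup E] [NormedSpace ℂ E] (M μ : ℕ)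
    (k : IntermediateField ℚ ℂ) where
  /-- the periods -/
  Λ : AddSubgroup E
  cnt : (Λ : Set E).Countable
  /-- the coordinates of the exponential map -/
  θ : E → Fin (M + 1) → ℂ
  diff : Differentiable ℂ θ
  ne : ∀ z, θ z ≠ 0
  per : ∀ l ∈ Λ, ∀ z, ∃ c : ℂ, θ (z + l) = c • θ z
  inj : ∀ (z w : E) (c : ℂ), θ z = c • θ w → z - w ∈ Λ
  imm : ∀ (z v : E) (c : ℂ), fderiv ℂ θ z v = c • θ z → v = 0
  /-- the equations -/
  eqs : Set (MvPolynomial (Fin (M + 1)) k)
  /-- the inequations: one of these polynomials must not vanish -/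
  neqs : Set (MvPolynomial (Fin (M + 1)) k)
  hom : ∀ f ∈ eqs ∪ neqs, ∃ n, f.IsHomogeneous n
  image : ∀ p : Fin (M + 1) → ℂ, p ≠ 0 →
    (((∀ f ∈ eqs, aeval p f = 0) ∧ ∃ f ∈ neqs, aeval p f ≠ 0) ↔ ∃ (z : E) (c : ℂ), p = c • θ z)
  zero : ∃ c : ℂ, c ≠ 0 ∧ ∀ j, c * θ 0 j ∈ k
  /-- the number of subtraction laws -/
  n : ℕ
  /-- the subtraction laws -/
  law : Fin n → Fin (M + 1) → MvPolynomial (Fin (M + 1) ⊕ Fin (M + 1)) k
  law_hom : ∀ i j, ∀ m ∈ (law i j).support,
    ∑ l, m (Sum.inl l) = μ ∧ ∑ l, m (Sum.inr l) = μ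
  law_eq : ∀ i z w, ∃ c : ℂ, ∀ j, aeval (Sum.elim (θ z) (θ w)) (law i j) = c * θ (z - w) j
  law_ne : ∀ z w, ∃ i j, aeval (Sum.elim (θ z) (θ w)) (law i j) ≠ 0

/-- A semi-abelian variety `G` over `k`: an algebraic group as above with Lie algebra `ℂ^g × ℂ^s`, the abelian
variety `A` of dimension `g`, the projection `G → A`, which is a morphism over `k` and is the first projection on
the Lie algebras, and its kernel, the torus `(ℂ^*)^s`, with exponential map `(e^{u_1}, …, e^{u_s})`; the inclusion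
of the torus in `G` is a morphism over `k`, and `Λ` is an extension of the lattice of `A` by `(2πiℤ)^s`. -/
structure SAV (g s N κ M μ : ℕ) (k : IntermediateField ℚ ℂ) extends
    GV ((Fin g → ℂ) × (Fin s → ℂ)) M μ k where
  /-- the abelian variety `A` -/
  A : AV g N κ k
  /-- the number of polynomial vectors for the projection `G → A` -/
  p : ℕ
  /-- their degree -/
  d : ℕ
  /-- the projection `G → A` -/
  pr : Fin p → Fin (N + 1) → MvPolynomial (Fin (M + 1)) k
  pr_hom : ∀ i j, (pr i j).IsHomogeneous d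
  pr_eq : ∀ i z, ∃ c : ℂ, ∀ j, aeval (θ z) (pr i j) = c * A.θ z.1 j
  pr_ne : ∀ z, ∃ i j, aeval (θ z) (pr i j) ≠ 0
  /-- the inclusion of the torus in `G` -/
  inc : Fin (M + 1) → MvPolynomial (Fin s) k
  inc_eq : ∀ u : Fin s → ℂ, ∃ c : ℂ, c ≠ 0 ∧
    ∀ j, aeval (fun i => Complex.exp (u i)) (inc j) = c * θ (0, u) j
  per_A : ∀ l ∈ Λ, l.1 ∈ A.Λ
  per_surj : ∀ l ∈ A.Λ, ∃ u, (l, u) ∈ Λ
  per_tor : ∀ u : Fin s → ℂ, ((0 : Fin g → ℂ), u) ∈ Λ ↔
    ∃ m : Fin s → ℤ, ∀ j, u j = m j * (2 * Real.pi * Complex.I)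

variable {E : Type} [NormedAddCommGroup E] [NormedSpace ℂ E] {M μ : ℕ} {k : IntermediateField ℚ ℂ}

/-- The quotients of the projective coordinates of the point `exp_G(z)`: they generate its field of
definition. -/
def GV.rat (G : GV E M μ k) (z : E) : Set ℂ :=
  Set.range fun p : Fin (M + 1) × Fin (M + 1) => G.θ z p.1 / G.θ z p.2

/-- The inverse image in the Lie algebra of the locus of the point `exp_G(v)` over `F`. -/
def GV.V (G : GV E M μ k) (F : IntermediateField ℚ ℂ) (v : E) : Set E :=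
  {z | ∀ (f : MvPolynomial (Fin (M + 1)) F) (n : ℕ), f.IsHomogeneous n →
    aeval (G.θ v) f = 0 → aeval (G.θ z) f = 0}

/-- `X` is the inverse image of a Zariski closed subset of `G(ℂ)`. -/
def GV.ZC (G : GV E M μ k) (X : Set E) : Prop :=
  ∃ S : Set (MvPolynomial (Fin (M + 1)) ℂ), (∀ f ∈ S, ∃ n, f.IsHomogeneous n) ∧
    ∀ z, z ∈ X ↔ ∀ f ∈ S, aeval (G.θ z) f = 0

/-- The vectors `ρ_i` of the Lie algebra generate `G`: an algebraic subgroup of `G` whose Lie algebra contains them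
is `G`. -/
def GV.Gen (G : GV E M μ k) {h : ℕ} (ρ : Fin h → E) : Prop :=
  ∀ H : AddSubgroup E, G.ZC (H : Set E) → (∀ (c : ℂ) i, c • ρ i ∈ H) → H = ⊤

/-- An abelian variety as a special case. -/
def toGV {g N κ : ℕ} (A : AV g N κ k) : GV (Fin g → ℂ) N κ k where
  Λ := A.Λ
  cnt := z8_lat A
  θ := A.θ
  diff := A.diff
  ne := A.ne
  per := fun l hl z => by
    obtain ⟨c, -, h⟩ := theta_lat A l hl z
    exact ⟨c, h⟩
  inj := A.inj
  imm := A.imm
  eqs := A.eqs
  neqs := {1}
  hom := by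
    rintro f (hf | hf)
    · exact A.eqs_hom f hf
    · rw [Set.mem_singleton_iff] at hf
      subst hf
      exact ⟨0, isHomogeneous_one _ _⟩
  image := fun p hp => by
    rw [← A.image p hp]
    constructor
    · exact fun h => h.1
    · exact fun h => ⟨h, 1, rfl, by simp⟩
  zero := A.zero
  n := A.n
  law := A.law
  law_hom := A.law_hom
  law_eq := A.law_eq
  law_ne := A.law_ne

/-- The largest complex subspace of `H`. -/
def TT (H : AddSubgroup E) : Submodule ℂ E where
  carrier := {x | ∀ c : ℂ, c • x ∈ H}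
  zero_mem' := fun c => by rw [smul_zero]; exact H.zero_mem
  add_mem' := fun {a b} ha hb c => by rw [smul_add]; exact H.add_mem (ha c) (hb c)
  smul_mem' := fun c x hx d => by rw [smul_smul]; exact hx (d * c)

/-- The point with integer coordinates `a` with respect to the basis `w` in the directions `ρ`, translated by
`r`. -/
def ptl {h D : ℕ} (r : E) (ρ : Fin h → E) (w : Fin D → ℂ) (a : Fin h → Fin D → ℤ) : E :=
  r + ∑ i, (∑ j, ((a i j : ℤ) : ℂ) * w j) • ρ i

/-- `φ` is a morphism over `R` from `G` to `G'`. -/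
def Mor {E' : Type} [NormedAddCommGroup E'] [NormedSpace ℂ E'] {M' μ' : ℕ} (R : Type) [CommRing R]
    [Algebra R ℂ] (G : GV E M μ k) (G' : GV E' M' μ' k) (φ : E → E') : Prop :=
  ∀ z, ∃ (e : ℕ) (Q : Fin (M' + 1) → MvPolynomial (Fin (M + 1)) R), (∀ j, (Q j).IsHomogeneous e) ∧
    (∀ z', ∃ c : ℂ, ∀ j, aeval (G.θ z') (Q j) = c * G'.θ (φ z') j) ∧ ∃ j, aeval (G.θ z) (Q j) ≠ 0

/-- The homogenisation of degree `Q` of `P(x_{a_1}/x_b, ..)`. -/
noncomputable def hz {n M : ℕ} (b : Fin (M + 1)) (a : Fin n → Fin (M + 1)) (Q : ℕ)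
    (P : MvPolynomial (Fin n) ℂ) : MvPolynomial (Fin (M + 1)) ℂ :=
  ∑ c ∈ P.support, C (coeff c P) * (∏ i, X (a i) ^ c i) * X b ^ (Q - ∑ i, c i)

/-- The inverse image of the Zariski closure (over `ℂ`) of the image of `W`. -/
def GV.HC (G : GV E M μ k) (W : Set E) : Set E :=
  {z | ∀ (f : MvPolynomial (Fin (M + 1)) ℂ) (n : ℕ), f.IsHomogeneous n →
    (∀ w ∈ W, aeval (G.θ w) f = 0) → aeval (G.θ z) f = 0}

/-- A complex subspace which is spanned over `ℝ` by elements of the lattice. -/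
def RatSub {g N κ : ℕ} (A : AV g N κ k) (T : Submodule ℂ (Fin g → ℂ)) : Prop :=
  ∀ x ∈ T, x ∈ Submodule.span ℝ {l : Fin g → ℂ | l ∈ A.Λ ∧ l ∈ T}

/-- No small frequencies, on a line. -/
def NRL {g N κ : ℕ} (A : AV g N κ k) (ρ : Fin g → ℂ) {d : ℕ} (x : Fin d → ℂ) (H : ℕ) (ε' η : ℝ) :
    Prop :=
  ∀ a : Fin d → Fin (2 * g) → ℤ, (∀ i j, |a i j| ≤ (H : ℤ)) →
    (∃ i, ε' < ‖∑ j, (a i j : ℂ) * th A j ρ‖) → η ≤ ‖∑ i, x i * ∑ j, (a i j : ℂ) * th A j ρ‖

/-- The quotient of two linear forms takes all values in the closed unit disc, on a bounded subset of the line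
`ℂρ` where the second form is not small. -/
def CovL {g N κ : ℕ} (A : AV g N κ k) (ρ : Fin g → ℂ) (lam : Fin 2 → Fin (N + 1) → ℂ) : Prop :=
  ∃ B c : ℝ, 0 ≤ B ∧ 0 < c ∧ ∀ τ : ℂ, ‖τ‖ ≤ 1 → ∃ δ : ℂ, ‖δ‖ ≤ B ∧
    lf A lam (δ • ρ) 0 = τ * lf A lam (δ • ρ) 1 ∧ c * ‖A.θ (δ • ρ)‖ ≤ ‖lf A lam (δ • ρ) 1‖

end GAL
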