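import Pool.Agent.GAL.B1
import Pool.Agent.GAV.Z2
import Pool.Agent.GAV.Z3

set_option autoImplicit false

open LTD MvPolynomial

namespace GAL

open GAV
open scoped IntermediateField.algebraAdjoinAdjoin

variable {E : Type} [NormedAddCommGroup E] [NormedSpace ℂ E] {M μ : ℕ} {k : IntermediateField ℚ ℂ}

/-! ## [GAL-E1] embeddings and specialisations (file E1.lean)

`emb2`: VARIANT of `GAV.emb` (`GAV/Z2.lean`): the kernels of the two evaluation maps `MvPolynomial ι F → ℂ` at `y` and `y'` coincide, so there is an isomorphism of the images `F[y] ≅ F[y']` over `F` (`Ideal.quotientKerAlgEquiv..` twice, `Ideal.quotientEquivAlgOfEq`), hence an injective ring homomorphism `F[y] → ℂ`, which extends to the fraction field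
`L = F(y) = IntermediateField.adjoin F (range y)` (`IsFractionRing (Algebra.adjoin F (range y)) L`, there is an instance or lemma `IntermediateField.isFractionRing..`/`IsFractionRing.lift`), and then to `Ω` by `z2_ext` (copy the end of the proof of `GAV.emb`).
`spec`: see the second half of the proof of `GAV.not_torsion` (`GAV/Z8.lean`): `P_j = θ_j(v)/θ_b(v) ∈ Ω`, `p_j = σ(P_j)`, `p_b = 1`; every polynomial over `F` vanishing at `P` vanishes at `p`, every polynomial over `F` not vanishing at `P` does not vanish at `p` (`σ` is injective and is the identity on `F`). `G.image` for `P = θ_b(v)⁻¹ • θ v` gives the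
equations and an inequation, so `p` satisfies them: `p = c • θ z`, `c ≠ 0`, and `z ∈ V_F(v)` (homogeneity). -/

/-- the isomorphism of the generated rings, extended to the generated field -/
theorem e1_lift (F : IntermediateField ℚ ℂ) {ι : Type} (y y' : ι → ℂ)
    (h : ∀ f : MvPolynomial ι F, aeval y f = 0 ↔ aeval y' f = 0) :
    ∃ f : (IntermediateField.adjoin F (Set.range y)) →+* ℂ,
      ∀ (z : IntermediateField.adjoin F (Set.range y)) (p : MvPolynomial ι F),
        (z : ℂ) = aeval y p → f z = aeval y' p := by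
  classical
  have hmem : ∀ p : MvPolynomial ι F, aeval y p ∈ Algebra.adjoin F (Set.range y) := by
    intro p
    rw [Algebra.adjoin_range_eq_range_aeval]
    exact ⟨p, rfl⟩
  let φ : MvPolynomial ι F →+* Algebra.adjoin F (Set.range y) :=
    RingHom.codRestrict (aeval y : MvPolynomial ι F →ₐ[F] ℂ).toRingHom
      (Algebra.adjoin F (Set.range y)) hmem
  have hφ : ∀ p, ((φ p : Algebra.adjoin F (Set.range y)) : ℂ) = aeval y p := fun p => rfl
  have hφs : Function.Surjective φ := by
    rintro ⟨x, hx⟩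
    have hx' := hx
    rw [Algebra.adjoin_range_eq_range_aeval] at hx'
    obtain ⟨p, hp⟩ := hx'
    exact ⟨p, Subtype.ext hp⟩
  let ψ : MvPolynomial ι F →+* ℂ := (aeval y' : MvPolynomial ι F →ₐ[F] ℂ).toRingHom
  have hψ : ∀ p, ψ p = aeval y' p := fun p => rfl
  have hker : RingHom.ker φ ≤ RingHom.ker ψ := by
    intro p hp
    rw [RingHom.mem_ker] at hp ⊢
    rw [hψ, ← h p, ← hφ p, hp]
    rfl
  let g : Algebra.adjoin F (Set.range y) →+* ℂ := φ.liftOfSurjective hφs ⟨ψ, hker⟩
  have hg : ∀ p, g (φ p) = aeval y' p := fun p =>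
    φ.liftOfSurjective_comp_apply hφs ⟨ψ, hker⟩ p
  have hgi : Function.Injective g := by
    rw [injective_iff_map_eq_zero]
    intro a ha
    obtain ⟨p, rfl⟩ := hφs a
    rw [hg, ← h p] at ha
    exact Subtype.ext ha
  refine ⟨IsFractionRing.lift (A := Algebra.adjoin F (Set.range y))
    (K := IntermediateField.adjoin F (Set.range y)) (g := g) hgi, fun z p hz => ?_⟩
  have h1 : z = algebraMap (Algebra.adjoin F (Set.range y))
      (IntermediateField.adjoin F (Set.range y)) (φ p) := Subtype.ext hz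
  rw [h1, IsFractionRing.lift_algebraMap hgi, hg]

theorem emb2 (F : IntermediateField ℚ ℂ) {ι : Type} (y y' : ι → ℂ)
    (h : ∀ f : MvPolynomial ι F, aeval y f = 0 ↔ aeval y' f = 0) (Ω : IntermediateField ℚ ℂ)
    (hΩ : ∀ z : ℂ, z ∈ Ω ↔ IsAlgebraic (IntermediateField.adjoin F (Set.range y)) z) :
    ∃ σ : Ω →+* ℂ, (∀ z : Ω, (z : ℂ) ∈ F → σ z = z) ∧ ∀ (i : ι) (z : Ω), (z : ℂ) = y i →
      σ z = y' i := by
  classical
  set L := IntermediateField.adjoin F (Set.range y) with hL
  have hLΩ : ∀ x : L, (x : ℂ) ∈ Ω := fun x =>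
    (hΩ x).2 (isAlgebraic_algebraMap (R := L) (A := ℂ) x)
  let ι' : L →+* Ω := RingHom.codRestrict (algebraMap L ℂ) Ω.toSubfield hLΩ
  let _ : Algebra L Ω := ι'.toAlgebra
  have hι : ∀ x : L, ((algebraMap L Ω x : Ω) : ℂ) = x := fun x => rfl
  have _ : IsScalarTower L Ω ℂ := IsScalarTower.of_algebraMap_eq (fun _ => rfl)
  have _ : Algebra.IsAlgebraic L Ω := by
    constructor
    intro z
    have h1 : IsAlgebraic L ((z : Ω) : ℂ) := (hΩ z).1 z.2
    exact (isAlgebraic_algebraMap_iff (algebraMap Ω ℂ).injective).1 h1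
  obtain ⟨f, hf⟩ := e1_lift F y y' h
  obtain ⟨σ, hσ⟩ := z2_ext (K := L) (Ω := Ω) (M := ℂ) f
  refine ⟨σ, fun z hz => ?_, fun i z hz => ?_⟩
  · have h1 : z = algebraMap L Ω (algebraMap F L ⟨z, hz⟩) := Subtype.ext rfl
    have h2 : f (algebraMap F L ⟨z, hz⟩) = (z : ℂ) := by
      rw [hf (algebraMap F L ⟨z, hz⟩) (MvPolynomial.C ⟨z, hz⟩) (by rw [aeval_C]; rfl), aeval_C]
      rfl
    rw [h1, hσ, h2]
    rfl
  · have hyi : y i ∈ L := IntermediateField.subset_adjoin F _ ⟨i, rfl⟩
    have h1 : z = algebraMap L Ω ⟨y i, hyi⟩ := Subtype.ext hz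
    rw [h1, hσ, hf ⟨y i, hyi⟩ (MvPolynomial.X i) (by rw [aeval_X]), aeval_X]

theorem spec (G : GV E M μ k) (F Ω : IntermediateField ℚ ℂ) (hk : k ≤ F) (hFΩ : F ≤ Ω) (σ : Ω →+* ℂ)
    (hσ : ∀ z : Ω, (z : ℂ) ∈ F → σ z = z) (v : E) (b : Fin (M + 1)) (hb : G.θ v b ≠ 0)
    (hmem : ∀ z ∈ G.rat v, z ∈ Ω) :
    ∃ z ∈ G.V F v, ∃ c : ℂ, c ≠ 0 ∧ ∀ (j : Fin (M + 1)) (x : Ω), (x : ℂ) = G.θ v j / G.θ v b →
      σ x = c * G.θ z j := by
  classical
  let Pt : Fin (M + 1) → Ω := fun j => ⟨G.θ v j / G.θ v b, hmem _ ⟨(j, b), rfl⟩⟩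
  let i : F →+* Ω := (IntermediateField.inclusion hFΩ).toRingHom
  have hi : ∀ x : F, ((i x : Ω) : ℂ) = x := fun x => rfl
  let P : Fin (M + 1) → ℂ := fun j => G.θ v j / G.θ v b
  let P' : Fin (M + 1) → ℂ := fun j => σ (Pt j)
  have hPθ : P = (G.θ v b)⁻¹ • G.θ v := by
    funext j
    simp [P, div_eq_inv_mul]
  have spec : ∀ f : MvPolynomial (Fin (M + 1)) F, aeval P f = 0 ↔ aeval P' f = 0 := by
    intro f
    have h1 : ((eval₂ i Pt f : Ω) : ℂ) = aeval P f := by
      have := eval₂_comp_left (algebraMap Ω ℂ) i Pt f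
      rw [aeval_def]
      exact this
    have h3 := eval₂_comp_left σ i Pt f
    have h4 : σ.comp i = algebraMap F ℂ := by
      ext x
      exact hσ (i x) x.2
    rw [h4] at h3
    have h5 : σ (eval₂ i Pt f) = aeval P' f := by
      rw [aeval_def]
      exact h3
    constructor
    · intro hf
      have h2 : eval₂ i Pt f = 0 := by
        apply Subtype.ext
        rw [h1, hf]
        rfl
      rw [← h5, h2, map_zero]
    · intro hf
      rw [← h5, map_eq_zero] at hf
      rw [← h1, hf]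
      rfl
  have hPb : P b = 1 := div_self hb
  have hP'b : P' b = 1 := by
    have : Pt b = 1 := Subtype.ext hPb
    simp [P', this]
  have hP0 : P ≠ 0 := fun h => by simp [h] at hPb
  have hP'0 : P' ≠ 0 := fun h => by simp [h] at hP'b
  have hmap : ∀ (f : MvPolynomial (Fin (M + 1)) k) (p : Fin (M + 1) → ℂ),
      aeval p (map (IntermediateField.inclusion hk).toRingHom f) = aeval p f := by
    intro f p
    rw [aeval_def, aeval_def, eval₂_map]
    rfl
  obtain ⟨hPe, fn, hfn, hfn'⟩ := (G.image P hP0).mpr ⟨v, _, hPθ⟩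
  obtain ⟨z', c', hz'⟩ := (G.image P' hP'0).mp (by
    refine ⟨?_, fn, hfn, ?_⟩
    · intro f hf
      have h3 := (spec (map (IntermediateField.inclusion hk).toRingHom f)).1
        (by rw [hmap]; exact hPe f hf)
      rwa [hmap] at h3
    · intro h0
      have h3 := (spec (map (IntermediateField.inclusion hk).toRingHom fn)).2
        (by rw [hmap]; exact h0)
      rw [hmap] at h3
      exact hfn' h3)
  have hc' : c' ≠ 0 := by
    rintro rfl
    exact hP'0 (by rw [hz', zero_smul])
  refine ⟨z', ?_, c', hc', ?_⟩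
  · intro f m hf h0
    have h1 : aeval P f = 0 := by
      rw [hPθ, aeval_hom f m hf, h0, mul_zero]
    have h2 := (spec f).1 h1
    rw [hz', aeval_hom f m hf] at h2
    exact (mul_eq_zero.mp h2).resolve_left (pow_ne_zero _ hc')
  · intro j x hx
    have h1 : x = Pt j := Subtype.ext hx
    have h2 : P' j = c' * G.θ z' j := by rw [hz']; rfl
    rw [h1]
    exact h2

end GAL
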