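import Pool.Agent.GAL.E9
import Pool.Agent.GAL.P7
import Pool.Agent.ELT.F7

set_option autoImplicit false

open LTD Module

namespace GAL

open GAV

/-! ## [GAL-E10] the theorem for semi-abelian varieties (file E10.lean)

`m, c` from `sav_gen` for `t + l`, `C = 2^c`. `F₁` = closure of `F(range R)` (`LTD.clo_adjoin F t l hF R`), `k ≤ F ≤ F₁`, transcendence degree `≤ t + l`. If `V_{F₁}(v)` is everything then `generic_rkG`: `rk F₁ (G.rat v) ≥ finrank ℂ (ℂ^g × ℂ^s) = g + s`, so (`rk_basis`) there are `g + s` numbers in `G.rat v` algebraically independent over `F₁`;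
`ELT.f7_trdeg`: `trdeg_F F(R) + (g + s) ≤ trdeg_F F(R ∪ rat v)` (see the proof of `GAV.e4s` in `GAV/Z16.lean`). So the set is contained in that of `sav_gen`; `z12_mem`. -/

theorem sav_final (g s N κ M μ t l : ℕ) : ∃ m C : ℕ, 1 ≤ m ∧ ∀ k F : IntermediateField ℚ ℂ,
    k ≤ F → Algebra.trdeg ℚ F ≤ (t : Cardinal) → ∀ R : Fin l → ℂ,
    ∀ (G : SAV g s N κ M μ k) (h : ℕ) (ρ : Fin h → (Fin g → ℂ) × (Fin s → ℂ)), G.toGV.Gen ρ →
    ∀ (r : (Fin g → ℂ) × (Fin s → ℂ)) (K : IntermediateField ℚ ℂ) (D : ℕ) (w : Basis (Fin D) ℚ K)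
      (H : ℕ),
        Set.ncard {a : Fin h → Fin D → ℤ | (∀ i j, |a i j| ≤ (H : ℤ)) ∧
          ¬ Algebra.trdeg F (IntermediateField.adjoin F (Set.range R)) +
            ((g + s : ℕ) : Cardinal) ≤
            Algebra.trdeg F (IntermediateField.adjoin F (Set.range R ∪
              G.toGV.rat (ptl r ρ (fun j => ((w j : K) : ℂ)) a)))} ≤
          C * 2 ^ (h * D) * (2 * H + 1) ^ (h * D - D / m) := by
  obtain ⟨m, c, hm, hmain⟩ := sav_gen g s N κ M μ (t + l)
  refine ⟨m, 2 ^ c, hm, ?_⟩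
  intro k F hkF ht R G h ρ hρ r K D w H
  obtain ⟨F₁, hFF₁, hclo, htr, hmem⟩ := LTD.clo_adjoin F t l ht R
  have h1 := hmain k F₁ (hkF.trans hFF₁) htr hclo G h ρ hρ r K D w H
  have h2 : 2 ^ c * 2 ^ (h * D) * (2 * H + 1) ^ (h * D - D / m) =
      2 ^ (h * D + c) * (2 * H + 1) ^ (h * D - D / m) := by
    rw [pow_add, mul_comm (2 ^ c)]
  rw [h2]
  refine le_trans (Set.ncard_le_ncard ?_ ?_) h1
  · rintro a ⟨ha, hneg⟩
    refine ⟨z12_mem.2 ha, fun hall => hneg ?_⟩
    set v := ptl r ρ (fun j => ((w j : K) : ℂ)) a with hv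
    have h3 := generic_rkG G.toGV F₁ v hall
    have h4 : finrank ℂ ((Fin g → ℂ) × (Fin s → ℂ)) = g + s := by
      rw [Module.finrank_prod, Module.finrank_fin_fun, Module.finrank_fin_fun]
    rw [h4] at h3
    obtain ⟨y, hy, hyi, -⟩ := rk_basis F₁ (G.toGV.rat v) (Set.finite_range _)
    have h5 := ELT.f7_trdeg F F₁ hFF₁ (Set.range R)
      (by
        rintro z ⟨i, rfl⟩
        rw [hmem]
        exact isAlgebraic_algebraMap (⟨R i, IntermediateField.subset_adjoin F _ ⟨i, rfl⟩⟩ :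
          IntermediateField.adjoin F (Set.range R)))
      (fun i : Fin (g + s) => y (Fin.castLE h3 i))
      (hyi.comp _ (Fin.castLE_injective h3)) (G.toGV.rat v) (fun i => hy _)
    rwa [Fintype.card_fin] at h5
  · exact (z12_box h D H).finite_toSet.subset (fun a ha => ha.1)

end GAL
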