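import Pool.Agent.GAL.B1
import Pool.Agent.GAV.Z3
import Pool.Agent.GAV.Z0
import Pool.Agent.GAV.Z4
import Pool.Agent.GAV.Z8

set_option autoImplicit false

open LTD MvPolynomial

namespace GAL

open GAV

variable {g N κ : ℕ} {k : IntermediateField ℚ ℂ}

/-! ## [GAL-E2] generic points satisfy the same relations (file E2.lean)

`gen_rel`: suppose `f(q) = 0`, `q_j = θ_j(x)/θ_b(x)`, `f` not necessarily homogeneous. With `d = f.totalDegree` let `f^h = ∑_m coeff_m X^m X_b^{d - |m|}`, homogeneous of degree `d`, `f^h(θ x) = θ_b(x)^d f(q) = 0` (`q_b = 1`). `V_F(x)` is everything, so `f^h(θ y) = 0`, i.e. `f(q') = 0` (`θ_b(y) ≠ 0`). By symmetry both directions.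
`ind_rel`: let `f ∈ F[X, Y]`, write it as a polynomial in `Y` with coefficients in `F[X]` (`sumAlgEquiv`, compare `GAV.Z4_expand` in `GAV/Z4.lean` which may be imported): `f = ∑_β G_β(X) Y^β`. `f(q, u) = 0` iff all `G_β(q) = 0` (the `G_β(q)` are in `E₀` and `u` is algebraically independent over `E₀`), iff all `G_β(q') = 0` (`h`), iff `f(q', u') = 0`. -/

/-- The homogenisation. -/
noncomputable def e2_hom {N : ℕ} {F : IntermediateField ℚ ℂ} (b : Fin (N + 1))
    (f : MvPolynomial (Fin (N + 1)) F) : MvPolynomial (Fin (N + 1)) F :=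
  ∑ m ∈ f.support, monomial m (coeff m f) * X b ^ (f.totalDegree - m.degree)

theorem e2_deg {N : ℕ} {F : IntermediateField ℚ ℂ} (f : MvPolynomial (Fin (N + 1)) F)
    (m : Fin (N + 1) →₀ ℕ) (hm : m ∈ f.support) : m.degree ≤ f.totalDegree :=
  le_totalDegree hm

theorem e2_ishom {N : ℕ} {F : IntermediateField ℚ ℂ} (b : Fin (N + 1))
    (f : MvPolynomial (Fin (N + 1)) F) : (e2_hom b f).IsHomogeneous f.totalDegree := by
  refine IsHomogeneous.sum _ _ _ fun m hm => ?_
  have h1 := (isHomogeneous_monomial (R := F) (coeff m f) (rfl : m.degree = m.degree)).mul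
    ((isHomogeneous_X F b).pow (f.totalDegree - m.degree))
  have h2 := e2_deg f m hm
  have h3 : m.degree + 1 * (f.totalDegree - m.degree) = f.totalDegree := by omega
  rwa [h3] at h1

theorem e2_eval {N : ℕ} {F : IntermediateField ℚ ℂ} (b : Fin (N + 1))
    (f : MvPolynomial (Fin (N + 1)) F) (p : Fin (N + 1) → ℂ) (hp : p b ≠ 0) :
    aeval p (e2_hom b f) = p b ^ f.totalDegree * aeval (fun j => p j / p b) f := by
  have hp' : p = (p b) • (fun j => p j / p b) := by
    funext j
    simp only [Pi.smul_apply, smul_eq_mul]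
    rw [mul_div_cancel₀ _ hp]
  have h1 : aeval (fun j => p j / p b) f =
      ∑ m ∈ f.support, aeval (fun j => p j / p b) (monomial m (coeff m f)) := by
    conv_lhs => rw [f.as_sum]
    rw [map_sum]
  rw [h1, Finset.mul_sum, e2_hom, map_sum]
  refine Finset.sum_congr rfl fun m hm => ?_
  have h2 := e2_deg f m hm
  have h3 : aeval p (monomial m (coeff m f)) =
      p b ^ m.degree * aeval (fun j => p j / p b) (monomial m (coeff m f)) := by
    conv_lhs => rw [hp']
    exact z8_smul F _ _ (isHomogeneous_monomial (R := F) (coeff m f) (rfl : m.degree = m.degree)) _ _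
  rw [map_mul, map_pow, aeval_X, h3]
  have h4 : p b ^ f.totalDegree = p b ^ m.degree * p b ^ (f.totalDegree - m.degree) := by
    rw [← pow_add]
    congr 1
    omega
  rw [h4]
  ring

theorem e2_one (A : AV g N κ k) (F : IntermediateField ℚ ℂ) (x y : Fin g → ℂ)
    (hx : ∀ z, z ∈ (toGV A).V F x) (b : Fin (N + 1))
    (hb : A.θ x b ≠ 0) (hb' : A.θ y b ≠ 0) (f : MvPolynomial (Fin (N + 1)) F)
    (hf : aeval (fun j => A.θ x j / A.θ x b) f = 0) :
    aeval (fun j => A.θ y j / A.θ y b) f = 0 := by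
  have h1 : aeval (A.θ x) (e2_hom b f) = 0 := by
    rw [e2_eval b f _ hb, hf, mul_zero]
  have h2 : aeval (A.θ y) (e2_hom b f) = 0 := hx y (e2_hom b f) _ (e2_ishom b f) h1
  rw [e2_eval b f _ hb'] at h2
  exact (mul_eq_zero.mp h2).resolve_left (pow_ne_zero _ hb')

theorem gen_rel (A : AV g N κ k) (F : IntermediateField ℚ ℂ) (x y : Fin g → ℂ)
    (hx : ∀ z, z ∈ (toGV A).V F x) (hy : ∀ z, z ∈ (toGV A).V F y) (b : Fin (N + 1))
    (hb : A.θ x b ≠ 0) (hb' : A.θ y b ≠ 0) (f : MvPolynomial (Fin (N + 1)) F) :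
    aeval (fun j => A.θ x j / A.θ x b) f = 0 ↔ aeval (fun j => A.θ y j / A.θ y b) f = 0 :=
  ⟨e2_one A F x y hx b hb hb' f, e2_one A F y x hy b hb' hb f⟩

theorem e2_aux (F E₀ : IntermediateField ℚ ℂ) (hE : F ≤ E₀) {σ : Type} {n : ℕ} (q : σ → ℂ)
    (hq : ∀ i, q i ∈ E₀) (u : Fin n → ℂ) (hu : AlgebraicIndependent E₀ u)
    (f : MvPolynomial (Fin n ⊕ σ) F) :
    aeval (Sum.elim u q) f = 0 ↔
      ∀ α ∈ (sumAlgEquiv F (Fin n) σ f).support,
        aeval q (coeff α (sumAlgEquiv F (Fin n) σ f)) = 0 := by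
  classical
  rw [Z4_expand]
  set G := sumAlgEquiv F (Fin n) σ f with hG
  have hmem : ∀ R : MvPolynomial σ F, aeval q R ∈ E₀ := by
    intro R
    rw [aeval_def, eval₂_eq]
    refine sum_mem fun m _ => mul_mem (hE (coeff m R).2) (prod_mem fun i _ => pow_mem (hq i) _)
  constructor
  · intro h
    let p : MvPolynomial (Fin n) E₀ :=
      ∑ α ∈ G.support, monomial α (⟨aeval q (coeff α G), hmem _⟩ : E₀)
    have hp : aeval u p = 0 := by
      rw [← h]
      simp only [p]
      rw [map_sum]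
      refine Finset.sum_congr rfl fun α _ => ?_
      rw [aeval_monomial, Finsupp.prod_fintype _ _ (fun i => pow_zero _)]
      rfl
    have hp0 : p = 0 := (algebraicIndependent_iff.1 hu) p hp
    intro α hα
    have h1 := congrArg (fun P => coeff α P) hp0
    simp only [p, coeff_sum, coeff_monomial, coeff_zero] at h1
    rw [Finset.sum_ite_eq' G.support α, if_pos hα] at h1
    exact congrArg Subtype.val h1
  · intro h
    exact Finset.sum_eq_zero fun α hα => by rw [h α hα, zero_mul]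

theorem ind_rel (F E₀ E₀' : IntermediateField ℚ ℂ) (hE : F ≤ E₀) (hE' : F ≤ E₀') {σ : Type}
    [Fintype σ] {n : ℕ} (q q' : σ → ℂ) (hq : ∀ i, q i ∈ E₀) (hq' : ∀ i, q' i ∈ E₀')
    (h : ∀ f : MvPolynomial σ F, aeval q f = 0 ↔ aeval q' f = 0) (u u' : Fin n → ℂ)
    (hu : AlgebraicIndependent E₀ u) (hu' : AlgebraicIndependent E₀' u')
    (f : MvPolynomial (σ ⊕ Fin n) F) :
    aeval (Sum.elim q u) f = 0 ↔ aeval (Sum.elim q' u') f = 0 := by
  have hsw : ∀ (p : σ → ℂ) (r : Fin n → ℂ), aeval (Sum.elim p r) f =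
      aeval (Sum.elim r p) (rename Sum.swap f) := by
    intro p r
    rw [aeval_rename]
    congr 2
    funext i
    rcases i with i | i <;> rfl
  rw [hsw q u, hsw q' u', e2_aux F E₀ hE q hq u hu, e2_aux F E₀' hE' q' hq' u' hu']
  exact forall₂_congr fun α _ => h _

end GAL
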