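import Pool.Agent.GAL.E1
import Pool.Agent.GAL.E2
import Pool.Agent.GAV.Z1b
import Pool.Agent.GAV.Z5

set_option autoImplicit false

open LTD MvPolynomial

namespace GAL

open GAV

variable {g s N κ M μ : ℕ} {k : IntermediateField ℚ ℂ}

/-! ## [GAL-E3] generic points of the abelian part are images of the points of the locus (file E3.lean)

`x = v.1`. Choose `b'` with `θ^A_{b'}(x) ≠ 0`; then `θ^A_{b'}(y) ≠ 0` (otherwise the polynomial `X_{b'}` vanishes at `θ y`, so everywhere by `hy`). `q_j = θ^A_j(x)/θ^A_{b'}(x)`, `q'_j = θ^A_j(y)/θ^A_{b'}(y)`: the same relations over `F` (`gen_rel`). `E₀` = closure of `F(q)`, `E₀'` = closure of `F(q')` (finite transcendence degree over `ℚ`: `LTD.clo_adjoin`/`GAV.Z5_clo`).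
`rk_basis E₀ (G.rat v)`: `u : Fin n → ℂ`, algebraically independent over `E₀`, and all elements of `G.rat v` are algebraic over `E₀(u)`. `fresh`: `u'` algebraically independent over `E₀'`. `Y = Sum.elim q u`, `Y' = Sum.elim q' u'`: the same relations (`ind_rel`). `Ω` = closure of `F(Y)` (contains `E₀`, `u`, `G.rat v`). `emb2`: `σ`. `θ_b(v) ≠ 0`. `spec`: `z ∈ V_F(v)`, `c`,
`σ(θ_j(v)/θ_b(v)) = c θ_j(z)`. Choose `i` with `pr_i(θ v) ≠ 0` (`G.pr_ne`): `pr_{i,j}(θ v) = c₁ θ^A_j(x)`, `c₁ ≠ 0`, so with `P_j = θ_j(v)/θ_b(v) ∈ Ω`: `pr_{i,j}(P) = pr_{i,b'}(P) q_j` and `pr_{i,b'}(P) ≠ 0` (homogeneity of degree `d`). Apply `σ`: `pr_{i,j}(c θ z) = pr_{i,b'}(c θ z) q'_j`, `pr_{i,b'}(c θ z) ≠ 0`;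
`pr_{i,j}(c θ z) = c^d c₂ θ^A_j(z.1)` (`G.pr_eq`). So `θ^A(z.1)` is proportional to `q'`, i.e. to `θ^A(y)`: `z.1 - y ∈ A.Λ` (`A.inj`). -/

/-- an element which is algebraic over a field generated by elements of a closed field is in it -/
theorem e3_mem (E₀ Ω : IntermediateField ℚ ℂ) (hE : E₀ ≤ Ω) (hΩ : Clo Ω) (S : Set ℂ)
    (hS : S ⊆ Ω) (z : ℂ) (hz : IsAlgebraic (IntermediateField.adjoin E₀ S) z) : z ∈ Ω := by
  have hmem : ∀ x ∈ IntermediateField.adjoin E₀ S, x ∈ Ω := by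
    have h1 : IntermediateField.adjoin E₀ S ≤ IntermediateField.extendScalars hE := by
      rw [IntermediateField.adjoin_le_iff]
      intro x hx
      exact (IntermediateField.mem_extendScalars hE).2 (hS hx)
    intro x hx
    exact (IntermediateField.mem_extendScalars hE).1 (h1 hx)
  let f : IntermediateField.adjoin E₀ S →+* Ω :=
    (algebraMap (IntermediateField.adjoin E₀ S) ℂ).codRestrict Ω.toSubring
      (fun x => hmem _ x.2)
  let _ : Algebra (IntermediateField.adjoin E₀ S) Ω := f.toAlgebra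
  have _ : IsScalarTower (IntermediateField.adjoin E₀ S) Ω ℂ :=
    IsScalarTower.of_algebraMap_eq (fun _ => rfl)
  exact hΩ z (hz.tower_top Ω)

theorem fib (G : SAV g s N κ M μ k) (F : IntermediateField ℚ ℂ) (hk : k ≤ F) (hF : Clo F) (t : ℕ)
    (ht : Algebra.trdeg ℚ F ≤ (t : Cardinal)) (v : (Fin g → ℂ) × (Fin s → ℂ))
    (hv : ∀ z, z ∈ (toGV G.A).V F v.1) (y : Fin g → ℂ) (hy : ∀ z, z ∈ (toGV G.A).V F y) :
    ∃ z ∈ G.toGV.V F v, z.1 - y ∈ G.A.Λ := by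
  obtain ⟨b', hb'⟩ : ∃ b, G.A.θ v.1 b ≠ 0 := exists_ne (toGV G.A) v.1
  have hb'y : G.A.θ y b' ≠ 0 := by
    intro h0
    apply hb'
    have h1 := hy v.1 (X b') 1 (isHomogeneous_X _ _) (by rw [aeval_X]; exact h0)
    rw [aeval_X] at h1
    exact h1
  set q : Fin (N + 1) → ℂ := fun j => G.A.θ v.1 j / G.A.θ v.1 b' with hq
  set q' : Fin (N + 1) → ℂ := fun j => G.A.θ y j / G.A.θ y b' with hq'
  have hrel : ∀ f : MvPolynomial (Fin (N + 1)) F, aeval q f = 0 ↔ aeval q' f = 0 :=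
    fun f => gen_rel G.A F v.1 y hv hy b' hb' hb'y f
  obtain ⟨E₀, t₀, hE, hcloE, htrE, hmemE⟩ := Z5_clo F t ht (Set.range q) (Set.finite_range _)
  obtain ⟨E₁, t₁, hE1, hcloE1, htrE1, hmemE1⟩ :=
    Z5_clo F t ht (Set.range q') (Set.finite_range _)
  have hqE : ∀ j, q j ∈ E₀ := fun j => (hmemE _).2
    (Z5_alg_mem F _ _ (IntermediateField.subset_adjoin F _ ⟨j, rfl⟩))
  have hqE1 : ∀ j, q' j ∈ E₁ := fun j => (hmemE1 _).2
    (Z5_alg_mem F _ _ (IntermediateField.subset_adjoin F _ ⟨j, rfl⟩))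
  obtain ⟨u, huR, hu, hualg⟩ := rk_basis E₀ (G.toGV.rat v) (rat_fin G.toGV v)
  obtain ⟨u', hu', -⟩ := fresh E₁ t₁ htrE1 ∅ Set.countable_empty (rk E₀ (G.toGV.rat v))
  have hrel2 := ind_rel F E₀ E₁ hE hE1 q q' hqE hqE1 hrel u u' hu hu'
  obtain ⟨Ω, tΩ, hFΩ, hcloΩ, -, hΩ⟩ :=
    Z5_clo F t ht (Set.range (Sum.elim q u)) (Set.finite_range _)
  obtain ⟨σ, hσF, hσY⟩ := emb2 F (Sum.elim q u) (Sum.elim q' u') hrel2 Ω hΩ
  have hYΩ : ∀ i, Sum.elim q u i ∈ Ω := fun i => (hΩ _).2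
    (Z5_alg_mem F _ _ (IntermediateField.subset_adjoin F _ ⟨i, rfl⟩))
  have hEΩ : E₀ ≤ Ω := by
    intro z hz
    rw [hΩ]
    refine Z5_alg_mono F _ _ ?_ z ((hmemE z).1 hz)
    apply IntermediateField.adjoin.mono
    rintro _ ⟨j, rfl⟩
    exact ⟨Sum.inl j, rfl⟩
  have hratΩ : ∀ z ∈ G.toGV.rat v, z ∈ Ω := by
    intro z hz
    refine e3_mem E₀ Ω hEΩ hcloΩ (Set.range u) ?_ z (hualg z hz)
    rintro _ ⟨i, rfl⟩
    exact hYΩ (Sum.inr i)
  obtain ⟨b, hb⟩ := exists_ne G.toGV v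
  obtain ⟨z, hzV, c, hc, hz⟩ := spec G.toGV F Ω hk hFΩ σ hσF v b hb hratΩ
  obtain ⟨i, j₀, hij⟩ := G.pr_ne v
  obtain ⟨c₁, hc₁⟩ := G.pr_eq i v
  obtain ⟨c₂, hc₂⟩ := G.pr_eq i z
  have hc₁0 : c₁ ≠ 0 := by
    rintro rfl
    apply hij
    rw [hc₁, zero_mul]
  -- the coordinates in `Ω`
  let P : Fin (M + 1) → Ω := fun j => ⟨G.θ v j / G.θ v b, hratΩ _ ⟨(j, b), rfl⟩⟩
  let Q : Fin (N + 1) → Ω := fun j => ⟨q j, hYΩ (Sum.inl j)⟩
  let ik : k →+* Ω := (IntermediateField.inclusion (hk.trans hFΩ)).toRingHom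
  have hik : ∀ x : k, ((ik x : Ω) : ℂ) = x := fun x => rfl
  have hPc : (fun j => ((P j : Ω) : ℂ)) = (G.θ v b)⁻¹ • G.θ v := by
    funext j
    rw [Pi.smul_apply, smul_eq_mul]
    exact div_eq_inv_mul _ _
  have hval : ∀ j, ((eval₂ ik P (G.pr i j) : Ω) : ℂ) = (G.θ v b)⁻¹ ^ G.d * (c₁ * G.A.θ v.1 j) := by
    intro j
    have h1 := eval₂_comp_left (algebraMap Ω ℂ) ik P (G.pr i j)
    have h2 : ((eval₂ ik P (G.pr i j) : Ω) : ℂ) = aeval (fun j => ((P j : Ω) : ℂ)) (G.pr i j) := by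
      rw [aeval_def]
      exact h1
    rw [h2, hPc, aeval_hom (G.pr i j) G.d (G.pr_hom i j), hc₁ j]
  have hσik : σ.comp ik = algebraMap k ℂ := by
    ext x
    exact hσF (ik x) (hk x.2)
  have hσval : ∀ j, σ (eval₂ ik P (G.pr i j)) = c ^ G.d * (c₂ * G.A.θ z.1 j) := by
    intro j
    have h1 := eval₂_comp_left σ ik P (G.pr i j)
    rw [hσik] at h1
    have h2 : (σ ∘ P : Fin (M + 1) → ℂ) = c • G.θ z := by
      funext j
      exact hz j (P j) rfl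
    rw [h2] at h1
    rw [h1, ← aeval_def, aeval_hom (G.pr i j) G.d (G.pr_hom i j), hc₂ j]
  have hmul : ∀ j, eval₂ ik P (G.pr i j) = eval₂ ik P (G.pr i b') * Q j := by
    intro j
    apply Subtype.ext
    show ((eval₂ ik P (G.pr i j) : Ω) : ℂ) = ((eval₂ ik P (G.pr i b') : Ω) : ℂ) * q j
    rw [hval, hval, hq]
    field_simp
  have hne : c ^ G.d * (c₂ * G.A.θ z.1 b') ≠ 0 := by
    rw [← hσval b']
    intro h0
    have h1 : eval₂ ik P (G.pr i b') = 0 := by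
      apply σ.injective
      rw [h0, map_zero]
    have h2 := hval b'
    rw [h1] at h2
    have h3 : (G.θ v b)⁻¹ ^ G.d * (c₁ * G.A.θ v.1 b') ≠ 0 :=
      mul_ne_zero (pow_ne_zero _ (inv_ne_zero hb)) (mul_ne_zero hc₁0 hb')
    exact h3 h2.symm
  have hfin : ∀ j, c ^ G.d * (c₂ * G.A.θ z.1 j) = c ^ G.d * (c₂ * G.A.θ z.1 b') * q' j := by
    intro j
    rw [← hσval j, ← hσval b', hmul j, map_mul]
    congr 1
    exact hσY (Sum.inl j) (Q j) rfl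
  have hcd : c ^ G.d ≠ 0 := left_ne_zero_of_mul hne
  have hc2 : c₂ ≠ 0 := left_ne_zero_of_mul (right_ne_zero_of_mul hne)
  refine ⟨z, hzV, G.A.inj z.1 y (G.A.θ z.1 b' / G.A.θ y b') ?_⟩
  funext j
  have h1 := hfin j
  rw [mul_assoc, mul_assoc] at h1
  have h2 := mul_left_cancel₀ hc2 (mul_left_cancel₀ hcd h1)
  rw [h2, Pi.smul_apply, smul_eq_mul, hq']
  field_simp

end GAL
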