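import Pool.Agent.GAL.E3
import Pool.Agent.GAL.H1
import Pool.Agent.GAV.Z0
import Pool.Agent.GAV.Z8

set_option autoImplicit false

open LTD MvPolynomial

namespace GAL

open GAV

variable {g s N κ M μ : ℕ} {k : IntermediateField ℚ ℂ}

/-! ## [GAL-E4] the subgroup maps onto the abelian part (file E4.lean)

`TA` = the image of `TT H` under the first projection (`Submodule.map`), suppose `TA ≠ ⊤`, `w ∉ TA`; `y_s = v.1 + s • w`, `s ∈ ℂ`. `F` is countable (`clo_countable`), so there are countably many polynomials over `F`. Let `B₁` be the set of the `s` such that for some homogeneous `f` over `F` with `f(θ^A(v.1)) ≠ 0` we have `f(θ^A(y_s)) = 0`: countable (for every `f` the function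
`s ↦ f(θ^A(y_s))` is entire and not `0` at `s = 0`; the zero set of a nonzero entire function is countable: `AnalyticOnNhd`-lemmas, isolated zeros, `Set.Countable` of discrete closed sets, or `AnalyticOnNhd.preimage_zero_mem_codiscrete`..). For `s ∉ B₁`: `V_F(y_s)` is everything: if `f(θ(y_s)) = 0` then `f(θ(v.1)) = 0`, so `f∘θ = 0` everywhere (`hv`).
`fib`: `z ∈ V_F(v)`, `z.1 = y_s + l`, `l ∈ A.Λ`. `z - v ∈ H` (`hV`), `quot_cnt`: `c ∈ C₀`, `z - v - c ∈ TT H`, so `s • w + l - c.1 ∈ TA`. For given `(c, l)` (countably many: `z8_lat`) there is at most one such `s` (the difference of two would give `w ∈ TA`). So `ℂ` is the union of two countable sets: contradiction (`Set.Countable`, `not_countable` for `ℂ`). -/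

theorem e4_zero (f : ℂ → ℂ) (hf : Differentiable ℂ f) (h0 : f 0 ≠ 0) :
    {c : ℂ | f c = 0}.Countable := by
  have h1 : AnalyticOnNhd ℂ f Set.univ := hf.differentiableOn.analyticOnNhd isOpen_univ
  rcases h1.eqOn_zero_or_eventually_ne_zero_of_preconnected isPreconnected_univ with h | h
  · exact absurd (h (Set.mem_univ 0)) h0
  · have h2 : IsDiscrete ({c : ℂ | f c = 0} ∩ Set.univ) := isDiscrete_of_codiscreteWithin h
    rw [Set.inter_univ] at h2
    exact (HereditarilyLindelofSpace.isLindelof _).countable_of_isDiscrete h2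

theorem e4_diff (A : AV g N κ k) (F : IntermediateField ℚ ℂ) (x w : Fin g → ℂ)
    (f : MvPolynomial (Fin (N + 1)) F) :
    Differentiable ℂ (fun c : ℂ => aeval (A.θ (x + c • w)) f) := by
  have h1 : Differentiable ℂ (fun c : ℂ => x + c • w) := by fun_prop
  have h2 : Differentiable ℂ (fun c : ℂ => A.θ (x + c • w)) := A.diff.comp h1
  have hθ : ∀ j, Differentiable ℂ (fun c : ℂ => A.θ (x + c • w) j) :=
    fun j => differentiable_pi.1 h2 j
  induction f using MvPolynomial.induction_on with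
  | C a =>
    have e : (fun c : ℂ => aeval (A.θ (x + c • w)) (C a)) = fun _ => algebraMap F ℂ a := by
      funext c
      exact aeval_C _ _
    rw [e]
    exact differentiable_const _
  | add p q hp hq =>
    have e : (fun c : ℂ => aeval (A.θ (x + c • w)) (p + q)) =
        fun c => aeval (A.θ (x + c • w)) p + aeval (A.θ (x + c • w)) q := by
      funext c
      exact map_add _ _ _
    rw [e]
    exact hp.fun_add hq
  | mul_X p i hp =>
    have e : (fun c : ℂ => aeval (A.θ (x + c • w)) (p * X i)) =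
        fun c => aeval (A.θ (x + c • w)) p * A.θ (x + c • w) i := by
      funext c
      rw [map_mul, aeval_X]
    rw [e]
    exact hp.fun_mul (hθ i)

theorem TT_surj (G : SAV g s N κ M μ k) (F : IntermediateField ℚ ℂ) (hk : k ≤ F) (hF : Clo F)
    (t : ℕ) (ht : Algebra.trdeg ℚ F ≤ (t : Cardinal)) (v : (Fin g → ℂ) × (Fin s → ℂ))
    (hv : ∀ z, z ∈ (toGV G.A).V F v.1) (H : AddSubgroup ((Fin g → ℂ) × (Fin s → ℂ)))
    (hH : G.toGV.ZC (H : Set ((Fin g → ℂ) × (Fin s → ℂ)))) (hV : ∀ z ∈ G.toGV.V F v, z - v ∈ H)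
    (x : Fin g → ℂ) : ∃ y ∈ TT H, y.1 = x := by
  classical
  let TA : Submodule ℂ (Fin g → ℂ) := (TT H).map (LinearMap.fst ℂ (Fin g → ℂ) (Fin s → ℂ))
  have hTA : ∀ z, z ∈ TT H → z.1 ∈ TA := fun z hz => ⟨z, hz, rfl⟩
  by_contra hcon
  have hx : x ∉ TA := by
    rintro ⟨y, hy, hyx⟩
    exact hcon ⟨y, hy, hyx⟩
  have hcF := clo_countable F t ht
  have _ : Countable F := hcF.to_subtype
  have _ : Countable (MvPolynomial (Fin (N + 1)) F) := by
    rw [← Cardinal.mk_le_aleph0_iff]
    refine MvPolynomial.cardinalMk_le_max.trans ?_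
    exact max_le (max_le Cardinal.mk_le_aleph0 Cardinal.mk_le_aleph0) le_rfl
  -- the bad parameters
  let B : Set ℂ := {c | ¬ ∀ z, z ∈ (toGV G.A).V F (v.1 + c • x)}
  have hB : B.Countable := by
    have h1 : (⋃ f : {f : MvPolynomial (Fin (N + 1)) F // aeval (G.A.θ v.1) f ≠ 0},
        {c : ℂ | aeval (G.A.θ (v.1 + c • x)) f.1 = 0}).Countable := by
      refine Set.countable_iUnion fun f => ?_
      refine e4_zero _ (e4_diff G.A F v.1 x f.1) ?_
      rw [zero_smul, add_zero]
      exact f.2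
    refine h1.mono ?_
    intro c hc
    have hc' : ∃ z, ¬ z ∈ (toGV G.A).V F (v.1 + c • x) := by
      by_contra h
      push Not at h
      exact hc h
    obtain ⟨z, hz⟩ := hc'
    have hz' : ∃ (f : MvPolynomial (Fin (N + 1)) F) (n : ℕ), f.IsHomogeneous n ∧
        aeval (G.A.θ (v.1 + c • x)) f = 0 ∧ aeval (G.A.θ z) f ≠ 0 := by
      by_contra h
      push Not at h
      exact hz fun f n hf h0 => h f n hf h0
    obtain ⟨f, n, hf, h0, h2⟩ := hz'
    have h3 : aeval (G.A.θ v.1) f ≠ 0 := fun h => h2 (hv z f n hf h)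
    exact Set.mem_iUnion.2 ⟨⟨f, h3⟩, h0⟩
  obtain ⟨C₀, hC₀, hq⟩ := quot_cnt G.toGV H hH
  have hgood : ∀ c : ℂ, c ∉ B → ∃ p ∈ C₀ ×ˢ (G.A.Λ : Set (Fin g → ℂ)),
      c • x + p.2 - p.1.1 ∈ TA := by
    intro c hc
    have hc' : ∀ z, z ∈ (toGV G.A).V F (v.1 + c • x) := by
      by_contra h
      exact hc h
    obtain ⟨z, hz, hl⟩ := fib G F hk hF t ht v hv (v.1 + c • x) hc'
    obtain ⟨c₀, hc₀, hT⟩ := hq _ (hV z hz)
    refine ⟨(c₀, z.1 - (v.1 + c • x)), ⟨hc₀, hl⟩, ?_⟩
    have h1 := hTA _ hT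
    have h2 : (z - v - c₀).1 = c • x + (z.1 - (v.1 + c • x)) - c₀.1 := by
      rw [Prod.fst_sub, Prod.fst_sub]
      abel
    rwa [h2] at h1
  choose! p hp hpT using hgood
  have hcount : (Bᶜ : Set ℂ).Countable := by
    refine Set.MapsTo.countable_of_injOn (f := p) (t := C₀ ×ˢ (G.A.Λ : Set (Fin g → ℂ)))
      (fun c hc => hp c hc) ?_ (hC₀.prod (z8_lat G.A))
    intro c hc c' hc' hcc
    by_contra hne
    apply hx
    have h1 := hpT c hc
    have h2 := hpT c' hc'
    rw [← hcc] at h2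
    have h3 := TA.sub_mem h1 h2
    have h4 : c • x + (p c).2 - (p c).1.1 - (c' • x + (p c).2 - (p c).1.1) = (c - c') • x := by
      rw [sub_smul]
      abel
    rw [h4] at h3
    have h5 := TA.smul_mem (c - c')⁻¹ h3
    rwa [smul_smul, inv_mul_cancel₀ (sub_ne_zero.2 hne), one_smul] at h5
  apply not_countable_complex
  have h1 := hB.union hcount
  rwa [Set.union_compl_self] at h1

end GAL
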