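import Pool.Agent.GAL.B1

set_option autoImplicit false

open MvPolynomial

namespace GAL

open GAV

variable {g s N κ M μ : ℕ} {k : IntermediateField ℚ ℂ}

/-! ## [GAL-E5] algebraic subgroups of the torus are defined by characters (file E5.lean)

Let `S` be the set of polynomials which defines `H`; choose `f ∈ S`, homogeneous, with `f(θ(0,u)) ≠ 0`; `f(θ(0,u')) = 0` for `(0,u') ∈ H`. `p = aeval G.inc f ∈ MvPolynomial (Fin s) ℂ` (coefficients of `inc` mapped to `ℂ`). By `G.inc_eq` and homogeneity `p(e^{u'}) = c(u')^n f(θ(0,u'))`, `c(u') ≠ 0`. So `p(e^{u'}) = 0` for `(0,u') ∈ H` and `p(e^u) ≠ 0`.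
`p = ∑_m p_m X^m`, `χ_m(u') = exp(∑ m_j u'_j)`. Let `Hs = {u' | (0,u') ∈ H}`, an additive subgroup. The restrictions of the `χ_m` to `Hs` are characters; distinct characters are linearly independent (`linearIndependent_monoidHom (Multiplicative Hs) ℂ`), so for every character `χ` of `Hs` the sum of the `p_m` with `χ_m|Hs = χ` is `0`.
Suppose the statement is false: every `a ∈ ℤ^s` which is trivial on `Hs` is trivial at `u`. Then `χ_m|Hs = χ_{m'}|Hs` implies `χ_m(u) = χ_{m'}(u)` (`a = m - m'`), so `p(e^u) = ∑_m p_m χ_m(u) = ∑_χ (∑_{m ↦ χ} p_m) χ(u) = 0`: contradiction. -/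

/-- the character of exponent `m` on the subgroup `Hs` -/
private noncomputable def e5_chi (Hs : AddSubgroup (Fin s → ℂ)) (m : Fin s →₀ ℕ) :
    Multiplicative Hs →* ℂ where
  toFun x := Complex.exp (∑ j, (m j : ℂ) * (Multiplicative.toAdd x : Hs).1 j)
  map_one' := by
    simp
  map_mul' x y := by
    rw [← Complex.exp_add, ← Finset.sum_add_distrib]
    congr 1
    refine Finset.sum_congr rfl fun j _ => ?_
    simp [mul_add]

private theorem e5_aeval (p : MvPolynomial (Fin s) ℂ) (u : Fin s → ℂ) :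
    aeval (fun i => Complex.exp (u i)) p =
      ∑ m ∈ p.support, coeff m p * Complex.exp (∑ j, (m j : ℂ) * u j) := by
  rw [aeval_def, eval₂_eq']
  refine Finset.sum_congr rfl fun m _ => ?_
  rw [Complex.exp_sum]
  simp only [Algebra.algebraMap_self, RingHom.id_apply]
  congr 1
  refine Finset.prod_congr rfl fun j _ => ?_
  rw [← Complex.exp_nat_mul]

theorem chars (G : SAV g s N κ M μ k) (H : AddSubgroup ((Fin g → ℂ) × (Fin s → ℂ)))
    (hH : G.toGV.ZC (H : Set ((Fin g → ℂ) × (Fin s → ℂ)))) (u : Fin s → ℂ)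
    (hu : ((0 : Fin g → ℂ), u) ∉ H) :
    ∃ a : Fin s → ℤ, (∀ u' : Fin s → ℂ, ((0 : Fin g → ℂ), u') ∈ H →
      Complex.exp (∑ j, (a j : ℂ) * u' j) = 1) ∧ Complex.exp (∑ j, (a j : ℂ) * u j) ≠ 1 := by
  classical
  obtain ⟨S, hS, hmem⟩ := hH
  have hu' : ¬ ∀ f ∈ S, aeval (G.θ ((0 : Fin g → ℂ), u)) f = 0 := fun h => hu ((hmem _).2 h)
  push Not at hu'
  obtain ⟨f, hfS, hf⟩ := hu'
  obtain ⟨n, hn⟩ := hS f hfS
  set p : MvPolynomial (Fin s) ℂ :=
    bind₁ (fun j => map (algebraMap k ℂ) (G.inc j)) f with hp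
  have key : ∀ v : Fin s → ℂ, ∃ c : ℂ, c ≠ 0 ∧
      aeval (fun i => Complex.exp (v i)) p = c ^ n * aeval (G.θ ((0 : Fin g → ℂ), v)) f := by
    intro v
    obtain ⟨c, hc, h⟩ := G.inc_eq v
    refine ⟨c, hc, ?_⟩
    rw [← aeval_hom f n hn c, hp, aeval_bind₁]
    congr 2
    funext j
    rw [aeval_map_algebraMap, h j]
    rfl
  by_contra hcon
  push Not at hcon
  let Hs : AddSubgroup (Fin s → ℂ) :=
    { carrier := {v | ((0 : Fin g → ℂ), v) ∈ H}
      zero_mem' := H.zero_mem
      add_mem' := fun {a b} ha hb => by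
        have := H.add_mem ha hb
        simpa using this
      neg_mem' := fun {a} ha => by
        have := H.neg_mem ha
        simpa using this }
  let chi : (Fin s →₀ ℕ) → (Multiplicative Hs →* ℂ) := e5_chi Hs
  let T := p.support
  let I := T.image chi
  have hI : ∀ m ∈ T, chi m ∈ I := fun m hm => Finset.mem_image_of_mem _ hm
  have hz : ∀ x : Multiplicative Hs, ∑ m ∈ T, coeff m p * chi m x = 0 := by
    intro x
    obtain ⟨c, -, h⟩ := key (Multiplicative.toAdd x : Hs).1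
    have h2 : aeval (G.θ ((0 : Fin g → ℂ), (Multiplicative.toAdd x : Hs).1)) f = 0 :=
      (hmem _).1 (Multiplicative.toAdd x : Hs).2 f hfS
    rw [h2, mul_zero, e5_aeval] at h
    exact h
  have hsum : ∑ χ ∈ I, (∑ m ∈ T with chi m = χ, coeff m p) • (χ : Multiplicative Hs → ℂ) = 0 := by
    funext x
    rw [Finset.sum_apply, Pi.zero_apply, ← hz x, ← Finset.sum_fiberwise_of_maps_to hI]
    refine Finset.sum_congr rfl fun χ _ => ?_
    rw [Pi.smul_apply, smul_eq_mul, Finset.sum_mul]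
    refine Finset.sum_congr rfl fun m hm => ?_
    rw [(Finset.mem_filter.1 hm).2]
  have hlin := linearIndependent_iff'.1 (linearIndependent_monoidHom (Multiplicative Hs) ℂ) I
    (fun χ => ∑ m ∈ T with chi m = χ, coeff m p) hsum
  obtain ⟨c, hc, h⟩ := key u
  have hne : aeval (fun i => Complex.exp (u i)) p ≠ 0 := by
    rw [h]
    exact mul_ne_zero (pow_ne_zero _ hc) hf
  apply hne
  rw [e5_aeval, ← Finset.sum_fiberwise_of_maps_to hI]
  refine Finset.sum_eq_zero fun χ hχ => ?_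
  obtain ⟨m₀, hm₀, rfl⟩ := Finset.mem_image.1 hχ
  have hconst : ∀ m ∈ T.filter (fun m => chi m = chi m₀),
      coeff m p * Complex.exp (∑ j, (m j : ℂ) * u j) =
        coeff m p * Complex.exp (∑ j, (m₀ j : ℂ) * u j) := by
    intro m hm
    have hm2 := (Finset.mem_filter.1 hm).2
    have h1 := hcon (fun j => (m j : ℤ) - (m₀ j : ℤ)) (by
      intro v hv
      have h3 := DFunLike.congr_fun hm2 (Multiplicative.ofAdd (⟨v, hv⟩ : Hs))
      have h4 : Complex.exp (∑ j, (m j : ℂ) * v j) = Complex.exp (∑ j, (m₀ j : ℂ) * v j) := h3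
      have h5 : ∑ j, (((m j : ℤ) - (m₀ j : ℤ) : ℤ) : ℂ) * v j =
          ∑ j, (m j : ℂ) * v j - ∑ j, (m₀ j : ℂ) * v j := by
        rw [← Finset.sum_sub_distrib]
        refine Finset.sum_congr rfl fun j _ => ?_
        push_cast
        ring
      rw [h5, Complex.exp_sub, h4, div_self (Complex.exp_ne_zero _)])
    have h5 : ∑ j, (((m j : ℤ) - (m₀ j : ℤ) : ℤ) : ℂ) * u j =
        ∑ j, (m j : ℂ) * u j - ∑ j, (m₀ j : ℂ) * u j := by
      rw [← Finset.sum_sub_distrib]
      refine Finset.sum_congr rfl fun j _ => ?_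
      push_cast
      ring
    rw [h5, Complex.exp_sub, div_eq_one_iff_eq (Complex.exp_ne_zero _)] at h1
    rw [h1]
  rw [Finset.sum_congr rfl hconst, ← Finset.sum_mul, hlin (chi m₀) hχ, zero_mul]

end GAL
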