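import Pool.Agent.GAL.B1
import Pool.Agent.GAV.Z3
import Pool.Agent.GAV.Z0

set_option autoImplicit false

open LTD MvPolynomial

namespace GAL

open GAV

variable {g s N κ M μ : ℕ} {k : IntermediateField ℚ ℂ}

/-! ## [GAL-E6] characters with rational values (file E6.lean)

Let `c₀ = exp(∑ a_j u₀_j) = ∏ x_j^{a_j}` (integer powers), `x_j = exp(u₀_j)`. Suppose `c₀ ∉ F`. `c₀` is in the field `F(x)`, `basis_through F hF (range x) .. c₀`: `y : Fin (n+1) → ℂ`, `y 0 = c₀`, algebraically independent over `F`, and everything algebraic over `F(x)` is algebraic over `F(y)`. `fresh` gives `y'` algebraically independent over `F` with `y' 0 ≠ c₀` (`Z = {c₀}`).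
`Ω` = closure of `F(y)` (`LTD.clo_adjoin`), `emb`: `σ : Ω → ℂ` with `σ|F = id`, `σ(c₀) = y' 0`. `x_j ∈ Ω`, `x'_j = σ(x_j) ≠ 0`, choose `u'_j` with `exp(u'_j) = x'_j` (`Complex.log`). For a homogeneous `f` over `F` with `f(θ(0,u₀)) = 0`: `f(inc(x)) = 0` (`G.inc_eq`: `inc(x) = c θ(0,u₀)`), apply `σ`: `f(inc(x')) = 0`, `inc(x') = c' θ(0,u')`, `c' ≠ 0`: `f(θ(0,u')) = 0`.
So `(0,u') ∈ V_F((0,u₀))`, `(0, u' - u₀) ∈ H`, `exp(∑ a_j (u'_j - u₀_j)) = 1`, i.e. `∏ x'_j^{a_j} = c₀`; but `∏ x'_j^{a_j} = σ(c₀) = y' 0 ≠ c₀`. -/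

theorem tor_rat (G : SAV g s N κ M μ k) (F : IntermediateField ℚ ℂ) (hk : k ≤ F) (hF : Clo F)
    (t : ℕ) (ht : Algebra.trdeg ℚ F ≤ (t : Cardinal))
    (H : AddSubgroup ((Fin g → ℂ) × (Fin s → ℂ))) (u₀ : Fin s → ℂ)
    (hV : ∀ z ∈ G.toGV.V F ((0 : Fin g → ℂ), u₀), z - ((0 : Fin g → ℂ), u₀) ∈ H)
    (a : Fin s → ℤ) (ha : ∀ u' : Fin s → ℂ, ((0 : Fin g → ℂ), u') ∈ H →
      Complex.exp (∑ j, (a j : ℂ) * u' j) = 1) :
    Complex.exp (∑ j, (a j : ℂ) * u₀ j) ∈ F := by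
  classical
  by_contra hc
  have hexp : ∀ u : Fin s → ℂ, Complex.exp (∑ j, (a j : ℂ) * u j) =
      ∏ j, Complex.exp (u j) ^ (a j) := by
    intro u
    rw [Complex.exp_sum]
    exact Finset.prod_congr rfl fun j _ => by rw [← Complex.exp_int_mul]
  let x : Fin s → ℂ := fun j => Complex.exp (u₀ j)
  obtain ⟨c₀, hc₀⟩ : ∃ c₀ : ℂ, c₀ = ∏ j, x j ^ (a j) := ⟨_, rfl⟩
  rw [hexp u₀] at hc
  change ∏ j, x j ^ (a j) ∉ F at hc
  rw [← hc₀] at hc
  have hcF : c₀ ∈ IntermediateField.adjoin F (Set.range x) := by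
    rw [hc₀]
    refine prod_mem fun j _ => zpow_mem ?_ _
    exact IntermediateField.subset_adjoin F (Set.range x) ⟨j, rfl⟩
  obtain ⟨n, y, -, hy0, hyi, -, hyalg⟩ := basis_through F hF (Set.range x) (Set.finite_range x) c₀
    (isAlgebraic_algebraMap (⟨c₀, hcF⟩ : IntermediateField.adjoin F (Set.range x))) hc
  obtain ⟨y', hy'i, hy'Z⟩ := fresh F t ht {c₀} (Set.countable_singleton _) (n + 1)
  obtain ⟨Ω, hFΩ, -, -, hΩ⟩ := clo_adjoin F t (n + 1) ht y
  obtain ⟨σ, hσF, hσy⟩ := emb F (n + 1) y y' hyi hy'i Ω hΩ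
  have hxΩ : ∀ j, x j ∈ Ω := by
    intro j
    rw [hΩ]
    apply hyalg
    exact isAlgebraic_algebraMap (⟨x j, IntermediateField.subset_adjoin F _ ⟨j, rfl⟩⟩ :
      IntermediateField.adjoin F (Set.range x))
  let xΩ : Fin s → Ω := fun j => ⟨x j, hxΩ j⟩
  let x' : Fin s → ℂ := fun j => σ (xΩ j)
  have hx' : ∀ j, x' j ≠ 0 := by
    intro j h
    have h1 : xΩ j = 0 := (map_eq_zero σ).1 h
    have h2 : x j = 0 := congrArg Subtype.val h1
    exact Complex.exp_ne_zero _ h2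
  let u' : Fin s → ℂ := fun j => Complex.log (x' j)
  have hu' : ∀ j, Complex.exp (u' j) = x' j := fun j => Complex.exp_log (hx' j)
  -- specialisation
  let i : F →+* Ω := (IntermediateField.inclusion hFΩ).toRingHom
  have spec : ∀ f : MvPolynomial (Fin s) F, aeval x f = 0 → aeval x' f = 0 := by
    intro f hf
    have h1 : ((eval₂ i xΩ f : Ω) : ℂ) = aeval x f := by
      have := eval₂_comp_left (algebraMap Ω ℂ) i xΩ f
      rw [aeval_def]
      exact this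
    have h2 : eval₂ i xΩ f = 0 := by
      apply Subtype.ext
      rw [h1, hf]
      rfl
    have h3 := eval₂_comp_left σ i xΩ f
    rw [h2, map_zero] at h3
    have h4 : σ.comp i = algebraMap F ℂ := by
      ext x
      exact hσF (i x) x.2
    rw [h4] at h3
    rw [aeval_def]
    exact h3.symm
  let incF : Fin (M + 1) → MvPolynomial (Fin s) F := fun j =>
    map (IntermediateField.inclusion hk).toRingHom (G.inc j)
  have hincF : ∀ (p : Fin s → ℂ) j, aeval p (incF j) = aeval p (G.inc j) := by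
    intro p j
    rw [aeval_def, aeval_def, eval₂_map]
    rfl
  obtain ⟨c₁, -, hc₁⟩ := G.inc_eq u₀
  obtain ⟨c₂, hc₂0, hc₂⟩ := G.inc_eq u'
  have hinc1 : (fun j => aeval x (incF j)) = c₁ • G.θ (0, u₀) := by
    funext j
    rw [hincF]
    exact hc₁ j
  have hinc2 : (fun j => aeval x' (incF j)) = c₂ • G.θ (0, u') := by
    funext j
    rw [hincF]
    have h := hc₂ j
    simp only [hu'] at h
    exact h
  have hzV : ((0 : Fin g → ℂ), u') ∈ G.toGV.V F ((0 : Fin g → ℂ), u₀) := by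
    intro f m hf h0
    have h1 : aeval x (bind₁ incF f) = 0 := by
      rw [aeval_bind₁, hinc1, z8_smul F f m hf, h0, mul_zero]
    have h2 := spec _ h1
    rw [aeval_bind₁, hinc2, z8_smul F f m hf] at h2
    exact (mul_eq_zero.mp h2).resolve_left (pow_ne_zero _ hc₂0)
  have h3 := hV _ hzV
  have h4 : ((0 : Fin g → ℂ), u') - ((0 : Fin g → ℂ), u₀) = ((0 : Fin g → ℂ), u' - u₀) := by
    rw [Prod.mk_sub_mk, sub_self]
  rw [h4] at h3
  have h5 := ha _ h3
  have h6 : (∑ j, (a j : ℂ) * (u' - u₀) j) =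
      (∑ j, (a j : ℂ) * u' j) - ∑ j, (a j : ℂ) * u₀ j := by
    rw [← Finset.sum_sub_distrib]
    exact Finset.sum_congr rfl fun j _ => by rw [Pi.sub_apply, mul_sub]
  rw [h6, Complex.exp_sub, div_eq_one_iff_eq (Complex.exp_ne_zero _), hexp, hexp] at h5
  have h7 : ∏ j, Complex.exp (u' j) ^ (a j) = σ (∏ j, xΩ j ^ (a j)) := by
    rw [map_prod]
    exact Finset.prod_congr rfl fun j _ => by rw [hu', map_zpow₀]
  have h8 : ((∏ j, xΩ j ^ (a j) : Ω) : ℂ) = c₀ := by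
    rw [hc₀]
    have h9 := map_prod (algebraMap Ω ℂ) (fun j => xΩ j ^ (a j)) Finset.univ
    refine h9.trans ?_
    exact Finset.prod_congr rfl fun j _ => map_zpow₀ (algebraMap Ω ℂ) (xΩ j) (a j)
  have h9 := hσy 0 (∏ j, xΩ j ^ (a j)) (h8.trans hy0.symm)
  apply hy'Z 0
  rw [Set.mem_singleton_iff, ← h9, ← h7, h5, hc₀]

end GAL
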