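import Pool.Agent.GAL.T9
import Pool.Agent.ELT.F4

set_option autoImplicit false

open LTD Module

namespace GAL

open GAV

/-! ## [GAL-E7] a linear form, and counting exponentials (file E7.lean)

`lam_ex`: the linear map `Φ : T × ℂ^s → ℂ^g × ℂ^s`, `(t, u) ↦ t + (0, u)`, is surjective (`hT`: given `(x, u)` choose `t ∈ T` with `t.1 = x`, `(x,u) - t = (0, ..)`), and the linear form `(t, u) ↦ ∑ a_j u_j` vanishes on its kernel (`t = (0, -u)`, `ha` for `-u`). So it factors through `Φ` (e.g. with a linear right inverse of `Φ`: `LinearMap.exists_rightInverse_of_surjective`).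
`exp_cnt`: `m` from `ELT.exp_count T`. `i` with `z i ≠ 0`. `slice` (T9.lean) for this `i` and `P a = (exp(..) ∈ F)`: for `b`, with `a' = update a i b`: `r + ∑_{i'} (∑_j a'_{i'j} w_j) z_{i'} = r' + z_i ∑_j b_j w_j`, `r'` independent of `b`: `ELT.exp_count` with `c = 1`. -/

theorem lam_ex (g s : ℕ) (T : Submodule ℂ ((Fin g → ℂ) × (Fin s → ℂ)))
    (hT : ∀ x : Fin g → ℂ, ∃ y ∈ T, y.1 = x) (a : Fin s → ℤ)
    (ha : ∀ u : Fin s → ℂ, ((0 : Fin g → ℂ), u) ∈ T → ∑ j, (a j : ℂ) * u j = 0) :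
    ∃ lam : ((Fin g → ℂ) × (Fin s → ℂ)) →ₗ[ℂ] ℂ, (∀ t ∈ T, lam t = 0) ∧
      ∀ u : Fin s → ℂ, lam ((0 : Fin g → ℂ), u) = ∑ j, (a j : ℂ) * u j := by
  let ψ : (Fin s → ℂ) →ₗ[ℂ] ℂ := ∑ j, (a j : ℂ) • LinearMap.proj j
  have hψ : ∀ u, ψ u = ∑ j, (a j : ℂ) * u j := by
    intro u
    simp [ψ]
  let Φ : (T × (Fin s → ℂ)) →ₗ[ℂ] ((Fin g → ℂ) × (Fin s → ℂ)) :=
    T.subtype.coprod (LinearMap.inr ℂ (Fin g → ℂ) (Fin s → ℂ))
  have hΦ : ∀ t u, Φ (t, u) = (t : (Fin g → ℂ) × (Fin s → ℂ)) + ((0 : Fin g → ℂ), u) := fun t u => rfl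
  have hsurj : LinearMap.range Φ = ⊤ := by
    rw [LinearMap.range_eq_top]
    rintro ⟨x, u⟩
    obtain ⟨y, hy, rfl⟩ := hT x
    refine ⟨(⟨y, hy⟩, u - y.2), ?_⟩
    rw [hΦ]
    apply Prod.ext
    · simp
    · simp
  obtain ⟨σ, hσ⟩ := LinearMap.exists_rightInverse_of_surjective Φ hsurj
  have hker : ∀ p q : T × (Fin s → ℂ), Φ p = Φ q → ψ p.2 = ψ q.2 := by
    intro p q hpq
    have h1 : ((0 : Fin g → ℂ), q.2 - p.2) = ((p.1 : (Fin g → ℂ) × (Fin s → ℂ)) - q.1) := by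
      have h2 : (p.1 : (Fin g → ℂ) × (Fin s → ℂ)) + ((0 : Fin g → ℂ), p.2) =
        (q.1 : (Fin g → ℂ) × (Fin s → ℂ)) + ((0 : Fin g → ℂ), q.2) := hpq
      have h3 : (p.1 : (Fin g → ℂ) × (Fin s → ℂ)) - q.1 =
        ((0 : Fin g → ℂ), q.2) - ((0 : Fin g → ℂ), p.2) := by
        rw [sub_eq_sub_iff_add_eq_add, h2, add_comm]
      rw [h3]
      simp
    have h2 : ((0 : Fin g → ℂ), q.2 - p.2) ∈ T := by
      rw [h1]
      exact T.sub_mem p.1.2 q.1.2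
    have h3 := ha _ h2
    have h4 : ψ (q.2 - p.2) = 0 := by rw [hψ]; exact h3
    rw [map_sub, sub_eq_zero] at h4
    exact h4.symm
  have hσ' : ∀ x, Φ (σ x) = x := fun x => by
    have := congrArg (fun f => f x) hσ
    simpa using this
  refine ⟨(ψ ∘ₗ LinearMap.snd ℂ T (Fin s → ℂ)) ∘ₗ σ, fun t ht => ?_, fun u => ?_⟩
  · have h1 := hker (σ t) (⟨t, ht⟩, 0) (by rw [hσ', hΦ]; simp)
    show ψ (σ t).2 = 0
    rw [h1]
    simp
  · have h1 := hker (σ ((0 : Fin g → ℂ), u)) (0, u) (by rw [hσ', hΦ]; simp)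
    show ψ (σ ((0 : Fin g → ℂ), u)).2 = _
    rw [h1, hψ]

theorem exp_cnt (T : ℕ) : ∃ m : ℕ, 1 ≤ m ∧ ∀ F : IntermediateField ℚ ℂ,
    Algebra.trdeg ℚ F ≤ (T : Cardinal) → ∀ (h : ℕ) (z : Fin h → ℂ) (r : ℂ), (∃ i, z i ≠ 0) →
      ∀ (K : IntermediateField ℚ ℂ) (D : ℕ) (w : Basis (Fin D) ℚ K) (H : ℕ),
        Set.ncard {a : Fin h → Fin D → ℤ | a ∈ z12_box h D H ∧
          Complex.exp (r + ∑ i, (∑ j, ((a i j : ℤ) : ℂ) * ((w j : K) : ℂ)) * z i) ∈ F} ≤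
            (2 * H + 1) ^ (h * D - D / m) := by
  obtain ⟨m, hm, hc⟩ := ELT.exp_count T
  refine ⟨m, hm, fun F hF h z r hz K D w H => ?_⟩
  obtain ⟨i, hi⟩ := hz
  refine slice h D m H i (fun a => Complex.exp (r + ∑ i, (∑ j, ((a i j : ℤ) : ℂ) *
    ((w j : K) : ℂ)) * z i) ∈ F) fun a => ?_
  have h1 := hc F hF 1 (z i) (r + ∑ i' ∈ Finset.univ.erase i, (∑ j, ((a i' j : ℤ) : ℂ) *
    ((w j : K) : ℂ)) * z i') one_ne_zero hi K D w H
  have h2 : ∀ b : Fin D → ℤ, r + ∑ i', (∑ j, (((Function.update a i b) i' j : ℤ) : ℂ) *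
      ((w j : K) : ℂ)) * z i' = (r + ∑ i' ∈ Finset.univ.erase i, (∑ j, ((a i' j : ℤ) : ℂ) *
      ((w j : K) : ℂ)) * z i') + z i * ∑ j, ((b j : ℤ) : ℂ) * (w j : ℂ) := by
    intro b
    rw [← Finset.sum_erase_add _ _ (Finset.mem_univ i), Function.update_self, ← add_assoc,
      mul_comm (z i)]
    congr 2
    refine Finset.sum_congr rfl fun i' hi' => ?_
    rw [Function.update_of_ne (Finset.ne_of_mem_erase hi')]
  simp only [one_mul] at h1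
  simp only [h2]
  exact h1

end GAL
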