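import Pool.Agent.GAL.E4
import Pool.Agent.GAL.E5
import Pool.Agent.GAL.E6
import Pool.Agent.GAL.E7

set_option autoImplicit false

open LTD Module

namespace GAL

open GAV

/-! ## [GAL-E8] the points whose locus is a coset of a given proper algebraic subgroup (file E8.lean)

`m` from `exp_cnt T`. If the set is empty: clear. Otherwise some `a₀` is in it and `TT_surj` (for `v = v(a₀)`, `H := S`) shows that every `x ∈ ℂ^g` is the first component of an element of `TT S`. `S ≠ ⊤`, so by `hρ` there are `c, i` with `c • ρ i ∉ S`. Choose `t ∈ TT S` with `t.1 = (ρ i).1`, `ρ i - t = (0, u_i)`; `(0, c • u_i) = c • ρ i - c • t ∉ S`. `chars` for `c • u_i`: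
`a` with `χ_a` trivial on `S ∩ (0 × ℂ^s)` and `exp(∑ a_j c u_ij) ≠ 1`, so `∑ a_j u_ij ≠ 0`. If `(0,u) ∈ TT S` then `exp(c' ∑ a_j u_j) = 1` for all `c' ∈ ℂ`, so `∑ a_j u_j = 0` (e.g. `c' = 1/(∑ a_j u_j)` would give `exp 1 = 1`). `lam_ex` for `T = TT S`: `lam`. `lam (ρ i) = lam t + ∑ a_j u_ij ≠ 0`.
For every `a'` in the set, `v = v(a')`: choose `t ∈ TT S` with `t.1 = v.1`, `v - t = (0, u₀)`. `(0,u₀) ∈ V_F(v)` (`(0,u₀) - v = -t ∈ S`), so `V_F((0,u₀)) ⊆ V_F(v)` (`V_trans`), and for `z` in it `z - (0,u₀) = (z - v) + t ∈ S`. `tor_rat`: `exp(∑ a_j u₀_j) ∈ F`, and `lam v = lam t + lam (0,u₀) = ∑ a_j u₀_j`. So `exp(lam v) ∈ F`, `lam v = lam r + ∑_i (∑_j a'_ij w_j) lam (ρ i)`.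
`exp_cnt`. -/

/-- for one point -/
theorem e8_pt {g s N κ M μ : ℕ} {k : IntermediateField ℚ ℂ} (G : SAV g s N κ M μ k)
    (F : IntermediateField ℚ ℂ) (hk : k ≤ F) (hF : Clo F) (T : ℕ)
    (ht : Algebra.trdeg ℚ F ≤ (T : Cardinal)) (S : AddSubgroup ((Fin g → ℂ) × (Fin s → ℂ)))
    (hT : ∀ x : Fin g → ℂ, ∃ y ∈ TT S, y.1 = x) (a : Fin s → ℤ)
    (ha : ∀ u' : Fin s → ℂ, ((0 : Fin g → ℂ), u') ∈ S →
      Complex.exp (∑ j, (a j : ℂ) * u' j) = 1)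
    (lam : ((Fin g → ℂ) × (Fin s → ℂ)) →ₗ[ℂ] ℂ) (hl1 : ∀ t ∈ TT S, lam t = 0)
    (hl2 : ∀ u : Fin s → ℂ, lam ((0 : Fin g → ℂ), u) = ∑ j, (a j : ℂ) * u j)
    (v : (Fin g → ℂ) × (Fin s → ℂ)) (hv : ∀ z, z ∈ G.toGV.V F v ↔ z - v ∈ S) :
    Complex.exp (lam v) ∈ F := by
  obtain ⟨t, htS, htv⟩ := hT v.1
  have h1 : v - t = ((0 : Fin g → ℂ), (v - t).2) := by
    refine Prod.ext ?_ rfl
    show v.1 - t.1 = 0
    rw [htv, sub_self]
  have htS' : t ∈ S := by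
    have := htS 1
    rwa [one_smul] at this
  have h2 : ((0 : Fin g → ℂ), (v - t).2) ∈ G.toGV.V F v := by
    rw [hv, ← h1]
    have h3 : v - t - v = -t := by abel
    rw [h3]
    exact S.neg_mem htS'
  have h4 := tor_rat G F hk hF T ht S (v - t).2 (fun z hz => by
    have h5 := (hv z).1 (V_trans G.toGV F h2 hz)
    rw [← h1]
    have h6 : z - (v - t) = (z - v) + t := by abel
    rw [h6]
    exact S.add_mem h5 htS') a ha
  have h7 : lam v = ∑ j, (a j : ℂ) * (v - t).2 j := by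
    rw [← hl2, ← h1, map_sub, hl1 t htS, sub_zero]
  rw [h7]
  exact h4

theorem sav_H (T : ℕ) : ∃ m : ℕ, 1 ≤ m ∧ ∀ (g s N κ M μ : ℕ) (k F : IntermediateField ℚ ℂ),
    k ≤ F → Algebra.trdeg ℚ F ≤ (T : Cardinal) → Clo F → ∀ (G : SAV g s N κ M μ k) (h : ℕ)
      (ρ : Fin h → (Fin g → ℂ) × (Fin s → ℂ)), G.toGV.Gen ρ → ∀ (r : (Fin g → ℂ) × (Fin s → ℂ))
      (K : IntermediateField ℚ ℂ) (D : ℕ) (w : Basis (Fin D) ℚ K) (H : ℕ)
      (S : AddSubgroup ((Fin g → ℂ) × (Fin s → ℂ))),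
        G.toGV.ZC (S : Set ((Fin g → ℂ) × (Fin s → ℂ))) → S ≠ ⊤ →
        Set.ncard {a : Fin h → Fin D → ℤ | a ∈ z12_box h D H ∧
          (∀ z, z ∈ (toGV G.A).V F (ptl r ρ (fun j => ((w j : K) : ℂ)) a).1) ∧
          ∀ z, z ∈ G.toGV.V F (ptl r ρ (fun j => ((w j : K) : ℂ)) a) ↔
            z - ptl r ρ (fun j => ((w j : K) : ℂ)) a ∈ S} ≤
          (2 * H + 1) ^ (h * D - D / m) := by
  obtain ⟨m, hm, hcnt⟩ := exp_cnt T
  refine ⟨m, hm, ?_⟩
  intro g s N κ M μ k F hk ht hF G h ρ hρ r K D w H S hS hSt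
  set A := {a : Fin h → Fin D → ℤ | a ∈ z12_box h D H ∧
          (∀ z, z ∈ (toGV G.A).V F (ptl r ρ (fun j => ((w j : K) : ℂ)) a).1) ∧
          ∀ z, z ∈ G.toGV.V F (ptl r ρ (fun j => ((w j : K) : ℂ)) a) ↔
            z - ptl r ρ (fun j => ((w j : K) : ℂ)) a ∈ S} with hA
  rcases A.eq_empty_or_nonempty with hAe | ⟨a₀, ha₀⟩
  · rw [hAe, Set.ncard_empty]
    exact Nat.zero_le _
  have hT : ∀ x : Fin g → ℂ, ∃ y ∈ TT S, y.1 = x :=
    TT_surj G F hk hF T ht _ ha₀.2.1 S hS (fun z hz => (ha₀.2.2 z).1 hz)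
  have h1 : ∃ (c : ℂ) (i : Fin h), c • ρ i ∉ S := by
    by_contra hcon
    push Not at hcon
    exact hSt (hρ S hS hcon)
  obtain ⟨c, i, hci⟩ := h1
  obtain ⟨t, htS, htρ⟩ := hT (ρ i).1
  set u := (ρ i - t).2 with hu
  have h2 : ρ i - t = ((0 : Fin g → ℂ), u) := by
    refine Prod.ext ?_ rfl
    show (ρ i).1 - t.1 = 0
    rw [htρ, sub_self]
  have h3 : ((0 : Fin g → ℂ), c • u) ∉ S := by
    intro hc
    apply hci
    have h4 : c • ρ i = ((0 : Fin g → ℂ), c • u) + c • t := by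
      have h5 : ((0 : Fin g → ℂ), c • u) = c • ((0 : Fin g → ℂ), u) := by
        refine Prod.ext ?_ rfl
        show (0 : Fin g → ℂ) = c • (0 : Fin g → ℂ)
        rw [smul_zero]
      rw [h5, ← h2, ← smul_add, sub_add_cancel]
    rw [h4]
    exact S.add_mem hc (htS c)
  obtain ⟨a, ha1, ha2⟩ := chars G S hS (c • u) h3
  have h6 : ∀ (d : ℂ) (u' : Fin s → ℂ), ∑ j, (a j : ℂ) * (d • u') j =
      d * ∑ j, (a j : ℂ) * u' j := by
    intro d u'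
    rw [Finset.mul_sum]
    refine Finset.sum_congr rfl fun j _ => ?_
    rw [Pi.smul_apply, smul_eq_mul]
    ring
  have h7 : ∑ j, (a j : ℂ) * u j ≠ 0 := by
    intro h0
    apply ha2
    rw [h6, h0, mul_zero, Complex.exp_zero]
  have h8 : ∀ u' : Fin s → ℂ, ((0 : Fin g → ℂ), u') ∈ TT S → ∑ j, (a j : ℂ) * u' j = 0 := by
    intro u' hu'
    by_contra h0
    have h9 := hu' (∑ j, (a j : ℂ) * u' j)⁻¹
    have h10 : (∑ j, (a j : ℂ) * u' j)⁻¹ • ((0 : Fin g → ℂ), u') =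
        ((0 : Fin g → ℂ), (∑ j, (a j : ℂ) * u' j)⁻¹ • u') := by
      refine Prod.ext ?_ rfl
      show (∑ j, (a j : ℂ) * u' j)⁻¹ • (0 : Fin g → ℂ) = 0
      rw [smul_zero]
    rw [h10] at h9
    have h11 := ha1 _ h9
    rw [h6, inv_mul_cancel₀ h0] at h11
    have h12 : ‖Complex.exp 1‖ = Real.exp 1 := by
      rw [Complex.norm_exp, Complex.one_re]
    rw [h11, norm_one] at h12
    have h13 := Real.add_one_lt_exp (one_ne_zero (α := ℝ))
    linarith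
  obtain ⟨lam, hl1, hl2⟩ := lam_ex g s (TT S) hT a h8
  have h14 : lam (ρ i) ≠ 0 := by
    have h15 : ρ i = ((0 : Fin g → ℂ), u) + t := by
      rw [← h2, sub_add_cancel]
    rw [h15, map_add, hl1 t htS, hl2, add_zero]
    exact h7
  refine le_trans (Set.ncard_le_ncard ?_ ?_) (hcnt F ht h (fun i => lam (ρ i)) (lam r) ⟨i, h14⟩
    K D w H)
  · rintro a' ⟨hb, -, hv⟩
    refine ⟨hb, ?_⟩
    have h16 := e8_pt G F hk hF T ht S hT a ha1 lam hl1 hl2 _ hv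
    have h17 : lam (ptl r ρ (fun j => ((w j : K) : ℂ)) a') =
        lam r + ∑ i, (∑ j, ((a' i j : ℤ) : ℂ) * ((w j : K) : ℂ)) * lam (ρ i) := by
      rw [ptl, map_add, map_sum]
      congr 1
      refine Finset.sum_congr rfl fun i _ => ?_
      rw [map_smul, smul_eq_mul]
    rw [h17] at h16
    exact h16
  · exact (z12_box h D H).finite_toSet.subset fun a' ha' => ha'.1

end GAL
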