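import Pool.Agent.GAL.N3
import Pool.Agent.GAL.E8

set_option autoImplicit false

open LTD Module

namespace GAL

open GAV

/-! ## [GAL-E9] every semi-abelian variety: almost all points are generic (file E9.lean)

`gen_fst`: let `S` be an algebraic subgroup of `A` containing all `c • (ρ i).1`. The first projection is a morphism over `k`, so over `ℂ` (`G.pr, pr_hom, pr_eq, pr_ne`; map the polynomials to `ℂ`): `mor_zc`: the inverse image of `S` (`AddSubgroup.comap`) is an algebraic subgroup of `G`, contains all `c • ρ i`, so it is `⊤`, and `S = ⊤` because `Prod.fst` is surjective.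
`sav_gen`: `T' = T + 2(M+1)(M+2)`, `m₁` from `av_gen g N κ T'`, `m₂` from `sav_H T'`, `m₀ = max m₁ m₂`, `m = 4^{M+2} m₀`, `β = 2 + 2(N+2)`, `c = β + 2(M+2)`. `claim` for `G.toGV`, `P F a = ∀ z, z ∈ (toGV G.A).V F (v a).1`. `hP`: `av_gen` with `gen_fst`, `(ptl r ρ w a).1 = ptl r.1 (fun i => (ρ i).1) w a`; `hH`: `sav_H`
(a larger `m` gives a weaker bound: `Nat.div_le_div_left`, `Nat.pow_le_pow_right`). `δ = M + 2`, `rk_rat_le`. -/

theorem gen_fst {g s N κ M μ : ℕ} {k : IntermediateField ℚ ℂ} (G : SAV g s N κ M μ k) {h : ℕ}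
    (ρ : Fin h → (Fin g → ℂ) × (Fin s → ℂ)) (hρ : G.toGV.Gen ρ) :
    (toGV G.A).Gen (fun i => (ρ i).1) := by
  intro S hS hmem
  have hmor : Mor k G.toGV (toGV G.A) (Prod.fst : (Fin g → ℂ) × (Fin s → ℂ) → (Fin g → ℂ)) := by
    intro z
    obtain ⟨i, j, hij⟩ := G.pr_ne z
    exact ⟨G.d, G.pr i, G.pr_hom i, fun z' => G.pr_eq i z', j, hij⟩
  have hzc := mor_zc G.toGV (toGV G.A) _ (mor_to_C G.toGV (toGV G.A) k _ hmor) _ hS
  have htop := hρ (S.comap (AddMonoidHom.fst (Fin g → ℂ) (Fin s → ℂ))) hzc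
    (fun c i => hmem c i)
  rw [eq_top_iff]
  intro x _
  have hx : ((x, 0) : (Fin g → ℂ) × (Fin s → ℂ)) ∈
      S.comap (AddMonoidHom.fst (Fin g → ℂ) (Fin s → ℂ)) := by
    rw [htop]; trivial
  exact hx

private theorem e9_ptl {g s h D : ℕ} (r : (Fin g → ℂ) × (Fin s → ℂ))
    (ρ : Fin h → (Fin g → ℂ) × (Fin s → ℂ)) (w : Fin D → ℂ) (a : Fin h → Fin D → ℤ) :
    (ptl r ρ w a).1 = ptl r.1 (fun i => (ρ i).1) w a := by
  simp only [ptl, Prod.fst_add, Prod.fst_sum, Prod.smul_fst]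

theorem sav_gen (g s N κ M μ T : ℕ) : ∃ m c : ℕ, 1 ≤ m ∧ ∀ k F : IntermediateField ℚ ℂ,
    k ≤ F → Algebra.trdeg ℚ F ≤ (T : Cardinal) → Clo F → ∀ (G : SAV g s N κ M μ k) (h : ℕ)
      (ρ : Fin h → (Fin g → ℂ) × (Fin s → ℂ)), G.toGV.Gen ρ → ∀ (r : (Fin g → ℂ) × (Fin s → ℂ))
      (K : IntermediateField ℚ ℂ) (D : ℕ) (w : Basis (Fin D) ℚ K) (H : ℕ),
        Set.ncard {a : Fin h → Fin D → ℤ | a ∈ z12_box h D H ∧
          ¬ ∀ z, z ∈ G.toGV.V F (ptl r ρ (fun j => ((w j : K) : ℂ)) a)} ≤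
          2 ^ (h * D + c) * (2 * H + 1) ^ (h * D - D / m) := by
  obtain ⟨m₁, hm₁, H₁⟩ := av_gen g N κ (T + 2 * (M + 1) * (M + 2))
  obtain ⟨m₂, hm₂, H₂⟩ := sav_H (T + 2 * (M + 1) * (M + 2))
  refine ⟨4 ^ (M + 2) * max m₁ m₂, (2 + 2 * (N + 2)) + 2 * (M + 2), ?_, ?_⟩
  · exact Nat.one_le_iff_ne_zero.2 (Nat.mul_ne_zero (by positivity) (by omega))
  intro k F hkF hT hF G h ρ hρ r K D w H
  have hmono : ∀ m' : ℕ, 1 ≤ m' → m' ≤ max m₁ m₂ →
      (2 * H + 1) ^ (h * D - D / m') ≤ (2 * H + 1) ^ (h * D - D / max m₁ m₂) := by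
    intro m' h1 h2
    apply Nat.pow_le_pow_right (by omega)
    have : D / max m₁ m₂ ≤ D / m' := Nat.div_le_div_left h2 (by omega)
    omega
  have key := claim G.toGV r ρ (fun j => ((w j : K) : ℂ)) H
    (fun F a => ∀ z, z ∈ (toGV G.A).V F (ptl r ρ (fun j => ((w j : K) : ℂ)) a).1)
    (max m₁ m₂) (2 + 2 * (N + 2)) (T + 2 * (M + 1) * (M + 2)) (by omega) (by omega)
    (by
      intro F' hk' ht' hF'
      have h1 := H₁ k F' hk' ht' hF' G.A h (fun i => (ρ i).1) (gen_fst G ρ hρ) r.1 K D w H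
      simp only [e9_ptl]
      refine h1.trans ?_
      have := hmono m₁ hm₁ (le_max_left _ _)
      rw [← add_assoc (h * D)]
      exact Nat.mul_le_mul_left _ this)
    (by
      intro F' hk' ht' hF' S hS hS'
      have h1 := H₂ g s N κ M μ k F' hk' ht' hF' G h ρ hρ r K D w H S hS hS'
      refine h1.trans ?_
      refine (hmono m₂ hm₂ (le_max_right _ _)).trans ?_
      exact Nat.le_mul_of_pos_left _ (by positivity))
    (M + 2) T le_rfl F hkF hT hF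
  rw [← add_assoc (h * D)]
  refine le_trans (le_of_eq ?_) key
  congr 1
  ext a
  simp only [Set.mem_ofPred_eq]
  constructor
  · rintro ⟨h1, h2⟩
    exact ⟨h1, lt_of_le_of_lt (rk_rat_le G.toGV F _) (by omega), h2⟩
  · rintro ⟨h1, -, h2⟩
    exact ⟨h1, h2⟩

end GAL
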