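import Pool.Agent.GAL.H1
import Pool.Agent.GAV.G1

set_option autoImplicit false

open MvPolynomial

namespace GAL

open GAV

variable {g N κ : ℕ} {k : IntermediateField ℚ ℂ}

/-! ## [GAL-H2] the subspace of an algebraic subgroup of an abelian variety is rational (file H2.lean)

`T = TT H`, `U` = the real span of `A.Λ ∩ T`, a closed subset (finite-dimensional real subspace). Let `x ∈ T`; `ε > 0` arbitrary, `ε ≤` the `ε₀` of `small_TT`. For `n ∈ ℕ`: `n x = l_n + y_n`, `l_n ∈ A.Λ`, `‖y_n‖ ≤ C` (`reduce`, `GAV/G1.lean`). The closed ball of radius `C` is compact, so there are `n < m` with `‖y_n - y_m‖ < ε` (totally bounded + pigeonhole, or a convergent subsequence).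
`y_m - y_n = (m - n) x - (l_m - l_n)` is in `H` (`x ∈ T ⊆ H`, `A.Λ ≤ H`: `zc_sub`), so in `T` (`small_TT`), so `l = l_m - l_n ∈ T ∩ A.Λ ⊆ U`, and the distance of `x` to `l/(m-n) ∈ U` is `≤ ε/(m-n) ≤ ε`. As `ε` is arbitrary, `x ∈ closure U = U`. -/

theorem TT_rat (A : AV g N κ k) (H : AddSubgroup (Fin g → ℂ))
    (hH : (toGV A).ZC (H : Set (Fin g → ℂ))) : RatSub A (TT H) := by
  intro x hx
  obtain ⟨ε₀, hε₀, hsmall⟩ := small_TT (toGV A) H hH
  obtain ⟨C, hC, hred⟩ := reduce A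
  have hLH : A.Λ ≤ H := zc_sub (toGV A) H hH
  set U : Submodule ℝ (Fin g → ℂ) := Submodule.span ℝ {l : Fin g → ℂ | l ∈ A.Λ ∧ l ∈ TT H} with hU
  have hclosed : IsClosed (U : Set (Fin g → ℂ)) := U.closed_of_finiteDimensional
  have key : x ∈ closure (U : Set (Fin g → ℂ)) := by
    rw [Metric.mem_closure_iff]
    intro δ hδ
    choose l hl hlC using fun n : ℕ => hred ((n : ℂ) • x)
    have hmem : ∀ n : ℕ, (n : ℂ) • x - l n ∈ Metric.closedBall (0 : Fin g → ℂ) C := by
      intro n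
      rw [mem_closedBall_zero_iff]
      exact hlC n
    obtain ⟨a, -, φ, hφ, hlim⟩ :=
      (isCompact_closedBall (0 : Fin g → ℂ) C).tendsto_subseq hmem
    have hcau := hlim.cauchySeq
    rw [Metric.cauchySeq_iff] at hcau
    obtain ⟨n₀, hn₀⟩ := hcau (min δ ε₀) (lt_min hδ hε₀)
    have hd := hn₀ (n₀ + 1) (Nat.le_succ _) n₀ le_rfl
    have hlt : φ n₀ < φ (n₀ + 1) := hφ (Nat.lt_succ_self _)
    rw [dist_eq_norm] at hd
    simp only [Function.comp_apply] at hd
    generalize φ (n₀ + 1) = m at hd hlt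
    generalize φ n₀ = n at hd hlt
    set z : Fin g → ℂ := (m : ℂ) • x - l m - ((n : ℂ) • x - l n) with hz
    have hzH : z ∈ H := by
      apply H.sub_mem
      · exact H.sub_mem (hx _) (hLH (hl m))
      · exact H.sub_mem (hx _) (hLH (hl n))
    have hzT : z ∈ TT H := hsmall z hzH (lt_of_lt_of_le hd (min_le_right _ _))
    have hl' : l m - l n ∈ TT H := by
      have e : l m - l n = ((m : ℂ) - n) • x - z := by
        rw [hz, sub_smul]
        abel
      rw [e]
      exact (TT H).sub_mem ((TT H).smul_mem _ hx) hzT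
    have hlU : l m - l n ∈ U := Submodule.subset_span ⟨A.Λ.sub_mem (hl m) (hl n), hl'⟩
    have hmn : (1 : ℝ) ≤ (m : ℝ) - n := by
      have : (n : ℝ) + 1 ≤ m := by exact_mod_cast hlt
      linarith
    refine ⟨((m : ℝ) - n)⁻¹ • (l m - l n), U.smul_mem _ hlU, ?_⟩
    have hne : ((m : ℝ) - n) ≠ 0 := by linarith
    have e2 : x - ((m : ℝ) - n)⁻¹ • (l m - l n) = ((m : ℝ) - n)⁻¹ • z := by
      have e3 : ((m : ℝ) - n) • x = (m : ℂ) • x - (n : ℂ) • x := by
        rw [← sub_smul]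
        have : ((m : ℝ) - n) • x = (((m : ℝ) - n : ℝ) : ℂ) • x := by
          rw [Complex.coe_smul]
        rw [this]
        push_cast
        rfl
      have e4 : z = ((m : ℝ) - n) • x - (l m - l n) := by
        rw [hz, e3]
        abel
      rw [e4, smul_sub _ (((m : ℝ) - n) • x), smul_smul, inv_mul_cancel₀ hne, one_smul]
    rw [dist_eq_norm, e2, norm_smul, norm_inv, Real.norm_eq_abs, abs_of_nonneg (by linarith)]
    have h1 : ((m : ℝ) - n)⁻¹ ≤ 1 := inv_le_one_of_one_le₀ hmn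
    calc ((m : ℝ) - n)⁻¹ * ‖z‖ ≤ 1 * ‖z‖ := mul_le_mul_of_nonneg_right h1 (norm_nonneg _)
      _ = ‖z‖ := one_mul _
      _ < δ := lt_of_lt_of_le hd (min_le_left _ _)
  rw [hclosed.closure_eq] at key
  exact key

end GAL
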