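import Pool.Agent.GAV.G1

set_option autoImplicit false

open MvPolynomial

namespace GAL

open GAV

variable {g N κ : ℕ} {k : IntermediateField ℚ ℂ}

/-! ## [GAL-L2] precise growth of the theta functions (file L2.lean)

Let `h(z) = ½ S z z + L z` with `L z = ∑_j (β_j - ½ S (ω_j) (ω_j)) repr(z)_j`, `L : ℂ^g →ₗ[ℝ] ℝ`. `h(z + ω_j) - h(z) = S (ω_j) z + ½ S(ω_j)(ω_j) + L(ω_j) = S (ω_j) z + β_j` (symmetry of `S`, `repr(ω_j)` is the unit vector). So `φ(z) = ‖θ z‖ exp(-h z)` satisfies `φ(z + ω_j) = φ(z)`, so `φ(z + l) = φ(z)` for all `l ∈ A.Λ`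
(`AddSubgroup.closure_induction`, for all `z`; negation: apply at `z - l`). `φ` is continuous, so bounded by `C` on a closed ball of radius `C₀` from `reduce` (`GAV/G1.lean`), and hence everywhere. -/

theorem growth2 (A : AV g N κ k) (S : (Fin g → ℂ) →ₗ[ℝ] (Fin g → ℂ) →ₗ[ℝ] ℝ) (β : Fin (2 * g) → ℝ)
    (hS : ∀ x y, S x y = S y x)
    (hθ : ∀ j z, ‖A.θ (z + A.ω j)‖ = Real.exp (S (A.ω j) z + β j) * ‖A.θ z‖) :
    ∃ (L : (Fin g → ℂ) →ₗ[ℝ] ℝ) (C : ℝ), ∀ z, ‖A.θ z‖ ≤ C * Real.exp (S z z / 2 + L z) := by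
  classical
  let L : (Fin g → ℂ) →ₗ[ℝ] ℝ := ∑ j, (β j - S (A.ω j) (A.ω j) / 2) • A.ω.coord j
  have hL : ∀ j, L (A.ω j) = β j - S (A.ω j) (A.ω j) / 2 := by
    intro j
    show (∑ i, (β i - S (A.ω i) (A.ω i) / 2) • A.ω.coord i) (A.ω j) = _
    rw [LinearMap.sum_apply, Finset.sum_eq_single j]
    · rw [LinearMap.smul_apply, Module.Basis.coord_apply, A.ω.repr_self, Finsupp.single_eq_same,
        smul_eq_mul, mul_one]
    · intro i _ hij
      rw [LinearMap.smul_apply, Module.Basis.coord_apply, A.ω.repr_self,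
        Finsupp.single_eq_of_ne hij, smul_zero]
    · intro h
      exact absurd (Finset.mem_univ j) h
  let φ : (Fin g → ℂ) → ℝ := fun z => ‖A.θ z‖ * Real.exp (-(S z z / 2 + L z))
  have hstep : ∀ j z, φ (z + A.ω j) = φ z := by
    intro j z
    show ‖A.θ (z + A.ω j)‖ * Real.exp (-(S (z + A.ω j) (z + A.ω j) / 2 + L (z + A.ω j))) =
      ‖A.θ z‖ * Real.exp (-(S z z / 2 + L z))
    have h1 : S (z + A.ω j) (z + A.ω j) = S z z + 2 * S (A.ω j) z + S (A.ω j) (A.ω j) := by
      simp only [map_add, LinearMap.add_apply]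
      rw [hS z (A.ω j)]
      ring
    rw [hθ, h1, map_add, hL]
    have h2 : Real.exp (-((S z z + 2 * S (A.ω j) z + S (A.ω j) (A.ω j)) / 2 +
        (L z + (β j - S (A.ω j) (A.ω j) / 2)))) =
        Real.exp (-(S z z / 2 + L z)) * Real.exp (-(S (A.ω j) z + β j)) := by
      rw [← Real.exp_add]
      congr 1
      ring
    rw [h2]
    have h3 : Real.exp (S (A.ω j) z + β j) * Real.exp (-(S (A.ω j) z + β j)) = 1 := by
      rw [← Real.exp_add, add_neg_cancel, Real.exp_zero]
    calc Real.exp (S (A.ω j) z + β j) * ‖A.θ z‖ *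
        (Real.exp (-(S z z / 2 + L z)) * Real.exp (-(S (A.ω j) z + β j)))
        = (Real.exp (S (A.ω j) z + β j) * Real.exp (-(S (A.ω j) z + β j))) *
          (‖A.θ z‖ * Real.exp (-(S z z / 2 + L z))) := by ring
      _ = ‖A.θ z‖ * Real.exp (-(S z z / 2 + L z)) := by rw [h3, one_mul]
  have hlat : ∀ l ∈ A.Λ, ∀ z, φ (z + l) = φ z := by
    intro l hl
    unfold AV.Λ at hl
    induction hl using AddSubgroup.closure_induction with
    | mem x hx =>
      obtain ⟨j, rfl⟩ := hx
      exact fun z => hstep j z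
    | zero => intro z; rw [add_zero]
    | add x y _ _ hx hy =>
      intro z
      rw [← add_assoc, hy, hx]
    | neg x _ hx =>
      intro z
      have h1 := hx (z + -x)
      rw [neg_add_cancel_right] at h1
      exact h1.symm
  have hcoord : ∀ i, Continuous fun z : Fin g → ℂ => A.ω.repr z i := by
    intro i
    exact (A.ω.coord i).continuous_of_finiteDimensional
  have hSz : ∀ z, S z z = ∑ i, ∑ j, A.ω.repr z i * (A.ω.repr z j * S (A.ω i) (A.ω j)) := by
    intro z
    have h1 : S z = ∑ i, A.ω.repr z i • S (A.ω i) := by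
      conv_lhs => rw [← A.ω.sum_repr z]
      rw [map_sum]
      simp only [map_smul]
    have h2 : ∀ T : (Fin g → ℂ) →ₗ[ℝ] ℝ, T z = ∑ j, A.ω.repr z j * T (A.ω j) := by
      intro T
      conv_lhs => rw [← A.ω.sum_repr z]
      rw [map_sum]
      simp only [map_smul, smul_eq_mul]
    rw [h1, LinearMap.sum_apply]
    refine Finset.sum_congr rfl fun i _ => ?_
    rw [LinearMap.smul_apply, h2 (S (A.ω i)), smul_eq_mul, Finset.mul_sum]
  have hcS : Continuous fun z : Fin g → ℂ => S z z := by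
    have h1 : (fun z : Fin g → ℂ => S z z) =
        fun z => ∑ i, ∑ j, A.ω.repr z i * (A.ω.repr z j * S (A.ω i) (A.ω j)) := funext hSz
    rw [h1]
    refine continuous_finsetSum _ fun i _ => continuous_finsetSum _ fun j _ => ?_
    exact (hcoord i).mul ((hcoord j).mul continuous_const)
  have hcφ : Continuous φ := by
    refine (A.diff.continuous.norm).mul (Real.continuous_exp.comp ?_)
    exact ((hcS.div_const 2).add L.continuous_of_finiteDimensional).neg
  obtain ⟨C₀, _, hred⟩ := reduce A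
  obtain ⟨C, hC⟩ := (isCompact_closedBall (0 : Fin g → ℂ) C₀).exists_bound_of_continuousOn
    hcφ.continuousOn
  refine ⟨L, C, fun z => ?_⟩
  obtain ⟨l, hl, hzl⟩ := hred z
  have h1 : φ z ≤ C := by
    have h2 : φ z = φ (z - l) := by
      have h3 := hlat l hl (z - l)
      rw [sub_add_cancel] at h3
      exact h3
    rw [h2]
    exact (le_abs_self _).trans (hC (z - l) (mem_closedBall_zero_iff.2 hzl))
  have h2 : ‖A.θ z‖ = φ z * Real.exp (S z z / 2 + L z) := by
    show ‖A.θ z‖ = ‖A.θ z‖ * Real.exp (-(S z z / 2 + L z)) * Real.exp (S z z / 2 + L z)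
    rw [mul_assoc, ← Real.exp_add, neg_add_cancel, Real.exp_zero, mul_one]
  rw [h2]
  exact mul_le_mul_of_nonneg_right h1 (Real.exp_pos _).le

end GAL
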