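import Pool.Agent.GAV.G1

set_option autoImplicit false

open MvPolynomial

namespace GAL

open GAV

variable {g N κ : ℕ} {k : IntermediateField ℚ ℂ}

/-! ## [GAL-L3] positivity (file L3.lean)

Suppose `x ≠ 0` and `S x x + S (I•x) (I•x) ≤ 0`. Put `a = S x x`, `b = S x (I•x)`, `c = S (I•x) (I•x)`. For `ζ = s + i t ∈ ℂ`: `ζ • x = s • x + t • (I•x)` (real scalars), `S (ζ•x) (ζ•x) = a s² + 2 b s t + c t² = ½(a+c)|ζ|² + Re((½(a-c) - i b) ζ²)` (`ζ² = s² - t² + 2 i s t`), so `½ S(ζ•x)(ζ•x) ≤ Re(p ζ²)`, `p = ½(½(a-c) - i b)`.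
`L (ζ•x) = s L x + t L (I•x) = Re(q ζ)`, `q = L x - i L(I•x)`. So every component of `f(ζ) = exp(-p ζ² - q ζ) • θ(ζ•x)` is a bounded entire function (`‖f(ζ)‖ ≤ C`; `C` may be replaced by `|C|`), hence constant (Liouville: `Differentiable.apply_eq_apply_of_bounded`): `f(ζ) = f(0) = θ 0`. So `θ(ζ•x) = exp(p ζ² + q ζ) • θ 0`;
the derivative at `ζ = 0` is `fderiv ℂ θ 0 x = q • θ 0`, so `x = 0` by `A.imm`. Contradiction. -/

theorem form_pos (A : AV g N κ k) (S : (Fin g → ℂ) →ₗ[ℝ] (Fin g → ℂ) →ₗ[ℝ] ℝ)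
    (hS : ∀ x y, S x y = S y x) (L : (Fin g → ℂ) →ₗ[ℝ] ℝ) (C : ℝ)
    (hC : ∀ z, ‖A.θ z‖ ≤ C * Real.exp (S z z / 2 + L z)) (x : Fin g → ℂ) (hx : x ≠ 0) :
    0 < S x x + S (Complex.I • x) (Complex.I • x) := by
  classical
  by_contra hcon
  push Not at hcon
  set a : ℝ := S x x with ha
  set b : ℝ := S x (Complex.I • x) with hb
  set c : ℝ := S (Complex.I • x) (Complex.I • x) with hc
  let p : ℂ := (((a - c) / 4 : ℝ) : ℂ) - Complex.I * ((b / 2 : ℝ) : ℂ)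
  let q : ℂ := ((L x : ℝ) : ℂ) - Complex.I * ((L (Complex.I • x) : ℝ) : ℂ)
  have hdec : ∀ ζ : ℂ, ζ • x = ζ.re • x + ζ.im • (Complex.I • x) := by
    intro ζ
    funext i
    simp only [Pi.smul_apply, Pi.add_apply, smul_eq_mul, Complex.real_smul]
    conv_lhs => rw [← Complex.re_add_im ζ]
    ring
  have hSζ : ∀ ζ : ℂ, S (ζ • x) (ζ • x) = a * ζ.re ^ 2 + 2 * b * ζ.re * ζ.im + c * ζ.im ^ 2 := by
    intro ζ
    have h1 : S (Complex.I • x) x = b := hS _ _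
    rw [hdec ζ]
    generalize hy : Complex.I • x = y at *
    simp only [map_add, map_smul, LinearMap.add_apply, LinearMap.smul_apply, smul_eq_mul]
    rw [h1, ← ha, ← hb, ← hc]
    ring
  have hLζ : ∀ ζ : ℂ, L (ζ • x) = ζ.re * L x + ζ.im * L (Complex.I • x) := by
    intro ζ
    rw [hdec ζ, map_add, map_smul, map_smul, smul_eq_mul, smul_eq_mul]
  have hpre : ∀ ζ : ℂ, (p * ζ ^ 2).re = (a - c) / 4 * (ζ.re ^ 2 - ζ.im ^ 2) + b * ζ.re * ζ.im := by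
    intro ζ
    have h1 : p.re = (a - c) / 4 := by simp [p]
    have h2 : p.im = -(b / 2) := by simp [p]
    have h3 : (ζ ^ 2).re = ζ.re ^ 2 - ζ.im ^ 2 := by
      rw [pow_two, Complex.mul_re]
      ring
    have h4 : (ζ ^ 2).im = 2 * ζ.re * ζ.im := by
      rw [pow_two, Complex.mul_im]
      ring
    rw [Complex.mul_re, h1, h2, h3, h4]
    ring
  have hqre : ∀ ζ : ℂ, (q * ζ).re = ζ.re * L x + ζ.im * L (Complex.I • x) := by
    intro ζ
    have h1 : q.re = L x := by simp [q]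
    have h2 : q.im = -(L (Complex.I • x)) := by simp [q]
    rw [Complex.mul_re, h1, h2]
    ring
  let f : ℂ → (Fin (N + 1) → ℂ) := fun ζ => Complex.exp (-(p * ζ ^ 2) - q * ζ) • A.θ (ζ • x)
  have hf : Differentiable ℂ f := by
    intro ζ
    have h1 : DifferentiableAt ℂ (fun ζ : ℂ => Complex.exp (-(p * ζ ^ 2) - q * ζ)) ζ := by fun_prop
    have h2 : DifferentiableAt ℂ (fun ζ : ℂ => A.θ (ζ • x)) ζ := by
      have h3 : DifferentiableAt ℂ (fun ζ : ℂ => ζ • x) ζ := by fun_prop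
      exact (A.diff (ζ • x)).comp ζ h3
    exact h1.smul h2
  have hbd : ∀ ζ, ‖f ζ‖ ≤ |C| := by
    intro ζ
    have h1 : ‖f ζ‖ = Real.exp (-(p * ζ ^ 2).re - (q * ζ).re) * ‖A.θ (ζ • x)‖ := by
      show ‖Complex.exp (-(p * ζ ^ 2) - q * ζ) • A.θ (ζ • x)‖ = _
      rw [norm_smul, Complex.norm_exp, Complex.sub_re, Complex.neg_re]
    have h2 : S (ζ • x) (ζ • x) / 2 + L (ζ • x) ≤ (p * ζ ^ 2).re + (q * ζ).re := by
      rw [hSζ, hLζ, hpre, hqre]
      nlinarith [mul_nonneg (by linarith : (0 : ℝ) ≤ -(a + c))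
        (add_nonneg (sq_nonneg ζ.re) (sq_nonneg ζ.im))]
    rw [h1]
    calc Real.exp (-(p * ζ ^ 2).re - (q * ζ).re) * ‖A.θ (ζ • x)‖
        ≤ Real.exp (-(p * ζ ^ 2).re - (q * ζ).re) *
          (|C| * Real.exp (S (ζ • x) (ζ • x) / 2 + L (ζ • x))) := by
          refine mul_le_mul_of_nonneg_left ?_ (Real.exp_pos _).le
          exact (hC _).trans (mul_le_mul_of_nonneg_right (le_abs_self C) (Real.exp_pos _).le)
      _ = |C| * Real.exp (-(p * ζ ^ 2).re - (q * ζ).re +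
          (S (ζ • x) (ζ • x) / 2 + L (ζ • x))) := by
          rw [Real.exp_add (-(p * ζ ^ 2).re - (q * ζ).re) (S (ζ • x) (ζ • x) / 2 + L (ζ • x))]
          ring
      _ ≤ |C| * 1 := by
          refine mul_le_mul_of_nonneg_left ?_ (abs_nonneg C)
          rw [Real.exp_le_one_iff]
          linarith
      _ = |C| := mul_one _
  have hconst : ∀ ζ, f ζ = A.θ 0 := by
    intro ζ
    have hb2 : Bornology.IsBounded (Set.range f) := by
      rw [isBounded_iff_forall_norm_le]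
      refine ⟨|C|, ?_⟩
      rintro _ ⟨ζ, rfl⟩
      exact hbd ζ
    have h1 := hf.apply_eq_apply_of_bounded hb2 ζ 0
    rw [h1]
    show Complex.exp (-(p * 0 ^ 2) - q * 0) • A.θ ((0 : ℂ) • x) = A.θ 0
    rw [zero_smul]
    have h2 : -(p * 0 ^ 2) - q * 0 = (0 : ℂ) := by ring
    rw [h2, Complex.exp_zero, one_smul]
  have hθ : ∀ ζ : ℂ, A.θ (ζ • x) = Complex.exp (p * ζ ^ 2 + q * ζ) • A.θ 0 := by
    intro ζ
    rw [← hconst ζ]
    show _ = Complex.exp (p * ζ ^ 2 + q * ζ) • (Complex.exp (-(p * ζ ^ 2) - q * ζ) • A.θ (ζ • x))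
    rw [smul_smul, ← Complex.exp_add]
    have h2 : p * ζ ^ 2 + q * ζ + (-(p * ζ ^ 2) - q * ζ) = 0 := by ring
    rw [h2, Complex.exp_zero, one_smul]
  have hd1 : HasDerivAt (fun ζ : ℂ => A.θ (ζ • x)) (fderiv ℂ A.θ 0 x) 0 := by
    have h3 : HasDerivAt (fun ζ : ℂ => ζ • x) ((1 : ℂ) • x) 0 :=
      (hasDerivAt_id (0 : ℂ)).smul_const x
    rw [one_smul] at h3
    have h4 : HasFDerivAt A.θ (fderiv ℂ A.θ 0) ((0 : ℂ) • x) := by
      rw [zero_smul]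
      exact (A.diff 0).hasFDerivAt
    exact h4.comp_hasDerivAt (0 : ℂ) h3
  have hd2 : HasDerivAt (fun ζ : ℂ => Complex.exp (p * ζ ^ 2 + q * ζ) • A.θ 0) (q • A.θ 0) 0 := by
    have h3 : HasDerivAt (fun ζ : ℂ => p * ζ ^ 2 + q * ζ) q 0 := by
      have h5 := ((hasDerivAt_pow 2 (0 : ℂ)).const_mul p).add ((hasDerivAt_id (0 : ℂ)).const_mul q)
      have h6 : p * ((2 : ℕ) * (0 : ℂ) ^ (2 - 1)) + q * 1 = q := by simp
      rw [h6] at h5
      exact h5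
    have h4 := h3.cexp.smul_const (A.θ 0)
    have h6 : Complex.exp (p * 0 ^ 2 + q * 0) * q = q := by simp
    rw [h6] at h4
    exact h4
  have heq : (fun ζ : ℂ => A.θ (ζ • x)) = fun ζ : ℂ => Complex.exp (p * ζ ^ 2 + q * ζ) • A.θ 0 :=
    funext hθ
  rw [heq] at hd1
  have h7 : fderiv ℂ A.θ 0 x = q • A.θ 0 := hd1.unique hd2
  exact hx (A.imm 0 x q h7)

end GAL
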