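import Pool.Agent.GAL.L1
import Pool.Agent.GAL.L2
import Pool.Agent.GAL.L3

set_option autoImplicit false

open MvPolynomial

namespace GAL

open GAV

variable {g N κ : ℕ} {k : IntermediateField ℚ ℂ}

/-! ## [GAL-L4] the Riemann form (file L4.lean)

`S, β` from `quasi_form`, `L, C` from `growth2`, `form_pos`. `B x y = (S (I•x) y - S x (I•y))/(2π)`. Alternating: `B y x = (S (I•y) x - S y (I•x))/(2π) = (S x (I•y) - S (I•x) y)/(2π) = -B x y` (symmetry). `B (I•x) (I•y) = (S (-x) (I•y) - S (I•x) (-y))/(2π) = B x y`. `B x (I•x) = (S (I•x) (I•x) - S x (-x))/(2π) = (S x x + S (I•x)(I•x))/(2π) > 0`.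
Integral on `A.Λ`: `quasi_form`. -/

theorem riemann (A : AV g N κ k) : ∃ B : (Fin g → ℂ) →ₗ[ℝ] (Fin g → ℂ) →ₗ[ℝ] ℝ,
    (∀ x y, B x y = -B y x) ∧ (∀ x y, B (Complex.I • x) (Complex.I • y) = B x y) ∧
    (∀ x, x ≠ 0 → 0 < B x (Complex.I • x)) ∧
    ∀ l ∈ A.Λ, ∀ l' ∈ A.Λ, ∃ m : ℤ, B l l' = m := by
  obtain ⟨S, β, hsym, hθ, hint⟩ := quasi_form A
  obtain ⟨L, C, hC⟩ := growth2 A S β hsym hθ
  have hpi : (0 : ℝ) < 2 * Real.pi := by positivity
  let B : (Fin g → ℂ) →ₗ[ℝ] (Fin g → ℂ) →ₗ[ℝ] ℝ :=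
    LinearMap.mk₂ ℝ (fun x y => (S (Complex.I • x) y - S x (Complex.I • y)) / (2 * Real.pi))
      (by
        intro x x' y
        rw [smul_add, map_add, map_add, LinearMap.add_apply, LinearMap.add_apply]
        ring)
      (by
        intro c x y
        have h : Complex.I • (c • x) = c • (Complex.I • x) := smul_comm _ _ _
        rw [h, S.map_smul c (Complex.I • x), S.map_smul c x, LinearMap.smul_apply,
          LinearMap.smul_apply, smul_eq_mul, smul_eq_mul, smul_eq_mul]
        ring)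
      (by
        intro x y y'
        rw [smul_add, map_add, map_add]
        ring)
      (by
        intro c x y
        have h : Complex.I • (c • y) = c • (Complex.I • y) := smul_comm _ _ _
        rw [h, (S (Complex.I • x)).map_smul c y, (S x).map_smul c (Complex.I • y),
          smul_eq_mul, smul_eq_mul, smul_eq_mul]
        ring)
  have hB : ∀ x y, B x y = (S (Complex.I • x) y - S x (Complex.I • y)) / (2 * Real.pi) :=
    fun x y => rfl
  have hII : ∀ x : Fin g → ℂ, Complex.I • (Complex.I • x) = -x := by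
    intro x
    rw [smul_smul, Complex.I_mul_I, neg_one_smul]
  refine ⟨B, ?_, ?_, ?_, ?_⟩
  · intro x y
    rw [hB, hB, hsym (Complex.I • x) y, hsym (Complex.I • y) x]
    ring
  · intro x y
    rw [hB, hB, hII, hII, map_neg, map_neg, LinearMap.neg_apply]
    ring
  · intro x hx
    rw [hB, hII, map_neg]
    have := form_pos A S hsym L C hC x hx
    apply div_pos _ hpi
    linarith
  · intro l hl l' hl'
    obtain ⟨m, hm⟩ := hint l hl l' hl'
    refine ⟨m, ?_⟩
    rw [hB, hm]
    field_simp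

end GAL
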