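import Pool.Agent.GAL.Def
import Pool.Agent.GAL.L4
import Pool.Agent.GAV.G1

set_option autoImplicit false

open MvPolynomial

namespace GAL

open GAV

variable {g N κ : ℕ} {k : IntermediateField ℚ ℂ}

/-! ## [GAL-H3] the complement of a rational subspace (file H3.lean)

`rat_span`: the real numbers `x_j` span a finite-dimensional `ℚ`-subspace of `ℝ`, with a basis `b_1..b_r`; `x_j = ∑_α q_{jα} b_α`, `q ∈ ℚ`. `∑_j M_ij x_j = 0` gives `∑_j M_ij q_{jα} = 0` for all `i, α` (independence of the `b_α` over `ℚ`). For every `α` let `d_α ≥ 1` be a common denominator of the `q_{jα}`: `z_α = (d_α q_{jα})_j` is an integer solution, `x = ∑_α (b_α/d_α) z_α`.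
`compl`: `E` from `riemann` (L4.lean). `T' = {x | ∀ y ∈ T, E x y = 0}`: a complex subspace: `E (I•x) y = -E (I•x) (I•(I•y)) = -E x (I•y) = 0` (`I•y ∈ T`; real scalars clear; a complex scalar is `a + b I`). `T ∩ T' = 0`: for `x` in it `E x (I•x) = 0`, so `x = 0`. `T + T' = ` everything: `T'` is the kernel of the real linear map
`x ↦ (y ↦ E x y)`, `ℂ^g → Dual_ℝ(T)`, so its real dimension is `≥ 2g - dim_ℝ T` (rank-nullity), `finrank ℂ T + finrank ℂ T' ≥ g`, with `T ∩ T' = 0`: `IsCompl` (`Submodule.isCompl_iff_disjoint`-like / `eq_top_of_disjoint`). `T'` is rational: `T` is spanned over `ℝ` by finitely many elements `l_1..l_m` of `A.Λ ∩ T` (`hT`; choose a finite spanning subset), so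
`T' = {x | ∀ i, E x l_i = 0}`; write `x = ∑ x_j ω_j` (`A.ω.repr`): `∑_j x_j E(ω_j, l_i) = 0`, with integers `M_ij = E(ω_j, l_i)`. `rat_span`: `x` is a real combination of integer solutions `z`, i.e. of the elements `∑ z_j ω_j ∈ A.Λ ∩ T'`. -/

private theorem h3_den (n : ℕ) (q : Fin n → ℚ) : ∃ d : ℕ, 0 < d ∧ ∃ z : Fin n → ℤ,
    ∀ j, (z j : ℚ) = d * q j := by
  refine ⟨∏ j, (q j).den, Finset.prod_pos fun j _ => (q j).pos, ?_⟩
  choose e he using fun j => Finset.dvd_prod_of_mem (fun j => (q j).den) (Finset.mem_univ j)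
  refine ⟨fun j => e j * (q j).num, fun j => ?_⟩
  rw [he j]
  push_cast
  rw [← Rat.mul_den_eq_num (q j)]
  ring

theorem rat_span (n m : ℕ) (Mx : Fin m → Fin n → ℤ) (x : Fin n → ℝ)
    (hx : ∀ i, ∑ j, (Mx i j : ℝ) * x j = 0) :
    x ∈ Submodule.span ℝ {y : Fin n → ℝ | ∃ z : Fin n → ℤ, (∀ j, y j = z j) ∧
      ∀ i, ∑ j, Mx i j * z j = 0} := by
  have hfd : Module.Finite ℚ (Submodule.span ℚ (Set.range x)) :=
    Module.Finite.span_of_finite ℚ (Set.finite_range x)
  set V : Submodule ℚ ℝ := Submodule.span ℚ (Set.range x) with hV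
  let b := Module.finBasis ℚ V
  let xV : Fin n → V := fun j => ⟨x j, Submodule.subset_span ⟨j, rfl⟩⟩
  have hsum : ∀ i, ∑ j, ((Mx i j : ℤ) : ℚ) • xV j = 0 := by
    intro i
    apply Subtype.ext
    rw [Submodule.coe_sum, Submodule.coe_zero, ← hx i]
    refine Finset.sum_congr rfl fun j _ => ?_
    show ((Mx i j : ℤ) : ℚ) • x j = _
    rw [Rat.smul_def]
    push_cast
    rfl
  have hq : ∀ i α, ∑ j, ((Mx i j : ℤ) : ℚ) * b.repr (xV j) α = 0 := by
    intro i α
    have h1 := congrArg (fun v => b.repr v α) (hsum i)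
    simpa [map_sum, Finsupp.finsetSum_apply] using h1
  have hxe : x = ∑ α, ((b α : V) : ℝ) • fun j => ((b.repr (xV j) α : ℚ) : ℝ) := by
    funext j
    have h1 := congrArg (fun v : V => (v : ℝ)) (b.sum_repr (xV j))
    simp only [Submodule.coe_sum, Submodule.coe_smul] at h1
    rw [Finset.sum_apply]
    change _ = x j at h1
    rw [← h1]
    refine Finset.sum_congr rfl fun α _ => ?_
    rw [Pi.smul_apply, smul_eq_mul, Rat.smul_def]
    ring
  rw [hxe]
  refine Submodule.sum_mem _ fun α _ => Submodule.smul_mem _ _ ?_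
  obtain ⟨d, hd, z, hz⟩ := h3_den n fun j => b.repr (xV j) α
  have hd' : (d : ℝ) ≠ 0 := by exact_mod_cast hd.ne'
  have hdq : (d : ℚ) ≠ 0 := by exact_mod_cast hd.ne'
  have e : (fun j => ((b.repr (xV j) α : ℚ) : ℝ)) = (d : ℝ)⁻¹ • fun j => ((z j : ℤ) : ℝ) := by
    funext j
    rw [Pi.smul_apply, smul_eq_mul]
    have h1 : ((z j : ℤ) : ℝ) = d * ((b.repr (xV j) α : ℚ) : ℝ) := by
      exact_mod_cast congrArg (fun t : ℚ => (t : ℝ)) (hz j)
    rw [h1, inv_mul_cancel_left₀ hd']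
  rw [e]
  refine Submodule.smul_mem _ _ (Submodule.subset_span ⟨z, fun j => rfl, fun i => ?_⟩)
  have h1 : ((∑ j, Mx i j * z j : ℤ) : ℚ) = 0 := by
    push_cast
    have h2 : ∑ j, ((Mx i j : ℤ) : ℚ) * ((z j : ℤ) : ℚ) =
        d * ∑ j, ((Mx i j : ℤ) : ℚ) * b.repr (xV j) α := by
      rw [Finset.mul_sum]
      refine Finset.sum_congr rfl fun j _ => ?_
      rw [hz j]
      ring
    rw [h2, hq, mul_zero]
  exact_mod_cast h1

theorem compl (A : AV g N κ k) (T : Submodule ℂ (Fin g → ℂ)) (hT : RatSub A T) :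
    ∃ T' : Submodule ℂ (Fin g → ℂ), IsCompl T T' ∧ RatSub A T' := by
  obtain ⟨B, halt, hI, hpos, hint⟩ := riemann A
  have hII : ∀ x : Fin g → ℂ, Complex.I • (Complex.I • x) = -x := by
    intro x
    rw [smul_smul, Complex.I_mul_I, neg_one_smul]
  have hBI : ∀ x y, B (Complex.I • x) y = -B x (Complex.I • y) := by
    intro x y
    have h1 := hI (Complex.I • x) y
    rw [hII, map_neg, LinearMap.neg_apply] at h1
    rw [← h1]
  have hsm : ∀ (c : ℂ) (x : Fin g → ℂ), c • x = c.re • x + c.im • (Complex.I • x) := by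
    intro c x
    funext i
    rw [Pi.add_apply, Pi.smul_apply, Pi.smul_apply, Pi.smul_apply, Pi.smul_apply, smul_eq_mul,
      smul_eq_mul, Complex.real_smul, Complex.real_smul]
    conv_lhs => rw [← Complex.re_add_im c]
    ring
  let T' : Submodule ℂ (Fin g → ℂ) :=
    { carrier := {x | ∀ y ∈ T, B x y = 0}
      zero_mem' := fun y _ => by rw [map_zero, LinearMap.zero_apply]
      add_mem' := fun {a b} ha hb y hy => by
        rw [map_add, LinearMap.add_apply, ha y hy, hb y hy, add_zero]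
      smul_mem' := fun c x hx y hy => by
        rw [hsm c x, map_add, map_smul, map_smul, LinearMap.add_apply, LinearMap.smul_apply,
          LinearMap.smul_apply, hx y hy, hBI, hx _ (T.smul_mem _ hy), neg_zero, smul_zero,
          smul_zero, add_zero] }
  have hT'mem : ∀ x, x ∈ T' ↔ ∀ y ∈ T, B x y = 0 := fun x => Iff.rfl
  have hdis : ∀ x, x ∈ T → x ∈ T' → x = 0 := by
    intro x h1 h2
    by_contra hne
    exact (hpos x hne).ne' ((hT'mem x).1 h2 _ (T.smul_mem _ h1))
  have htop : T ⊔ T' = ⊤ := by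
    let Tr : Submodule ℝ (Fin g → ℂ) := T.restrictScalars ℝ
    let Tr' : Submodule ℝ (Fin g → ℂ) := T'.restrictScalars ℝ
    let φ : (Fin g → ℂ) →ₗ[ℝ] (Tr →ₗ[ℝ] ℝ) :=
      { toFun := fun x => (B x).comp Tr.subtype
        map_add' := fun x y => by rw [map_add, LinearMap.add_comp]
        map_smul' := fun c x => by rw [map_smul, LinearMap.smul_comp, RingHom.id_apply] }
    have hker : LinearMap.ker φ = Tr' := by
      ext x
      rw [LinearMap.mem_ker]
      constructor
      · intro h y hy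
        have := congrArg (fun f : Tr →ₗ[ℝ] ℝ => f ⟨y, hy⟩) h
        exact this
      · intro h
        refine LinearMap.ext fun y => ?_
        exact h y.1 y.2
    have h1 := LinearMap.finrank_range_add_finrank_ker φ
    rw [hker] at h1
    have h2 : Module.finrank ℝ (LinearMap.range φ) ≤ Module.finrank ℝ (Tr →ₗ[ℝ] ℝ) :=
      Submodule.finrank_le _
    have h3 : Module.finrank ℝ (Tr →ₗ[ℝ] ℝ) = Module.finrank ℝ Tr := by
      rw [Module.finrank_linearMap, Module.finrank_self, mul_one]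
    have h4 : Tr ⊔ Tr' = ⊤ := by
      refine Submodule.eq_top_of_disjoint _ _ (by omega) ?_
      rw [Submodule.disjoint_def]
      exact hdis
    rw [eq_top_iff]
    intro x _
    have h5 : x ∈ Tr ⊔ Tr' := h4 ▸ Submodule.mem_top
    obtain ⟨y, hy, z, hz, e⟩ := Submodule.mem_sup.1 h5
    exact Submodule.mem_sup.2 ⟨y, hy, z, hz, e⟩
  refine ⟨T', ⟨Submodule.disjoint_def.2 hdis, codisjoint_iff.2 htop⟩, ?_⟩
  intro x hx
  have hfg : (Submodule.span ℝ {l : Fin g → ℂ | l ∈ A.Λ ∧ l ∈ T}).FG := IsNoetherian.noetherian _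
  obtain ⟨s, hs, hs'⟩ := (Submodule.fg_span_iff_fg_span_finset_subset _).1 hfg
  let l : Fin s.card → (Fin g → ℂ) := fun i => (s.equivFin.symm i : Fin g → ℂ)
  have hl : ∀ i, l i ∈ A.Λ ∧ l i ∈ T := fun i => hs (s.equivFin.symm i).2
  have hωΛ : ∀ j, A.ω j ∈ A.Λ := fun j => AddSubgroup.subset_closure ⟨j, rfl⟩
  choose Mx hMx using fun i j => hint (A.ω j) (hωΛ j) (l i) (hl i).1
  have hB : ∀ (v : Fin (2 * g) → ℝ) (i : Fin s.card),
      B (∑ j, v j • A.ω j) (l i) = ∑ j, (Mx i j : ℝ) * v j := by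
    intro v i
    rw [map_sum, LinearMap.sum_apply]
    refine Finset.sum_congr rfl fun j _ => ?_
    rw [map_smul, LinearMap.smul_apply, smul_eq_mul, hMx, mul_comm]
  have hkey : ∀ v : Fin (2 * g) → ℝ, (∀ i, ∑ j, (Mx i j : ℝ) * v j = 0) →
      ∑ j, v j • A.ω j ∈ T' := by
    intro v hv y hy
    have h1 : y ∈ Submodule.span ℝ (s : Set (Fin g → ℂ)) := hs' ▸ hT y hy
    have h2 : Submodule.span ℝ (s : Set (Fin g → ℂ)) ≤
        LinearMap.ker (B (∑ j, v j • A.ω j)) := by
      refine Submodule.span_le.2 fun t ht => ?_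
      have h3 : l (s.equivFin ⟨t, ht⟩) = t := by
        show ((s.equivFin.symm (s.equivFin ⟨t, ht⟩) : s) : Fin g → ℂ) = t
        rw [Equiv.symm_apply_apply]
      show B (∑ j, v j • A.ω j) t = 0
      rw [← h3, hB, hv]
    exact h2 h1
  have hrepr : ∑ j, A.ω.repr x j • A.ω j = x := A.ω.sum_repr x
  have hc : ∀ i, ∑ j, (Mx i j : ℝ) * A.ω.repr x j = 0 := by
    intro i
    rw [← hB, hrepr]
    exact hx _ (hl i).2
  have h1 := rat_span (2 * g) s.card Mx (fun j => A.ω.repr x j) hc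
  let Lm : (Fin (2 * g) → ℝ) →ₗ[ℝ] (Fin g → ℂ) := Fintype.linearCombination ℝ A.ω
  have hLm : ∀ v, Lm v = ∑ j, v j • A.ω j := fun v => Fintype.linearCombination_apply ℝ A.ω v
  have h2 : Lm (fun j => A.ω.repr x j) = x := by rw [hLm]; exact hrepr
  rw [← h2]
  have h3 := Submodule.mem_map_of_mem (f := Lm) h1
  rw [Submodule.map_span] at h3
  refine Submodule.span_mono ?_ h3
  rintro _ ⟨y, ⟨z, hz, hz'⟩, rfl⟩
  refine ⟨?_, ?_⟩
  · rw [hLm]
    refine AddSubgroup.sum_mem _ fun j _ => ?_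
    rw [hz j, Int.cast_smul_eq_zsmul]
    exact AddSubgroup.zsmul_mem _ (hωΛ j) _
  · rw [hLm]
    refine hkey y fun i => ?_
    have h4 := hz' i
    have h5 : ((∑ j, Mx i j * z j : ℤ) : ℝ) = 0 := by exact_mod_cast h4
    push_cast at h5
    rw [← h5]
    exact Finset.sum_congr rfl fun j _ => by rw [hz j]

end GAL
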