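import Pool.Agent.GAV.G1

set_option autoImplicit false

open MvPolynomial

namespace GAL

open GAV

variable {g N κ : ℕ} {k : IntermediateField ℚ ℂ}

/-! ## [GAL-L1] the bilinear form of the quasi-periods (file L1.lean)

`A.quasi j`: choose `a_j : Fin g → ℂ`, `b_j`. Let `α(x)(y) = ∑_j repr(x)_j ∑_i a_j,i y_i`, real linear in `x ∈ ℂ^g`, complex linear in `y`; `α(ω_j)(y) = ∑_i a_j,i y_i =: a_j(y)`. Cocycle: compute `θ(z + ω_j + ω_k)` in two ways: `exp(a_j(z + ω_k) + b_j + a_k(z) + b_k) = exp(a_k(z + ω_j) + b_k + a_j(z) + b_j)` (`θ z ≠ 0`), so `exp(a_j(ω_k) - a_k(ω_j)) = 1`,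
`a_j(ω_k) - a_k(ω_j) = 2πi m_jk`, `m_jk ∈ ℤ`. `S(x, y) = Re α(x)(y)`: real bilinear, symmetric on the basis `ω` (`Re(2πi m) = 0`), so symmetric. `‖θ(z + ω_j)‖ = exp(Re(a_j(z) + b_j)) ‖θ z‖ = exp(S(ω_j, z) + β_j) ‖θ z‖`, `β_j = Re b_j`.
Integrality: `α(x)(i y) = i α(x)(y)`, so `Im α(x)(y) = -S(x, i y)`. So `S(i x, y) - S(x, i y) = S(y, i x) - S(x, i y) = -Im α(y)(x) + Im α(x)(y)`, which for `x = ω_j, y = ω_k` is `Im(a_j(ω_k) - a_k(ω_j)) = 2π m_jk`. Both sides are additive in `x` and in `y`: the set of the `l` such that for all `k` the value `S(i l, ω_k) - S(l, i ω_k)` is in `2πℤ` is a subgroup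
containing the `ω_j`, and the same for the second variable (`AddSubgroup.closure_induction` twice). -/

theorem quasi_form (A : AV g N κ k) :
    ∃ (S : (Fin g → ℂ) →ₗ[ℝ] (Fin g → ℂ) →ₗ[ℝ] ℝ) (β : Fin (2 * g) → ℝ),
      (∀ x y, S x y = S y x) ∧
      (∀ j z, ‖A.θ (z + A.ω j)‖ = Real.exp (S (A.ω j) z + β j) * ‖A.θ z‖) ∧
      ∀ l ∈ A.Λ, ∀ l' ∈ A.Λ, ∃ m : ℤ,
        S (Complex.I • l) l' - S l (Complex.I • l') = 2 * Real.pi * m := by
  choose a b hab using A.quasi
  let al : Fin (2 * g) → (Fin g → ℂ) → ℂ := fun j y => ∑ i, a j i * y i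
  have al_add : ∀ j y y', al j (y + y') = al j y + al j y' := by
    intro j y y'
    simp only [al, Pi.add_apply, mul_add, Finset.sum_add_distrib]
  have al_smul : ∀ j (c : ℂ) y, al j (c • y) = c * al j y := by
    intro j c y
    simp only [al, Pi.smul_apply, smul_eq_mul, Finset.mul_sum]
    exact Finset.sum_congr rfl fun i _ => by ring
  have al_rsmul : ∀ j (c : ℝ) y, al j (c • y) = c * al j y := by
    intro j c y
    have : c • y = (c : ℂ) • y := by
      funext i
      show c • (y i) = (c : ℂ) * (y i)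
      exact Complex.real_smul
    rw [this, al_smul]
  have al_zero : ∀ j, al j 0 = 0 := by
    intro j
    simp [al]
  have hab' : ∀ j z, A.θ (z + A.ω j) = Complex.exp (al j z + b j) • A.θ z := hab
  have hcoc : ∀ j l, ∃ n : ℤ, al l (A.ω j) = al j (A.ω l) + n * (2 * Real.pi * Complex.I) := by
    intro j l
    have h1 : A.θ (0 + A.ω j + A.ω l) =
        (Complex.exp (al l (0 + A.ω j) + b l) * Complex.exp (al j 0 + b j)) • A.θ 0 := by
      rw [hab' l, hab' j, smul_smul]
    have h2 : A.θ (0 + A.ω l + A.ω j) =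
        (Complex.exp (al j (0 + A.ω l) + b j) * Complex.exp (al l 0 + b l)) • A.θ 0 := by
      rw [hab' j, hab' l, smul_smul]
    have h3 : (0 : Fin g → ℂ) + A.ω j + A.ω l = 0 + A.ω l + A.ω j := by abel
    rw [h3, h2] at h1
    have h4 := smul_left_injective ℂ (A.ne 0) h1
    rw [← Complex.exp_add, ← Complex.exp_add, Complex.exp_eq_exp_iff_exists_int] at h4
    obtain ⟨n, hn⟩ := h4
    refine ⟨-n, ?_⟩
    rw [zero_add, zero_add, al_zero, al_zero] at hn
    push_cast
    linear_combination -hn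
  let S : (Fin g → ℂ) →ₗ[ℝ] (Fin g → ℂ) →ₗ[ℝ] ℝ :=
    LinearMap.mk₂ ℝ (fun x y => ∑ j, A.ω.repr x j * (al j y).re)
      (by
        intro x x' y
        rw [← Finset.sum_add_distrib]
        refine Finset.sum_congr rfl fun j _ => ?_
        rw [map_add, Finsupp.add_apply, add_mul])
      (by
        intro c x y
        rw [smul_eq_mul, Finset.mul_sum]
        refine Finset.sum_congr rfl fun j _ => ?_
        rw [map_smul, Finsupp.smul_apply, smul_eq_mul, mul_assoc])
      (by
        intro x y y'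
        rw [← Finset.sum_add_distrib]
        refine Finset.sum_congr rfl fun j _ => ?_
        rw [al_add, Complex.add_re, mul_add])
      (by
        intro c x y
        rw [smul_eq_mul, Finset.mul_sum]
        refine Finset.sum_congr rfl fun j _ => ?_
        rw [al_rsmul, Complex.re_ofReal_mul]
        ring)
  have hS : ∀ x y, S x y = ∑ j, A.ω.repr x j * (al j y).re := fun x y => rfl
  have hSω : ∀ j y, S (A.ω j) y = (al j y).re := by
    intro j y
    rw [hS, Finset.sum_eq_single j]
    · rw [A.ω.repr_self, Finsupp.single_eq_same, one_mul]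
    · intro i _ hi
      rw [A.ω.repr_self, Finsupp.single_eq_of_ne hi, zero_mul]
    · intro h
      exact absurd (Finset.mem_univ j) h
  have hsym' : S = S.flip := by
    refine A.ω.ext fun j => A.ω.ext fun l => ?_
    rw [LinearMap.flip_apply, hSω, hSω]
    obtain ⟨n, hn⟩ := hcoc j l
    rw [hn, Complex.add_re]
    have : ((n : ℂ) * (2 * Real.pi * Complex.I)).re = 0 := by
      simp
    rw [this, add_zero]
  have hsym : ∀ x y, S x y = S y x := by
    intro x y
    conv_lhs => rw [hsym']
    rfl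
  refine ⟨S, fun j => (b j).re, hsym, ?_, ?_⟩
  · intro j z
    rw [hab' j z, norm_smul, Complex.norm_exp, Complex.add_re, hSω]
  · have hbase : ∀ j l, ∃ m : ℤ,
        S (Complex.I • A.ω j) (A.ω l) - S (A.ω j) (Complex.I • A.ω l) = 2 * Real.pi * m := by
      intro j l
      obtain ⟨n, hn⟩ := hcoc j l
      refine ⟨-n, ?_⟩
      rw [hsym (Complex.I • A.ω j) (A.ω l), hSω, hSω, al_smul, al_smul, hn]
      simp
      ring
    have h1 : ∀ l' ∈ A.Λ, ∀ j, ∃ m : ℤ,
        S (Complex.I • A.ω j) l' - S (A.ω j) (Complex.I • l') = 2 * Real.pi * m := by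
      intro l' hl' j
      unfold AV.Λ at hl'
      induction hl' using AddSubgroup.closure_induction with
      | mem x hx =>
        obtain ⟨i, rfl⟩ := hx
        exact hbase j i
      | zero => exact ⟨0, by simp⟩
      | add x y _ _ hx hy =>
        obtain ⟨m, hm⟩ := hx
        obtain ⟨m', hm'⟩ := hy
        refine ⟨m + m', ?_⟩
        rw [smul_add, map_add, map_add]
        push_cast
        linear_combination hm + hm'
      | neg x _ hx =>
        obtain ⟨m, hm⟩ := hx
        refine ⟨-m, ?_⟩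
        rw [smul_neg, map_neg, map_neg]
        push_cast
        linear_combination -hm
    intro l hl l' hl'
    unfold AV.Λ at hl
    induction hl using AddSubgroup.closure_induction with
    | mem x hx =>
      obtain ⟨i, rfl⟩ := hx
      exact h1 l' hl' i
    | zero => exact ⟨0, by simp⟩
    | add x y _ _ hx hy =>
      obtain ⟨m, hm⟩ := hx
      obtain ⟨m', hm'⟩ := hy
      refine ⟨m + m', ?_⟩
      rw [smul_add, map_add, map_add, LinearMap.add_apply, LinearMap.add_apply]
      push_cast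
      linear_combination hm + hm'
    | neg x _ hx =>
      obtain ⟨m, hm⟩ := hx
      refine ⟨-m, ?_⟩
      rw [smul_neg, map_neg, map_neg, LinearMap.neg_apply, LinearMap.neg_apply]
      push_cast
      linear_combination -hm

end GAL
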