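import Pool.Agent.GAV.Z12

set_option autoImplicit false

namespace GAL

open GAV

/-! ## [GAL-N1] the numbers and the triples (file N1.lean)

`num'`: `M = (2H+1)^n`, `(4H+1)^n ≤ 2^n M`, `Y = (2H+1)^{D/m}`, `Y' = (2H+1)^{D/(4m)}`, `Y'^4 ≤ Y` (`4 (D/(4m)) ≤ D/m`), `(2H+1)^{n - D/m} Y = M` (`hD`), `(2H+1)^{n - D/(4m)} Y' = M`. So `B Y, Bd Y ≤ 2^{n+β} M`.
Case 1, `x Bd² ≤ 2M²B`: `x⁴ ≤ 2^n M · 4M²B`, `(x Y')⁴ ≤ x⁴ Y ≤ 2^{n+2} M³ · 2^{n+β} M = 2^{2n+β+2} M⁴ ≤ (2^{n+β} M)⁴` (`2n+β+2 ≤ 4n+4β`), so `x Y' ≤ 2^{n+β} M = 2^{n+β} (2H+1)^{n-D/(4m)} Y'`, divide by `Y'`.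
Case 2, `2M²B < x Bd²`: `x⁴ ≤ 2^n M · 2x Bd²`, `x ≥ 1`: `x³ ≤ 2^{n+1} M Bd²`; `(x Y')³ ≤ x³ Y² ≤ 2^{n+1} M (2^{n+β} M)² = 2^{3n+2β+1} M³ ≤ (2^{n+β} M)³` (`2β + 1 ≤ 3β`; `Y'³ ≤ Y'^8 ≤ Y²`). Same end.
`triple'`: (compare `GAV.z12_triple`) `T` is the union of three parts: `P₀`: at most `Bx.card · B · Bx.card`; `P₁`: at most `Bx.card² B`; the third: for every `a ∈ S` at most `Bd²` pairs. -/

theorem num' (n D m β H x B Bd : ℕ) (hn : 1 ≤ n) (hβ : 2 ≤ β) (hD : D / m ≤ n)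
    (hB : B ≤ 2 ^ (n + β) * (2 * H + 1) ^ (n - D / m))
    (hBd : Bd ≤ 2 ^ (n + β) * (2 * H + 1) ^ (n - D / m))
    (h : x ^ 4 ≤ (4 * H + 1) ^ n * (2 * ((2 * H + 1) ^ n) ^ 2 * B + x * Bd ^ 2)) :
    x ≤ 2 ^ (n + β) * (2 * H + 1) ^ (n - D / (4 * m)) := by
  have hp : 4 * (D / (4 * m)) ≤ D / m := by
    rw [mul_comm 4 m, ← Nat.div_div_eq_div_mul]
    exact Nat.mul_div_le _ _
  obtain ⟨p, hpd⟩ : ∃ p, p = D / (4 * m) := ⟨_, rfl⟩
  obtain ⟨q, hqd⟩ : ∃ q, q = D / m := ⟨_, rfl⟩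
  obtain ⟨A, hA⟩ : ∃ A, A = 2 * H + 1 := ⟨_, rfl⟩
  rw [← hpd, ← hqd] at hp
  rw [← hqd] at hD hB hBd
  rw [← hA] at h hB hBd
  rw [← hpd, ← hA]
  have hA1 : 1 ≤ A := by omega
  have h1 : (4 * H + 1) ^ n ≤ 2 ^ n * A ^ n := by
    rw [← mul_pow]
    exact Nat.pow_le_pow_left (by omega) n
  have hY : ∀ Z : ℕ, Z ≤ 2 ^ (n + β) * A ^ (n - q) → Z * A ^ q ≤ 2 ^ (n + β) * A ^ n := by
    intro Z hZ
    calc Z * A ^ q ≤ (2 ^ (n + β) * A ^ (n - q)) * A ^ q := Nat.mul_le_mul_right _ hZ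
      _ = 2 ^ (n + β) * A ^ n := by
          rw [mul_assoc, ← pow_add]
          congr 2
          omega
  have hBY := hY B hB
  have hBdY := hY Bd hBd
  have h4 : x * A ^ p ≤ 2 ^ (n + β) * A ^ n := by
    rcases Nat.le_total (x * Bd ^ 2) (2 * (A ^ n) ^ 2 * B) with hc | hc
    · have h3 : (x * A ^ p) ^ 4 ≤ (2 ^ (n + β) * A ^ n) ^ 4 := by
        calc (x * A ^ p) ^ 4 = x ^ 4 * A ^ (4 * p) := by rw [mul_pow, ← pow_mul, mul_comm p 4]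
          _ ≤ ((4 * H + 1) ^ n * (2 * (A ^ n) ^ 2 * B + x * Bd ^ 2)) * A ^ q :=
              Nat.mul_le_mul h (Nat.pow_le_pow_right hA1 hp)
          _ ≤ ((2 ^ n * A ^ n) * (2 * (A ^ n) ^ 2 * B + 2 * (A ^ n) ^ 2 * B)) * A ^ q :=
              Nat.mul_le_mul_right _ (Nat.mul_le_mul h1 (Nat.add_le_add_left hc _))
          _ = 2 ^ (n + 2) * (A ^ n) ^ 3 * (B * A ^ q) := by
              rw [pow_add]
              ring
          _ ≤ 2 ^ (n + 2) * (A ^ n) ^ 3 * (2 ^ (n + β) * A ^ n) := Nat.mul_le_mul_left _ hBY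
          _ = 2 ^ ((n + 2) + (n + β)) * (A ^ n) ^ 4 := by
              rw [pow_add 2 (n + 2) (n + β)]
              ring
          _ ≤ 2 ^ (4 * (n + β)) * (A ^ n) ^ 4 :=
              Nat.mul_le_mul_right _ (Nat.pow_le_pow_right (by norm_num) (by omega))
          _ = (2 ^ (n + β) * A ^ n) ^ 4 := by rw [mul_pow, ← pow_mul 2 (n + β) 4, mul_comm (n + β) 4]
      exact (Nat.pow_le_pow_iff_left (by norm_num)).1 h3
    · rcases Nat.eq_zero_or_pos x with hx0 | hx0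
      · rw [hx0, zero_mul]
        exact Nat.zero_le _
      have h2 : x ^ 3 ≤ 2 ^ (n + 1) * A ^ n * Bd ^ 2 := by
        have h5 : x ^ 3 * x ≤ (2 ^ (n + 1) * A ^ n * Bd ^ 2) * x := by
          calc x ^ 3 * x = x ^ 4 := by ring
            _ ≤ (4 * H + 1) ^ n * (2 * (A ^ n) ^ 2 * B + x * Bd ^ 2) := h
            _ ≤ (2 ^ n * A ^ n) * (x * Bd ^ 2 + x * Bd ^ 2) :=
                Nat.mul_le_mul h1 (Nat.add_le_add_right hc _)
            _ = (2 ^ (n + 1) * A ^ n * Bd ^ 2) * x := by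
                rw [pow_add]
                ring
        exact Nat.le_of_mul_le_mul_right h5 hx0
      have h3 : (x * A ^ p) ^ 3 ≤ (2 ^ (n + β) * A ^ n) ^ 3 := by
        calc (x * A ^ p) ^ 3 = x ^ 3 * A ^ (3 * p) := by rw [mul_pow, ← pow_mul, mul_comm p 3]
          _ ≤ (2 ^ (n + 1) * A ^ n * Bd ^ 2) * A ^ (2 * q) :=
              Nat.mul_le_mul h2 (Nat.pow_le_pow_right hA1 (by omega))
          _ = 2 ^ (n + 1) * A ^ n * (Bd * A ^ q) ^ 2 := by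
              rw [mul_pow Bd, ← pow_mul A q 2, mul_comm q 2]
              ring
          _ ≤ 2 ^ (n + 1) * A ^ n * (2 ^ (n + β) * A ^ n) ^ 2 :=
              Nat.mul_le_mul_left _ (Nat.pow_le_pow_left hBdY 2)
          _ = 2 ^ ((n + 1) + 2 * (n + β)) * (A ^ n) ^ 3 := by
              rw [mul_pow, ← pow_mul 2 (n + β) 2, mul_comm (n + β) 2, pow_add 2 (n + 1) (2 * (n + β))]
              ring
          _ ≤ 2 ^ (3 * (n + β)) * (A ^ n) ^ 3 :=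
              Nat.mul_le_mul_right _ (Nat.pow_le_pow_right (by norm_num) (by omega))
          _ = (2 ^ (n + β) * A ^ n) ^ 3 := by rw [mul_pow, ← pow_mul 2 (n + β) 3, mul_comm (n + β) 3]
      exact (Nat.pow_le_pow_iff_left (by norm_num)).1 h3
  have h5 : 2 ^ (n + β) * A ^ n = (2 ^ (n + β) * A ^ (n - p)) * A ^ p := by
    rw [mul_assoc, ← pow_add A]
    congr 2
    omega
  rw [h5] at h4
  exact Nat.le_of_mul_le_mul_right h4 (pow_pos (by omega) _)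

theorem triple' {X : Type} (Bx S : Finset X) (hS : S ⊆ Bx) (T : Finset (X × X × X))
    (hT : T ⊆ S ×ˢ S ×ˢ S) (P₀ : X → X → Prop) (P₁ : X → X → X → Prop) (Q : X → X → Prop)
    (B Bd : ℕ)
    (h : ∀ x ∈ T, P₀ x.1 x.2.1 ∨ P₁ x.1 x.2.1 x.2.2 ∨ (Q x.1 x.2.1 ∧ Q x.1 x.2.2))
    (h0 : ∀ a ∈ Bx, Set.ncard {b | b ∈ Bx ∧ P₀ a b} ≤ B)
    (h1 : ∀ a ∈ Bx, ∀ b ∈ Bx, Set.ncard {c | c ∈ Bx ∧ P₁ a b c} ≤ B)
    (h2 : ∀ a ∈ S, Set.ncard {b | b ∈ Bx ∧ Q a b} ≤ Bd) :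
    T.card ≤ 2 * Bx.card ^ 2 * B + S.card * Bd ^ 2 := by
  classical
  have k1 := z12_triple Bx S hS (T.filter fun x => P₀ x.1 x.2.1 ∨ P₁ x.1 x.2.1 x.2.2)
    ((Finset.filter_subset _ _).trans hT) P₀ P₁ B (fun x hx => (Finset.mem_filter.1 hx).2) h0 h1
  have g2 : ∀ a ∈ S, (Bx.filter fun b => Q a b).card ≤ Bd := by
    intro a ha
    have h3 := h2 a ha
    rw [← Set.ncard_coe_finset, Finset.coe_filter]
    exact h3
  have k2 : ((S ×ˢ Bx ×ˢ Bx).filter fun x => Q x.1 x.2.1 ∧ Q x.1 x.2.2).card ≤ S.card * Bd ^ 2 := by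
    rw [Finset.card_filter, Finset.sum_product]
    calc ∑ a ∈ S, ∑ y ∈ Bx ×ˢ Bx, (if Q a y.1 ∧ Q a y.2 then 1 else 0)
        = ∑ a ∈ S, (Bx.filter fun b => Q a b).card * (Bx.filter fun b => Q a b).card := by
          refine Finset.sum_congr rfl fun a _ => ?_
          rw [← Finset.card_product, ← Finset.card_filter]
          congr 1
          ext y
          rw [Finset.mem_filter, Finset.mem_product, Finset.mem_product, Finset.mem_filter,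
            Finset.mem_filter]
          tauto
      _ ≤ ∑ _a ∈ S, Bd ^ 2 := Finset.sum_le_sum fun a ha => by
          rw [pow_two]
          exact Nat.mul_le_mul (g2 a ha) (g2 a ha)
      _ = S.card * Bd ^ 2 := by rw [Finset.sum_const, smul_eq_mul]
  have hsub : T ⊆ (T.filter fun x => P₀ x.1 x.2.1 ∨ P₁ x.1 x.2.1 x.2.2) ∪
      (S ×ˢ Bx ×ˢ Bx).filter fun x => Q x.1 x.2.1 ∧ Q x.1 x.2.2 := by
    intro x hx
    have h3 := hT hx
    rw [Finset.mem_product, Finset.mem_product] at h3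
    have h4 : x ∈ S ×ˢ Bx ×ˢ Bx := by
      rw [Finset.mem_product, Finset.mem_product]
      exact ⟨h3.1, hS h3.2.1, hS h3.2.2⟩
    rcases h x hx with h5 | h5 | h5
    · exact Finset.mem_union_left _ (Finset.mem_filter.2 ⟨hx, Or.inl h5⟩)
    · exact Finset.mem_union_left _ (Finset.mem_filter.2 ⟨hx, Or.inr h5⟩)
    · exact Finset.mem_union_right _ (Finset.mem_filter.2 ⟨h4, h5⟩)
  calc T.card ≤ _ := Finset.card_le_card hsub
    _ ≤ _ := Finset.card_union_le _ _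
    _ ≤ 2 * Bx.card ^ 2 * B + S.card * Bd ^ 2 := Nat.add_le_add k1 k2

end GAL
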