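import Pool.Agent.GAL.P1
import Pool.Agent.GAV.Z6

set_option autoImplicit false

open MvPolynomial LTD

namespace GAL

open GAV

variable {E : Type} [NormedAddCommGroup E] [NormedSpace ℂ E] {M μ : ℕ} {k : IntermediateField ℚ ℂ}

/-! ## [GAL-P2] sums of loci (file P2.lean)

`lawG_smul`: as `GAV.law_smul` (`GAV/G3.lean`). `V_addG`: PORT of `GAV/Z6.lean` (`GAV.V_add`) to a general `G : GV E M μ k`, with `pl3G`. `ratG_sub`: PORT of `GAV.rat_sub` (`GAV/F2.lean`). `ratG_alg`: PORT of `GAV.rat_alg` (`GAV/Z10.lean`). -/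

theorem lawG_smul (G : GV E M μ k) (a b : ℂ) (p q : Fin (M + 1) → ℂ) (i : Fin G.n)
    (j : Fin (M + 1)) : aeval (Sum.elim (a • p) (b • q)) (G.law i j) =
      a ^ μ * b ^ μ * aeval (Sum.elim p q) (G.law i j) := by
  rw [aeval_def, aeval_def, eval₂_eq', eval₂_eq', Finset.mul_sum]
  refine Finset.sum_congr rfl (fun m hm => ?_)
  obtain ⟨h1, h2⟩ := G.law_hom i j m hm
  rw [Fintype.prod_sum_type, Fintype.prod_sum_type]
  have h3 : ∏ l, (Sum.elim (a • p) (b • q) (Sum.inl l)) ^ m (Sum.inl l) =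
      a ^ μ * ∏ l, (Sum.elim p q (Sum.inl l)) ^ m (Sum.inl l) := by
    rw [← h1, ← Finset.prod_pow_eq_pow_sum, ← Finset.prod_mul_distrib]
    refine Finset.prod_congr rfl (fun l _ => ?_)
    rw [Sum.elim_inl, Sum.elim_inl, Pi.smul_apply, smul_eq_mul, mul_pow]
  have h4 : ∏ l, (Sum.elim (a • p) (b • q) (Sum.inr l)) ^ m (Sum.inr l) =
      b ^ μ * ∏ l, (Sum.elim p q (Sum.inr l)) ^ m (Sum.inr l) := by
    rw [← h2, ← Finset.prod_pow_eq_pow_sum, ← Finset.prod_mul_distrib]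
    refine Finset.prod_congr rfl (fun l _ => ?_)
    rw [Sum.elim_inr, Sum.elim_inr, Pi.smul_apply, smul_eq_mul, mul_pow]
  rw [h3, h4]
  ring

theorem p2_law2 (G : GV E M μ k) (v₀ v₁ v₂ : E) : ∃ i j, ∃ c : ℂ, c ≠ 0 ∧ ∀ l,
    aeval (Sum.elim (G.θ v₀) (fun l' => aeval (Sum.elim (G.θ v₁) (G.θ v₂)) (G.law j l')))
      (G.law i l) = c * G.θ (v₀ - (v₁ - v₂)) l := by
  obtain ⟨j, l1, h1⟩ := G.law_ne v₁ v₂
  obtain ⟨c1, e1⟩ := G.law_eq j v₁ v₂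
  have hc1 : c1 ≠ 0 := by
    rintro rfl
    exact h1 (by rw [e1, zero_mul])
  obtain ⟨i, l2, h2⟩ := G.law_ne v₀ (v₁ - v₂)
  obtain ⟨c2, e2⟩ := G.law_eq i v₀ (v₁ - v₂)
  have hc2 : c2 ≠ 0 := by
    rintro rfl
    exact h2 (by rw [e2, zero_mul])
  refine ⟨i, j, c1 ^ μ * c2, mul_ne_zero (pow_ne_zero _ hc1) hc2, fun l => ?_⟩
  have e3 : (fun l' => aeval (Sum.elim (G.θ v₁) (G.θ v₂)) (G.law j l')) = c1 • G.θ (v₁ - v₂) := by
    funext l'
    rw [e1]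
    rfl
  have e4 := lawG_smul G 1 c1 (G.θ v₀) (G.θ (v₁ - v₂)) i l
  rw [one_smul, one_pow, one_mul] at e4
  rw [e3, e4, e2]
  ring

/-- the composed law `law_i (X, law_j (Y, Z))` -/
noncomputable def p2_comp (G : GV E M μ k) (F : IntermediateField ℚ ℂ) (hk : k ≤ F) (i j : Fin G.n)
    (l : Fin (M + 1)) : MvPolynomial (Fin (M + 1) ⊕ (Fin (M + 1) ⊕ Fin (M + 1))) F :=
  bind₁ (Sum.elim (fun l' => X (Sum.inl l')) (fun l' => rename Sum.inr
    (map (IntermediateField.inclusion hk).toRingHom (G.law j l'))))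
    (map (IntermediateField.inclusion hk).toRingHom (G.law i l))

theorem p2_comp_aeval (G : GV E M μ k) (F : IntermediateField ℚ ℂ) (hk : k ≤ F) (i j : Fin G.n)
    (l : Fin (M + 1)) (a b c : Fin (M + 1) → ℂ) :
    aeval (Sum.elim a (Sum.elim b c)) (p2_comp G F hk i j l) =
      aeval (Sum.elim a (fun l' => aeval (Sum.elim b c) (G.law j l'))) (G.law i l) := by
  rw [p2_comp, aeval_bind₁, z6_map]
  have e : (fun i => aeval (R := F) (Sum.elim a (Sum.elim b c)) (Sum.elim (fun l' => X (Sum.inl l'))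
      (fun l' => rename Sum.inr (map (IntermediateField.inclusion hk).toRingHom (G.law j l'))) i)) =
      Sum.elim a (fun l' => aeval (Sum.elim b c) (G.law j l')) := by
    funext x
    rcases x with x | x
    · simp
    · simp only [Sum.elim_inr]
      rw [aeval_rename, Sum.elim_comp_inr, z6_map]
  rw [e]

theorem V_addG (G : GV E M μ k) (F : IntermediateField ℚ ℂ) (hk : k ≤ F) (hF : Clo F) (t : ℕ)
    (ht : Algebra.trdeg ℚ F ≤ (t : Cardinal)) (v₀ v₁ v₂ : E)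
    (h : rk F (G.rat v₀) + rk F (G.rat v₁) + rk F (G.rat v₂) ≤
      rk F (G.rat v₀ ∪ G.rat v₁ ∪ G.rat v₂)) (z₀ z₁ z₂ : E)
    (h₀ : z₀ ∈ G.V F v₀) (h₁ : z₁ ∈ G.V F v₁) (h₂ : z₂ ∈ G.V F v₂) :
    z₀ - (z₁ - z₂) ∈ G.V F (v₀ - (v₁ - v₂)) := by
  intro f n hf h0
  obtain ⟨i, j, c, hc, e⟩ := p2_law2 G z₀ z₁ z₂
  have key := pl3G G F hF t ht v₀ v₁ v₂ h z₀ z₁ z₂ h₀ h₁ h₂ (bind₁ (p2_comp G F hk i j) f) (by
    intro s₀ s₁ s₂
    obtain ⟨c1, e1⟩ := G.law_eq j v₁ v₂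
    obtain ⟨c2, e2⟩ := G.law_eq i v₀ (v₁ - v₂)
    have e3 : (fun l' => aeval (Sum.elim (s₁ • G.θ v₁) (s₂ • G.θ v₂)) (G.law j l')) =
        (s₁ ^ μ * s₂ ^ μ * c1) • G.θ (v₁ - v₂) := by
      funext l'
      rw [lawG_smul, e1, Pi.smul_apply, smul_eq_mul]
      ring
    have e4 : (fun l => aeval (Sum.elim (s₀ • G.θ v₀) (Sum.elim (s₁ • G.θ v₁) (s₂ • G.θ v₂)))
        (p2_comp G F hk i j l)) = (s₀ ^ μ * (s₁ ^ μ * s₂ ^ μ * c1) ^ μ * c2) • G.θ (v₀ - (v₁ - v₂)) := by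
      funext l
      rw [p2_comp_aeval, e3, lawG_smul, e2, Pi.smul_apply, smul_eq_mul]
      ring
    rw [aeval_bind₁, e4, aeval_smul_hom F f n hf, h0, mul_zero])
  rw [aeval_bind₁] at key
  have e5 : (fun l => aeval (Sum.elim (G.θ z₀) (Sum.elim (G.θ z₁) (G.θ z₂))) (p2_comp G F hk i j l)) =
      c • G.θ (z₀ - (z₁ - z₂)) := by
    funext l
    rw [p2_comp_aeval, e, Pi.smul_apply, smul_eq_mul]
  rw [e5, aeval_smul_hom F f n hf] at key
  exact (mul_eq_zero.1 key).resolve_left (pow_ne_zero _ hc)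

theorem p2_aeval {σ : Type} (k F : IntermediateField ℚ ℂ) (hk : k ≤ F) (x : σ → ℂ)
    (hx : ∀ s, x s ∈ F) (f : MvPolynomial σ k) : aeval x f ∈ F := by
  induction f using MvPolynomial.induction_on with
  | C a =>
    rw [aeval_C]
    exact hk a.2
  | add p q hp hq =>
    rw [map_add]
    exact add_mem hp hq
  | mul_X p n hp =>
    rw [map_mul, aeval_X]
    exact mul_mem hp (hx n)

theorem ratG_sub (G : GV E M μ k) (F : IntermediateField ℚ ℂ) (hk : k ≤ F) {z w : E}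
    (hz : G.rat z ⊆ F) (hw : G.rat w ⊆ F) : G.rat (z - w) ⊆ F := by
  obtain ⟨b, hb⟩ : ∃ b, G.θ z b ≠ 0 := by
    by_contra h
    push Not at h
    exact G.ne z (funext h)
  obtain ⟨b', hb'⟩ : ∃ b, G.θ w b ≠ 0 := by
    by_contra h
    push Not at h
    exact G.ne w (funext h)
  obtain ⟨i, j, hij⟩ := G.law_ne z w
  obtain ⟨c, hc⟩ := G.law_eq i z w
  have hc0 : c ≠ 0 := by
    rintro rfl
    apply hij
    rw [hc j, zero_mul]
  have hmem : ∀ j, aeval (Sum.elim ((G.θ z b)⁻¹ • G.θ z) ((G.θ w b')⁻¹ • G.θ w)) (G.law i j) ∈ F := by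
    intro j
    apply p2_aeval k F hk
    rintro (s | s)
    · show (G.θ z b)⁻¹ * G.θ z s ∈ F
      have h := hz ⟨(s, b), rfl⟩
      rw [mul_comm, ← div_eq_mul_inv]
      exact h
    · show (G.θ w b')⁻¹ * G.θ w s ∈ F
      have h := hw ⟨(s, b'), rfl⟩
      rw [mul_comm, ← div_eq_mul_inv]
      exact h
  rintro _ ⟨p, rfl⟩
  show G.θ (z - w) p.1 / G.θ (z - w) p.2 ∈ F
  have h3 : ((G.θ z b)⁻¹ ^ μ * (G.θ w b')⁻¹ ^ μ * c) ≠ 0 :=
    mul_ne_zero (mul_ne_zero (pow_ne_zero _ (inv_ne_zero hb)) (pow_ne_zero _ (inv_ne_zero hb'))) hc0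
  rw [← mul_div_mul_left _ _ h3]
  have h4 : ∀ j, ((G.θ z b)⁻¹ ^ μ * (G.θ w b')⁻¹ ^ μ * c) * G.θ (z - w) j =
      aeval (Sum.elim ((G.θ z b)⁻¹ • G.θ z) ((G.θ w b')⁻¹ • G.θ w)) (G.law i j) := by
    intro j
    rw [lawG_smul, hc j]
    ring
  rw [h4, h4]
  exact div_mem (hmem _) (hmem _)

theorem ratG_alg (G : GV E M μ k) (F : IntermediateField ℚ ℂ) (hk : k ≤ F) (v₀ v₁ v₂ : E) :
    ∀ x ∈ G.rat (v₀ - (v₁ - v₂)), IsAlgebraic (IntermediateField.adjoin F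
      (G.rat v₀ ∪ G.rat v₁ ∪ G.rat v₂)) x := by
  set L := IntermediateField.adjoin F (G.rat v₀ ∪ G.rat v₁ ∪ G.rat v₂) with hL
  have hkL : k ≤ L.restrictScalars ℚ := fun w hw => L.algebraMap_mem ⟨w, hk hw⟩
  have h0 : G.rat v₀ ⊆ L.restrictScalars ℚ := fun x hx =>
    IntermediateField.subset_adjoin F _ (Or.inl (Or.inl hx))
  have h1 : G.rat v₁ ⊆ L.restrictScalars ℚ := fun x hx =>
    IntermediateField.subset_adjoin F _ (Or.inl (Or.inr hx))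
  have h2 : G.rat v₂ ⊆ L.restrictScalars ℚ := fun x hx =>
    IntermediateField.subset_adjoin F _ (Or.inr hx)
  have h3 := ratG_sub G (L.restrictScalars ℚ) hkL h0 (ratG_sub G (L.restrictScalars ℚ) hkL h1 h2)
  intro x hx
  have h4 : x ∈ L := h3 hx
  exact isAlgebraic_algebraMap (R := L) ⟨x, h4⟩

end GAL
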