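import Mathlib

set_option autoImplicit false

namespace GAL

/-! ## [GAL-P3] four sets in an abelian group (file P3.lean)

`h012 : z₀ - (z₁ - z₂) ∈ X₃` etc. For `i ≠ j` and `x, x' ∈ X_j`, `y ∈ X_i`: `y + (x - x') ∈ X_i`. Proofs: (i,j) = (0,1): `z₀ - (x' - z₂) ∈ X₃` (any `z₂ ∈ X₂`: take `v₂`), then `h321` with `x`: `(z₀ - (x' - z₂)) - (z₂ - x) = z₀ - x' + x ∈ X₀`.
(0,2): `z₀ - (v₁ - x) ∈ X₃`, `(z₀ - v₁ + x) - (x' - v₁) = z₀ + x - x' ∈ X₀` (h321). (0,3): `z₀ - (x' - v₂) ∈ X₁` (h032), then `x - (v₂ - (z₀ - x' + v₂)) = x + z₀ - x' ∈ X₀` (h321 applied to `x ∈ X₃, v₂ ∈ X₂`, and the element of `X₁`). The other pairs are symmetric: the four hypotheses say `z₀ + z₂ - z₁ ∈ X₃`, `z₃ + z₁ - z₂ ∈ X₀`, `z₀ + z₂ - z₃ ∈ X₁`, `z₃ + z₁ - z₀ ∈ X₂`;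
they are permuted by the exchanges `0 ↔ 2`, `1 ↔ 3` and `(0,2) ↔ (1,3)`. Let `H_i = {h | ∀ y ∈ X_i, y + h ∈ X_i ∧ y - h ∈ X_i}`, a subgroup. So `x - v_j ∈ H_i` for `x ∈ X_j`, `i ≠ j`, and `v_i + H_i ⊆ X_i`, hence `H_i ⊆ H_j` for `i ≠ j` (`h ∈ H_i ⟹ v_i + h ∈ X_i ⟹ h = (v_i + h) - v_i ∈ H_j`): all are equal to `H = H_0`, and `X_i = v_i + H`. -/

private theorem p3_aux {E : Type} [AddCommGroup E] (X : Fin 4 → Set E) (v : Fin 4 → E)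
    (m : ∀ i, v i ∈ X i)
    (P : ∀ i j, i ≠ j → ∀ x ∈ X j, ∀ x' ∈ X j, ∀ y ∈ X i, y + (x - x') ∈ X i) :
    ∃ H : AddSubgroup E, (∀ h, h ∈ H ↔ ∀ y ∈ X 0, y + h ∈ X 0 ∧ y - h ∈ X 0) ∧
      ∀ i z, z ∈ X i ↔ z - v i ∈ H := by
  let S : Fin 4 → Set E := fun i => {h | ∀ y ∈ X i, y + h ∈ X i ∧ y - h ∈ X i}
  have h1 : ∀ i j, i ≠ j → ∀ x ∈ X j, x - v j ∈ S i := by
    intro i j hij x hx y hy
    refine ⟨P i j hij x hx (v j) (m j) y hy, ?_⟩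
    have := P i j hij (v j) (m j) x hx y hy
    rwa [show y + (v j - x) = y - (x - v j) by abel] at this
  have h2 : ∀ i j, i ≠ j → S i ⊆ S j := by
    intro i j hij h hh
    have h3 := h1 j i (Ne.symm hij) (v i + h) (hh (v i) (m i)).1
    rwa [add_sub_cancel_left] at h3
  have h4 : ∀ i j, S i ⊆ S j := by
    intro i j
    by_cases hij : i = j
    · rw [hij]
    · exact h2 i j hij
  let H : AddSubgroup E :=
    { carrier := S 0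
      add_mem' := by
        intro a b ha hb y hy
        refine ⟨?_, ?_⟩
        · rw [← add_assoc]
          exact (hb _ (ha y hy).1).1
        · rw [show y - (a + b) = y - a - b by abel]
          exact (hb _ (ha y hy).2).2
      zero_mem' := by
        intro y hy
        rw [add_zero, sub_zero]
        exact ⟨hy, hy⟩
      neg_mem' := by
        intro a ha y hy
        rw [← sub_eq_add_neg, sub_neg_eq_add]
        exact ⟨(ha y hy).2, (ha y hy).1⟩ }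
  refine ⟨H, fun h => Iff.rfl, fun i z => ⟨fun hz => ?_, fun hz => ?_⟩⟩
  · show z - v i ∈ S 0
    by_cases hi : i = 0
    · subst hi
      exact h4 1 0 (h1 1 0 (by decide) z hz)
    · exact h1 0 i (Ne.symm hi) z hz
  · have h5 : z - v i ∈ S i := h4 0 i hz
    have := (h5 (v i) (m i)).1
    rwa [add_sub_cancel] at this

theorem four {E : Type} [AddCommGroup E] (X₀ X₁ X₂ X₃ : Set E) (v₀ v₁ v₂ v₃ : E)
    (m₀ : v₀ ∈ X₀) (m₁ : v₁ ∈ X₁) (m₂ : v₂ ∈ X₂) (m₃ : v₃ ∈ X₃)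
    (h012 : ∀ z₀ ∈ X₀, ∀ z₁ ∈ X₁, ∀ z₂ ∈ X₂, z₀ - (z₁ - z₂) ∈ X₃)
    (h321 : ∀ z₃ ∈ X₃, ∀ z₂ ∈ X₂, ∀ z₁ ∈ X₁, z₃ - (z₂ - z₁) ∈ X₀)
    (h032 : ∀ z₀ ∈ X₀, ∀ z₃ ∈ X₃, ∀ z₂ ∈ X₂, z₀ - (z₃ - z₂) ∈ X₁)
    (h301 : ∀ z₃ ∈ X₃, ∀ z₀ ∈ X₀, ∀ z₁ ∈ X₁, z₃ - (z₀ - z₁) ∈ X₂) :
    ∃ H : AddSubgroup E, (∀ h, h ∈ H ↔ ∀ y ∈ X₀, y + h ∈ X₀ ∧ y - h ∈ X₀) ∧
      (∀ z, z ∈ X₀ ↔ z - v₀ ∈ H) ∧ (∀ z, z ∈ X₁ ↔ z - v₁ ∈ H) ∧ (∀ z, z ∈ X₂ ↔ z - v₂ ∈ H) ∧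
      ∀ z, z ∈ X₃ ↔ z - v₃ ∈ H := by
  have A : ∀ z₀ ∈ X₀, ∀ z₁ ∈ X₁, ∀ z₂ ∈ X₂, z₀ + z₂ - z₁ ∈ X₃ := by
    intro z₀ a z₁ b z₂ c
    have := h012 z₀ a z₁ b z₂ c
    rwa [show z₀ - (z₁ - z₂) = z₀ + z₂ - z₁ by abel] at this
  have B : ∀ z₃ ∈ X₃, ∀ z₂ ∈ X₂, ∀ z₁ ∈ X₁, z₃ + z₁ - z₂ ∈ X₀ := by
    intro z₃ a z₂ b z₁ c
    have := h321 z₃ a z₂ b z₁ c
    rwa [show z₃ - (z₂ - z₁) = z₃ + z₁ - z₂ by abel] at this
  have C : ∀ z₀ ∈ X₀, ∀ z₃ ∈ X₃, ∀ z₂ ∈ X₂, z₀ + z₂ - z₃ ∈ X₁ := by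
    intro z₀ a z₃ b z₂ c
    have := h032 z₀ a z₃ b z₂ c
    rwa [show z₀ - (z₃ - z₂) = z₀ + z₂ - z₃ by abel] at this
  have D : ∀ z₃ ∈ X₃, ∀ z₀ ∈ X₀, ∀ z₁ ∈ X₁, z₃ + z₁ - z₀ ∈ X₂ := by
    intro z₃ a z₀ b z₁ c
    have := h301 z₃ a z₀ b z₁ c
    rwa [show z₃ - (z₀ - z₁) = z₃ + z₁ - z₀ by abel] at this
  obtain ⟨H, hH, hX⟩ := p3_aux ![X₀, X₁, X₂, X₃] ![v₀, v₁, v₂, v₃]
    (by
      intro i
      fin_cases i
      · exact m₀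
      · exact m₁
      · exact m₂
      · exact m₃)
    (by
      intro i j hij x hx x' hx' y hy
      fin_cases i <;> fin_cases j
      · exact absurd rfl hij
      · have := B _ (A y hy x' hx' v₂ m₂) v₂ m₂ x hx
        rwa [show y + v₂ - x' + x - v₂ = y + (x - x') by abel] at this
      · have := B _ (A y hy v₁ m₁ x hx) x' hx' v₁ m₁
        rwa [show y + x - v₁ + v₁ - x' = y + (x - x') by abel] at this
      · have := B x hx v₂ m₂ _ (C y hy x' hx' v₂ m₂)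
        rwa [show x + (y + v₂ - x') - v₂ = y + (x - x') by abel] at this
      · have := C x hx v₃ m₃ _ (D v₃ m₃ x' hx' y hy)
        rwa [show x + (v₃ + y - x') - v₃ = y + (x - x') by abel] at this
      · exact absurd rfl hij
      · have := C _ (B v₃ m₃ x' hx' y hy) v₃ m₃ x hx
        rwa [show v₃ + y - x' + x - v₃ = y + (x - x') by abel] at this
      · have := C _ (B x hx v₂ m₂ y hy) x' hx' v₂ m₂
        rwa [show x + y - v₂ + v₂ - x' = y + (x - x') by abel] at this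
      · have := D _ (A x hx v₁ m₁ y hy) x' hx' v₁ m₁
        rwa [show x + y - v₁ + v₁ - x' = y + (x - x') by abel] at this
      · have := D _ (A v₀ m₀ x' hx' y hy) v₀ m₀ x hx
        rwa [show v₀ + y - x' + x - v₀ = y + (x - x') by abel] at this
      · exact absurd rfl hij
      · have := D x hx v₀ m₀ _ (C v₀ m₀ x' hx' y hy)
        rwa [show x + (v₀ + y - x') - v₀ = y + (x - x') by abel] at this
      · have := A x hx v₁ m₁ _ (D y hy x' hx' v₁ m₁)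
        rwa [show x + (y + v₁ - x') - v₁ = y + (x - x') by abel] at this
      · have := A _ (B y hy v₂ m₂ x hx) x' hx' v₂ m₂
        rwa [show y + x - v₂ + v₂ - x' = y + (x - x') by abel] at this
      · have := A _ (B y hy x' hx' v₁ m₁) v₁ m₁ x hx
        rwa [show y + v₁ - x' + x - v₁ = y + (x - x') by abel] at this
      · exact absurd rfl hij)
  exact ⟨H, hH, hX 0, hX 1, hX 2, hX 3⟩

end GAL
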