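import Pool.Agent.GAL.B2
import Pool.Agent.GAL.P2
import Pool.Agent.GAL.P3
import Pool.Agent.GAV.Z1b

set_option autoImplicit false

open MvPolynomial LTD

namespace GAL

open GAV

variable {E : Type} [NormedAddCommGroup E] [NormedSpace ℂ E] {M μ : ℕ} {k : IntermediateField ℚ ℂ}

/-! ## [GAL-P4] the loci of an additive quadruple are cosets of one algebraic subgroup (file P4.lean)

(Compare `GAV.no_quad`, `GAV/Z10.lean`.) `v₃ = v₀ - (v₁ - v₂)`. `rk F (v₀ ∪ v₁ ∪ v₂) = rk F v₀ + rk E₀ v₁ + rk E₁ v₂ ≥ 3δ` (`rk_add` twice). Each of the four points is rational over the field generated by the other three (`ratG_alg`: `v₀ = v₃ - (v₂ - v₁)`, `v₁ = v₀ - (v₃ - v₂)`, `v₂ = v₃ - (v₀ - v₁)`), so (`rk_mono`)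
the rank of the union of any three of the sets `G.rat v_i` is `≥ 3δ`. `V_addG` for the triples `(v₀,v₁,v₂)`, `(v₃,v₂,v₁)`, `(v₀,v₃,v₂)`, `(v₃,v₀,v₁)` gives the four hypotheses of `four` for `X_i = G.V F v_i` (`V_self`). `H` is Zariski closed: `H = ⋂_{y ∈ X₀} {h | y + h ∈ X₀} ∩ {h | y - h ∈ X₀}` (`zc_inter`),
`X₀` is Zariski closed (map the polynomials over `F` to `ℂ`), `h ↦ y - h` and `h ↦ y + h = y - (0 - h)` are morphisms over `ℂ` (`mor_subC, mor_constC, mor_id`), `mor_zc`. -/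

theorem V_zc (G : GV E M μ k) (F : IntermediateField ℚ ℂ) (v : E) : G.ZC (G.V F v) := by
  refine ⟨{f' | ∃ (f : MvPolynomial (Fin (M + 1)) F) (n : ℕ), f.IsHomogeneous n ∧
    aeval (G.θ v) f = 0 ∧ f' = map (algebraMap F ℂ) f}, ?_, ?_⟩
  · rintro _ ⟨f, n, hf, -, rfl⟩
    exact ⟨n, hf.map _⟩
  · intro z
    constructor
    · rintro hz _ ⟨f, n, hf, hv, rfl⟩
      rw [aeval_map_algebraMap]
      exact hz f n hf hv
    · intro h f n hf hv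
      have h1 := h _ ⟨f, n, hf, hv, rfl⟩
      rwa [aeval_map_algebraMap] at h1

theorem p4_rk (G : GV E M μ k) (F : IntermediateField ℚ ℂ) (hk : k ≤ F) (a b c : E) (S : Set ℂ)
    (hSf : S.Finite)
    (hS : ∀ x ∈ S, x ∈ G.rat a ∪ G.rat b ∪ G.rat c ∨ x ∈ G.rat (a - (b - c))) :
    rk F S ≤ rk F (G.rat a ∪ G.rat b ∪ G.rat c) := by
  refine rk_mono F S _ hSf (((rat_fin G a).union (rat_fin G b)).union (rat_fin G c)) fun x hx => ?_
  rcases hS x hx with h | h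
  · exact z1b_self F _ x h
  · exact ratG_alg G F hk a b c x h

theorem p4_mor (G : GV E M μ k) (F : IntermediateField ℚ ℂ) (v : E) (H : AddSubgroup E)
    (hH : ∀ h, h ∈ H ↔ ∀ y ∈ G.V F v, y + h ∈ G.V F v ∧ y - h ∈ G.V F v) :
    G.ZC (H : Set E) := by
  have h1 : ∀ y : E, G.ZC {h | y - h ∈ G.V F v} := fun y =>
    mor_zc G G (fun h => y - h) (mor_subC G G (fun _ => y) (fun h => h) (mor_constC G G y)
      (mor_id G)) _ (V_zc G F v)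
  have h2 : ∀ y : E, G.ZC {h | y - (0 - h) ∈ G.V F v} := fun y =>
    mor_zc G G (fun h => y - (0 - h)) (mor_subC G G (fun _ => y) (fun h => 0 - h)
      (mor_constC G G y) (mor_subC G G (fun _ => 0) (fun h => h) (mor_constC G G 0)
      (mor_id G))) _ (V_zc G F v)
  have h3 := zc_inter G (ι := ↥(G.V F v) × Bool)
    (fun p => if p.2 then {h | (p.1 : E) - h ∈ G.V F v} else {h | (p.1 : E) - (0 - h) ∈ G.V F v})
    (fun p => by
      by_cases hp : p.2 = true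
      · rw [if_pos hp]
        exact h1 _
      · rw [if_neg hp]
        exact h2 _)
  have h4 : (H : Set E) = ⋂ p : ↥(G.V F v) × Bool,
      (if p.2 then {h | (p.1 : E) - h ∈ G.V F v} else {h | (p.1 : E) - (0 - h) ∈ G.V F v}) := by
    ext h
    rw [SetLike.mem_coe, hH h, Set.mem_iInter]
    constructor
    · rintro h5 ⟨y, b⟩
      cases b
      · show (y : E) - (0 - h) ∈ G.V F v
        have h6 : (y : E) - (0 - h) = y + h := by abel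
        rw [h6]
        exact (h5 y y.2).1
      · exact (h5 y y.2).2
    · intro h5 y hy
      constructor
      · have h6 : y - (0 - h) ∈ G.V F v := h5 (⟨y, hy⟩, false)
        have h7 : y - (0 - h) = y + h := by abel
        rwa [h7] at h6
      · exact h5 (⟨y, hy⟩, true)
  rw [h4]
  exact h3

theorem stabH (G : GV E M μ k) (F E₀ E₁ : IntermediateField ℚ ℂ) (hk : k ≤ F)
    (hF : Clo F) (t : ℕ) (ht : Algebra.trdeg ℚ F ≤ (t : Cardinal)) (v₀ v₁ v₂ : E)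
    (hE₀ : ∀ z : ℂ, z ∈ E₀ ↔ IsAlgebraic (IntermediateField.adjoin F (G.rat v₀)) z)
    (hE₁ : ∀ z : ℂ, z ∈ E₁ ↔ IsAlgebraic (IntermediateField.adjoin F (G.rat v₀ ∪ G.rat v₁)) z)
    (δ : ℕ) (h0 : rk F (G.rat v₀) = δ) (h1 : rk F (G.rat v₁) = δ)
    (h2 : rk F (G.rat v₂) = δ) (h3 : rk F (G.rat (v₀ - (v₁ - v₂))) = δ)
    (h4 : δ ≤ rk E₀ (G.rat v₁)) (h5 : δ ≤ rk E₁ (G.rat v₂)) :
    ∃ H : AddSubgroup E, G.ZC (H : Set E) ∧ (∀ z, z ∈ G.V F v₀ ↔ z - v₀ ∈ H) ∧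
      (∀ z, z ∈ G.V F v₁ ↔ z - v₁ ∈ H) ∧ (∀ z, z ∈ G.V F v₂ ↔ z - v₂ ∈ H) ∧
      ∀ z, z ∈ G.V F (v₀ - (v₁ - v₂)) ↔ z - (v₀ - (v₁ - v₂)) ∈ H := by
  have hF0 : F ≤ E₀ := fun w hw => (hE₀ w).2 (isAlgebraic_algebraMap
    (R := IntermediateField.adjoin F (G.rat v₀)) (algebraMap F _ ⟨w, hw⟩))
  have hF1 : F ≤ E₁ := fun w hw => (hE₁ w).2 (isAlgebraic_algebraMap
    (R := IntermediateField.adjoin F (G.rat v₀ ∪ G.rat v₁)) (algebraMap F _ ⟨w, hw⟩))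
  have f0 := rat_fin G v₀
  have f1 := rat_fin G v₁
  have f2 := rat_fin G v₂
  have e1 := rk_add F E₀ hF0 (G.rat v₀) (G.rat v₁) f0 f1 hE₀
  have e2 := rk_add F E₁ hF1 (G.rat v₀ ∪ G.rat v₁) (G.rat v₂) (f0.union f1) f2 hE₁
  have fU := (f0.union f1).union f2
  set v₃ := v₀ - (v₁ - v₂) with hv₃
  have a0 : v₃ - (v₂ - v₁) = v₀ := by rw [hv₃]; abel
  have a1 : v₀ - (v₃ - v₂) = v₁ := by rw [hv₃]; abel
  have a2 : v₃ - (v₀ - v₁) = v₂ := by rw [hv₃]; abel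
  have g1 := p4_rk G F hk v₃ v₂ v₁ _ fU (by
    rw [a0]
    rintro x ((hx | hx) | hx)
    · exact Or.inr hx
    · exact Or.inl (Or.inr hx)
    · exact Or.inl (Or.inl (Or.inr hx)))
  have g2 := p4_rk G F hk v₀ v₃ v₂ _ fU (by
    rw [a1]
    rintro x ((hx | hx) | hx)
    · exact Or.inl (Or.inl (Or.inl hx))
    · exact Or.inr hx
    · exact Or.inl (Or.inr hx))
  have g3 := p4_rk G F hk v₃ v₀ v₁ _ fU (by
    rw [a2]
    rintro x ((hx | hx) | hx)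
    · exact Or.inl (Or.inl (Or.inr hx))
    · exact Or.inl (Or.inr hx)
    · exact Or.inr hx)
  have k0 := V_addG G F hk hF t ht v₀ v₁ v₂ (by omega)
  have k1 := V_addG G F hk hF t ht v₃ v₂ v₁ (by omega)
  have k2 := V_addG G F hk hF t ht v₀ v₃ v₂ (by omega)
  have k3 := V_addG G F hk hF t ht v₃ v₀ v₁ (by omega)
  rw [a0] at k1
  rw [a1] at k2
  rw [a2] at k3
  obtain ⟨H, hH, q0, q1, q2, q3⟩ := four (G.V F v₀) (G.V F v₁) (G.V F v₂) (G.V F v₃) v₀ v₁ v₂ v₃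
    (V_self G F v₀) (V_self G F v₁) (V_self G F v₂) (V_self G F v₃)
    (fun z₀ b₀ z₁ b₁ z₂ b₂ => k0 z₀ z₁ z₂ b₀ b₁ b₂)
    (fun z₀ b₀ z₁ b₁ z₂ b₂ => k1 z₀ z₁ z₂ b₀ b₁ b₂)
    (fun z₀ b₀ z₁ b₁ z₂ b₂ => k2 z₀ z₁ z₂ b₀ b₁ b₂)
    (fun z₀ b₀ z₁ b₁ z₂ b₂ => k3 z₀ z₁ z₂ b₀ b₁ b₂)
  exact ⟨H, p4_mor G F v₀ H hH, q0, q1, q2, q3⟩

end GAL
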