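import Pool.Agent.GAL.N1
import Pool.Agent.GAL.P4
import Pool.Agent.GAL.P7

set_option autoImplicit false

open LTD Module

namespace GAL

open GAV

variable {E : Type} [NormedAddCommGroup E] [NormedSpace ℂ E] {M μ : ℕ} {k : IntermediateField ℚ ℂ}

/-! ## [GAL-N2] the induction on the rank (file N2.lean)

`ptl_sub`: linear. `clo_ratG`, `clo2_ratG`: PORT of `GAV.clo_rat`, `GAV.z12_clo2` (`GAV/Z12.lean`) to a group variety. `rk_rat_le`: `rat v` is contained in the field generated by the `M + 1` numbers `θ_a(v)/θ_b(v)` (`θ_b(v) ≠ 0`): `rk_basis`/`rk_le` or the monotonicity `rk_mono` and the fact that `rk F S ≤` the number of elements of `S`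
(a transcendence basis inside `S`, `rk_basis`; for `S = Set.range u`, `u : Fin (M+1) → ℂ`, injectivity of an independent family).
`claim`: (compare `GAV.z12_claim`) induction on `δ`. `δ = 0`: the set is empty. Step: let `n = hD`, `v a = ptl r ρ w a`, `B = 2^{n+β+2δ}(2H+1)^{n-D/(4^δ m₀)}` (claim for `δ`), `Bd = 2^{n+β}(2H+1)^{n-D/m₀}`. If `n = 0` (`h = 0` or `D = 0`): the box has one element, and the bound is `≥ 1`. Let `n ≥ 1`, so `h ≥ 1` and `D/m ≤ n` for all `m ≥ 1`.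
The set is contained in the union of: the set for `δ` (`≤ B`), `{¬ P F a}` (`≤ Bd`), and `S = {a ∈ box | rk F (rat (v a)) = δ, V_F(v a) ≠ everything, P F a}` (a finset). `z12_energy`: `|S|⁴ ≤ (4H+1)^n |T|`, `T` = the triples `(a₀, a₁, a₂) ∈ S³` with `a₀ - (a₁ - a₂) ∈ S`.
For such a triple let `E₀`, `E₁` be the closures of `F(rat(v a₀))`, `F(rat(v a₀) ∪ rat(v a₁))` (transcendence degrees `≤ t + (M+1)`, `t + 2(M+1)`): either `rk E₀ (rat (v a₁)) < δ` [`P₀ a₀ a₁`; then `a₁` is in the set of the claim for `δ` over `E₀`, because `V_{E₀}(v) ⊆ V_F(v)` (`V_field`)], or `rk E₁ (rat (v a₂)) < δ` [`P₁`], or (`stabH`)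
there is an algebraic subgroup `H'` with `V_F(v a_i) = v a_i + H'` for `i = 0,1,2`; `H' ≠ ⊤` because `V_F(v a₀)` is not everything; `Q a b := P F b ∧ ∃ H' ≠ ⊤, ZC H' ∧ V_F(v a) = v a + H' ∧ V_F(v b) = v b + H'`. For given `a` the subgroup `H'` is unique (`z ∈ H' ↔ v a + z ∈ V_F(v a)`), so `{b | Q a b}` is contained in a set as in `hH`: `≤ Bd`.
`triple'`, `num'` (with `β + 2δ` in place of `β`, `m = 4^δ m₀`; `Bd ≤` the same bound): `|S| ≤ 2^{n+β+2δ}(2H+1)^{n - D/(4^{δ+1}m₀)}`. The sum of the three is `≤ 3 · 2^{n+β+2δ}(2H+1)^{n-D/(4^{δ+1}m₀)} ≤ 2^{n+β+2(δ+1)} ..`. -/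

theorem ptl_sub {h D : ℕ} (r : E) (ρ : Fin h → E) (w : Fin D → ℂ) (a b c : Fin h → Fin D → ℤ) :
    ptl r ρ w (a - (b - c)) = ptl r ρ w a - (ptl r ρ w b - ptl r ρ w c) := by
  have h1 : ∀ x : Fin h → Fin D → ℤ,
      ptl r ρ w x = r + ∑ i, (∑ j, ((x i j : ℤ) : ℂ) * w j) • ρ i := fun _ => rfl
  rw [h1, h1, h1, h1]
  have h2 : ∑ i, (∑ j, (((a - (b - c)) i j : ℤ) : ℂ) * w j) • ρ i =
      ∑ i, (∑ j, ((a i j : ℤ) : ℂ) * w j) • ρ i -
        (∑ i, (∑ j, ((b i j : ℤ) : ℂ) * w j) • ρ i - ∑ i, (∑ j, ((c i j : ℤ) : ℂ) * w j) • ρ i) := by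
    rw [← Finset.sum_sub_distrib, ← Finset.sum_sub_distrib]
    refine Finset.sum_congr rfl fun i _ => ?_
    rw [← sub_smul, ← sub_smul]
    congr 1
    rw [← Finset.sum_sub_distrib, ← Finset.sum_sub_distrib]
    refine Finset.sum_congr rfl fun j _ => ?_
    rw [Pi.sub_apply, Pi.sub_apply, Pi.sub_apply, Pi.sub_apply]
    push_cast
    ring
  rw [h2]
  abel

/-- the quotients of the coordinates, generated by those with one denominator -/
theorem n2_adj (G : GV E M μ k) (F : IntermediateField ℚ ℂ) (z : E) {b : Fin (M + 1)}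
    (hb : G.θ z b ≠ 0) (L : IntermediateField F ℂ)
    (h : Set.range (fun a => G.θ z a / G.θ z b) ⊆ L) : G.rat z ⊆ L := by
  rintro _ ⟨p, rfl⟩
  have h1 : G.θ z p.1 / G.θ z p.2 = (G.θ z p.1 / G.θ z b) / (G.θ z p.2 / G.θ z b) :=
    (div_div_div_cancel_right₀ hb _ _).symm
  show G.θ z p.1 / G.θ z p.2 ∈ L
  rw [h1]
  exact L.div_mem (h ⟨p.1, rfl⟩) (h ⟨p.2, rfl⟩)

theorem n2_ne (G : GV E M μ k) (z : E) : ∃ b, G.θ z b ≠ 0 := by
  by_contra hcon
  push Not at hcon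
  exact G.ne z (funext hcon)

theorem clo_ratG (G : GV E M μ k) (F : IntermediateField ℚ ℂ) (t : ℕ)
    (hF : Algebra.trdeg ℚ F ≤ (t : Cardinal)) (z : E) : ∃ F' : IntermediateField ℚ ℂ,
      F ≤ F' ∧ Clo F' ∧ Algebra.trdeg ℚ F' ≤ ((t + (M + 1) : ℕ) : Cardinal) ∧
      ∀ x : ℂ, x ∈ F' ↔ IsAlgebraic (IntermediateField.adjoin F (G.rat z)) x := by
  obtain ⟨b, hb⟩ := n2_ne G z
  obtain ⟨F', h1, h2, h3, h4⟩ := clo_adjoin F t (M + 1) hF (fun a => G.θ z a / G.θ z b)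
  refine ⟨F', h1, h2, h3, ?_⟩
  have e : IntermediateField.adjoin F (Set.range fun a => G.θ z a / G.θ z b) =
      IntermediateField.adjoin F (G.rat z) := by
    apply le_antisymm
    · refine IntermediateField.adjoin.mono F _ _ ?_
      rintro _ ⟨a, rfl⟩
      exact ⟨(a, b), rfl⟩
    · rw [IntermediateField.adjoin_le_iff]
      exact n2_adj G F z hb _ (IntermediateField.subset_adjoin F _)
  rw [← e]
  exact h4

theorem clo2_ratG (G : GV E M μ k) (F : IntermediateField ℚ ℂ) (t : ℕ)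
    (hF : Algebra.trdeg ℚ F ≤ (t : Cardinal)) (z w : E) : ∃ F' : IntermediateField ℚ ℂ,
      F ≤ F' ∧ Clo F' ∧ Algebra.trdeg ℚ F' ≤ ((t + 2 * (M + 1) : ℕ) : Cardinal) ∧
      ∀ x : ℂ, x ∈ F' ↔ IsAlgebraic (IntermediateField.adjoin F (G.rat z ∪ G.rat w)) x := by
  obtain ⟨b, hb⟩ := n2_ne G z
  obtain ⟨c, hc⟩ := n2_ne G w
  obtain ⟨F', h1, h2, h3, h4⟩ := clo_adjoin F t ((M + 1) + (M + 1)) hF
    (Fin.append (fun a => G.θ z a / G.θ z b) fun a => G.θ w a / G.θ w c)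
  refine ⟨F', h1, h2, ?_, ?_⟩
  · rw [two_mul]
    exact h3
  have hr : Set.range (Fin.append (fun a => G.θ z a / G.θ z b) fun a => G.θ w a / G.θ w c) =
      (Set.range fun a => G.θ z a / G.θ z b) ∪ Set.range fun a => G.θ w a / G.θ w c := by
    ext x
    constructor
    · rintro ⟨i, rfl⟩
      refine Fin.addCases (fun i => ?_) (fun i => ?_) i
      · rw [Fin.append_left]
        exact Or.inl ⟨i, rfl⟩
      · rw [Fin.append_right]
        exact Or.inr ⟨i, rfl⟩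
    · rintro (⟨i, rfl⟩ | ⟨i, rfl⟩)
      · exact ⟨Fin.castAdd (M + 1) i, Fin.append_left _ _ _⟩
      · exact ⟨Fin.natAdd (M + 1) i, Fin.append_right _ _ _⟩
  have e : IntermediateField.adjoin F
      (Set.range (Fin.append (fun a => G.θ z a / G.θ z b) fun a => G.θ w a / G.θ w c)) =
      IntermediateField.adjoin F (G.rat z ∪ G.rat w) := by
    rw [hr]
    apply le_antisymm
    · refine IntermediateField.adjoin.mono F _ _ (Set.union_subset_union ?_ ?_)
      · rintro _ ⟨a, rfl⟩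
        exact ⟨(a, b), rfl⟩
      · rintro _ ⟨a, rfl⟩
        exact ⟨(a, c), rfl⟩
    · rw [IntermediateField.adjoin_le_iff]
      refine Set.union_subset ?_ ?_
      · exact n2_adj G F z hb _ (Set.subset_union_left.trans (IntermediateField.subset_adjoin F _))
      · exact n2_adj G F w hc _ (Set.subset_union_right.trans (IntermediateField.subset_adjoin F _))
  rw [← e]
  exact h4

theorem rk_rat_le (G : GV E M μ k) (F : IntermediateField ℚ ℂ) (v : E) :
    rk F (G.rat v) ≤ M + 1 := by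
  obtain ⟨b, hb⟩ := n2_ne G v
  refine rk_le F (M + 1) (fun a => G.θ v a / G.θ v b) (G.rat v) fun z hz => ?_
  have h1 := n2_adj G F v hb (IntermediateField.adjoin F (Set.range fun a => G.θ v a / G.θ v b))
    (IntermediateField.subset_adjoin F _) hz
  exact isAlgebraic_algebraMap
    (R := IntermediateField.adjoin F (Set.range fun a => G.θ v a / G.θ v b)) ⟨z, h1⟩

theorem n2_bound (n D m₀ β δ A : ℕ) (hA : 1 ≤ A) :
    2 ^ (n + β) * A ^ (n - D / m₀) ≤ 2 ^ (n + (β + 2 * δ)) * A ^ (n - D / (4 ^ δ * m₀)) := by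
  refine Nat.mul_le_mul (Nat.pow_le_pow_right (by norm_num) (by omega))
    (Nat.pow_le_pow_right hA ?_)
  have h6 : D / (4 ^ δ * m₀) ≤ D / m₀ := by
    rw [mul_comm, ← Nat.div_div_eq_div_mul]
    exact Nat.div_le_self _ _
  omega

theorem n2_bound' (n D m A c : ℕ) (hA : 1 ≤ A) :
    c * A ^ (n - D / m) ≤ c * A ^ (n - D / (4 * m)) := by
  refine Nat.mul_le_mul_left _ (Nat.pow_le_pow_right hA ?_)
  have h6 : D / (4 * m) ≤ D / m := by
    rw [mul_comm, ← Nat.div_div_eq_div_mul]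
    exact Nat.div_le_self _ _
  omega

theorem claim (G : GV E M μ k) {h D : ℕ} (r : E) (ρ : Fin h → E) (w : Fin D → ℂ) (H : ℕ)
    (P : IntermediateField ℚ ℂ → (Fin h → Fin D → ℤ) → Prop) (m₀ β T : ℕ) (hm₀ : 1 ≤ m₀)
    (hβ : 2 ≤ β)
    (hP : ∀ F : IntermediateField ℚ ℂ, k ≤ F → Algebra.trdeg ℚ F ≤ (T : Cardinal) → Clo F →
      Set.ncard {a : Fin h → Fin D → ℤ | a ∈ z12_box h D H ∧ ¬ P F a} ≤
        2 ^ (h * D + β) * (2 * H + 1) ^ (h * D - D / m₀))
    (hH : ∀ F : IntermediateField ℚ ℂ, k ≤ F → Algebra.trdeg ℚ F ≤ (T : Cardinal) → Clo F →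
      ∀ S : AddSubgroup E, G.ZC (S : Set E) → S ≠ ⊤ →
        Set.ncard {a : Fin h → Fin D → ℤ | a ∈ z12_box h D H ∧ P F a ∧
          ∀ z, z ∈ G.V F (ptl r ρ w a) ↔ z - ptl r ρ w a ∈ S} ≤
          2 ^ (h * D + β) * (2 * H + 1) ^ (h * D - D / m₀)) :
    ∀ δ t : ℕ, t + 2 * (M + 1) * δ ≤ T → ∀ F : IntermediateField ℚ ℂ, k ≤ F →
      Algebra.trdeg ℚ F ≤ (t : Cardinal) → Clo F →
        Set.ncard {a : Fin h → Fin D → ℤ | a ∈ z12_box h D H ∧
          rk F (G.rat (ptl r ρ w a)) < δ ∧ ¬ ∀ z, z ∈ G.V F (ptl r ρ w a)} ≤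
          2 ^ (h * D + β + 2 * δ) * (2 * H + 1) ^ (h * D - D / (4 ^ δ * m₀)) := by
  classical
  intro δ
  induction δ with
  | zero =>
    intro t _ F _ _ _
    have h1 : {a : Fin h → Fin D → ℤ | a ∈ z12_box h D H ∧
          rk F (G.rat (ptl r ρ w a)) < 0 ∧ ¬ ∀ z, z ∈ G.V F (ptl r ρ w a)} = ∅ := by
      rw [Set.eq_empty_iff_forall_notMem]
      rintro a ⟨_, ha, _⟩
      omega
    rw [h1, Set.ncard_empty]
    exact Nat.zero_le _
  | succ δ ih =>
    intro t htT F hk ht hF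
    obtain ⟨n, hnd⟩ : ∃ n, n = h * D := ⟨_, rfl⟩
    rcases Nat.eq_zero_or_pos n with hn0 | hn
    · -- the box has one element
      have h1 : Set.ncard {a : Fin h → Fin D → ℤ | a ∈ z12_box h D H ∧
          rk F (G.rat (ptl r ρ w a)) < δ + 1 ∧ ¬ ∀ z, z ∈ G.V F (ptl r ρ w a)} ≤ 1 := by
        have h2 := Set.ncard_le_ncard (s := {a : Fin h → Fin D → ℤ | a ∈ z12_box h D H ∧
          rk F (G.rat (ptl r ρ w a)) < δ + 1 ∧ ¬ ∀ z, z ∈ G.V F (ptl r ρ w a)})
          (t := (z12_box h D H : Set (Fin h → Fin D → ℤ))) (fun a ha => ha.1)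
          (z12_box h D H).finite_toSet
        rw [Set.ncard_coe_finset, z12_card, ← hnd, hn0, pow_zero] at h2
        exact h2
      exact h1.trans (Nat.mul_pos (pow_pos (by norm_num) _) (pow_pos (by omega) _))
    have hh : 1 ≤ h := by
      rcases Nat.eq_zero_or_pos h with h0 | h0
      · rw [h0, zero_mul] at hnd
        omega
      · exact h0
    have hDn : ∀ m, D / m ≤ n := by
      intro m
      refine (Nat.div_le_self _ _).trans ?_
      rw [hnd]
      exact Nat.le_mul_of_pos_left _ (by omega)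
    have e1T : t + (M + 1) + 2 * (M + 1) * δ ≤ T := by
      refine le_trans ?_ htT
      have e : 2 * (M + 1) * (δ + 1) = 2 * (M + 1) * δ + 2 * (M + 1) := by ring
      rw [e]
      omega
    have e2T : t + 2 * (M + 1) + 2 * (M + 1) * δ ≤ T := by
      refine le_trans ?_ htT
      have e : 2 * (M + 1) * (δ + 1) = 2 * (M + 1) * δ + 2 * (M + 1) := by ring
      rw [e]
      omega
    have e0T : t + 2 * (M + 1) * δ ≤ T := by
      refine le_trans ?_ e1T
      omega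
    have htT' : Algebra.trdeg ℚ F ≤ (T : Cardinal) := ht.trans (by exact_mod_cast (by omega))
    have hB := ih t e0T F hk ht hF
    have hP1 := hP F hk htT' hF
    have hH1 := hH F hk htT' hF
    obtain ⟨v, hv⟩ : ∃ v : (Fin h → Fin D → ℤ) → E, v = ptl r ρ w := ⟨_, rfl⟩
    have hsub : ∀ a b c, v (a - (b - c)) = v a - (v b - v c) := by
      intro a b c
      rw [hv]
      exact ptl_sub _ _ _ a b c
    rw [← hv] at hB hH1 ⊢
    obtain ⟨S, hSd⟩ : ∃ S : Finset (Fin h → Fin D → ℤ), S = (z12_box h D H).filter fun a =>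
        rk F (G.rat (v a)) = δ ∧ (¬ ∀ z, z ∈ G.V F (v a)) ∧ P F a := ⟨_, rfl⟩
    have hSm : ∀ a, a ∈ S ↔ a ∈ z12_box h D H ∧ rk F (G.rat (v a)) = δ ∧
        (¬ ∀ z, z ∈ G.V F (v a)) ∧ P F a := by
      intro a
      rw [hSd, Finset.mem_filter]
    have hS : S ⊆ z12_box h D H := fun a ha => ((hSm a).1 ha).1
    -- the fields
    have hE0 := fun a => clo_ratG G F t ht (v a)
    choose E₀ f1 f2 f3 f4 using hE0
    have hE1 := fun a b => clo2_ratG G F t ht (v a) (v b)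
    choose E₁ e1 e2 e3 e4 using hE1
    have hT := triple' (z12_box h D H) S hS
      ((S ×ˢ S ×ˢ S).filter fun x => x.1 - (x.2.1 - x.2.2) ∈ S) (Finset.filter_subset _ _)
      (fun a b => rk (E₀ a) (G.rat (v b)) < δ ∧ ¬ ∀ z, z ∈ G.V (E₀ a) (v b))
      (fun a b c => rk (E₁ a b) (G.rat (v c)) < δ ∧ ¬ ∀ z, z ∈ G.V (E₁ a b) (v c))
      (fun a b => P F b ∧ ∃ S' : AddSubgroup E, S' ≠ ⊤ ∧ G.ZC (S' : Set E) ∧
        (∀ z, z ∈ G.V F (v a) ↔ z - v a ∈ S') ∧ ∀ z, z ∈ G.V F (v b) ↔ z - v b ∈ S')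
      (2 ^ (h * D + β + 2 * δ) * (2 * H + 1) ^ (h * D - D / (4 ^ δ * m₀)))
      (2 ^ (h * D + β) * (2 * H + 1) ^ (h * D - D / m₀)) (by
        intro x hx
        rw [Finset.mem_filter, Finset.mem_product, Finset.mem_product] at hx
        obtain ⟨⟨x1, x2, x3⟩, x4⟩ := hx
        by_contra hcon
        rw [not_or, not_or] at hcon
        obtain ⟨c1, c2, c3⟩ := hcon
        obtain ⟨-, r1, n1, p1⟩ := (hSm _).1 x1
        obtain ⟨-, r2, n2, p2⟩ := (hSm _).1 x2
        obtain ⟨-, r3, n3, p3⟩ := (hSm _).1 x3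
        obtain ⟨-, r4, n4, p4⟩ := (hSm _).1 x4
        have g1 : δ ≤ rk (E₀ x.1) (G.rat (v x.2.1)) := by
          by_contra hc
          exact c1 ⟨not_le.1 hc, fun hall => n2 fun z => V_field G (f1 _) _ z (hall z)⟩
        have g2 : δ ≤ rk (E₁ x.1 x.2.1) (G.rat (v x.2.2)) := by
          by_contra hc
          exact c2 ⟨not_le.1 hc, fun hall => n3 fun z => V_field G (e1 _ _) _ z (hall z)⟩
        rw [hsub] at r4
        obtain ⟨S', z1, s0, s1, s2, -⟩ := stabH G F (E₀ x.1) (E₁ x.1 x.2.1) hk hF t ht (v x.1)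
          (v x.2.1) (v x.2.2) (f4 _) (e4 _ _) δ r1 r2 r3 r4 g1 g2
        have hne : S' ≠ ⊤ := by
          intro htop
          refine n1 fun z => (s0 z).2 ?_
          rw [htop]
          exact AddSubgroup.mem_top _
        exact c3 ⟨⟨p2, S', hne, z1, s0, s1⟩, ⟨p3, S', hne, z1, s0, s2⟩⟩)
      (by
        intro a _
        rw [hv]
        exact ih (t + (M + 1)) e1T (E₀ a) (hk.trans (f1 a)) (f3 a) (f2 a))
      (by
        intro a _ b _
        rw [hv]
        exact ih (t + 2 * (M + 1)) e2T (E₁ a b) (hk.trans (e1 a b)) (e3 a b) (e2 a b))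
      (by
        intro a _
        by_cases hex : ∃ S' : AddSubgroup E, S' ≠ ⊤ ∧ G.ZC (S' : Set E) ∧
            ∀ z, z ∈ G.V F (v a) ↔ z - v a ∈ S'
        · obtain ⟨S', g1, g2, g3⟩ := hex
          refine le_trans (Set.ncard_le_ncard ?_
            ((z12_box h D H).finite_toSet.subset fun b hb => hb.1)) (hH1 S' g2 g1)
          rintro b ⟨hb, hPb, S'', s1, s2, s3, s4⟩
          have hSS : S'' = S' := by
            ext z
            have i1 := s3 (v a + z)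
            have i2 := g3 (v a + z)
            rw [add_sub_cancel_left] at i1 i2
            rw [← i1, i2]
          rw [hSS] at s4
          exact ⟨hb, hPb, s4⟩
        · have h1 : {b | b ∈ z12_box h D H ∧ (P F b ∧ ∃ S' : AddSubgroup E, S' ≠ ⊤ ∧
              G.ZC (S' : Set E) ∧ (∀ z, z ∈ G.V F (v a) ↔ z - v a ∈ S') ∧
              ∀ z, z ∈ G.V F (v b) ↔ z - v b ∈ S')} = ∅ := by
            rw [Set.eq_empty_iff_forall_notMem]
            rintro b ⟨_, _, S', g1, g2, g3, _⟩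
            exact hex ⟨S', g1, g2, g3⟩
          show Set.ncard {b | b ∈ z12_box h D H ∧ (P F b ∧ ∃ S' : AddSubgroup E, S' ≠ ⊤ ∧
              G.ZC (S' : Set E) ∧ (∀ z, z ∈ G.V F (v a) ↔ z - v a ∈ S') ∧
              ∀ z, z ∈ G.V F (v b) ↔ z - v b ∈ S')} ≤ _
          rw [h1, Set.ncard_empty]
          exact Nat.zero_le _)
    have hx := z12_energy H S hS
    have hx2 := hx.trans (Nat.mul_le_mul_left _ hT)
    rw [z12_card, ← hnd] at hx2
    have hA1 : 1 ≤ 2 * H + 1 := by omega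
    have hb1 := n2_bound n D m₀ β δ (2 * H + 1) hA1
    have hx3 := num' n D (4 ^ δ * m₀) (β + 2 * δ) H S.card
      (2 ^ (n + β + 2 * δ) * (2 * H + 1) ^ (n - D / (4 ^ δ * m₀)))
      (2 ^ (n + β) * (2 * H + 1) ^ (n - D / m₀)) hn (by omega) (hDn _)
      (by rw [← add_assoc]) hb1 hx2
    rw [← hnd] at hB hP1 ⊢
    -- the sum
    have hsplit : {a : Fin h → Fin D → ℤ | a ∈ z12_box h D H ∧ rk F (G.rat (v a)) < δ + 1 ∧
        ¬ ∀ z, z ∈ G.V F (v a)} ⊆
        ({a : Fin h → Fin D → ℤ | a ∈ z12_box h D H ∧ rk F (G.rat (v a)) < δ ∧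
          ¬ ∀ z, z ∈ G.V F (v a)} ∪ {a : Fin h → Fin D → ℤ | a ∈ z12_box h D H ∧ ¬ P F a}) ∪
          (S : Set _) := by
      rintro a ⟨ha1, ha2, ha3⟩
      rcases Nat.lt_or_ge (rk F (G.rat (v a))) δ with h5 | h5
      · exact Or.inl (Or.inl ⟨ha1, h5, ha3⟩)
      · by_cases hPa : P F a
        · right
          rw [Finset.mem_coe, hSm]
          exact ⟨ha1, by omega, ha3, hPa⟩
        · exact Or.inl (Or.inr ⟨ha1, hPa⟩)
    have hfin : (({a : Fin h → Fin D → ℤ | a ∈ z12_box h D H ∧ rk F (G.rat (v a)) < δ ∧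
          ¬ ∀ z, z ∈ G.V F (v a)} ∪ {a : Fin h → Fin D → ℤ | a ∈ z12_box h D H ∧ ¬ P F a}) ∪
          (S : Set _)).Finite :=
      (((z12_box h D H).finite_toSet.subset fun a ha => ha.1).union
        ((z12_box h D H).finite_toSet.subset fun a ha => ha.1)).union S.finite_toSet
    obtain ⟨W, hW⟩ : ∃ W, W = 2 ^ (n + (β + 2 * δ)) * (2 * H + 1) ^ (n - D / (4 * (4 ^ δ * m₀))) :=
      ⟨_, rfl⟩
    have hw2 : 2 ^ (n + (β + 2 * δ)) * (2 * H + 1) ^ (n - D / (4 ^ δ * m₀)) ≤ W := by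
      rw [hW]
      exact n2_bound' n D (4 ^ δ * m₀) (2 * H + 1) _ hA1
    have hw1 : 2 ^ (n + β + 2 * δ) * (2 * H + 1) ^ (n - D / (4 ^ δ * m₀)) ≤ W := by
      rw [add_assoc n β]
      exact hw2
    have hw3 : S.card ≤ W := by
      rw [hW]
      exact hx3
    have hend : 2 ^ (n + β + 2 * (δ + 1)) * (2 * H + 1) ^ (n - D / (4 ^ (δ + 1) * m₀)) = 4 * W := by
      have ee : 4 ^ (δ + 1) * m₀ = 4 * (4 ^ δ * m₀) := by
        rw [pow_succ]
        ring
      have ef : n + β + 2 * (δ + 1) = 2 + (n + (β + 2 * δ)) := by ring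
      rw [hW, ee, ef, pow_add 2 2]
      ring
    rw [hend]
    calc Set.ncard {a : Fin h → Fin D → ℤ | a ∈ z12_box h D H ∧ rk F (G.rat (v a)) < δ + 1 ∧
        ¬ ∀ z, z ∈ G.V F (v a)}
        ≤ _ := Set.ncard_le_ncard hsplit hfin
      _ ≤ _ := Set.ncard_union_le _ _
      _ ≤ _ := Nat.add_le_add_right (Set.ncard_union_le _ _) _
      _ ≤ (W + W) + W := by
          rw [Set.ncard_coe_finset]
          exact Nat.add_le_add (Nat.add_le_add (hB.trans hw1) (hP1.trans (hb1.trans hw2))) hw3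
      _ ≤ 4 * W := by omega

end GAL
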