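import Pool.Agent.GAV.Z12

set_option autoImplicit false

open Module

namespace GAL

open GAV

/-! ## [GAL-T9] slicing (file T9.lean)

`z12_box h D H` is the finset of the `a : Fin h → Fin D → ℤ` with `|a_ij| ≤ H` (`z12_mem`, `z12_card`). Map the set to `{a' : a restricted to the rows ≠ i}` (for instance `a ↦ Function.update a i 0`, whose image is in the set of the `a ∈ box` with `a i = 0`, of cardinality `(2H+1)^{(h-1)D}`); every fibre is in bijection with
`{b | (∀ j, |b j| ≤ H) ∧ P (update a' i b)}` (`Function.update_idem`, `Function.update_eq_self`), so has at most `(2H+1)^{D - D/m}` elements. Total `≤ (2H+1)^{(h-1)D} (2H+1)^{D - D/m} = (2H+1)^{hD - D/m}` (`D/m ≤ D`, `h ≥ 1`). (`ELT.f6_fiber`, `Finset.card_le_mul_card_image` may help.) -/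

/-- The part of the box with `a i = 0`. -/
theorem t9_card (h D H : ℕ) (i : Fin (h + 1)) :
    (Fintype.piFinset fun i' : Fin (h + 1) => if i' = i then {(0 : Fin D → ℤ)} else
      Fintype.piFinset fun _ : Fin D => Finset.Icc (-(H : ℤ)) H).card = (2 * H + 1) ^ (h * D) := by
  rw [Fintype.card_piFinset, ← Finset.prod_erase (a := i) _ (by rw [if_pos rfl, Finset.card_singleton]),
    Finset.prod_congr rfl (g := fun _ => (2 * H + 1) ^ D), Finset.prod_const,
    Finset.card_erase_of_mem (Finset.mem_univ _), Finset.card_univ, Fintype.card_fin, ← pow_mul]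
  · congr 1
    rw [Nat.add_sub_cancel, mul_comm]
  · intro i' hi'
    rw [if_neg (Finset.ne_of_mem_erase hi'), Fintype.card_piFinset]
    simp only [Int.card_Icc, Finset.prod_const, Finset.card_univ, Fintype.card_fin]
    congr 1
    omega

theorem slice (h D m H : ℕ) (i : Fin h) (P : (Fin h → Fin D → ℤ) → Prop)
    (hP : ∀ a : Fin h → Fin D → ℤ, Set.ncard {b : Fin D → ℤ | (∀ j, |b j| ≤ (H : ℤ)) ∧
      P (Function.update a i b)} ≤ (2 * H + 1) ^ (D - D / m)) :
    Set.ncard {a : Fin h → Fin D → ℤ | a ∈ z12_box h D H ∧ P a} ≤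
      (2 * H + 1) ^ (h * D - D / m) := by
  classical
  obtain ⟨h, rfl⟩ : ∃ h', h = h' + 1 := ⟨h - 1, by have := i.2; omega⟩
  have hfin : (∀ a : Fin (h + 1) → Fin D → ℤ, ({b : Fin D → ℤ | (∀ j, |b j| ≤ (H : ℤ)) ∧
      P (Function.update a i b)}).Finite) := by
    intro a
    refine Set.Finite.subset (Finset.finite_toSet
      (Fintype.piFinset fun _ : Fin D => Finset.Icc (-(H : ℤ)) H)) ?_
    rintro b ⟨hb, -⟩
    rw [Finset.mem_coe, Fintype.mem_piFinset]
    intro j
    rw [Finset.mem_Icc, ← abs_le]
    exact hb j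
  have h1 : {a : Fin (h + 1) → Fin D → ℤ | a ∈ z12_box (h + 1) D H ∧ P a} =
      (((z12_box (h + 1) D H).filter P : Finset _) : Set (Fin (h + 1) → Fin D → ℤ)) := by
    ext a
    rw [Finset.mem_coe, Finset.mem_filter, Set.mem_ofPred_eq]
  rw [h1, Set.ncard_coe_finset]
  have hexp : (h + 1) * D - D / m = (D - D / m) + h * D := by
    have h2 : D / m ≤ D := Nat.div_le_self D m
    rw [add_mul, one_mul]
    omega
  rw [hexp, pow_add, ← t9_card h D H i]
  refine Finset.card_le_mul_card_image_of_maps_to (f := fun a => Function.update a i 0) ?_ _ ?_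
  · intro a ha
    rw [Finset.mem_filter, z12_mem] at ha
    rw [Fintype.mem_piFinset]
    intro i'
    by_cases hi : i' = i
    · subst hi
      rw [if_pos rfl, Function.update_self, Finset.mem_singleton]
    · rw [if_neg hi, Function.update_of_ne hi, Fintype.mem_piFinset]
      intro j
      rw [Finset.mem_Icc, ← abs_le]
      exact ha.1 i' j
  · intro a' _
    refine le_trans ?_ (hP a')
    rw [← Set.ncard_coe_finset]
    refine Set.ncard_le_ncard_of_injOn (fun a => a i) ?_ ?_ (hfin a')
    · intro a ha
      rw [Finset.mem_coe, Finset.mem_filter, Finset.mem_filter, z12_mem] at ha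
      refine ⟨fun j => ha.1.1 i j, ?_⟩
      rw [← ha.2, Function.update_idem, Function.update_eq_self]
      exact ha.1.2
    · intro a ha b hb hab
      rw [Finset.mem_coe, Finset.mem_filter] at ha hb
      have h3 := ha.2.trans hb.2.symm
      funext i'
      by_cases hi : i' = i
      · subst hi
        exact hab
      · have h4 := congrFun h3 i'
        simp only [Function.update_of_ne hi] at h4
        exact h4

end GAL
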