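import Pool.Agent.GAL.T8
import Pool.Agent.GAL.T9
import Pool.Agent.ELT.F4

set_option autoImplicit false

open LTD Module

namespace GAL

open GAV

/-! ## [GAL-T10] counting rational points (file T10.lean)

`m` from `line_sub`. `i` with `ρ_i ≠ 0`. `slice` for this `i`, `P a = (A.rat (ptl r ρ w a) ⊆ F)`: for fixed `a` the set of the `b` with `P (update a i b)`: if `b, b'` are both in it then `ptl (update a i b) - ptl (update a i b') = (∑_j (b_j - b'_j) w_j) • ρ_i`, rational over `F` by `rat_sub` (GAV/F2.lean), so `∑_j (b_j - b'_j) w_j ∈ V`: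
`ELT.f4_box` (ELT/F4.lean) with this `V` (`w.equivFun.symm`: see `ELT.f4_diff` and the proof of `ELT.ell_count`). `FiniteDimensional ℚ K` from `w` (`Module.Finite.of_basis`). -/

/-- Two points which differ in the row `i`. -/
theorem t10_sub {g h D : ℕ} (K : IntermediateField ℚ ℂ) (w : Basis (Fin D) ℚ K) (r : Fin g → ℂ)
    (ρ : Fin h → Fin g → ℂ) (i : Fin h) (a : Fin h → Fin D → ℤ) (b b' : Fin D → ℤ) :
    ((w.equivFun.symm (fun j => ((b j - b' j : ℤ) : ℚ)) : K) : ℂ) • ρ i =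
      ptl r ρ (fun j => ((w j : K) : ℂ)) (Function.update a i b) -
        ptl r ρ (fun j => ((w j : K) : ℂ)) (Function.update a i b') := by
  have h1 := ELT.f4_diff D K w 0 1 b b'
  rw [one_mul, one_mul, one_mul, zero_add, zero_add] at h1
  rw [h1, sub_smul]
  have h2 : ∀ c : Fin D → ℤ, ptl r ρ (fun j => ((w j : K) : ℂ)) (Function.update a i c) =
      (r + ∑ i' ∈ Finset.univ.erase i, (∑ j, ((a i' j : ℤ) : ℂ) * ((w j : K) : ℂ)) • ρ i') +
        (∑ j, ((c j : ℤ) : ℂ) * ((w j : K) : ℂ)) • ρ i := by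
    intro c
    rw [ptl, ← Finset.sum_erase_add _ _ (Finset.mem_univ i), Function.update_self, ← add_assoc]
    congr 2
    refine Finset.sum_congr rfl fun i' hi' => ?_
    rw [Function.update_of_ne (Finset.ne_of_mem_erase hi')]
  rw [h2 b, h2 b', add_sub_add_left_eq_sub]

theorem line_count (g κ t : ℕ) : ∃ m : ℕ, 1 ≤ m ∧ ∀ (N : ℕ) (k F : IntermediateField ℚ ℂ),
    k ≤ F → Algebra.trdeg ℚ F ≤ (t : Cardinal) → Clo F → ∀ (A : AV g N κ k) (h : ℕ)
      (r : Fin g → ℂ) (ρ : Fin h → Fin g → ℂ), (∃ i, ρ i ≠ 0) →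
      ∀ (K : IntermediateField ℚ ℂ) (D : ℕ) (w : Basis (Fin D) ℚ K) (H : ℕ),
        Set.ncard {a : Fin h → Fin D → ℤ | a ∈ z12_box h D H ∧
          A.rat (ptl r ρ (fun j => ((w j : K) : ℂ)) a) ⊆ F} ≤ (2 * H + 1) ^ (h * D - D / m) := by
  obtain ⟨m, hm, hls⟩ := line_sub g κ t
  refine ⟨m, hm, fun N k F hk hF hclo A h r ρ hρ K D w H => ?_⟩
  obtain ⟨i, hi⟩ := hρ
  have hfd : FiniteDimensional ℚ K := Module.Finite.of_basis w
  obtain ⟨V, hV, hVd⟩ := hls N k F hk hF hclo A (ρ i) hi K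
  refine slice h D m H i (fun a => A.rat (ptl r ρ (fun j => ((w j : K) : ℂ)) a) ⊆ F) fun a => ?_
  refine ELT.f4_box D H m K w V hVd
    (fun b => A.rat (ptl r ρ (fun j => ((w j : K) : ℂ)) (Function.update a i b)) ⊆ F) ?_
  intro b b' hb hb'
  apply hV
  rw [t10_sub K w r ρ i a b b']
  exact rat_sub A F hk hb hb'

end GAL
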