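import Pool.Agent.GAL.N2
import Pool.Agent.GAL.T10
import Pool.Agent.GAL.H2
import Pool.Agent.GAL.H3
import Pool.Agent.GAL.C4

set_option autoImplicit false

open LTD Module

namespace GAL

open GAV

/-! ## [GAL-N3] every abelian variety: almost all points are generic (file N3.lean)

`T' = T + 2(N+1)(N+2)`, `m₀` from `line_count g κ T'`, `m = 4^{N+2} m₀`. `claim` for `toGV A` with `P F a = True`, `β = 2`, `T := T'`, `δ = N + 2`, `t = T`; at the end `rk F (rat v) ≤ N + 1 < N + 2` (`rk_rat_le`). `hH`: let `S ≠ ⊤` be an algebraic subgroup. `TT_rat` (H2.lean): `TT S` is rational; `compl` (H3.lean): `T₁`, `IsCompl (TT S) T₁`.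
Let `π : ℂ^g →ₗ[ℂ] ℂ^g` be the projection onto `T₁` along `TT S` (`Submodule.linearProjOfIsCompl`, followed by the inclusion; or get from `IsCompl` a linear map with `π x ∈ T₁`, `x - π x ∈ TT S`). Some `π (ρ i) ≠ 0`: otherwise all `ρ i ∈ TT S`, so all `c • ρ i ∈ S`, `S = ⊤` (`hρ`). For `a` in the set: `proj_rat`: `A.rat (π (v a)) ⊆ F`, and
`π (ptl r ρ w a) = ptl (π r) (fun i => π (ρ i)) w a`. `line_count`: at most `(2H+1)^{hD - D/m₀}`. (`A.rat = (toGV A).rat` by definition.) -/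

theorem n3_ptl_map {g h D : ℕ} (π : (Fin g → ℂ) →ₗ[ℂ] (Fin g → ℂ)) (r : Fin g → ℂ)
    (ρ : Fin h → Fin g → ℂ) (w : Fin D → ℂ) (a : Fin h → Fin D → ℤ) :
    π (ptl r ρ w a) = ptl (π r) (fun i => π (ρ i)) w a := by
  unfold ptl
  rw [map_add, map_sum]
  refine congrArg (fun t => π r + t) (Finset.sum_congr rfl fun i _ => ?_)
  rw [map_smul]

theorem av_gen (g N κ T : ℕ) : ∃ m : ℕ, 1 ≤ m ∧ ∀ k F : IntermediateField ℚ ℂ,
    k ≤ F → Algebra.trdeg ℚ F ≤ (T : Cardinal) → Clo F → ∀ (A : AV g N κ k) (h : ℕ)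
      (ρ : Fin h → Fin g → ℂ), (toGV A).Gen ρ → ∀ (r : Fin g → ℂ)
      (K : IntermediateField ℚ ℂ) (D : ℕ) (w : Basis (Fin D) ℚ K) (H : ℕ),
        Set.ncard {a : Fin h → Fin D → ℤ | a ∈ z12_box h D H ∧
          ¬ ∀ z, z ∈ (toGV A).V F (ptl r ρ (fun j => ((w j : K) : ℂ)) a)} ≤
          2 ^ (h * D + 2 + 2 * (N + 2)) * (2 * H + 1) ^ (h * D - D / m) := by
  obtain ⟨m₀, hm₀, hline⟩ := line_count g κ (T + 2 * (N + 1) * (N + 2))
  refine ⟨4 ^ (N + 2) * m₀, Nat.one_le_iff_ne_zero.2 (by positivity), ?_⟩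
  intro k F hk hT hF A h ρ hρ r K D w H
  have hkey := claim (toGV A) r ρ (fun j => ((w j : K) : ℂ)) H (fun _ _ => True) m₀ 2
    (T + 2 * (N + 1) * (N + 2)) hm₀ le_rfl (by
      intro F' _ _ _
      have h0 : {a : Fin h → Fin D → ℤ | a ∈ z12_box h D H ∧ ¬ True} = ∅ := by
        ext a
        simp
      rw [h0, Set.ncard_empty]
      exact Nat.zero_le _) (by
      intro F' hk' hT' hF' S hS hne
      obtain ⟨T₁, hc, hT₁⟩ := compl A (TT S) (TT_rat A S hS)
      have hex : ∃ i, (T₁.projection (TT S) hc.symm) (ρ i) ≠ 0 := by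
        by_contra hcon
        push Not at hcon
        apply hne
        refine hρ S hS fun c i => ?_
        have h1 := Submodule.sub_projection_mem hc.symm (ρ i)
        rw [hcon i, sub_zero] at h1
        exact h1 c
      have h2 := hline N k F' hk' hT' hF' A h ((T₁.projection (TT S) hc.symm) r)
        (fun i => (T₁.projection (TT S) hc.symm) (ρ i)) hex K D w H
      refine le_trans (Set.ncard_le_ncard ?_ ?_) (h2.trans ?_)
      · rintro a ⟨ha, -, hV⟩
        refine ⟨ha, ?_⟩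
        rw [← n3_ptl_map]
        exact proj_rat A F' hk' hF' _ hT' S hS T₁ hT₁ hc _ hV _
          (Submodule.projection_apply_mem hc.symm _) (Submodule.sub_projection_mem hc.symm _)
      · exact (z12_box h D H).finite_toSet.subset fun a ha => ha.1
      · exact Nat.le_mul_of_pos_left _ (by positivity)) (N + 2) T le_rfl F hk hT hF
  refine le_trans (le_of_eq (congrArg Set.ncard ?_)) hkey
  ext a
  constructor
  · rintro ⟨h1, h2⟩
    exact ⟨h1, lt_of_le_of_lt (rk_rat_le (toGV A) F _) (Nat.lt_succ_self _), h2⟩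
  · rintro ⟨h1, -, h2⟩
    exact ⟨h1, h2⟩

end GAL
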