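import Pool.Agent.GAL.B1
import Pool.Agent.GAV.Z5

set_option autoImplicit false

open MvPolynomial LTD

namespace GAL

open GAV

variable {E : Type} [NormedAddCommGroup E] [NormedSpace ℂ E] {M μ : ℕ} {k : IntermediateField ℚ ℂ}

/-! ## [GAL-P1] three independent points: cones (file P1.lean)

PORT of `GAV/Z5.lean` (`GAV.pl3`, the case of an abelian variety) to a general `G : GV E M μ k`; only `θ ≠ 0` is used there, not the group structure. (The quickest way may be to copy the file and to replace `AV g N κ k` by `GV E M μ k`, `Fin g → ℂ` by `E`, `N` by `M`; the lemmas of `Z5.lean` without `A` can be used as they are.) -/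

theorem p1_rat_finite (G : GV E M μ k) (z : E) : (G.rat z).Finite :=
  Set.finite_range _

theorem p1_cone (G : GV E M μ k) (F : IntermediateField ℚ ℂ) (v : E) (b : Fin (M + 1))
    (hb : G.θ v b ≠ 0) (s : ℂ) (hs : ¬ IsAlgebraic (IntermediateField.adjoin F (G.rat v)) s)
    (z : E) (hz : z ∈ G.V F v) (h : MvPolynomial (Fin (M + 1)) F)
    (h0 : aeval (fun j => s * (G.θ v j / G.θ v b)) h = 0) : aeval (G.θ z) h = 0 := by
  set L := IntermediateField.adjoin F (G.rat v) with hL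
  set x : Fin (M + 1) → ℂ := fun j => G.θ v j / G.θ v b with hx
  have hxL : ∀ j, x j ∈ L := fun j => IntermediateField.subset_adjoin F _ ⟨(j, b), rfl⟩
  let m := h.totalDegree + 1
  have hsum : ∑ e ∈ Finset.range m, homogeneousComponent e h = h := sum_homogeneousComponent h
  let q : Polynomial L := ∑ e ∈ Finset.range m,
    Polynomial.monomial e (⟨aeval x (homogeneousComponent e h), Z5_mem F _ x hxL _⟩ : L)
  have hq : Polynomial.aeval s q = 0 := by
    have h1 : Polynomial.aeval s q = ∑ e ∈ Finset.range m,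
        s ^ e * aeval x (homogeneousComponent e h) := by
      simp only [q, map_sum, Polynomial.aeval_monomial]
      exact Finset.sum_congr rfl fun e _ => mul_comm _ _
    rw [h1, ← h0]
    conv_rhs => rw [← hsum, map_sum]
    exact Finset.sum_congr rfl fun e _ =>
      (Z5_hom _ e (homogeneousComponent_isHomogeneous e h) s x).symm
  have hq0 : q = 0 := by
    by_contra h1
    exact hs ⟨q, h1, hq⟩
  have hcoef : ∀ e ∈ Finset.range m, aeval x (homogeneousComponent e h) = 0 := by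
    intro e he
    have h1 : q.coeff e = ⟨aeval x (homogeneousComponent e h), Z5_mem F _ x hxL _⟩ := by
      simp only [q, Polynomial.finsetSum_coeff, Polynomial.coeff_monomial]
      rw [Finset.sum_eq_single_of_mem e he]
      · simp
      · intro e' _ hne
        rw [if_neg hne]
    rw [hq0, Polynomial.coeff_zero] at h1
    exact (congrArg Subtype.val h1).symm
  rw [← hsum, map_sum]
  refine Finset.sum_eq_zero fun e he => ?_
  refine hz _ e (homogeneousComponent_isHomogeneous e h) ?_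
  have h1 : G.θ v = fun j => G.θ v b * x j := by
    funext j
    simp only [hx]
    field_simp
  rw [h1, Z5_hom _ e (homogeneousComponent_isHomogeneous e h), hcoef e he, mul_zero]

theorem p1_rk_le (G : GV E M μ k) (F : IntermediateField ℚ ℂ) (t : ℕ)
    (ht : Algebra.trdeg ℚ F ≤ (t : Cardinal)) (v : E) (b : Fin (M + 1)) (s : ℂ) :
    rk F (Set.range fun j => s * (G.θ v j / G.θ v b)) ≤ rk F (G.rat v) + 1 := by
  obtain ⟨F', t', hle, hclo, htr, hmem⟩ := Z5_clo F t ht (G.rat v) (p1_rat_finite G v)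
  have h1 := rk_add F F' hle (G.rat v) {s} (p1_rat_finite G v) (Set.finite_singleton s) hmem
  have h2 : rk F' {s} ≤ 1 := by
    refine rk_le F' 1 (fun _ => s) {s} ?_
    intro z hz
    refine Z5_alg_mem F' _ z (IntermediateField.subset_adjoin F' _ ?_)
    exact ⟨0, (Set.mem_singleton_iff.1 hz).symm⟩
  have h3 : rk F (Set.range fun j => s * (G.θ v j / G.θ v b)) ≤ rk F (G.rat v ∪ {s}) := by
    refine rk_mono F _ _ (Set.finite_range _) ((p1_rat_finite G v).union (Set.finite_singleton s)) ?_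
    rintro _ ⟨j, rfl⟩
    refine Z5_alg_mem F _ _ (mul_mem ?_ ?_)
    · exact IntermediateField.subset_adjoin F _ (Or.inr rfl)
    · exact IntermediateField.subset_adjoin F _ (Or.inl ⟨(j, b), rfl⟩)
  omega

theorem p1_sub (G : GV E M μ k) (F : IntermediateField ℚ ℂ) (v : E) (b : Fin (M + 1))
    (hb : G.θ v b ≠ 0) (s : ℂ) (hs : s ≠ 0) (S : Set ℂ)
    (hS : (Set.range fun j => s * (G.θ v j / G.θ v b)) ⊆ S) :
    (∀ z ∈ G.rat v, z ∈ IntermediateField.adjoin F S) ∧ s ∈ IntermediateField.adjoin F S := by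
  have h1 : ∀ j, s * (G.θ v j / G.θ v b) ∈ IntermediateField.adjoin F S := fun j =>
    IntermediateField.subset_adjoin F _ (hS ⟨j, rfl⟩)
  constructor
  · rintro _ ⟨⟨i, j⟩, rfl⟩
    have h2 : G.θ v i / G.θ v j = (s * (G.θ v i / G.θ v b)) / (s * (G.θ v j / G.θ v b)) := by
      by_cases hj : G.θ v j = 0
      · simp [hj]
      · field_simp
    show G.θ v i / G.θ v j ∈ _
    rw [h2]
    exact div_mem (h1 i) (h1 j)
  · have h2 := h1 b
    rwa [div_self hb, mul_one] at h2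

theorem pl3G (G : GV E M μ k) (F : IntermediateField ℚ ℂ) (hF : Clo F) (t : ℕ)
    (ht : Algebra.trdeg ℚ F ≤ (t : Cardinal)) (v₀ v₁ v₂ : E)
    (h : rk F (G.rat v₀) + rk F (G.rat v₁) + rk F (G.rat v₂) ≤
      rk F (G.rat v₀ ∪ G.rat v₁ ∪ G.rat v₂)) (z₀ z₁ z₂ : E)
    (h₀ : z₀ ∈ G.V F v₀) (h₁ : z₁ ∈ G.V F v₁) (h₂ : z₂ ∈ G.V F v₂)
    (f : MvPolynomial (Fin (M + 1) ⊕ (Fin (M + 1) ⊕ Fin (M + 1))) F)
    (hf : ∀ s₀ s₁ s₂ : ℂ, aeval (Sum.elim (s₀ • G.θ v₀) (Sum.elim (s₁ • G.θ v₁) (s₂ • G.θ v₂))) f = 0) :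
    aeval (Sum.elim (G.θ z₀) (Sum.elim (G.θ z₁) (G.θ z₂))) f = 0 := by
  obtain ⟨b₀, hb₀⟩ := Function.ne_iff.1 (G.ne v₀)
  obtain ⟨b₁, hb₁⟩ := Function.ne_iff.1 (G.ne v₁)
  obtain ⟨b₂, hb₂⟩ := Function.ne_iff.1 (G.ne v₂)
  simp only [Pi.zero_apply] at hb₀ hb₁ hb₂
  have hRf : (G.rat v₀ ∪ G.rat v₁ ∪ G.rat v₂).Finite :=
    ((p1_rat_finite G v₀).union (p1_rat_finite G v₁)).union (p1_rat_finite G v₂)
  obtain ⟨F', t', hle', hclo', htr', hmem'⟩ := Z5_clo F t ht _ hRf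
  obtain ⟨y, hy, -⟩ := fresh F' t' htr' ∅ Set.countable_empty 3
  have htrans : ∀ i, ¬ IsAlgebraic F' (y i) := fun i => hy.transcendental i
  have hns : ∀ i, y i ≠ 0 := by
    intro i hi
    exact htrans i (hi ▸ isAlgebraic_zero)
  have hnalg : ∀ (i : Fin 3) (R : Set ℂ), R ⊆ G.rat v₀ ∪ G.rat v₁ ∪ G.rat v₂ →
      ¬ IsAlgebraic (IntermediateField.adjoin F R) (y i) := by
    intro i R hR hal
    have h1 := Z5_alg_mono F R _ (IntermediateField.adjoin.mono F R _ hR) _ hal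
    rw [← hmem'] at h1
    exact htrans i (isAlgebraic_algebraMap (⟨y i, h1⟩ : F'))
  set Q₀ : Fin (M + 1) → ℂ := fun j => y 0 * (G.θ v₀ j / G.θ v₀ b₀) with hQ₀
  set Q₁ : Fin (M + 1) → ℂ := fun j => y 1 * (G.θ v₁ j / G.θ v₁ b₁) with hQ₁
  set Q₂ : Fin (M + 1) → ℂ := fun j => y 2 * (G.θ v₂ j / G.θ v₂ b₂) with hQ₂
  have hr0 : rk F (Set.range Q₀) ≤ rk F (G.rat v₀) + 1 := p1_rk_le G F t ht v₀ b₀ (y 0)
  have hr1 : rk F (Set.range Q₁) ≤ rk F (G.rat v₁) + 1 := p1_rk_le G F t ht v₁ b₁ (y 1)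
  have hr2 : rk F (Set.range Q₂) ≤ rk F (G.rat v₂) + 1 := p1_rk_le G F t ht v₂ b₂ (y 2)
  have hSf : (Set.range Q₀ ∪ (Set.range Q₁ ∪ Set.range Q₂)).Finite :=
    (Set.finite_range _).union ((Set.finite_range _).union (Set.finite_range _))
  -- the lower bound
  have hlow : rk F (G.rat v₀ ∪ G.rat v₁ ∪ G.rat v₂) + 3 ≤
      rk F (Set.range Q₀ ∪ (Set.range Q₁ ∪ Set.range Q₂)) := by
    have h1 := rk_add F F' hle' _ (Set.range y) hRf (Set.finite_range y) hmem'
    have h2 : 3 ≤ rk F' (Set.range y) := by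
      refine le_rk F' 3 y _ (Set.finite_range y) hy ?_
      intro i
      exact Z5_alg_mem F' _ _ (IntermediateField.subset_adjoin F' _ ⟨i, rfl⟩)
    have hs0 := p1_sub G F v₀ b₀ hb₀ (y 0) (hns 0)
      (Set.range Q₀ ∪ (Set.range Q₁ ∪ Set.range Q₂)) Set.subset_union_left
    have hs1 := p1_sub G F v₁ b₁ hb₁ (y 1) (hns 1)
      (Set.range Q₀ ∪ (Set.range Q₁ ∪ Set.range Q₂))
      (Set.subset_union_left.trans Set.subset_union_right)
    have hs2 := p1_sub G F v₂ b₂ hb₂ (y 2) (hns 2)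
      (Set.range Q₀ ∪ (Set.range Q₁ ∪ Set.range Q₂))
      (Set.subset_union_right.trans Set.subset_union_right)
    have h3 : rk F (G.rat v₀ ∪ G.rat v₁ ∪ G.rat v₂ ∪ Set.range y) ≤
        rk F (Set.range Q₀ ∪ (Set.range Q₁ ∪ Set.range Q₂)) := by
      refine rk_mono F _ _ (hRf.union (Set.finite_range y)) hSf ?_
      rintro z (((hz | hz) | hz) | ⟨i, rfl⟩)
      · exact Z5_alg_mem F _ _ (hs0.1 z hz)
      · exact Z5_alg_mem F _ _ (hs1.1 z hz)
      · exact Z5_alg_mem F _ _ (hs2.1 z hz)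
      · refine Z5_alg_mem F _ _ ?_
        fin_cases i
        · exact hs0.2
        · exact hs1.2
        · exact hs2.2
    omega
  obtain ⟨E₀, t₀, hle₀, hclo₀, htr₀, hmem₀⟩ := Z5_clo F t ht (Set.range Q₀) (Set.finite_range _)
  obtain ⟨E₁, t₁, hle₁, hclo₁, htr₁, hmem₁⟩ :=
    Z5_clo E₀ t₀ htr₀ (Set.range Q₁) (Set.finite_range _)
  have ha0 := rk_add F E₀ hle₀ (Set.range Q₀) (Set.range Q₁ ∪ Set.range Q₂) (Set.finite_range _)
    ((Set.finite_range _).union (Set.finite_range _)) hmem₀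
  have ha1 := rk_add E₀ E₁ hle₁ (Set.range Q₁) (Set.range Q₂) (Set.finite_range _)
    (Set.finite_range _) hmem₁
  have hf1 := rk_field F E₀ hle₀ (Set.range Q₁) (Set.finite_range _)
  have hf2 := rk_field F E₁ (hle₀.trans hle₁) (Set.range Q₂) (Set.finite_range _)
  have hi1 : rk F (Set.range Q₁) ≤ rk E₀ (Set.range Q₁) := by omega
  have hi2 : rk F (Set.range Q₂) ≤ rk E₁ (Set.range Q₂) := by omega
  have hQE₀ : ∀ j, Q₀ j ∈ E₀ := fun j =>
    (hmem₀ _).2 (Z5_alg_mem F _ _ (IntermediateField.subset_adjoin F _ ⟨j, rfl⟩))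
  have hQE₁ : ∀ j, Q₁ j ∈ E₁ := fun j =>
    (hmem₁ _).2 (Z5_alg_mem E₀ _ _ (IntermediateField.subset_adjoin E₀ _ ⟨j, rfl⟩))
  have hfQ : aeval (Sum.elim Q₀ (Sum.elim Q₁ Q₂)) f = 0 := by
    have h1 := hf (y 0 / G.θ v₀ b₀) (y 1 / G.θ v₁ b₁) (y 2 / G.θ v₂ b₂)
    have e0 : (y 0 / G.θ v₀ b₀) • G.θ v₀ = Q₀ := by
      funext j
      simp only [Pi.smul_apply, smul_eq_mul, hQ₀]
      ring
    have e1 : (y 1 / G.θ v₁ b₁) • G.θ v₁ = Q₁ := by
      funext j
      simp only [Pi.smul_apply, smul_eq_mul, hQ₁]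
      ring
    have e2 : (y 2 / G.θ v₂ b₂) • G.θ v₂ = Q₂ := by
      funext j
      simp only [Pi.smul_apply, smul_eq_mul, hQ₂]
      ring
    rwa [e0, e1, e2] at h1
  -- reassociate
  have hre : ∀ x₀ x₁ x₂ : Fin (M + 1) → ℂ,
      aeval (Sum.elim (Sum.elim x₀ x₁) x₂)
        (rename (Equiv.sumAssoc (Fin (M + 1)) (Fin (M + 1)) (Fin (M + 1))).symm f) =
        aeval (Sum.elim x₀ (Sum.elim x₁ x₂)) f := by
    intro x₀ x₁ x₂
    rw [aeval_rename]
    congr 2
    funext i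
    rcases i with i | i | i <;> rfl
  rw [← hre]
  refine pl2 F E₁ hF (hle₀.trans hle₁) (Sum.elim Q₀ Q₁) Q₂ ?_ hi2 _ (by rw [hre]; exact hfQ)
    _ _ ?_ ?_
  · rintro (i | i)
    · exact hle₁ (hQE₀ i)
    · exact hQE₁ i
  · intro h' hh'
    refine pl2 F E₀ hF hle₀ Q₀ Q₁ hQE₀ hi1 h' hh' _ _ ?_ ?_
    · intro h'' hh''
      exact p1_cone G F v₀ b₀ hb₀ (y 0)
        (hnalg 0 _ (Set.subset_union_left.trans Set.subset_union_left)) z₀ h₀ h'' hh''
    · intro h'' hh''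
      exact p1_cone G F v₁ b₁ hb₁ (y 1)
        (hnalg 1 _ (Set.subset_union_right.trans Set.subset_union_left)) z₁ h₁ h'' hh''
  · intro h' hh'
    exact p1_cone G F v₂ b₂ hb₂ (y 2) (hnalg 2 _ Set.subset_union_right) z₂ h₂ h' hh'

end GAL
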