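import Pool.Agent.GAL.B2
import Pool.Agent.GAL.P5

set_option autoImplicit false

open MvPolynomial LTD

namespace GAL

open GAV

variable {E : Type} [NormedAddCommGroup E] [NormedSpace ℂ E] {M μ : ℕ} {k : IntermediateField ℚ ℂ}

/-! ## [GAL-P6] torsion points are rational over an algebraically closed field (file P6.lean)

`V_zero`: `0` is rational over `k` (`G.zero`: `c θ(0)_j = x_j ∈ k`): the polynomials `x_j X_i - x_i X_j` over `F` vanish at `θ 0`, so at `θ z`, hence `θ z` is proportional to `θ 0` (some `x_b ≠ 0`; `θ_i(z) = (x_i/x_b) θ_b(z)`), `z - 0 ∈ Λ` by `G.inj`. More generally `V_rat`: the same argument for any `w` with `G.rat w ⊆ F`.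
`tors_rat`: let `z ∈ G.V F τ`; `mor_nsmul`, `mor_V`: `n • z ∈ G.V F (n • τ)`; `n • τ ∈ Λ`, so `G.V F (n • τ) ⊆ G.V F 0`-like (`θ(n τ)` is proportional to `θ 0`: use `V_rat` for `w = n • τ`, whose quotients are those of `0`), `n • z ∈ Λ + n • τ ⊆ Λ`. So `G.V F τ` is contained in `{z | n • z ∈ Λ}`, countable (`z ↦ n • z` is injective), `rat_of_countable`. -/

theorem V_rat (G : GV E M μ k) (F : IntermediateField ℚ ℂ) (w : E) (hw : G.rat w ⊆ F) (z : E)
    (hz : z ∈ G.V F w) : z - w ∈ G.Λ := by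
  obtain ⟨b, hb⟩ := exists_ne G w
  apply G.inj z w (G.θ z b / G.θ w b)
  funext j
  have hm : G.θ w j / G.θ w b ∈ F := hw ⟨(j, b), rfl⟩
  have h := hz (X j - C (⟨_, hm⟩ : F) * X b) 1 (by
      refine (isHomogeneous_X _ j).sub ?_
      have := (isHomogeneous_C (Fin (M + 1)) (⟨_, hm⟩ : F)).mul (isHomogeneous_X F b)
      rwa [zero_add] at this) (by
      rw [map_sub, map_mul, aeval_X, aeval_C, aeval_X]
      show G.θ w j - G.θ w j / G.θ w b * G.θ w b = 0
      rw [div_mul_cancel₀ _ hb, sub_self])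
  rw [map_sub, map_mul, aeval_X, aeval_C, aeval_X] at h
  have h1 : G.θ z j - G.θ w j / G.θ w b * G.θ z b = 0 := h
  rw [Pi.smul_apply, smul_eq_mul]
  linear_combination h1

private theorem p6_zero (G : GV E M μ k) (F : IntermediateField ℚ ℂ) (hk : k ≤ F) :
    G.rat 0 ⊆ F := by
  obtain ⟨c, hc, h⟩ := G.zero
  rintro _ ⟨⟨a, b⟩, rfl⟩
  show G.θ 0 a / G.θ 0 b ∈ F
  rw [← mul_div_mul_left _ _ hc]
  exact hk (div_mem (h a) (h b))

theorem V_zero (G : GV E M μ k) (F : IntermediateField ℚ ℂ) (hk : k ≤ F) (z : E)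
    (hz : z ∈ G.V F 0) : z ∈ G.Λ := by
  have h := V_rat G F 0 (p6_zero G F hk) z hz
  rwa [sub_zero] at h

theorem tors_rat (G : GV E M μ k) (F : IntermediateField ℚ ℂ) (hk : k ≤ F) (hF : Clo F)
    (t : ℕ) (ht : Algebra.trdeg ℚ F ≤ (t : Cardinal)) (τ : E) (n : ℕ) (hn : 0 < n)
    (hτ : n • τ ∈ G.Λ) : G.rat τ ⊆ F := by
  apply rat_of_countable G F hk hF t ht τ
  have hrat : G.rat (n • τ) ⊆ F := by
    obtain ⟨c, hc, h⟩ := theta_per G (n • τ) hτ 0
    rw [zero_add] at h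
    rintro _ ⟨⟨a, b⟩, rfl⟩
    show G.θ (n • τ) a / G.θ (n • τ) b ∈ F
    rw [h, Pi.smul_apply, Pi.smul_apply, smul_eq_mul, smul_eq_mul, mul_div_mul_left _ _ hc]
    exact p6_zero G F hk ⟨(a, b), rfl⟩
  have hn' : (n : ℂ) ≠ 0 := by exact_mod_cast hn.ne'
  refine (G.cnt.image (fun z : E => (n : ℂ)⁻¹ • z)).mono ?_
  intro z hz
  have h1 := mor_V G G F (fun z => n • z) (mor_nsmul G F hk n) τ z hz
  have h2 := V_rat G F (n • τ) hrat (n • z) h1
  have h3 : n • z ∈ G.Λ := by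
    have := G.Λ.add_mem h2 hτ
    rwa [sub_add_cancel] at this
  refine ⟨n • z, h3, ?_⟩
  show (n : ℂ)⁻¹ • (n • z) = z
  rw [← Nat.cast_smul_eq_nsmul ℂ n z, inv_smul_smul₀ hn']

end GAL
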