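import Pool.Agent.ELT.A4

set_option autoImplicit false

namespace GAL

/-! ## [GAL-S1] interpolation at roots of unity, one variable (file S1.lean)

`ℓ_e(ζ) = (1/m) ∑_{j<m} (ζ/e)^j` for `e^m = 1`: `ℓ_e(e) = 1`, `ℓ_e(e') = 0` for another `m`-th root of unity `e'`; `‖ℓ_e‖ ≤ 1` on the unit disc; for `‖ζ‖ = R`: `‖ℓ_e(ζ)‖ ≤ (1/m) ∑_{j<m} R^j ≤ R^m/m` (`R ≥ 2`, so `∑_{j<m} R^j ≤ R^m/(R-1) ≤ R^m`). `L = ∑_e F(e) ℓ_e` (over the `m` roots of unity, `Polynomial.nthRoots`/`rootsOfUnity ℂ`-like finset,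
e.g. `e_t = exp(2πi t/m)`, `t < m`): `‖L‖ ≤ m ε` on the unit disc, `‖L‖ ≤ ε R^m` for `‖ζ‖ = R`. `F - L` vanishes at the `m` distinct zeros of `ζ^m - 1`, so `F - L = (ζ^m - 1) G` with `G` entire (divide successively by `ζ - e`: `dslope`; see the lemmas in `Pool/Agent/ELT/A4.lean` which may be imported). For `‖ζ‖ = R`: `‖ζ^m - 1‖ ≥ R^m - 1 ≥ R^m/2`,
so `‖G‖ ≤ 2B/R^m + 2ε`, and by the maximum principle for `‖ζ‖ ≤ 1`. There `‖ζ^m - 1‖ ≤ 2`: `‖F‖ ≤ ‖L‖ + 2‖G‖ ≤ m ε + 4ε + 4B/R^m ≤ 5 m ε + 4 B/R^m`. -/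

/-- the interpolation functions -/
noncomputable def s1_ell (m : ℕ) (e z : ℂ) : ℂ := (m : ℂ)⁻¹ * ∑ j ∈ Finset.range m, (z * e⁻¹) ^ j

theorem s1_ell_self (m : ℕ) (hm : 1 ≤ m) (e : ℂ) (he : e ≠ 0) : s1_ell m e e = 1 := by
  unfold s1_ell
  have hm' : (m : ℂ) ≠ 0 := by
    have : m ≠ 0 := by omega
    exact_mod_cast this
  rw [mul_inv_cancel₀ he]
  simp [hm']

theorem s1_ell_ne (m : ℕ) (e e' : ℂ) (he0 : e ≠ 0) (he : e ^ m = 1) (he' : e' ^ m = 1)
    (hne : e' ≠ e) : s1_ell m e e' = 0 := by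
  unfold s1_ell
  have hx : e' * e⁻¹ ≠ 1 := by
    intro h
    apply hne
    field_simp at h
    exact h
  rw [geom_sum_eq hx, mul_pow, he', inv_pow, he]
  simp

theorem s1_ell_diff (m : ℕ) (e : ℂ) : Differentiable ℂ (s1_ell m e) := by
  unfold s1_ell
  fun_prop

theorem s1_ell_le1 (m : ℕ) (hm : 1 ≤ m) (e z : ℂ) (he : ‖e‖ = 1) (hz : ‖z‖ ≤ 1) :
    ‖s1_ell m e z‖ ≤ 1 := by
  unfold s1_ell
  have hm' : (0 : ℝ) < m := by exact_mod_cast hm
  rw [norm_mul, norm_inv, Complex.norm_natCast]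
  have h1 : ‖∑ j ∈ Finset.range m, (z * e⁻¹) ^ j‖ ≤ m := by
    calc ‖∑ j ∈ Finset.range m, (z * e⁻¹) ^ j‖ ≤ ∑ j ∈ Finset.range m, ‖(z * e⁻¹) ^ j‖ :=
          norm_sum_le _ _
      _ ≤ ∑ _j ∈ Finset.range m, (1 : ℝ) := by
          apply Finset.sum_le_sum
          intro j _
          rw [norm_pow, norm_mul, norm_inv, he, inv_one, mul_one]
          exact pow_le_one₀ (norm_nonneg _) hz
      _ = m := by simp
  calc (m : ℝ)⁻¹ * ‖∑ j ∈ Finset.range m, (z * e⁻¹) ^ j‖ ≤ (m : ℝ)⁻¹ * m :=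
        mul_le_mul_of_nonneg_left h1 (by positivity)
    _ = 1 := inv_mul_cancel₀ hm'.ne'

theorem s1_geom (R : ℝ) (hR : 2 ≤ R) (m : ℕ) : ∑ j ∈ Finset.range m, R ^ j ≤ R ^ m := by
  induction m with
  | zero => simp
  | succ n ih =>
    rw [Finset.sum_range_succ, pow_succ]
    have : 0 ≤ R ^ n := by positivity
    nlinarith

theorem s1_ell_leR (m : ℕ) (R : ℝ) (hR : 2 ≤ R) (e z : ℂ) (he : ‖e‖ = 1)
    (hz : ‖z‖ = R) : ‖s1_ell m e z‖ ≤ (m : ℝ)⁻¹ * R ^ m := by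
  unfold s1_ell
  rw [norm_mul, norm_inv, Complex.norm_natCast]
  apply mul_le_mul_of_nonneg_left _ (by positivity)
  calc ‖∑ j ∈ Finset.range m, (z * e⁻¹) ^ j‖ ≤ ∑ j ∈ Finset.range m, ‖(z * e⁻¹) ^ j‖ :=
        norm_sum_le _ _
    _ = ∑ j ∈ Finset.range m, R ^ j := by
        apply Finset.sum_congr rfl
        intro j _
        rw [norm_pow, norm_mul, norm_inv, he, inv_one, mul_one, hz]
    _ ≤ R ^ m := s1_geom R hR m

theorem root_schwarz (m : ℕ) (hm : 1 ≤ m) (F : ℂ → ℂ) (hF : Differentiable ℂ F) (R B ε : ℝ)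
    (hR : 2 ≤ R) (hB : ∀ z, ‖z‖ ≤ R → ‖F z‖ ≤ B) (hε : ∀ e : ℂ, e ^ m = 1 → ‖F e‖ ≤ ε) (z : ℂ)
    (hz : ‖z‖ ≤ 1) : ‖F z‖ ≤ 5 * m * ε + 4 * B / R ^ m := by
  have hm0 : m ≠ 0 := by omega
  have hmR : (1 : ℝ) ≤ m := by exact_mod_cast hm
  have hε0 : 0 ≤ ε := (norm_nonneg _).trans (hε 1 (one_pow m))
  have hprim : IsPrimitiveRoot (Complex.exp (2 * Real.pi * Complex.I / m)) m :=
    Complex.isPrimitiveRoot_exp m hm0
  set T : Finset ℂ := Polynomial.nthRootsFinset m (1 : ℂ) with hT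
  have hTmem : ∀ a, a ∈ T ↔ a ^ m = 1 := fun a => Polynomial.mem_nthRootsFinset (by omega) 1
  have hTcard : T.card = m := hprim.card_nthRootsFinset
  have hTn : ∀ a ∈ T, ‖a‖ = 1 := fun a ha => Complex.norm_eq_one_of_pow_eq_one ((hTmem a).1 ha) hm0
  have hT0 : ∀ a ∈ T, a ≠ 0 := by
    intro a ha h0
    have := hTn a ha
    rw [h0, norm_zero] at this
    exact zero_ne_one this
  have hprod : ∀ w : ℂ, ∏ a ∈ T, (w - a) = w ^ m - 1 := by
    intro w
    have h := congrArg (Polynomial.eval w) (Polynomial.X_pow_sub_one_eq_prod (by omega) hprim)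
    rw [Polynomial.eval_prod] at h
    simp only [Polynomial.eval_sub, Polynomial.eval_pow, Polynomial.eval_X, Polynomial.eval_one,
      Polynomial.eval_C] at h
    exact h.symm
  set L : ℂ → ℂ := fun w => ∑ a ∈ T, F a * s1_ell m a w with hL
  have hLd : Differentiable ℂ L := by
    apply Differentiable.fun_sum
    intro a _
    exact (differentiable_const _).mul (s1_ell_diff m a)
  have hL1 : ∀ w, ‖w‖ ≤ 1 → ‖L w‖ ≤ m * ε := by
    intro w hw
    calc ‖L w‖ ≤ ∑ a ∈ T, ‖F a * s1_ell m a w‖ := norm_sum_le _ _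
      _ ≤ ∑ _a ∈ T, ε := by
          apply Finset.sum_le_sum
          intro a ha
          rw [norm_mul]
          calc ‖F a‖ * ‖s1_ell m a w‖ ≤ ε * 1 :=
                mul_le_mul (hε a ((hTmem a).1 ha)) (s1_ell_le1 m hm a w (hTn a ha) hw)
                  (norm_nonneg _) hε0
            _ = ε := mul_one _
      _ = m * ε := by rw [Finset.sum_const, hTcard, nsmul_eq_mul]
  have hLR : ∀ w, ‖w‖ = R → ‖L w‖ ≤ ε * R ^ m := by
    intro w hw
    calc ‖L w‖ ≤ ∑ a ∈ T, ‖F a * s1_ell m a w‖ := norm_sum_le _ _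
      _ ≤ ∑ _a ∈ T, ε * ((m : ℝ)⁻¹ * R ^ m) := by
          apply Finset.sum_le_sum
          intro a ha
          rw [norm_mul]
          exact mul_le_mul (hε a ((hTmem a).1 ha)) (s1_ell_leR m R hR a w (hTn a ha) hw)
            (norm_nonneg _) hε0
      _ = ε * R ^ m := by
          rw [Finset.sum_const, hTcard, nsmul_eq_mul]
          field_simp
  have hHT : ∀ a ∈ T, F a - L a = 0 := by
    intro a ha
    have : L a = F a := by
      simp only [hL]
      rw [Finset.sum_eq_single a]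
      · rw [s1_ell_self m hm a (hT0 a ha), mul_one]
      · intro b hb hba
        rw [s1_ell_ne m b a (hT0 b hb) ((hTmem b).1 hb) ((hTmem a).1 ha) (Ne.symm hba), mul_zero]
      · intro h
        exact absurd ha h
    rw [this, sub_self]
  obtain ⟨G, hG, hHG⟩ := ELT.a4_factor (R + 1) (fun w => F w - L w)
    ((hF.sub hLd).differentiableOn) T hHT (fun a ha => by rw [hTn a ha]; linarith)
  have hRm : 2 ≤ R ^ m := by
    calc (2 : ℝ) ≤ R := hR
      _ = R ^ 1 := (pow_one R).symm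
      _ ≤ R ^ m := pow_le_pow_right₀ (by linarith) hm
  have hGR : ∀ w, ‖w‖ = R → ‖G w‖ ≤ 2 * B / R ^ m + 2 * ε := by
    intro w hw
    have h1 : ‖F w - L w‖ ≤ B + ε * R ^ m :=
      (norm_sub_le _ _).trans (add_le_add (hB w hw.le) (hLR w hw))
    have h2 : R ^ m / 2 ≤ ‖w ^ m - 1‖ := by
      have := norm_sub_norm_le (w ^ m) 1
      rw [norm_pow, hw, norm_one] at this
      linarith
    have h3 : ‖F w - L w‖ = ‖w ^ m - 1‖ * ‖G w‖ := by
      have := hHG w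
      simp only [hprod] at this
      rw [this, norm_mul]
    have h4 : R ^ m / 2 * ‖G w‖ ≤ B + ε * R ^ m := by
      calc R ^ m / 2 * ‖G w‖ ≤ ‖w ^ m - 1‖ * ‖G w‖ :=
            mul_le_mul_of_nonneg_right h2 (norm_nonneg _)
        _ = ‖F w - L w‖ := h3.symm
        _ ≤ _ := h1
    have h5 : 0 < R ^ m := by linarith
    have h6 : ‖G w‖ ≤ (B + ε * R ^ m) / (R ^ m / 2) := by
      rw [le_div_iff₀ (by linarith)]
      linarith
    refine h6.trans (le_of_eq ?_)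
    field_simp
  have hGz : ‖G z‖ ≤ 2 * B / R ^ m + 2 * ε := by
    apply Complex.norm_le_of_forall_mem_frontier_norm_le (U := Metric.ball (0 : ℂ) R)
      Metric.isBounded_ball
    · constructor
      · exact hG.mono (Metric.ball_subset_ball (by linarith))
      · rw [closure_ball _ (by linarith)]
        exact hG.continuousOn.mono (Metric.closedBall_subset_ball (by linarith))
    · intro w hw
      rw [frontier_ball _ (by linarith), mem_sphere_zero_iff_norm] at hw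
      exact hGR w hw
    · rw [closure_ball _ (by linarith), mem_closedBall_zero_iff]
      linarith
  have hz1 : ‖z ^ m - 1‖ ≤ 2 := by
    refine (norm_sub_le _ _).trans ?_
    rw [norm_pow, norm_one]
    have := pow_le_one₀ (n := m) (norm_nonneg z) hz
    linarith
  have hfin : F z = L z + (z ^ m - 1) * G z := by
    have := hHG z
    simp only [hprod] at this
    rw [← this]
    ring
  have h7 : ‖(z ^ m - 1) * G z‖ ≤ 2 * (2 * B / R ^ m + 2 * ε) := by
    rw [norm_mul]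
    exact mul_le_mul hz1 hGz (norm_nonneg _) (by norm_num)
  have h8 : ‖F z‖ ≤ m * ε + 2 * (2 * B / R ^ m + 2 * ε) := by
    rw [hfin]
    exact (norm_add_le _ _).trans (add_le_add (hL1 z hz) h7)
  have h9 : ε ≤ m * ε := by nlinarith
  have h10 : 2 * (2 * B / R ^ m + 2 * ε) = 4 * B / R ^ m + 4 * ε := by ring
  rw [h10] at h8
  linarith

end GAL
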