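import Pool.Agent.GAL.S1

set_option autoImplicit false

namespace GAL

/-! ## [GAL-S2] interpolation at roots of unity, several variables (file S2.lean)

The norm of `Fin r → ℂ` is the sup norm. `K = 4B/R^m ≥ 0` (`B ≥ ‖F 0‖ ≥ 0`). CLAIM by induction on `j ≤ r`: if `‖z_i‖ ≤ 1` for `i < j` and `z_i^m = 1` for `i ≥ j` then `‖F z‖ ≤ ((5m+1)^j - 1) K`. `j = 0`: `F z = 0`. Step: fix all coordinates but the `j`-th, `f(ζ) = F(update z j ζ)` is entire, bounded by `B` for `‖ζ‖ ≤ R` (all other coordinates have absolute value `≤ 1 ≤ R`),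
`‖f(e)‖ ≤ ε = ((5m+1)^j - 1) K` at the roots of unity, `root_schwarz`: `≤ 5mε + K = (5m(5m+1)^j - 5m + 1) K ≤ ((5m+1)^{j+1} - 1) K` (the difference is `((5m+1)^j + 5m - 2) K ≥ 0`). -/

/-- roots of unity have norm one -/
theorem s2_norm_one (m : ℕ) (hm : 1 ≤ m) (e : ℂ) (he : e ^ m = 1) : ‖e‖ ≤ 1 := by
  have h : ‖e‖ ^ m = 1 := by rw [← norm_pow, he, norm_one]
  exact le_of_eq ((pow_eq_one_iff_of_nonneg (norm_nonneg e) (by omega)).1 h)

theorem s2_claim (r m : ℕ) (hm : 1 ≤ m) (F : (Fin r → ℂ) → ℂ) (hF : Differentiable ℂ F)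
    (R B : ℝ) (hR : 2 ≤ R) (hB : ∀ z, ‖z‖ ≤ R → ‖F z‖ ≤ B)
    (h0 : ∀ e : Fin r → ℂ, (∀ i, e i ^ m = 1) → F e = 0) (j : ℕ) (hj : j ≤ r) :
    ∀ z : Fin r → ℂ, (∀ i : Fin r, i.val < j → ‖z i‖ ≤ 1) →
      (∀ i : Fin r, j ≤ i.val → z i ^ m = 1) →
      ‖F z‖ ≤ ((5 * (m : ℝ) + 1) ^ j - 1) * (4 * B / R ^ m) := by
  have hB0 : 0 ≤ B := le_trans (norm_nonneg (F 0)) (hB 0 (by rw [norm_zero]; linarith))
  have hK : 0 ≤ 4 * B / R ^ m := by positivity
  induction j with
  | zero =>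
    intro z _ h2
    rw [h0 z (fun i => h2 i (Nat.zero_le _))]
    simp
  | succ j ih =>
    intro z h1 h2
    have hjr : j < r := hj
    have ih' := ih (le_of_lt hjr)
    obtain ⟨J, hJ⟩ : ∃ J : Fin r, J.val = j := ⟨⟨j, hjr⟩, rfl⟩
    have hne : ∀ i : Fin r, i.val ≠ j → i ≠ J := fun i hi h => hi (by rw [h, hJ])
    have hall : ∀ i : Fin r, ‖z i‖ ≤ 1 := by
      intro i
      by_cases hi : i.val < j + 1
      · exact h1 i hi
      · exact s2_norm_one m hm _ (h2 i (by omega))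
    have hfd : Differentiable ℂ (fun ζ : ℂ => F (Function.update z J ζ)) := by
      refine hF.comp ?_
      rw [differentiable_pi]
      intro i
      by_cases hi : i = J
      · subst hi
        simp only [Function.update_self]
        exact differentiable_id
      · simp only [Function.update_of_ne hi]
        exact differentiable_const _
    have hfB : ∀ ζ : ℂ, ‖ζ‖ ≤ R → ‖F (Function.update z J ζ)‖ ≤ B := by
      intro ζ hζ
      apply hB
      rw [pi_norm_le_iff_of_nonneg (by linarith)]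
      intro i
      by_cases hi : i = J
      · subst hi
        rw [Function.update_self]
        exact hζ
      · rw [Function.update_of_ne hi]
        exact le_trans (hall i) (by linarith)
    have hfe : ∀ e : ℂ, e ^ m = 1 →
        ‖F (Function.update z J e)‖ ≤ ((5 * (m : ℝ) + 1) ^ j - 1) * (4 * B / R ^ m) := by
      intro e he
      apply ih'
      · intro i hi
        rw [Function.update_of_ne (hne i (by omega))]
        exact hall i
      · intro i hi
        by_cases hi2 : i = J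
        · subst hi2
          rw [Function.update_self]
          exact he
        · rw [Function.update_of_ne hi2]
          refine h2 i ?_
          have h3 : i.val ≠ j := fun h => hi2 (Fin.ext (by rw [h, hJ]))
          omega
    have hmain := root_schwarz m hm (fun ζ : ℂ => F (Function.update z J ζ)) hfd R B
      (((5 * (m : ℝ) + 1) ^ j - 1) * (4 * B / R ^ m)) hR hfB hfe (z J) (hall J)
    simp only [Function.update_eq_self] at hmain
    refine le_trans hmain ?_
    have hm1 : (1 : ℝ) ≤ (m : ℝ) := by exact_mod_cast hm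
    have hp : (1 : ℝ) ≤ (5 * (m : ℝ) + 1) ^ j := one_le_pow₀ (by linarith)
    have hdiff : ((5 * (m : ℝ) + 1) ^ (j + 1) - 1) * (4 * B / R ^ m) -
        (5 * m * (((5 * (m : ℝ) + 1) ^ j - 1) * (4 * B / R ^ m)) + 4 * B / R ^ m) =
        ((5 * (m : ℝ) + 1) ^ j + 5 * m - 2) * (4 * B / R ^ m) := by
      rw [pow_succ]
      ring
    have hnn : 0 ≤ ((5 * (m : ℝ) + 1) ^ j + 5 * m - 2) * (4 * B / R ^ m) :=
      mul_nonneg (by linarith) hK
    linarith

theorem grid_schwarz (r m : ℕ) (hm : 1 ≤ m) (F : (Fin r → ℂ) → ℂ) (hF : Differentiable ℂ F)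
    (R B : ℝ) (hR : 2 ≤ R) (hB : ∀ z, ‖z‖ ≤ R → ‖F z‖ ≤ B)
    (h0 : ∀ e : Fin r → ℂ, (∀ i, e i ^ m = 1) → F e = 0) (z : Fin r → ℂ) (hz : ‖z‖ ≤ 1) :
    ‖F z‖ ≤ (5 * m + 1) ^ r * (4 * B / R ^ m) := by
  have hB0 : 0 ≤ B := le_trans (norm_nonneg (F 0)) (hB 0 (by rw [norm_zero]; linarith))
  have hK : 0 ≤ 4 * B / R ^ m := by positivity
  have h := s2_claim r m hm F hF R B hR hB h0 r le_rfl z
    (fun i _ => le_trans (norm_le_pi_norm z i) hz)
    (fun i hi => absurd i.isLt (not_lt.2 hi))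
  refine le_trans h ?_
  exact mul_le_mul_of_nonneg_right (by linarith) hK

end GAL
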