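import Pool.Agent.ELT.K3

set_option autoImplicit false

open Finset

namespace GAL

open ELT

/-! ## [GAL-T1a] averages over pairs of grid points (file T1a.lean)

Notation of `ELT/K1..K3.lean` (`ex t = e^{2πit}`, `gw h k` the points of the square grid, `fj` Fejér kernels, `k3_expand`, `k3_card`, `k3_card'`, `k3_t`, `grid_sum`; see the proof of `ELT.fj_avg` in `ELT/K3.lean`, this is a variant of it).
For `J ⊆ Fin n` let `A_J = T^{-4} ∑_{k,k'} ∏_{j∈J} fj H (Re(ξ_j (gw k - gw k')) - α_j)`. By `k3_expand` with `w = gw h k - gw h k'`: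
`H^{|J|} A_J = T^{-4} ∑_κ ex(-c_κ) ∑_{k,k'} ex(Re(ξ_κ gw k)) ex(-Re(ξ_κ gw k')) = ∑_κ ex(-c_κ) |S_κ|²/T⁴`, `κ ∈ piFinset (k3_t H J)`, `ξ_κ = ∑ (κ_j.1 - κ_j.2) ξ_j`, `c_κ = ∑ (κ_j.1 - κ_j.2) α_j`, `S_κ = ∑_k ex(Re(ξ_κ gw k))` (`k3_conj`: the sum over `k'` is the complex conjugate of `S_κ`). Take real parts:
the term of `κ` is `cos(2π c_κ) |S_κ|²/T⁴`. It is `≥ 0` if `|c_κ| ≤ 1/4` (`Real.cos_nonneg_of_mem_Icc`); otherwise the hypothesis (with `k_j = κ_j.1 - κ_j.2`, `|k_j| ≤ H`) gives `‖ξ_κ‖ ≥ η`, so `ξ_κ ≠ 0`, `‖ξ_κ‖ h ≤ 1/2` and `grid_sum`: `|S_κ| ≤ T/(‖ξ_κ‖h) ≤ T/(ηh)`, the term is `≥ -1/(Tηh)²`.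
If `κ` is diagonal (`κ_j.1 = κ_j.2` for all `j`) the term is `1` (`S_κ = T²`, `c_κ = 0`).
`avg_lo` (`J = univ`): the `H^n` diagonal `κ` contribute `H^n`, the others `≥ - H^{2n}/(Tηh)²`; divide by `H^n`.
`avg_hi`: `H^n A_univ` is the sum over all `κ`; those with `κ_{j₀}` diagonal contribute `H · H^{n-1} A_{univ.erase j₀}` (for every `p < H`, `κ_{j₀} = (p,p)`, the term is the same as for `κ_{j₀} = (0,0)`, which is the value prescribed by `k3_t H (univ.erase j₀)`); the other terms are `≥ -1/(Tηh)²` each. -/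

/-- the frequency of `κ` -/
private noncomputable def t1a_x {n : ℕ} (ξ : Fin n → ℂ) (κ : Fin n → ℕ × ℕ) : ℂ :=
  ∑ j, (((κ j).1 : ℂ) - ((κ j).2 : ℂ)) * ξ j

/-- the phase of `κ` -/
private noncomputable def t1a_c {n : ℕ} (α : Fin n → ℝ) (κ : Fin n → ℕ × ℕ) : ℝ :=
  ∑ j, (((κ j).1 : ℝ) - ((κ j).2 : ℝ)) * α j

/-- the exponential sum of `κ` -/
private noncomputable def t1a_S {n : ℕ} (ξ : Fin n → ℂ) (h : ℝ) (T : ℕ) (κ : Fin n → ℕ × ℕ) : ℂ :=
  ∑ k ∈ range T ×ˢ range T, ex ((t1a_x ξ κ * gw h k).re)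

/-- the term of `κ` -/
private noncomputable def t1a_term {n : ℕ} (ξ : Fin n → ℂ) (α : Fin n → ℝ) (h : ℝ) (T : ℕ)
    (κ : Fin n → ℕ × ℕ) : ℝ :=
  Real.cos (2 * Real.pi * t1a_c α κ) * ‖t1a_S ξ h T κ‖ ^ 2

private theorem t1a_re (c : ℝ) (z : ℝ) : (ex (-c) * (z : ℂ)).re = Real.cos (2 * Real.pi * c) * z := by
  have h1 : ex (-c) = ((Real.cos (2 * Real.pi * c) : ℝ) : ℂ) -
      ((Real.sin (2 * Real.pi * c) : ℝ) : ℂ) * Complex.I := by
    unfold ex
    have e : (2 * (Real.pi : ℂ) * ((-c : ℝ) : ℂ) * Complex.I) =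
        -(((2 * Real.pi * c : ℝ) : ℂ)) * Complex.I := by
      push_cast
      ring
    rw [e, Complex.exp_mul_I, Complex.cos_neg, Complex.sin_neg, Complex.ofReal_cos,
      Complex.ofReal_sin]
    ring
  rw [h1, Complex.re_mul_ofReal, Complex.sub_re, Complex.ofReal_re, Complex.re_ofReal_mul,
    Complex.I_re, mul_zero, sub_zero]

private theorem t1a_expand {n : ℕ} (ξ : Fin n → ℂ) (H T : ℕ) (hH : 1 ≤ H) (h : ℝ)
    (α : Fin n → ℝ) (J : Finset (Fin n)) :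
    (∑ k ∈ range T ×ˢ range T, ∑ k' ∈ range T ×ˢ range T,
        ∏ j ∈ J, fj H ((ξ j * (gw h k - gw h k')).re - α j)) * (H : ℝ) ^ J.card =
      ∑ κ ∈ Fintype.piFinset (k3_t H J), t1a_term ξ α h T κ := by
  have h1 : (((∑ k ∈ range T ×ˢ range T, ∑ k' ∈ range T ×ˢ range T,
        ∏ j ∈ J, fj H ((ξ j * (gw h k - gw h k')).re - α j)) * (H : ℝ) ^ J.card : ℝ) : ℂ) =
      ∑ κ ∈ Fintype.piFinset (k3_t H J),
        ex (-(t1a_c α κ)) * ((‖t1a_S ξ h T κ‖ ^ 2 : ℝ) : ℂ) := by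
    rw [Complex.ofReal_mul, Complex.ofReal_sum, sum_mul]
    have h2 : ∀ k ∈ range T ×ˢ range T,
        ((∑ k' ∈ range T ×ˢ range T,
          ∏ j ∈ J, fj H ((ξ j * (gw h k - gw h k')).re - α j) : ℝ) : ℂ) *
            (((H : ℝ) ^ J.card : ℝ) : ℂ) =
        ∑ κ ∈ Fintype.piFinset (k3_t H J), ∑ k' ∈ range T ×ˢ range T,
          ex (-(t1a_c α κ)) * (ex ((t1a_x ξ κ * gw h k).re) *
            (starRingEnd ℂ) (ex ((t1a_x ξ κ * gw h k').re))) := by
      intro k _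
      rw [Complex.ofReal_sum, sum_mul, sum_comm]
      refine sum_congr rfl fun k' _ => ?_
      rw [Complex.ofReal_pow, Complex.ofReal_natCast, k3_expand ξ H hH α J (gw h k - gw h k')]
      refine sum_congr rfl fun κ _ => ?_
      rw [k3_conj, ← ex_add, ← ex_add]
      congr 1
      show (t1a_x ξ κ * (gw h k - gw h k')).re - t1a_c α κ = _
      rw [mul_sub, Complex.sub_re]
      ring
    rw [sum_congr rfl h2, sum_comm]
    refine sum_congr rfl fun κ _ => ?_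
    have h3 : ((‖t1a_S ξ h T κ‖ ^ 2 : ℝ) : ℂ) =
        t1a_S ξ h T κ * (starRingEnd ℂ) (t1a_S ξ h T κ) := by
      rw [Complex.mul_conj, Complex.normSq_eq_norm_sq]
    rw [h3]
    unfold t1a_S
    rw [map_sum, sum_mul_sum, mul_sum]
    refine sum_congr rfl fun k _ => ?_
    rw [mul_sum]
  have h4 := congrArg Complex.re h1
  rw [Complex.ofReal_re, Complex.re_sum] at h4
  rw [h4]
  refine sum_congr rfl fun κ _ => ?_
  rw [t1a_re]
  rfl

private theorem t1a_diag {n : ℕ} (ξ : Fin n → ℂ) (α : Fin n → ℝ) (h : ℝ) (T : ℕ)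
    (κ : Fin n → ℕ × ℕ) (hκ : ∀ j, (κ j).1 = (κ j).2) : t1a_term ξ α h T κ = (T : ℝ) ^ 4 := by
  have h1 : t1a_x ξ κ = 0 := by
    unfold t1a_x
    exact sum_eq_zero fun j _ => by rw [hκ j, sub_self, zero_mul]
  have h2 : t1a_c α κ = 0 := by
    unfold t1a_c
    exact sum_eq_zero fun j _ => by rw [hκ j, sub_self, zero_mul]
  have h3 : t1a_S ξ h T κ = (T : ℂ) ^ 2 := by
    unfold t1a_S
    have h5 : ∀ k ∈ range T ×ˢ range T, ex ((t1a_x ξ κ * gw h k).re) = 1 := by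
      intro k _
      rw [h1, zero_mul, Complex.zero_re, k3_ex_zero]
    rw [sum_congr rfl h5, sum_const, card_product, card_range, nsmul_eq_mul, mul_one]
    push_cast
    ring
  unfold t1a_term
  rw [h2, h3, mul_zero, Real.cos_zero, one_mul, norm_pow, Complex.norm_natCast]
  ring

private theorem t1a_lower {n : ℕ} (ξ : Fin n → ℂ) (H T : ℕ) (hT : 1 ≤ T) (h η : ℝ)
    (hh : 0 < h) (hη : 0 < η) (α : Fin n → ℝ)
    (hξ : ∀ k : Fin n → ℤ, (∀ j, |k j| ≤ (H : ℤ)) → ‖∑ j, (k j : ℂ) * ξ j‖ * h ≤ 1 / 2 ∧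
      (η ≤ ‖∑ j, (k j : ℂ) * ξ j‖ ∨ |∑ j, (k j : ℝ) * α j| ≤ 1 / 4))
    (J : Finset (Fin n)) (κ : Fin n → ℕ × ℕ) (hκ : κ ∈ Fintype.piFinset (k3_t H J)) :
    -(T / (η * h)) ^ 2 ≤ t1a_term ξ α h T κ := by
  have hTr : (0 : ℝ) < T := by exact_mod_cast hT
  let kk : Fin n → ℤ := fun j => ((κ j).1 : ℤ) - ((κ j).2 : ℤ)
  have h5 : ∀ j, |kk j| ≤ (H : ℤ) := by
    intro j
    have h6 := Fintype.mem_piFinset.1 hκ j
    show |((κ j).1 : ℤ) - ((κ j).2 : ℤ)| ≤ (H : ℤ)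
    unfold k3_t at h6
    split_ifs at h6 with h7
    · obtain ⟨h8, h9⟩ := mem_product.1 h6
      have h8 := mem_range.1 h8
      have h9 := mem_range.1 h9
      rw [abs_le]
      omega
    · have h8 := mem_singleton.1 h6
      rw [h8]
      simp
  obtain ⟨h6, h7⟩ := hξ kk h5
  have h8 : ∑ j, (kk j : ℂ) * ξ j = t1a_x ξ κ := by
    unfold t1a_x
    refine sum_congr rfl fun j _ => ?_
    show (((((κ j).1 : ℤ) - ((κ j).2 : ℤ) : ℤ)) : ℂ) * ξ j = _
    push_cast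
    rfl
  have h9 : ∑ j, (kk j : ℝ) * α j = t1a_c α κ := by
    unfold t1a_c
    refine sum_congr rfl fun j _ => ?_
    show (((((κ j).1 : ℤ) - ((κ j).2 : ℤ) : ℤ)) : ℝ) * α j = _
    push_cast
    rfl
  rw [h8] at h6 h7
  rw [h9] at h7
  unfold t1a_term
  rcases h7 with h7 | h7
  · have hne : t1a_x ξ κ ≠ 0 := by
      intro h10
      rw [h10, norm_zero] at h7
      linarith
    have h10 : ‖t1a_S ξ h T κ‖ ≤ T / (η * h) := by
      have h11 := grid_sum _ h hh hne h6 T 0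
      have h12 : ∑ k ∈ range T ×ˢ range T, ex ((t1a_x ξ κ * gw h k).re - 0) = t1a_S ξ h T κ := by
        unfold t1a_S
        refine sum_congr rfl fun k _ => ?_
        rw [sub_zero]
      rw [h12] at h11
      refine h11.trans ?_
      exact div_le_div_of_nonneg_left hTr.le (mul_pos hη hh)
        (mul_le_mul_of_nonneg_right h7 hh.le)
    have h11 : ‖t1a_S ξ h T κ‖ ^ 2 ≤ (T / (η * h)) ^ 2 :=
      pow_le_pow_left₀ (norm_nonneg _) h10 2
    have h12 := Real.neg_one_le_cos (2 * Real.pi * t1a_c α κ)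
    nlinarith [sq_nonneg ‖t1a_S ξ h T κ‖]
  · have h10 : 0 ≤ Real.cos (2 * Real.pi * t1a_c α κ) := by
      have hpi := Real.pi_pos
      obtain ⟨h11, h12⟩ := abs_le.1 h7
      refine Real.cos_nonneg_of_mem_Icc ⟨?_, ?_⟩
      · nlinarith
      · nlinarith
    have h11 : 0 ≤ Real.cos (2 * Real.pi * t1a_c α κ) * ‖t1a_S ξ h T κ‖ ^ 2 :=
      mul_nonneg h10 (sq_nonneg _)
    have h12 : 0 ≤ (T / (η * h)) ^ 2 := sq_nonneg _
    linarith

private theorem t1a_low_sum {n : ℕ} (ξ : Fin n → ℂ) (H T : ℕ) (hT : 1 ≤ T) (h η : ℝ)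
    (hh : 0 < h) (hη : 0 < η) (α : Fin n → ℝ)
    (hξ : ∀ k : Fin n → ℤ, (∀ j, |k j| ≤ (H : ℤ)) → ‖∑ j, (k j : ℂ) * ξ j‖ * h ≤ 1 / 2 ∧
      (η ≤ ‖∑ j, (k j : ℂ) * ξ j‖ ∨ |∑ j, (k j : ℝ) * α j| ≤ 1 / 4))
    (Q : Finset (Fin n → ℕ × ℕ)) (hQ : Q ⊆ Fintype.piFinset (k3_t H univ)) :
    -((H : ℝ) ^ (2 * n) * (T / (η * h)) ^ 2) ≤ ∑ κ ∈ Q, t1a_term ξ α h T κ := by
  have h1 : ∀ κ ∈ Q, -(T / (η * h)) ^ 2 ≤ t1a_term ξ α h T κ := fun κ hκ =>
    t1a_lower ξ H T hT h η hh hη α hξ univ κ (hQ hκ)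
  have h2 := card_nsmul_le_sum Q _ _ h1
  refine le_trans ?_ h2
  rw [nsmul_eq_mul, mul_neg, neg_le_neg_iff]
  refine mul_le_mul_of_nonneg_right ?_ (sq_nonneg _)
  have h3 : Q.card ≤ H ^ (2 * n) := by
    have h4 := card_le_card hQ
    rwa [k3_card', card_univ, Fintype.card_fin] at h4
  exact_mod_cast h3

private theorem t1a_div (n H T : ℕ) (hH : 1 ≤ H) (hT : 1 ≤ T) (a X Y : ℝ) (ha : 0 < a)
    (hXY : X * (H : ℝ) ^ n - (H : ℝ) ^ (2 * n) * (T / a) ^ 2 ≤ Y * (H : ℝ) ^ n) :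
    X / (T : ℝ) ^ 4 - (H : ℝ) ^ n / (T * a) ^ 2 ≤ Y / (T : ℝ) ^ 4 := by
  have hHr : (0 : ℝ) < H := by exact_mod_cast hH
  have hTr : (0 : ℝ) < T := by exact_mod_cast hT
  have h1 : (0 : ℝ) < (H : ℝ) ^ n * (T : ℝ) ^ 4 := by positivity
  have h2 : (X / (T : ℝ) ^ 4 - (H : ℝ) ^ n / (T * a) ^ 2) * ((H : ℝ) ^ n * (T : ℝ) ^ 4) =
      X * (H : ℝ) ^ n - (H : ℝ) ^ (2 * n) * (T / a) ^ 2 := by
    rw [two_mul, pow_add]
    field_simp
  have h3 : (Y / (T : ℝ) ^ 4) * ((H : ℝ) ^ n * (T : ℝ) ^ 4) = Y * (H : ℝ) ^ n := by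
    field_simp
  refine le_of_mul_le_mul_right ?_ h1
  rw [h2, h3]
  exact hXY

private theorem t1a_update {n : ℕ} (ξ : Fin n → ℂ) (α : Fin n → ℝ) (h : ℝ) (T : ℕ)
    (j₀ : Fin n) (κ : Fin n → ℕ × ℕ) (p : ℕ) (hκ : κ j₀ = (0, 0)) :
    t1a_term ξ α h T (Function.update κ j₀ (p, p)) = t1a_term ξ α h T κ := by
  have h1 : t1a_x ξ (Function.update κ j₀ (p, p)) = t1a_x ξ κ := by
    unfold t1a_x
    refine sum_congr rfl fun j _ => ?_
    by_cases hj : j = j₀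
    · subst hj
      rw [Function.update_self, hκ]
      simp
    · rw [Function.update_of_ne hj]
  have h2 : t1a_c α (Function.update κ j₀ (p, p)) = t1a_c α κ := by
    unfold t1a_c
    refine sum_congr rfl fun j _ => ?_
    by_cases hj : j = j₀
    · subst hj
      rw [Function.update_self, hκ]
      simp
    · rw [Function.update_of_ne hj]
  unfold t1a_term t1a_S
  rw [h1, h2]

private theorem t1a_bij {n : ℕ} (ξ : Fin n → ℂ) (α : Fin n → ℝ) (h : ℝ) (H T : ℕ) (j₀ : Fin n) :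
    ∑ κ ∈ (Fintype.piFinset (k3_t H (univ : Finset (Fin n)))).filter
        (fun κ => (κ j₀).1 = (κ j₀).2), t1a_term ξ α h T κ =
      (H : ℝ) * ∑ κ ∈ Fintype.piFinset (k3_t H (univ.erase j₀)), t1a_term ξ α h T κ := by
  classical
  have h1 : (H : ℝ) * ∑ κ ∈ Fintype.piFinset (k3_t H (univ.erase j₀)), t1a_term ξ α h T κ =
      ∑ q ∈ Fintype.piFinset (k3_t H (univ.erase j₀)) ×ˢ range H,
        t1a_term ξ α h T (Function.update q.1 j₀ (q.2, q.2)) := by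
    rw [sum_product]
    rw [mul_sum]
    refine sum_congr rfl fun κ hκ => ?_
    have h2 : κ j₀ = (0, 0) := by
      have h3 := Fintype.mem_piFinset.1 hκ j₀
      unfold k3_t at h3
      rw [if_neg (by simp)] at h3
      exact mem_singleton.1 h3
    have h3 : ∀ p ∈ range H, t1a_term ξ α h T (Function.update κ j₀ (p, p)) =
        t1a_term ξ α h T κ := fun p _ => t1a_update ξ α h T j₀ κ p h2
    rw [sum_congr rfl h3, sum_const, card_range, nsmul_eq_mul]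
  rw [h1]
  refine sum_nbij' (fun κ => (Function.update κ j₀ (0, 0), (κ j₀).1))
    (fun q => Function.update q.1 j₀ (q.2, q.2)) ?_ ?_ ?_ ?_ ?_
  · intro κ hκ
    obtain ⟨hκ1, hκ2⟩ := mem_filter.1 hκ
    have h3 := Fintype.mem_piFinset.1 hκ1
    rw [mem_product]
    constructor
    · refine Fintype.mem_piFinset.2 fun j => ?_
      by_cases hj : j = j₀
      · subst hj
        show Function.update κ j (0, 0) j ∈ _
        rw [Function.update_self]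
        unfold k3_t
        rw [if_neg (by simp)]
        exact mem_singleton_self _
      · show Function.update κ j₀ (0, 0) j ∈ _
        rw [Function.update_of_ne hj]
        have h4 := h3 j
        unfold k3_t at h4 ⊢
        rw [if_pos (mem_univ _)] at h4
        rw [if_pos (mem_erase.2 ⟨hj, mem_univ _⟩)]
        exact h4
    · have h4 := h3 j₀
      unfold k3_t at h4
      rw [if_pos (mem_univ _)] at h4
      exact (mem_product.1 h4).1
  · intro q hq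
    obtain ⟨hq1, hq2⟩ := mem_product.1 hq
    have h3 := Fintype.mem_piFinset.1 hq1
    refine mem_filter.2 ⟨Fintype.mem_piFinset.2 fun j => ?_, ?_⟩
    · by_cases hj : j = j₀
      · subst hj
        show Function.update q.1 j (q.2, q.2) j ∈ _
        rw [Function.update_self]
        unfold k3_t
        rw [if_pos (mem_univ _)]
        exact mem_product.2 ⟨hq2, hq2⟩
      · show Function.update q.1 j₀ (q.2, q.2) j ∈ _
        rw [Function.update_of_ne hj]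
        have h4 := h3 j
        unfold k3_t at h4 ⊢
        rw [if_pos (mem_erase.2 ⟨hj, mem_univ _⟩)] at h4
        rw [if_pos (mem_univ _)]
        exact h4
    · show (Function.update q.1 j₀ (q.2, q.2) j₀).1 = (Function.update q.1 j₀ (q.2, q.2) j₀).2
      rw [Function.update_self]
  · intro κ hκ
    obtain ⟨_, hκ2⟩ := mem_filter.1 hκ
    show Function.update (Function.update κ j₀ (0, 0)) j₀ ((κ j₀).1, (κ j₀).1) = κ
    rw [Function.update_idem]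
    have h4 : ((κ j₀).1, (κ j₀).1) = κ j₀ := by
      ext
      · rfl
      · exact hκ2
    rw [h4, Function.update_eq_self]
  · intro q hq
    obtain ⟨hq1, _⟩ := mem_product.1 hq
    have h2 : q.1 j₀ = (0, 0) := by
      have h3 := Fintype.mem_piFinset.1 hq1 j₀
      unfold k3_t at h3
      rw [if_neg (by simp)] at h3
      exact mem_singleton.1 h3
    show (Function.update (Function.update q.1 j₀ (q.2, q.2)) j₀ (0, 0),
      (Function.update q.1 j₀ (q.2, q.2) j₀).1) = q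
    rw [Function.update_idem, Function.update_self, ← h2, Function.update_eq_self]
  · intro κ hκ
    obtain ⟨_, hκ2⟩ := mem_filter.1 hκ
    show t1a_term ξ α h T κ = t1a_term ξ α h T
      (Function.update (Function.update κ j₀ (0, 0)) j₀ ((κ j₀).1, (κ j₀).1))
    rw [Function.update_idem]
    have h4 : ((κ j₀).1, (κ j₀).1) = κ j₀ := by
      ext
      · rfl
      · exact hκ2
    rw [h4, Function.update_eq_self]

theorem avg_lo (n : ℕ) (ξ : Fin n → ℂ) (H T : ℕ) (hH : 1 ≤ H) (hT : 1 ≤ T) (h η : ℝ) (hh : 0 < h)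
    (hη : 0 < η) (α : Fin n → ℝ)
    (hξ : ∀ k : Fin n → ℤ, (∀ j, |k j| ≤ (H : ℤ)) → ‖∑ j, (k j : ℂ) * ξ j‖ * h ≤ 1 / 2 ∧
      (η ≤ ‖∑ j, (k j : ℂ) * ξ j‖ ∨ |∑ j, (k j : ℝ) * α j| ≤ 1 / 4)) :
    1 - (H : ℝ) ^ n / (T * (η * h)) ^ 2 ≤
      (∑ k ∈ range T ×ˢ range T, ∑ k' ∈ range T ×ˢ range T,
        ∏ j, fj H ((ξ j * (gw h k - gw h k')).re - α j)) / (T : ℝ) ^ 4 := by
  classical
  have hHr : (0 : ℝ) < H := by exact_mod_cast hH
  have hTr : (0 : ℝ) < T := by exact_mod_cast hT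
  have h1 := t1a_expand ξ H T hH h α univ
  rw [card_univ, Fintype.card_fin] at h1
  set D := Fintype.piFinset fun j => (k3_t H (univ : Finset (Fin n)) j).filter fun p => p.1 = p.2
    with hD
  have hDP : D ⊆ Fintype.piFinset (k3_t H (univ : Finset (Fin n))) :=
    Fintype.piFinset_subset _ _ fun j => filter_subset _ _
  have h2 : ∑ κ ∈ D, t1a_term ξ α h T κ = (T : ℝ) ^ 4 * (H : ℝ) ^ n := by
    have h3 : ∀ κ ∈ D, t1a_term ξ α h T κ = (T : ℝ) ^ 4 := fun κ hκ =>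
      t1a_diag ξ α h T κ fun j => (mem_filter.1 ((Fintype.mem_piFinset.1 hκ) j)).2
    rw [sum_congr rfl h3, sum_const, k3_card, nsmul_eq_mul, card_univ, Fintype.card_fin]
    push_cast
    ring
  have h3 := t1a_low_sum ξ H T hT h η hh hη α hξ (_ \ D) sdiff_subset
  rw [← sum_sdiff hDP, h2] at h1
  have h4 := t1a_div n H T hH hT (η * h) ((T : ℝ) ^ 4)
    (∑ k ∈ range T ×ˢ range T, ∑ k' ∈ range T ×ˢ range T,
        ∏ j, fj H ((ξ j * (gw h k - gw h k')).re - α j)) (mul_pos hη hh) (by linarith)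
  have h5 : (T : ℝ) ^ 4 / (T : ℝ) ^ 4 = 1 := div_self (by positivity)
  rw [h5] at h4
  exact h4

theorem avg_hi (n : ℕ) (ξ : Fin n → ℂ) (H T : ℕ) (hH : 1 ≤ H) (hT : 1 ≤ T) (h η : ℝ) (hh : 0 < h)
    (hη : 0 < η) (α : Fin n → ℝ)
    (hξ : ∀ k : Fin n → ℤ, (∀ j, |k j| ≤ (H : ℤ)) → ‖∑ j, (k j : ℂ) * ξ j‖ * h ≤ 1 / 2 ∧
      (η ≤ ‖∑ j, (k j : ℂ) * ξ j‖ ∨ |∑ j, (k j : ℝ) * α j| ≤ 1 / 4)) (j₀ : Fin n) :
    (∑ k ∈ range T ×ˢ range T, ∑ k' ∈ range T ×ˢ range T,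
        ∏ j ∈ univ.erase j₀, fj H ((ξ j * (gw h k - gw h k')).re - α j)) / (T : ℝ) ^ 4 ≤
      (∑ k ∈ range T ×ˢ range T, ∑ k' ∈ range T ×ˢ range T,
        ∏ j, fj H ((ξ j * (gw h k - gw h k')).re - α j)) / (T : ℝ) ^ 4 +
        (H : ℝ) ^ n / (T * (η * h)) ^ 2 := by
  classical
  have h1 := t1a_expand ξ H T hH h α univ
  rw [card_univ, Fintype.card_fin] at h1
  have h2 := t1a_expand ξ H T hH h α (univ.erase j₀)
  rw [card_erase_of_mem (mem_univ _), card_univ, Fintype.card_fin] at h2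
  have hn : n = (n - 1) + 1 := by
    have := j₀.isLt
    omega
  have h3 := t1a_bij ξ α h H T j₀
  have h4 := t1a_low_sum ξ H T hT h η hh hη α hξ
    ((Fintype.piFinset (k3_t H (univ : Finset (Fin n)))).filter
      (fun κ => ¬ (κ j₀).1 = (κ j₀).2)) (filter_subset _ _)
  have h5 := sum_filter_add_sum_filter_not (Fintype.piFinset (k3_t H (univ : Finset (Fin n))))
    (fun κ => (κ j₀).1 = (κ j₀).2) (t1a_term ξ α h T)
  rw [h3, ← h2] at h5
  have h6 : (H : ℝ) ^ n = (H : ℝ) ^ (n - 1) * H := by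
    conv_lhs => rw [hn]
    rw [pow_succ]
  have h7 := t1a_div n H T hH hT (η * h)
    (∑ k ∈ range T ×ˢ range T, ∑ k' ∈ range T ×ˢ range T,
        ∏ j ∈ univ.erase j₀, fj H ((ξ j * (gw h k - gw h k')).re - α j))
    (∑ k ∈ range T ×ˢ range T, ∑ k' ∈ range T ×ˢ range T,
        ∏ j, fj H ((ξ j * (gw h k - gw h k')).re - α j)) (mul_pos hη hh) (by
      rw [h1, ← h5]
      have h8 : (H : ℝ) * ((∑ k ∈ range T ×ˢ range T, ∑ k' ∈ range T ×ˢ range T,
        ∏ j ∈ univ.erase j₀, fj H ((ξ j * (gw h k - gw h k')).re - α j)) * (H : ℝ) ^ (n - 1)) =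
        (∑ k ∈ range T ×ˢ range T, ∑ k' ∈ range T ×ˢ range T,
        ∏ j ∈ univ.erase j₀, fj H ((ξ j * (gw h k - gw h k')).re - α j)) * (H : ℝ) ^ n := by
        rw [h6]
        ring
      rw [h8]
      linarith)
  linarith

end GAL
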