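import Pool.Agent.GAL.T1a
import Pool.Agent.ELT.K4

set_option autoImplicit false

open Finset

namespace GAL

open ELT

/-! ## [GAL-T1b] Kronecker's theorem with resonances (file T1b.lean)

VARIANT of `ELT.kronecker` (`ELT/K4.lean`), read its proof first. `n = 0`: `w = 0`. `Xi = ∑ H ‖ξ_j‖ + η` (so `‖∑ k_j ξ_j‖ ≤ Xi` for `|k| ≤ H`), `h = 1/(2 Xi)`, so `‖∑ k ξ‖ h ≤ 1/2`, `h ≤ 1/(2η)`; `T = ⌈4 H^n/(η h)⌉ ≥ 1`, so `T η h ≥ 4 H^n` and `δ := H^n/(Tηh)² ≤ 1/16`. `T h ≤ 4 H^n/η + h ≤ 5 H^n/η`;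
for `w = gw h k - gw h k'`: `‖w‖ ≤ 4 T h ≤ 20 H^n/η ≤ 32 H^n/η` (`norm_gw` twice). Suppose that no such `w` is good: then at every pair `(k, k')` some `j` has `fj ≤ c = 1/(4Hε²)` (`fj_le`), so (`k4_point`) `∏_j fj ≤ ∑_{j₀} c ∏_{j≠j₀} fj`. Average over the pairs: with `A = A_univ`: `A ≤ ∑_{j₀} c A_{univ.erase j₀} ≤ n c (A + δ)` (`avg_hi`),
`n c ≤ 1/4` (from `hH`). So `¾ A ≤ ¼ δ`, `A ≤ δ/3`; but `A ≥ 1 - δ` (`avg_lo`), `δ ≤ 1/16`: contradiction. -/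

theorem kron' (n : ℕ) (ξ : Fin n → ℂ) (H : ℕ) (ε η : ℝ) (hε : 0 < ε)
    (hH : (n : ℝ) / ε ^ 2 ≤ H) (hH1 : 1 ≤ H) (hη : 0 < η) (α : Fin n → ℝ)
    (hξ : ∀ k : Fin n → ℤ, (∀ j, |k j| ≤ (H : ℤ)) →
      η ≤ ‖∑ j, (k j : ℂ) * ξ j‖ ∨ |∑ j, (k j : ℝ) * α j| ≤ 1 / 4) :
    ∃ w : ℂ, ‖w‖ ≤ 32 * (H : ℝ) ^ n / η ∧ ∀ j, ∃ m : ℤ, |(ξ j * w).re - α j - m| ≤ ε := by
  have hH1' : (1 : ℝ) ≤ H := by exact_mod_cast hH1
  have hH0 : (0 : ℝ) < H := by linarith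
  have hHn : (1 : ℝ) ≤ (H : ℝ) ^ n := one_le_pow₀ hH1'
  rcases Nat.eq_zero_or_pos n with rfl | hn
  · exact ⟨0, by rw [norm_zero]; positivity, fun j => j.elim0⟩
  set Xi : ℝ := ∑ j, (H : ℝ) * ‖ξ j‖ + η with hXi
  have hs0 : 0 ≤ ∑ j, (H : ℝ) * ‖ξ j‖ :=
    Finset.sum_nonneg fun j _ => mul_nonneg hH0.le (norm_nonneg _)
  have hup : ∀ k : Fin n → ℤ, (∀ j, |k j| ≤ (H : ℤ)) → ‖∑ j, (k j : ℂ) * ξ j‖ ≤ Xi := by
    intro k hk
    have h1 : ‖∑ j, (k j : ℂ) * ξ j‖ ≤ ∑ j, (H : ℝ) * ‖ξ j‖ := by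
      refine (norm_sum_le _ _).trans (Finset.sum_le_sum fun j _ => ?_)
      rw [norm_mul]
      refine mul_le_mul_of_nonneg_right ?_ (norm_nonneg _)
      rw [Complex.norm_intCast]
      exact_mod_cast hk j
    linarith
  have hXη : η ≤ Xi := by linarith
  have hX0 : 0 < Xi := hη.trans_le hXη
  set h : ℝ := 1 / (2 * Xi) with hh
  have hh0 : 0 < h := by positivity
  have hXh : Xi * h = 1 / 2 := by
    rw [hh]
    field_simp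
  have hhη : h ≤ 1 / (2 * η) := by
    rw [hh]
    exact one_div_le_one_div_of_le (by positivity) (by linarith)
  set T : ℕ := ⌈4 * (H : ℝ) ^ n / (η * h)⌉₊ with hT
  have hTr : 4 * (H : ℝ) ^ n / (η * h) ≤ T := Nat.le_ceil _
  have hTpos : (0 : ℝ) < T := lt_of_lt_of_le (by positivity) hTr
  have hT1 : 1 ≤ T := by
    have : 0 < T := by exact_mod_cast hTpos
    omega
  have hTle : (T : ℝ) ≤ 4 * (H : ℝ) ^ n / (η * h) + 1 := (Nat.ceil_lt_add_one (by positivity)).le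
  have hTh : 2 * T * h + 2 * T * h ≤ 32 * (H : ℝ) ^ n / η := by
    have h1 : (T : ℝ) * h ≤ 4 * (H : ℝ) ^ n / η + h := by
      calc (T : ℝ) * h ≤ (4 * (H : ℝ) ^ n / (η * h) + 1) * h := mul_le_mul_of_nonneg_right hTle hh0.le
        _ = 4 * (H : ℝ) ^ n / η + h := by field_simp
    have h2 : h ≤ 4 * (H : ℝ) ^ n / η := by
      refine hhη.trans ?_
      rw [div_le_div_iff₀ (by positivity) hη]
      nlinarith
    have h3 : 32 * (H : ℝ) ^ n / η = 4 * (4 * (H : ℝ) ^ n / η + 4 * (H : ℝ) ^ n / η) := by ring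
    rw [h3]
    linarith
  have hbig : 4 * (H : ℝ) ^ n ≤ T * (η * h) := by
    have h0 : 0 < η * h := mul_pos hη hh0
    rwa [div_le_iff₀ h0] at hTr
  have hδ : (H : ℝ) ^ n / (T * (η * h)) ^ 2 ≤ 1 / 16 := by
    have h0 : 0 < T * (η * h) := by positivity
    rw [div_le_div_iff₀ (by positivity) (by norm_num)]
    have h1 : (4 * (H : ℝ) ^ n) ^ 2 ≤ (T * (η * h)) ^ 2 :=
      pow_le_pow_left₀ (by positivity) hbig 2
    have h2 : (H : ℝ) ^ n * 16 ≤ (4 * (H : ℝ) ^ n) ^ 2 := by nlinarith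
    linarith
  have hξ' : ∀ k : Fin n → ℤ, (∀ j, |k j| ≤ (H : ℤ)) → ‖∑ j, (k j : ℂ) * ξ j‖ * h ≤ 1 / 2 ∧
      (η ≤ ‖∑ j, (k j : ℂ) * ξ j‖ ∨ |∑ j, (k j : ℝ) * α j| ≤ 1 / 4) := by
    intro k hk
    refine ⟨?_, hξ k hk⟩
    rw [← hXh]
    exact mul_le_mul_of_nonneg_right (hup k hk) hh0.le
  have hlo := avg_lo n ξ H T hH1 hT1 h η hh0 hη α hξ'
  have hhi := fun j₀ => avg_hi n ξ H T hH1 hT1 h η hh0 hη α hξ' j₀
  by_contra hcon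
  push Not at hcon
  set G := range T ×ˢ range T with hG
  set f : Fin n → ℕ × ℕ → ℕ × ℕ → ℝ := fun j k k' => fj H ((ξ j * (gw h k - gw h k')).re - α j) with hf
  set c : ℝ := 1 / (4 * H * ε ^ 2) with hc
  have hc0 : 0 < c := by positivity
  have hpt : ∀ k ∈ G, ∀ k' ∈ G, ∏ j, f j k k' ≤ ∑ j₀, c * ∏ j ∈ univ.erase j₀, f j k k' := by
    intro k hk k' hk'
    have hw : ‖gw h k - gw h k'‖ ≤ 32 * (H : ℝ) ^ n / η :=
      (norm_sub_le _ _).trans ((add_le_add (norm_gw h hh0.le T k hk) (norm_gw h hh0.le T k' hk')).trans hTh)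
    obtain ⟨j, hj⟩ := hcon (gw h k - gw h k') hw
    exact k4_point (fun j => f j k k') c (fun j => fj_nonneg _ _) j (fj_le H _ ε hε fun m => (hj m).le)
  set A : ℝ := (∑ k ∈ G, ∑ k' ∈ G, ∏ j, f j k k') / (T : ℝ) ^ 4 with hA
  set δ : ℝ := (H : ℝ) ^ n / (T * (η * h)) ^ 2 with hδd
  have hT4 : (0 : ℝ) < (T : ℝ) ^ 4 := by positivity
  have hs1 : ∑ k ∈ G, ∑ k' ∈ G, ∏ j, f j k k' ≤
      ∑ j₀, c * ∑ k ∈ G, ∑ k' ∈ G, ∏ j ∈ univ.erase j₀, f j k k' := by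
    refine (Finset.sum_le_sum fun k hk => Finset.sum_le_sum fun k' hk' => hpt k hk k' hk').trans (le_of_eq ?_)
    calc ∑ k ∈ G, ∑ k' ∈ G, ∑ j₀, c * ∏ j ∈ univ.erase j₀, f j k k'
        = ∑ k ∈ G, ∑ j₀, ∑ k' ∈ G, c * ∏ j ∈ univ.erase j₀, f j k k' :=
          Finset.sum_congr rfl fun k _ => Finset.sum_comm
      _ = ∑ j₀, ∑ k ∈ G, ∑ k' ∈ G, c * ∏ j ∈ univ.erase j₀, f j k k' := Finset.sum_comm
      _ = ∑ j₀, c * ∑ k ∈ G, ∑ k' ∈ G, ∏ j ∈ univ.erase j₀, f j k k' := by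
          refine Finset.sum_congr rfl fun j₀ _ => ?_
          rw [Finset.mul_sum]
          exact Finset.sum_congr rfl fun k _ => (Finset.mul_sum _ _ _).symm
  have hAle : A ≤ ∑ j₀ : Fin n, c * (A + δ) := by
    have h1 : A ≤ ∑ j₀ : Fin n, c * ((∑ k ∈ G, ∑ k' ∈ G, ∏ j ∈ univ.erase j₀, f j k k') / (T : ℝ) ^ 4) := by
      rw [hA, div_le_iff₀ hT4, Finset.sum_mul]
      refine hs1.trans (le_of_eq (Finset.sum_congr rfl fun j₀ _ => ?_))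
      field_simp
    exact h1.trans (Finset.sum_le_sum fun j₀ _ => mul_le_mul_of_nonneg_left (hhi j₀) hc0.le)
  rw [Finset.sum_const, Finset.card_univ, Fintype.card_fin, nsmul_eq_mul] at hAle
  have hnc : n * c ≤ 1 / 4 := by
    have he : 0 < ε ^ 2 := by positivity
    rw [div_le_iff₀ he] at hH
    rw [hc, mul_one_div, div_le_div_iff₀ (by positivity) (by norm_num)]
    linarith
  have hδ0 : 0 ≤ δ := by positivity
  have hA1 : 1 - δ ≤ A := hlo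
  have hAδ : 0 ≤ A + δ := by linarith
  have h5 : (n : ℝ) * (c * (A + δ)) ≤ 1 / 4 * (A + δ) := by
    rw [← mul_assoc]
    exact mul_le_mul_of_nonneg_right hnc hAδ
  linarith

end GAL
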