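import Pool.Agent.GAL.Def
import Pool.Agent.GAL.T1b
import Pool.Agent.GAV.G1

set_option autoImplicit false

open LTD

namespace GAL

open GAV

variable {g N κ : ℕ} {k : IntermediateField ℚ ℂ}

/-! ## [GAL-T2] density of the points of a line modulo the lattice (file T2.lean)

VARIANT of `GAV.kro` (`GAV/K6.lean`; copy its proof). `kron'` with `n = d * (2g)` (`finProdFinEquiv`), `ξ_(i,j) = x_i * th A j ρ`, `α_(i,j) = A.ω.repr (δ_i • ρ) j`. For the hypothesis: `k ↔ a : Fin d → Fin (2g) → ℤ`, `τ_i = ∑_j a_ij th A j ρ`; `∑ k ξ = ∑_i x_i τ_i`; if some `‖τ_i‖ > ε'`: `NRL`. Otherwise all `‖τ_i‖ ≤ ε'` and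
`∑ k α = ∑_i ∑_j a_ij Re(th A j (δ_i • ρ)) = Re ∑_i δ_i τ_i` (`th_re`, `th_smul`), of absolute value `≤ d B ε' ≤ 1/4`. `(ξ_(i,j) w).re = Re th A j ((w x_i) • ρ) = repr_j (w • (x_i • ρ))`. The end is as in `GAV.kro`. -/

theorem kro' (A : AV g N κ k) (ρ : Fin g → ℂ) : ∃ C : ℝ, 1 ≤ C ∧ ∀ (d : ℕ) (x : Fin d → ℂ) (H : ℕ)
    (ε η B ε' : ℝ), 0 < ε → 2 * g * d / ε ^ 2 ≤ H → 1 ≤ H → 0 < η → 0 ≤ B → d * B * ε' ≤ 1 / 4 →
    NRL A ρ x H ε' η → ∀ δ : Fin d → ℂ, (∀ i, ‖δ i‖ ≤ B) →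
      ∃ w : ℂ, ‖w‖ ≤ 32 * (H : ℝ) ^ (2 * g * d) / η ∧
        ∀ i, ∃ l ∈ A.Λ, ‖w • (x i • ρ) - δ i • ρ - l‖ ≤ C * ε := by
  have hS : 0 ≤ ∑ j, ‖A.ω j‖ := Finset.sum_nonneg fun j _ => norm_nonneg _
  refine ⟨1 + ∑ j, ‖A.ω j‖, by linarith, ?_⟩
  intro d x H ε η B ε' hε hH hH1 hη hB hBε hNR δ hδ
  let e : Fin d × Fin (2 * g) ≃ Fin (d * (2 * g)) := finProdFinEquiv
  have hk := kron' (d * (2 * g)) (fun j => x (e.symm j).1 * th A (e.symm j).2 ρ) H ε η hε
    (by push_cast; rw [mul_comm (d : ℝ) (2 * g)]; exact hH) hH1 hη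
    (fun j => A.ω.repr (δ (e.symm j).1 • ρ) (e.symm j).2) ?_
  · obtain ⟨w, hw, hm⟩ := hk
    refine ⟨w, by rw [mul_comm (2 * g) d]; exact hw, ?_⟩
    intro i
    have hm' : ∀ j, ∃ m : ℤ,
        |(x i * th A j ρ * w).re - A.ω.repr (δ i • ρ) j - m| ≤ ε := by
      intro j
      obtain ⟨m, h⟩ := hm (e (i, j))
      simp only [Equiv.symm_apply_apply] at h
      exact ⟨m, h⟩
    choose m hm2 using hm'
    refine ⟨∑ j, m j • A.ω j, ?_, ?_⟩
    · exact AddSubgroup.sum_mem _ fun j _ =>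
        AddSubgroup.zsmul_mem _ (AddSubgroup.subset_closure (Set.mem_range_self j)) _
    · have h1 : w • (x i • ρ) - δ i • ρ - ∑ j, m j • A.ω j =
          ∑ j, ((x i * th A j ρ * w).re - A.ω.repr (δ i • ρ) j - m j) • A.ω j := by
        have h2 : ∀ j, (x i * th A j ρ * w).re = A.ω.repr (w • (x i • ρ)) j := by
          intro j
          rw [mul_comm, ← th_smul, ← th_smul, th_re]
        simp only [h2, sub_smul, Finset.sum_sub_distrib, A.ω.sum_repr]
        congr 1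
        refine Finset.sum_congr rfl fun j _ => ?_
        exact (Int.cast_smul_eq_zsmul ℝ _ _).symm
      rw [h1]
      refine (norm_sum_le _ _).trans ?_
      calc ∑ j, ‖((x i * th A j ρ * w).re - A.ω.repr (δ i • ρ) j - m j) • A.ω j‖
          ≤ ∑ j, ε * ‖A.ω j‖ := by
            refine Finset.sum_le_sum fun j _ => ?_
            rw [norm_smul, Real.norm_eq_abs]
            exact mul_le_mul_of_nonneg_right (hm2 j) (norm_nonneg _)
        _ = ε * ∑ j, ‖A.ω j‖ := by rw [Finset.mul_sum]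
        _ ≤ (1 + ∑ j, ‖A.ω j‖) * ε := by nlinarith
  · intro k hkH
    by_cases hc : ∃ i, ε' < ‖∑ j, (k (e (i, j)) : ℂ) * th A j ρ‖
    · left
      have h1 := hNR (fun i c => k (e (i, c))) (fun i c => hkH _) hc
      refine h1.trans (le_of_eq ?_)
      congr 1
      rw [← e.sum_comp, Fintype.sum_prod_type]
      refine Finset.sum_congr rfl fun i _ => ?_
      rw [Finset.mul_sum]
      refine Finset.sum_congr rfl fun j _ => ?_
      simp only [Equiv.symm_apply_apply]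
      ring
    · right
      push Not at hc
      have h2 : ∑ j, (k j : ℝ) * A.ω.repr (δ (e.symm j).1 • ρ) (e.symm j).2 =
          (∑ i, δ i * ∑ j, (k (e (i, j)) : ℂ) * th A j ρ).re := by
        rw [← e.sum_comp, Fintype.sum_prod_type, Complex.re_sum]
        refine Finset.sum_congr rfl fun i _ => ?_
        rw [Finset.mul_sum, Complex.re_sum]
        refine Finset.sum_congr rfl fun j _ => ?_
        simp only [Equiv.symm_apply_apply]
        rw [← th_re, th_smul]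
        have h3 : δ i * ((k (e (i, j)) : ℂ) * th A j ρ) =
            ((k (e (i, j)) : ℝ) : ℂ) * (δ i * th A j ρ) := by
          push_cast
          ring
        rw [h3, Complex.re_ofReal_mul]
      rw [h2]
      refine (Complex.abs_re_le_norm _).trans ?_
      refine (norm_sum_le _ _).trans ?_
      calc ∑ i, ‖δ i * ∑ j, (k (e (i, j)) : ℂ) * th A j ρ‖ ≤ ∑ _i : Fin d, B * ε' := by
            refine Finset.sum_le_sum fun i _ => ?_
            rw [norm_mul]
            exact mul_le_mul (hδ i) (hc i) (norm_nonneg _) hB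
        _ = d * B * ε' := by
            rw [Finset.sum_const, Finset.card_univ, Fintype.card_fin, nsmul_eq_mul]
            ring
        _ ≤ 1 / 4 := hBε

end GAL
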