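import Pool.Agent.GAL.Def
import Pool.Agent.GAV.G4

set_option autoImplicit false

open MvPolynomial LTD

namespace GAL

open GAV

variable {g N κ : ℕ} {k : IntermediateField ℚ ℂ}

/-! ## [GAL-T3] two linear forms (file T3.lean)

PORT of `GAV.exists_lam` (`GAV/G4.lean`): there the line `ℂ v` with `v = (1, …, 1)` is used; replace `v` by `ρ` and keep the parameter `s` (`δ = s`, `B = r`) in the conclusion. -/

theorem exists_lam' (A : AV g N κ k) (ρ : Fin g → ℂ) (hρ : ρ ≠ 0) :
    ∃ lam : Fin 2 → Fin (N + 1) → ℂ,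
      (∀ F : IntermediateField ℚ ℂ, Clo F → ∀ i j, lam i j ∈ F) ∧ CovL A ρ lam := by
  classical
  obtain ⟨b, hb⟩ : ∃ b, A.θ 0 b ≠ 0 := by
    by_contra hcon
    push Not at hcon
    exact A.ne 0 (funext fun j => by simpa using hcon j)
  obtain ⟨v, hv⟩ : ∃ v : Fin g → ℂ, v = ρ := ⟨ρ, rfl⟩
  have hv0 : v ≠ 0 := by rw [hv]; exact hρ
  -- the functions along the line
  set f : Fin (N + 1) → ℂ → ℂ := fun a s => A.θ (s • v) a with hf
  have hline : Differentiable ℂ fun s : ℂ => A.θ (s • v) :=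
    A.diff.comp (differentiable_id.smul_const v)
  have hfd : ∀ a, Differentiable ℂ (f a) := fun a =>
    (differentiable_pi.mp hline) a
  have hder : ∀ a, HasDerivAt (f a) (fderiv ℂ A.θ 0 v a) 0 := by
    intro a
    have h1 : HasDerivAt (fun s : ℂ => s • v) ((1 : ℂ) • v) 0 := (hasDerivAt_id (0 : ℂ)).smul_const v
    have h2 : HasFDerivAt A.θ (fderiv ℂ A.θ ((0 : ℂ) • v)) ((0 : ℂ) • v) :=
      (A.diff _).hasFDerivAt
    have h3 := h2.comp_hasDerivAt (0 : ℂ) h1
    rw [one_smul, zero_smul] at h3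
    exact (hasDerivAt_pi.mp h3) a
  have hf0 : ∀ a, f a 0 = A.θ 0 a := by
    intro a
    simp only [hf, zero_smul]
  have hfb0 : f b 0 ≠ 0 := by rw [hf0]; exact hb
  -- a quotient with nonzero derivative
  obtain ⟨a, ha⟩ : ∃ a, (fderiv ℂ A.θ 0 v a * f b 0 - f a 0 * fderiv ℂ A.θ 0 v b) / f b 0 ^ 2 ≠ 0 := by
    by_contra hcon
    push Not at hcon
    apply hv0
    apply A.imm 0 v (fderiv ℂ A.θ 0 v b / f b 0)
    funext j
    have := hcon j
    rw [div_eq_zero_iff] at this
    rcases this with h | h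
    · rw [Pi.smul_apply, smul_eq_mul, ← hf0 j]
      field_simp
      linear_combination h
    · exact absurd h (pow_ne_zero 2 hfb0)
  set φ : ℂ → ℂ := fun s => f a s / f b s with hφ
  have hφan : AnalyticAt ℂ φ 0 :=
    ((hfd a).analyticAt 0).div ((hfd b).analyticAt 0) hfb0
  have hφder : HasDerivAt φ ((fderiv ℂ A.θ 0 v a * f b 0 - f a 0 * fderiv ℂ A.θ 0 v b) / f b 0 ^ 2) 0 :=
    (hder a).div (hder b) hfb0
  have hφs : HasStrictDerivAt φ
      ((fderiv ℂ A.θ 0 v a * f b 0 - f a 0 * fderiv ℂ A.θ 0 v b) / f b 0 ^ 2) 0 := by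
    have h := hφan.hasStrictDerivAt
    rwa [hφder.deriv] at h
  have hmap := hφs.map_nhds_eq ha
  -- a disc on which f b does not vanish
  have hopen : {s : ℂ | f b s ≠ 0} ∈ nhds (0 : ℂ) :=
    (hfd b).continuous.continuousAt.eventually_ne hfb0
  obtain ⟨r, hr0, hr⟩ := Metric.nhds_basis_closedBall.mem_iff.mp hopen
  have himg : φ '' (Metric.closedBall 0 r) ∈ nhds (φ 0) := by
    rw [← hmap]
    exact Filter.image_mem_map (Metric.closedBall_mem_nhds 0 hr0)
  obtain ⟨ε, hε0, hε⟩ := Metric.mem_nhds_iff.mp himg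
  obtain ⟨α, hα1, hα2⟩ := g4_dense (φ 0) (half_pos hε0)
  obtain ⟨M, hM⟩ := exists_nat_gt (2 / ε)
  have hMpos : (0 : ℝ) < M := lt_trans (by positivity) hM
  have hM0 : (M : ℂ) ≠ 0 := by
    have : (M : ℕ) ≠ 0 := by
      intro h
      rw [h] at hMpos
      simp at hMpos
    exact_mod_cast this
  -- the lower bound on the compact disc
  obtain ⟨c, hc0, hc⟩ : ∃ c : ℝ, 0 < c ∧ ∀ s ∈ Metric.closedBall (0 : ℂ) r,
      c * ‖A.θ (s • v)‖ ≤ ‖f b s‖ := by
    have hcomp : IsCompact (Metric.closedBall (0 : ℂ) r) := isCompact_closedBall _ _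
    have hcont : ContinuousOn (fun s : ℂ => ‖f b s‖ / ‖A.θ (s • v)‖) (Metric.closedBall 0 r) := by
      apply Continuous.continuousOn
      exact ((hfd b).continuous.norm).div hline.continuous.norm fun s => by
        simpa using A.ne (s • v)
    obtain ⟨s0, hs0, hmin⟩ := hcomp.exists_isMinOn ⟨0, Metric.mem_closedBall_self hr0.le⟩ hcont
    refine ⟨‖f b s0‖ / ‖A.θ (s0 • v)‖, ?_, ?_⟩
    · have h1 : f b s0 ≠ 0 := hr hs0
      have h2 := A.ne (s0 • v)
      positivity
    · intro s hs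
      have h3 := hmin hs
      have h4 : 0 < ‖A.θ (s • v)‖ := norm_pos_iff.mpr (A.ne _)
      have h5 : ‖f b s0‖ / ‖A.θ (s0 • v)‖ ≤ ‖f b s‖ / ‖A.θ (s • v)‖ := h3
      calc ‖f b s0‖ / ‖A.θ (s0 • v)‖ * ‖A.θ (s • v)‖
          ≤ ‖f b s‖ / ‖A.θ (s • v)‖ * ‖A.θ (s • v)‖ := mul_le_mul_of_nonneg_right h5 h4.le
        _ = ‖f b s‖ := div_mul_cancel₀ _ h4.ne'
  refine ⟨fun i => if i = 0 then (fun j => (M : ℂ) * (if j = a then 1 else 0)
      - (M : ℂ) * α * (if j = b then 1 else 0)) else fun j => if j = b then 1 else 0, ?_, ?_⟩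
  · intro F hF i j
    have hMF : (M : ℂ) ∈ F := by
      simp
    have hite : ∀ (p : Prop) [Decidable p], (if p then (1 : ℂ) else 0) ∈ F := by
      intro p _
      split_ifs
      · exact F.one_mem
      · exact F.zero_mem
    fin_cases i
    · simp only [Fin.zero_eta, Fin.isValue, if_true]
      exact F.sub_mem (F.mul_mem hMF (hite _)) (F.mul_mem (F.mul_mem hMF (hα2 F hF)) (hite _))
    · simp only [Fin.mk_one, Fin.isValue, one_ne_zero, if_false]
      exact hite _
  · rw [← hv]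
    refine ⟨r, c, hr0.le, hc0, ?_⟩
    intro τ hτ
    have hmem : α + τ / M ∈ Metric.ball (φ 0) ε := by
      rw [Metric.mem_ball, dist_eq_norm]
      have h1 : ‖τ / (M : ℂ)‖ < ε / 2 := by
        rw [norm_div, Complex.norm_natCast, div_lt_iff₀ hMpos]
        rw [div_lt_iff₀ hε0] at hM
        nlinarith
      calc ‖α + τ / M - φ 0‖ = ‖(α - φ 0) + τ / M‖ := by ring_nf
        _ ≤ ‖α - φ 0‖ + ‖τ / (M : ℂ)‖ := norm_add_le _ _
        _ < ε / 2 + ε / 2 := add_lt_add hα1 h1
        _ = ε := by ring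
    obtain ⟨s, hs, hsφ⟩ := hε hmem
    refine ⟨s, ?_, ?_, ?_⟩
    · simpa using hs
    · have hfbs : f b s ≠ 0 := hr hs
      have e0 : lf A (fun i => if i = 0 then (fun j => (M : ℂ) * (if j = a then 1 else 0)
          - (M : ℂ) * α * (if j = b then 1 else 0)) else fun j => if j = b then 1 else 0) (s • v) 0
          = M * f a s - M * α * f b s := by
        simp [lf, hf, sub_mul, mul_assoc, Finset.sum_sub_distrib]
      have e1 : lf A (fun i => if i = 0 then (fun j => (M : ℂ) * (if j = a then 1 else 0)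
          - (M : ℂ) * α * (if j = b then 1 else 0)) else fun j => if j = b then 1 else 0) (s • v) 1
          = f b s := by
        simp [lf, hf]
      rw [e0, e1]
      have h2 : f a s / f b s = α + τ / M := hsφ
      rw [div_eq_iff hfbs] at h2
      rw [h2]
      field_simp
      ring
    · have e1 : lf A (fun i => if i = 0 then (fun j => (M : ℂ) * (if j = a then 1 else 0)
          - (M : ℂ) * α * (if j = b then 1 else 0)) else fun j => if j = b then 1 else 0) (s • v) 1
          = f b s := by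
        simp [lf, hf]
      rw [e1]
      exact hc s hs

end GAL
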