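import Pool.Agent.GAL.Def
import Pool.Agent.ELT.N1
import Pool.Agent.GAV.N2

set_option autoImplicit false

open LTD Module

namespace GAL

open GAV

variable {g N κ : ℕ} {k : IntermediateField ℚ ℂ}

/-! ## [GAL-T5] choice of the points (file T5.lean)

(Compare `GAV/N2.lean`, but this is simpler: no induction.) `c₁` from `ELT.liou` for `x`; `c = ε' c₁/3`; `η = c/B^{2nX}`. `d = 0`: `NRL` is vacuous (there is no `i`). `B = 0`: the hypothesis is false (unless `nX = 0`, then `1 ≤ .. < B^0 = 1` is false too), so `B ≥ 1`. The candidates are the `e : Fin d → Fin nX → Fin B`, `B^{nX d}` of them.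
For a given `a` with `‖τ_i‖ > ε'` for some `i` (`τ_i = ∑_j a_ij th A j ρ`), call `e` bad for `a` if `‖∑ x_i τ_i‖ < η`, `x_i = ∑_j e_ij x_j`. Fix all `e_{i'}`, `i' ≠ i`: if `e_i ≠ e_i'` are both bad then `‖τ_i‖ ‖x_i - x_i'‖ < 2η`, so `‖x_i - x_i'‖ < 2η/ε' = 2c₁/(3 B^{2nX}) < c₁/B^{finrank}` (`finrank ≤ 2nX`, `B ≥ 1`),
contradicting `liou` (coefficients `e_ij - e'_ij`, not all zero, `|·| ≤ B`). So at most `B^{nX (d-1)}` of the `e` are bad for `a`, and there are at most `(2H+1)^{2gd} < B^{nX}` vectors `a` (functions `Fin d → Fin (2g) → ℤ` with `|a_ij| ≤ H`): less than `B^{nX d}` bad candidates in total; take a good one. -/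

theorem nr_exist' (A : AV g N κ k) (ρ : Fin g → ℂ) (d nX : ℕ) (K : IntermediateField ℚ ℂ)
    [FiniteDimensional ℚ K] (x : Fin nX → K) (hx : LinearIndependent ℚ x)
    (hK : finrank ℚ K ≤ 2 * nX) (ε' : ℝ) (hε' : 0 < ε') :
    ∃ c : ℝ, 0 < c ∧ ∀ H B : ℕ, (2 * H + 1) ^ (2 * g * d) < B ^ nX →
      ∃ e : Fin d → Fin nX → ℕ, (∀ i j, e i j < B) ∧
        NRL A ρ (fun i => ∑ j, (e i j : ℂ) * ((x j : K) : ℂ)) H ε' (c / (B : ℝ) ^ (2 * nX)) := by
  classical
  obtain ⟨c₁, hc₁, hl⟩ := ELT.liou K nX x hx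
  refine ⟨ε' * c₁ / 3, by positivity, fun H B hHB => ?_⟩
  have hB : 1 ≤ B := by
    by_contra h
    have h1 : B = 0 := by omega
    rcases Nat.eq_zero_or_pos nX with h2 | h2
    · rw [h2, pow_zero] at hHB
      have h3 : 1 ≤ (2 * H + 1) ^ (2 * g * d) := Nat.one_le_pow _ _ (by omega)
      omega
    · rw [h1, zero_pow (by omega)] at hHB
      omega
  have hBR : (1 : ℝ) ≤ (B : ℝ) := by exact_mod_cast hB
  have hBp : (0 : ℝ) < (B : ℝ) ^ (2 * nX) := by positivity
  set η : ℝ := ε' * c₁ / 3 / (B : ℝ) ^ (2 * nX) with hη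
  have hη0 : 0 < η := by positivity
  have hlow : ∀ l : Fin nX → ℤ, l ≠ 0 → (∀ i, |l i| ≤ (B : ℤ)) →
      c₁ / (B : ℝ) ^ (2 * nX) ≤ ‖∑ i, (l i : ℂ) * ((x i : K) : ℂ)‖ := by
    intro l hl0 hlB
    refine le_trans ?_ (hl B hB l hl0 hlB)
    exact div_le_div_of_nonneg_left hc₁.le (by positivity) (pow_le_pow_right₀ hBR hK)
  by_contra hcon
  have h1 : ∀ f : Fin nX → Fin d → Fin B, ∃ a : Fin d → Fin (2 * g) → ℤ,
      (∀ i j, |a i j| ≤ (H : ℤ)) ∧ (∃ i, ε' < ‖∑ j, (a i j : ℂ) * th A j ρ‖) ∧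
      ‖∑ i, (∑ j, ((f j i : ℕ) : ℂ) * ((x j : K) : ℂ)) * ∑ j, (a i j : ℂ) * th A j ρ‖ < η := by
    intro f
    by_contra h2
    apply hcon
    refine ⟨fun i j => (f j i : ℕ), fun i j => (f j i).isLt, fun a ha hi => ?_⟩
    by_contra h3
    exact h2 ⟨a, ha, hi, not_le.1 h3⟩
  choose G g1 g2 g3 using h1
  -- `d` is positive
  have hd : 0 < d := by
    obtain ⟨i, -⟩ := g2 (fun _ _ => ⟨0, by omega⟩)
    exact Fin.pos_iff_nonempty.2 ⟨i⟩
  -- the fibres
  have h4 : ∀ a : Fin d → Fin (2 * g) → ℤ,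
      ((Finset.univ : Finset (Fin nX → Fin d → Fin B)).filter fun f => G f = a).card ≤
        B ^ ((d - 1) * nX) := by
    intro a
    by_cases ha : ∃ i, ε' < ‖∑ j, (a i j : ℂ) * th A j ρ‖
    · obtain ⟨i₀, hi₀⟩ := ha
      refine n2_fib nX d B i₀ _ ?_
      intro f hf f' hf' hff
      rw [Finset.mem_filter] at hf hf'
      by_contra hne
      have e1 := g3 f
      have e2 := g3 f'
      rw [hf.2] at e1
      rw [hf'.2] at e2
      have e3 := hlow (fun j => ((f j i₀ : ℕ) : ℤ) - ((f' j i₀ : ℕ) : ℤ)) (by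
        intro h5
        apply hne
        funext j i
        by_cases hi : i = i₀
        · subst hi
          have h6 : ((f j i : ℕ) : ℤ) - ((f' j i : ℕ) : ℤ) = 0 := congrFun h5 j
          exact Fin.ext (by omega)
        · exact hff j i hi) (by
        intro j
        have h5 := (f j i₀).isLt
        have h6 := (f' j i₀).isLt
        show |((f j i₀ : ℕ) : ℤ) - ((f' j i₀ : ℕ) : ℤ)| ≤ (B : ℤ)
        rw [abs_le]
        omega)
      set δ : ℂ := ∑ j, (((((f j i₀ : ℕ) : ℤ) - ((f' j i₀ : ℕ) : ℤ) : ℤ)) : ℂ) *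
        ((x j : K) : ℂ) with hδ
      have e4 : δ * (∑ j, (a i₀ j : ℂ) * th A j ρ) =
          (∑ i, (∑ j, ((f j i : ℕ) : ℂ) * ((x j : K) : ℂ)) * ∑ j, (a i j : ℂ) * th A j ρ) -
          ∑ i, (∑ j, ((f' j i : ℕ) : ℂ) * ((x j : K) : ℂ)) * ∑ j, (a i j : ℂ) * th A j ρ := by
        rw [← Finset.sum_sub_distrib, Finset.sum_eq_single i₀]
        · rw [← sub_mul, hδ, ← Finset.sum_sub_distrib]
          congr 1
          refine Finset.sum_congr rfl fun j _ => ?_
          push_cast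
          ring
        · intro i _ hi
          rw [← sub_mul]
          have e5 : ∑ j, ((f j i : ℕ) : ℂ) * ((x j : K) : ℂ) =
              ∑ j, ((f' j i : ℕ) : ℂ) * ((x j : K) : ℂ) :=
            Finset.sum_congr rfl fun j _ => by rw [hff j i hi]
          rw [e5, sub_self, zero_mul]
        · intro h
          exact absurd (Finset.mem_univ i₀) h
      have e5 : ‖δ * (∑ j, (a i₀ j : ℂ) * th A j ρ)‖ < 2 * η := by
        rw [e4]
        refine (norm_sub_le _ _).trans_lt ?_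
        linarith
      rw [norm_mul] at e5
      have e6 : c₁ / (B : ℝ) ^ (2 * nX) * ε' ≤ ‖δ‖ * ‖∑ j, (a i₀ j : ℂ) * th A j ρ‖ :=
        mul_le_mul e3 hi₀.le hε'.le (norm_nonneg _)
      have e7 : c₁ / (B : ℝ) ^ (2 * nX) * ε' = 3 * η := by
        rw [hη]
        field_simp
      linarith
    · have h5 : ((Finset.univ : Finset (Fin nX → Fin d → Fin B)).filter fun f => G f = a) =
          ∅ := by
        rw [Finset.filter_eq_empty_iff]
        intro f _ hf
        apply ha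
        rw [← hf]
        exact g2 f
      rw [h5, Finset.card_empty]
      exact Nat.zero_le _
  have h5 : (Finset.univ : Finset (Fin nX → Fin d → Fin B)).card ≤
      B ^ ((d - 1) * nX) * (Fintype.piFinset fun _ : Fin d => Fintype.piFinset
        fun _ : Fin (2 * g) => Finset.Icc (-(H : ℤ)) H).card := by
    refine Finset.card_le_mul_card_image_of_maps_to (f := G) ?_ _ (fun a _ => h4 a)
    intro f _
    exact Fintype.mem_piFinset.2 fun j => Fintype.mem_piFinset.2 fun x =>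
      Finset.mem_Icc.2 (abs_le.1 (g1 f j x))
  rw [Finset.card_univ, Fintype.card_fun, Fintype.card_fun, Fintype.card_fin, Fintype.card_fin,
    Fintype.card_fin, Fintype.card_piFinset, Finset.prod_const, Fintype.card_piFinset,
    Finset.prod_const, Int.card_Icc, Finset.card_univ, Finset.card_univ, Fintype.card_fin,
    Fintype.card_fin, ← pow_mul, ← pow_mul] at h5
  have h6 : ((H : ℤ) + 1 - -(H : ℤ)).toNat = 2 * H + 1 := by omega
  rw [h6] at h5
  have h7 : B ^ (d * nX) = B ^ ((d - 1) * nX) * B ^ nX := by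
    rw [← pow_add]
    congr 1
    obtain ⟨d', rfl⟩ : ∃ d', d = d' + 1 := ⟨d - 1, by omega⟩
    rw [Nat.add_sub_cancel]
    ring
  rw [h7] at h5
  have h8 : 0 < B ^ ((d - 1) * nX) := Nat.pow_pos (by omega)
  exact absurd (Nat.le_of_mul_le_mul_left h5 h8) (not_le.2 hHB)

end GAL
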