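import Pool.Agent.GAL.T3
import Pool.Agent.GAL.T5
import Pool.Agent.GAL.T6
import Pool.Agent.GAV.S5

set_option autoImplicit false

open LTD Module

namespace GAL

open GAV

/-! ## [GAL-T7] the large transcendence degree theorem for one direction, assembly (file T7.lean)

PORT of `GAV.av_ltd` (`GAV/S5.lean`), copy its proof; the lemmas `s5_norm0, s5_le` can be used. Changes: suppose `A.rat ((x_k y_j) • ρ) ⊆ F` for all `k, j`; `rep_final` with `κ' = Fin nX × Fin m`, `b (k, j) = (x_k y_j) • ρ`; `exists_lam'`, `core'`, `nr_exist'` (with the `ε'` of `core'`);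
`x'_i = ∑_k e_ik x_k ∈ ℂ`, `‖x'_i • ρ‖ ≤ KX B` with `KX = (1 + ∑‖x_k‖)(1 + ‖ρ‖)` (still `≥ 1`); for `μ ∈ [0,S')^m`: `(∑ μ_j y_j) • (x'_i • ρ) = ∑_{(k,j)} (e_ik μ_j) • ((x_k y_j) • ρ)` (the analogue of `s5_sum`). All numerical lemmas (`nu_*`) are used exactly as before, with the same `q, d, m`. -/

theorem t7_sum {g nX m : ℕ} (e : Fin nX → ℕ) (μ : Fin m → ℕ) (x : Fin nX → ℂ)
    (y : Fin m → ℂ) (ρ : Fin g → ℂ) :
    ∑ p : Fin nX × Fin m, (e p.1 * μ p.2) • ((x p.1 * y p.2) • ρ) =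
      (∑ j, ((μ j : ℕ) : ℂ) * y j) • ((∑ k, (e k : ℂ) * x k) • ρ) := by
  rw [smul_smul, Fintype.sum_prod_type, mul_comm, Finset.sum_mul_sum, Finset.sum_smul]
  refine Finset.sum_congr rfl fun k _ => ?_
  rw [Finset.sum_smul]
  refine Finset.sum_congr rfl fun j _ => ?_
  rw [← Nat.cast_smul_eq_nsmul ℂ, smul_smul]
  congr 1
  push_cast
  ring

theorem av_line (g κ t : ℕ) (hg : 0 < g) : ∃ m : ℕ, 1 ≤ m ∧ ∀ (N : ℕ) (k F : IntermediateField ℚ ℂ),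
    k ≤ F → Algebra.trdeg ℚ F ≤ (t : Cardinal) → Clo F → ∀ A : AV g N κ k,
      ∀ ρ : Fin g → ℂ, ρ ≠ 0 →
      ∀ (K : IntermediateField ℚ ℂ) [FiniteDimensional ℚ K] (nX : ℕ) (x : Fin nX → K)
        (y : Fin m → K), LinearIndependent ℚ x → LinearIndependent ℚ y →
        finrank ℚ K ≤ 2 * nX → ∃ (i : Fin nX) (j : Fin m),
          ¬ A.rat ((((x i : K) : ℂ) * ((y j : K) : ℂ)) • ρ) ⊆ F := by
  have hgr : (1 : ℝ) ≤ g := by exact_mod_cast hg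
  obtain ⟨Γ, hΓ1, hgap⟩ := gap_u t (90 * g) (by linarith)
  obtain ⟨q, hqdef⟩ : ∃ q, q = 4 * κ + 2 := ⟨_, rfl⟩
  have hq : 2 ≤ q := by omega
  set d : ℕ := ⌈16 * Γ⌉₊ with hd
  have hdΓ : 16 * Γ ≤ d := Nat.le_ceil _
  have hd1 : 1 ≤ d := by
    have h1 : (1 : ℝ) ≤ d := by linarith
    exact_mod_cast h1
  obtain ⟨m, hm⟩ : ∃ m, m = 82 * q * g * d := ⟨_, rfl⟩
  have hm2 : m = 2 * (41 * q * g * d) := by
    rw [hm]
    ring
  have hqgd : 1 ≤ 41 * q * g * d := by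
    have : 0 < 41 * q * g * d := by positivity
    omega
  have hm1 : 1 ≤ m := by omega
  refine ⟨m, hm1, fun Nd k F hk hF hClo A ρ hρ K _ nX x y hx hy hK => ?_⟩
  by_contra hcon
  push Not at hcon
  have hmK : m ≤ finrank ℚ K := by
    have h1 := hy.fintype_card_le_finrank
    rwa [Fintype.card_fin] at h1
  have hnX : 41 * q * g * d ≤ nX := by omega
  obtain ⟨lam, hlamF, hlam⟩ := exists_lam' A ρ hρ
  obtain ⟨ι, _, u, CR, huF, hCR, hrep⟩ := rep_final A F hk lam (hlamF F hClo)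
    (Fin nX × Fin m)
    (fun p => (((x p.1 : K) : ℂ) * ((y p.2 : K) : ℂ)) • ρ)
    (fun p => hcon p.1 p.2)
  rw [← hqdef] at hrep
  obtain ⟨Cs, C₁, C₂, C₃, ε', hCs, hC₁, hC₃, hε', hcore⟩ := core' A ρ lam hlam d
  obtain ⟨cσ₀, hcσ₀, hσ₀⟩ := ELT.liou K m y hy
  obtain ⟨cη, hcη, hnr⟩ := nr_exist' A ρ d nX K x hx hK ε' hε'
  set cσ : ℝ := min cσ₀ 1 with hcσdef
  have hcσ : 0 < cσ := lt_min hcσ₀ one_pos
  set KX : ℝ := (1 + ∑ k, ‖((x k : K) : ℂ)‖) * (1 + ‖ρ‖) with hKXdef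
  have hKX : 1 ≤ KX := by
    have h1 : 0 ≤ ∑ k, ‖((x k : K) : ℂ)‖ := Finset.sum_nonneg fun _ _ => norm_nonneg _
    exact one_le_mul_of_one_le_of_one_le (by linarith) (by linarith [norm_nonneg ρ])
  set Y : ℝ := 1 + ∑ j, ‖((y j : K) : ℂ)‖ with hYdef
  have hY : 1 ≤ Y := by
    have h1 : 0 ≤ ∑ j, ‖((y j : K) : ℂ)‖ := Finset.sum_nonneg fun _ _ => norm_nonneg _
    linarith
  set U : ℝ := 1 + ∑ i, ‖u i‖ with hUdef
  have hU : 1 ≤ U := by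
    have h1 : 0 ≤ ∑ i, ‖u i‖ := Finset.sum_nonneg fun _ _ => norm_nonneg _
    linarith
  have hlU : 0 ≤ Real.log U := Real.log_nonneg hU
  obtain ⟨Kb, hKb, hnub⟩ := nu_b g q d nX C₁ hg hq hd1 hnX hC₁
  obtain ⟨N1, hN1⟩ := nu_c q d m hq Kb CR KX Y Cs (Real.log U) hKb hCR hKX hY hCs hlU
  obtain ⟨N2, K', hK', hN2⟩ := nu_c2 g q d m nX (finrank ℚ K) C₂ hg hq Kb KX Y Cs cσ cη hd1 hKb
    hKX hY hCs hcσ hcη
  have h2m : (1 : ℝ) ≤ 2 ^ m := one_le_pow₀ (by norm_num)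
  have h2d : (1 : ℝ) ≤ 2 ^ d := one_le_pow₀ (by norm_num)
  have hKd : (1 : ℝ) ≤ 2 ^ m * 14 := by linarith
  obtain ⟨N3, hN3⟩ := ELT.nu_d (2 ^ m * 14) hKd
  obtain ⟨N4, hN4⟩ := nu_e g hg (Real.log U) (2 ^ m * 14) hlU hKd
  have hKf : (1 : ℝ) ≤ 2 ^ d + 2 ^ m + K' := by linarith
  obtain ⟨N5, hN5⟩ := nu_f g d hg (Real.log U) (2 ^ d + 2 ^ m + K') C₃ hlU hKf hC₃
  obtain ⟨N6, hN6⟩ := hgap F hF ι u huF
  obtain ⟨N, g0, g1, g2, g3, g4, g5, g6⟩ : ∃ N : ℝ, 2 ≤ N ∧ N1 ≤ N ∧ N2 ≤ N ∧ N3 ≤ N ∧ N4 ≤ N ∧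
      N5 ≤ N ∧ N6 ≤ N :=
    ⟨max 2 (max N1 (max N2 (max N3 (max N4 (max N5 N6))))), by simp⟩
  obtain ⟨γ, hγ1, hγ2, u', hu', hGap⟩ := hN6 N g6
  obtain ⟨T, hT⟩ : ∃ T : ℝ, T = N ^ γ := ⟨_, rfl⟩
  have hN1' : (1 : ℝ) ≤ N := by linarith
  have hN0 : (0 : ℝ) ≤ N := by linarith
  have hNT : N ≤ T := by
    rw [hT]
    exact Real.self_le_rpow_of_one_le hN1' hγ1
  have hTΓ : T ≤ N ^ Γ := by
    rw [hT]
    exact Real.rpow_le_rpow_of_exponent_le hN1' hγ2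
  have hE : N ^ (90 * (g : ℝ) * γ) = T ^ (90 * g) := by
    rw [hT, mul_comm, Real.rpow_mul hN0]
    have h1 := Real.rpow_natCast (N ^ γ) (90 * g)
    push_cast at h1
    exact h1
  rw [← hT] at hGap
  rw [hE] at hu'
  obtain ⟨D, S, S', hD1, hS1, hS'1, hSS', q1, q2, q3, q4, q5, q6, q7, q8⟩ :=
    nu_a g q d m hg hq hd1 hm Γ hdΓ N T g0 hNT hTΓ
  obtain ⟨B, hB1, b1, b2, b3⟩ := hnub D hD1
  obtain ⟨e, he, hNR⟩ := hnr (C₁ * D ^ 2) B b1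
  obtain ⟨c1, c2, c3⟩ := hN1 N g1 D S' B hD1 hS'1 hB1 q3 q8 b3
  obtain ⟨c4, c5, c6, c7⟩ := hN2 N g2 D S' B hD1 hS'1 hB1 q3 q8 b3 b2 _ rfl
  set δ : ℝ := CR * (((B * S' : ℕ) : ℝ) + 1) ^ q with hδdef
  have hδ : 0 ≤ δ := by
    have h1 : 0 ≤ CR := by linarith
    positivity
  have hBr : (1 : ℝ) ≤ B := by exact_mod_cast hB1
  have hS'r : (1 : ℝ) ≤ S' := by exact_mod_cast hS'1
  have hDr : (1 : ℝ) ≤ D := by exact_mod_cast hD1
  have hmr : (1 : ℝ) ≤ m := by exact_mod_cast hm1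
  have hη : 0 < cη / (B : ℝ) ^ (2 * nX) := by positivity
  have hRep : ∀ (μ : Fin m → ℕ) (i : Fin d), ∃ Q : Fin 2 → MvPolynomial ι ℤ,
      (∀ j, μ j < S') → RepX A lam u δ ((∑ j, ((μ j : ℕ) : ℂ) * ((y j : K) : ℂ)) •
        ((∑ k, (e i k : ℂ) * ((x k : K) : ℂ)) • ρ)) Q := by
    intro μ i
    by_cases hμ : ∀ j, μ j < S'
    · obtain ⟨Q, hQ⟩ := hrep (B * S') (fun p => e i p.1 * μ p.2)
        (fun p => Nat.mul_le_mul (he i p.1).le (hμ p.2).le)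
      refine ⟨Q, fun _ => ?_⟩
      rw [← t7_sum]
      exact hQ
    · exact ⟨0, fun h => absurd h hμ⟩
  choose Q hQ using hRep
  obtain ⟨G₁, hG₁⟩ : ∃ G₁ : ℝ, G₁ = Cs * d * D * (1 + 13 * (KX * B) * (m * Y * S')) ^ 3 :=
    ⟨_, rfl⟩
  obtain ⟨ρ₂, hρ₂⟩ : ∃ ρ₂ : ℝ, ρ₂ = m * Y * S' + C₂ * (D : ℝ) ^ (4 * g * d) /
    (cη / (B : ℝ) ^ (2 * nX)) := ⟨_, rfl⟩
  obtain ⟨G₂, hG₂⟩ : ∃ G₂ : ℝ, G₂ = Cs * d * D * (1 + 13 * (KX * B) * ρ₂) ^ 3 := ⟨_, rfl⟩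
  obtain ⟨H, hH⟩ : ∃ H : ℕ, H = ⌊Real.exp (N / 8)⌋₊ := ⟨_, rfl⟩
  rw [← hG₁] at c3
  rw [← hρ₂, ← hG₂] at c4
  rw [← hρ₂] at c5
  have hHe : (H : ℝ) ≤ Real.exp (N / 8) := by
    rw [hH]
    exact Nat.floor_le (Real.exp_pos _).le
  have hCs0 : 0 ≤ Cs := by linarith
  have hYS : 1 ≤ (m : ℝ) * Y * S' :=
    one_le_mul_of_one_le_of_one_le (one_le_mul_of_one_le_of_one_le hmr hY) hS'r
  have hρ₂1 : (m : ℝ) * Y * S' ≤ ρ₂ := by
    rw [hρ₂]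
    have h1 : 0 ≤ C₂ * (D : ℝ) ^ (4 * g * d) / (cη / (B : ℝ) ^ (2 * nX)) := by positivity
    linarith
  have hρ₂2 : C₂ * (D : ℝ) ^ (4 * g * d) / (cη / (B : ℝ) ^ (2 * nX)) ≤ ρ₂ := by
    rw [hρ₂]
    linarith
  have hKX0 : 0 ≤ KX := by linarith
  have hG₁0 : 0 ≤ G₁ := by
    rw [hG₁]
    have : 0 ≤ (m : ℝ) * Y * S' := by linarith
    positivity
  have hG₂0 : 0 ≤ G₂ := by
    rw [hG₂]
    have : 0 ≤ ρ₂ := by linarith
    positivity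
  have hσ1 : cσ / (S' : ℝ) ^ (finrank ℚ K) ≤ 1 := by
    rw [div_le_one (by positivity)]
    exact (min_le_right _ _).trans (one_le_pow₀ hS'r)
  have hσ0' : 0 < cσ / (S' : ℝ) ^ (finrank ℚ K) := by positivity
  have ha0 : 0 ≤ (d : ℝ) * D * (δ * (1 + Real.log U)) := by positivity
  have hPH : (D : ℝ) ^ d * H ≤ Real.exp (N / 16) * Real.exp (N / 8) :=
    mul_le_mul c7 hHe (Nat.cast_nonneg _) (Real.exp_pos _).le
  have hPH2 : (D : ℝ) ^ d * H ≤ Real.exp (2 * N) := by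
    refine hPH.trans ?_
    rw [← Real.exp_add]
    exact Real.exp_le_exp.2 (by linarith)
  refine hcore D m S S' H δ N T U (Real.exp (-T ^ (90 * g))) (KX * B) Y
    (cσ / (S' : ℝ) ^ (finrank ℚ K)) (cη / (B : ℝ) ^ (2 * nX)) (m * Y * S') ρ₂ G₁ G₂
    (fun i => ∑ k, (e i k : ℂ) * ((x k : K) : ℂ)) (fun j => ((y j : K) : ℂ)) u u' Q
    hD1 hSS' (one_le_mul_of_one_le_of_one_le hKX hBr) ?_ hY ?_ hU ?_ ?_ (Real.exp_pos _).le hu'
    hδ hσ0' hσ1 ?_ (fun μ hμ i => hQ μ i hμ) hGap hη hNR hYS le_rfl hρ₂1 hρ₂2 hG₁ hG₂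
    ?_ ?_ ?_ ?_ ?_
  · intro i
    rw [norm_smul]
    have h1 := s5_norm0 (e i) B (he i) fun k => ((x k : K) : ℂ)
    have h2 : 0 ≤ 1 + ∑ k, ‖((x k : K) : ℂ)‖ := by
      have h3 : 0 ≤ ∑ k, ‖((x k : K) : ℂ)‖ := Finset.sum_nonneg fun _ _ => norm_nonneg _
      linarith
    have h4 : 0 ≤ (1 + ∑ k, ‖((x k : K) : ℂ)‖) * (B : ℝ) := mul_nonneg h2 (Nat.cast_nonneg _)
    calc ‖∑ k, (e i k : ℂ) * ((x k : K) : ℂ)‖ * ‖ρ‖
        ≤ ((1 + ∑ k, ‖((x k : K) : ℂ)‖) * B) * (1 + ‖ρ‖) :=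
          mul_le_mul h1 (by linarith) (norm_nonneg _) h4
      _ = KX * B := by
          rw [hKXdef]
          ring
  · intro j
    have h1 := s5_le (fun j => ((y j : K) : ℂ)) j
    rw [hYdef]
    linarith
  · intro i
    have h1 := s5_le u i
    rw [hUdef]
    linarith
  · intro i
    have h1 := s5_le u i
    have h4 := hu' i
    have h5 : Real.exp (-T ^ (90 * g)) ≤ 1 := by
      rw [Real.exp_le_one_iff]
      have : 0 ≤ T ^ (90 * g) := by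
        have : 0 ≤ T := by linarith
        positivity
      linarith
    have h6 : ‖u' i‖ ≤ ‖u' i - u i‖ + ‖u i‖ := by
      have h7 := norm_add_le (u' i - u i) (u i)
      rwa [sub_add_cancel] at h7
    rw [hUdef]
    linarith
  · intro l hl hlS
    have h1 := hσ₀ S' hS'1 l hl hlS
    refine le_trans ?_ h1
    exact div_le_div_of_nonneg_right (min_le_left _ _) (by positivity)
  · linarith
  · have h1 : Real.exp (d * D * δ) ≤ Real.exp (N / 16) := Real.exp_le_exp.2 c2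
    refine (mul_le_mul hPH h1 (Real.exp_pos _).le (by positivity)).trans ?_
    rw [← Real.exp_add, ← Real.exp_add]
    exact Real.exp_le_exp.2 (by linarith)
  · have h1 := hN3 N g3 T hNT ((D : ℝ) ^ d) (d * D * (δ * (1 + Real.log U))) ((S : ℝ) ^ m) q1 c7
      (by positivity) (by linarith) ha0 (by linarith)
    rw [← hH] at h1
    exact h1
  · have h1 := hN4 N g4 T hNT (S ^ m) G₁ (d * D * δ) (d * D * (δ * (1 + Real.log U)))
      (26 * (m * Y * S') / (cσ / (S' : ℝ) ^ (finrank ℚ K))) ((D : ℝ) ^ d * H)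
      (by push_cast; exact q4) (by push_cast; linarith) hG₁0 (by linarith) (by linarith)
      (by linarith) (by positivity) c6 (by positivity) hPH2
    push_cast at h1
    exact h1
  · have h1 := hN5 N g5 T hNT D (S' ^ m) G₂ (d * D * δ)
      (26 * ρ₂ / (cσ / (S' : ℝ) ^ (finrank ℚ K))) ((D : ℝ) ^ d * H) hD1 q3 q1
      (by
        refine q2.trans (mul_le_mul_of_nonneg_right ?_ (by positivity))
        linarith)
      (by push_cast; exact q6)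
      (by
        push_cast
        refine q7.trans (mul_le_mul_of_nonneg_right ?_ (by positivity))
        linarith)
      hG₂0
      (c4.trans (mul_le_mul_of_nonneg_right (by linarith) (by positivity)))
      (by linarith)
      (by
        have : 0 ≤ ρ₂ := by linarith
        positivity) c5 (by positivity) hPH2
    push_cast at h1
    exact h1

end GAL
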