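import Pool.Agent.GAL.T7
import Pool.Agent.GAV.F2
import Pool.Agent.ELT.F2a

set_option autoImplicit false

open LTD Module MvPolynomial

namespace GAL

open GAV

/-! ## [GAL-T8] rational points on a line (file T8.lean)

PORT of `GAV.av_sub` (`GAV/F2.lean`), with `ELT.span_codim` (`ELT/F2a.lean`) in place of `GAV.span_codim`: `g = 0` is impossible (`ρ ≠ 0`; for `g = 0` take `m = 1`, nothing to prove). `m'` from `av_line`, `m = 2 m'`; `W = {ξ : K | A.rat ((ξ : ℂ) • ρ) ⊆ F}` is an additive subgroup of `K` (`rat_zero`, `rat_sub`), `V` = its `ℚ`-span. -/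

theorem line_sub (g κ t : ℕ) : ∃ m : ℕ, 1 ≤ m ∧ ∀ (N : ℕ) (k F : IntermediateField ℚ ℂ),
    k ≤ F → Algebra.trdeg ℚ F ≤ (t : Cardinal) → Clo F → ∀ A : AV g N κ k,
      ∀ ρ : Fin g → ℂ, ρ ≠ 0 →
      ∀ (K : IntermediateField ℚ ℂ) [FiniteDimensional ℚ K], ∃ V : Submodule ℚ K,
        (∀ ξ : K, A.rat ((ξ : ℂ) • ρ) ⊆ F → ξ ∈ V) ∧
        finrank ℚ V + finrank ℚ K / m ≤ finrank ℚ K := by
  rcases Nat.eq_zero_or_pos g with hg0 | hg
  · subst hg0
    refine ⟨1, le_refl 1, fun N k F hk hF hclo A ρ hρ K _ => ?_⟩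
    exact absurd (Subsingleton.elim ρ 0) hρ
  obtain ⟨m', hm', h⟩ := av_line g κ t hg
  refine ⟨2 * m', by omega, fun N k F hk hF hclo A ρ hρ K _ => ?_⟩
  have hneg : ∀ z : Fin g → ℂ, A.rat z ⊆ F → A.rat (0 - z) ⊆ F := fun z hz =>
    rat_sub A F hk (rat_zero A F hk) hz
  let W : AddSubgroup K :=
    { carrier := {ξ : K | A.rat ((ξ : ℂ) • ρ) ⊆ F}
      zero_mem' := by
        show A.rat (((0 : K) : ℂ) • ρ) ⊆ F
        have h0 : (((0 : K) : ℂ) • ρ) = 0 := by
          rw [ZeroMemClass.coe_zero, zero_smul]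
        rw [h0]
        exact rat_zero A F hk
      add_mem' := by
        intro a b ha hb
        show A.rat (((a + b : K) : ℂ) • ρ) ⊆ F
        have h0 : (((a + b : K) : ℂ) • ρ) = (a : ℂ) • ρ - (0 - (b : ℂ) • ρ) := by
          rw [zero_sub, sub_neg_eq_add, ← add_smul]
          push_cast
          rfl
        rw [h0]
        exact rat_sub A F hk ha (hneg _ hb)
      neg_mem' := by
        intro a ha
        show A.rat (((-a : K) : ℂ) • ρ) ⊆ F
        have h0 : (((-a : K) : ℂ) • ρ) = 0 - (a : ℂ) • ρ := by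
          rw [zero_sub, ← neg_smul]
          push_cast
          rfl
        rw [h0]
        exact hneg _ ha }
  refine ⟨Submodule.span ℚ (W : Set K), fun ξ hξ => Submodule.subset_span hξ, ?_⟩
  refine ELT.span_codim K W m' hm' fun nX x y hx hy hk' => ?_
  obtain ⟨i, j, hij⟩ := h N k F hk hF hclo A ρ hρ K nX x y hx hy hk'
  refine ⟨i, j, fun hc => hij ?_⟩
  have h0 : (((x i : K) : ℂ) * ((y j : K) : ℂ)) • ρ = (((x i * y j : K) : ℂ)) • ρ := by
    push_cast
    rfl
  rw [h0]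
  exact hc

end GAL
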