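import Pool.Agent.GAL.Def

set_option autoImplicit false

/-! Definitions for the final theorem (project GAL). -/

open MvPolynomial

namespace GAL

open GAV

variable {E : Type} [NormedAddCommGroup E] [NormedSpace ℂ E] {M μ : ℕ} {k : IntermediateField ℚ ℂ}

/-- Every algebraic subgroup of `G` whose Lie algebra contains the vectors `ρ_i` has dimension at least `δ`
(the Lie algebra of `H` is `TT H`). -/
def GV.GenDim (G : GV E M μ k) {h : ℕ} (ρ : Fin h → E) (δ : ℕ) : Prop :=
  ∀ H : AddSubgroup E, G.ZC (H : Set E) → (∀ (c : ℂ) i, c • ρ i ∈ H) → δ ≤ Module.finrank ℂ (TT H)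

/-- The number `d(exp_G(v))`: the least dimension of an algebraic subgroup `H` of `G` such that `exp_G(v)` is in a
translate of `H` by a point which is rational over the field of algebraic numbers. -/
noncomputable def GV.dd (G : GV E M μ k) (v : E) : ℕ :=
  sInf {n | ∃ (H : AddSubgroup E) (y : E), G.ZC (H : Set E) ∧ (∀ x ∈ G.rat y, IsAlgebraic ℚ x) ∧
    v - y ∈ H ∧ n = Module.finrank ℂ (TT H)}

end GAL
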