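import Pool.Agent.GAV.Z1b

set_option autoImplicit false

open LTD

namespace GAL

open GAV

/-! ## [GAL-U1] independence of subfamilies (file U1.lean)

`rk_union`: `E₁` = closure of `E(A)` (`z1b_clo`): `rk E (A ∪ B) = rk E A + rk E₁ B ≤ rk E A + rk E B` (`rk_add`, `rk_field`). `indep_sub`: let `E_j` = closure of `F(A_j)`, `E` = closure of `F(A₀ ∪ A₁ ∪ A₂)` (`z1b_clo`), `E_j ≤ E`. `rk F (B₀∪B₁∪B₂) ≤ rk F ((A₀∪A₁∪A₂) ∪ (B₀∪B₁∪B₂)) = rk F (A₀∪A₁∪A₂) + rk E (B₀∪B₁∪B₂) ≤ rk F (A₀∪A₁∪A₂) + ∑ rk E B_j`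
(`rk_mono, rk_add, rk_union`), `rk E B_j ≤ rk E_j B_j = rk F (A_j ∪ B_j) - rk F A_j = rk F B_j - rk F A_j` (`rk_field`, `rk_add`; `rk F (A_j ∪ B_j) = rk F B_j` by `rk_mono` because `A_j` is algebraic over `F(B_j)`). With `∑ rk F B_j ≤ rk F (B₀∪B₁∪B₂)`: `∑ rk F A_j ≤ rk F (A₀∪A₁∪A₂)`. -/

theorem rk_union (E : IntermediateField ℚ ℂ) (A B : Set ℂ) (hA : A.Finite) (hB : B.Finite) :
    rk E (A ∪ B) ≤ rk E A + rk E B := by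
  obtain ⟨E₁, hle, -, hmem⟩ := z1b_clo E A
  have h1 := rk_add E E₁ hle A B hA hB hmem
  have h2 := rk_field E E₁ hle B hB
  omega

theorem indep_sub (F : IntermediateField ℚ ℂ) (A₀ A₁ A₂ B₀ B₁ B₂ : Set ℂ) (hA₀ : A₀.Finite)
    (hA₁ : A₁.Finite) (hA₂ : A₂.Finite) (hB₀ : B₀.Finite) (hB₁ : B₁.Finite) (hB₂ : B₂.Finite)
    (h₀ : ∀ z ∈ A₀, IsAlgebraic (IntermediateField.adjoin F B₀) z)
    (h₁ : ∀ z ∈ A₁, IsAlgebraic (IntermediateField.adjoin F B₁) z)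
    (h₂ : ∀ z ∈ A₂, IsAlgebraic (IntermediateField.adjoin F B₂) z)
    (h : rk F B₀ + rk F B₁ + rk F B₂ ≤ rk F (B₀ ∪ B₁ ∪ B₂)) :
    rk F A₀ + rk F A₁ + rk F A₂ ≤ rk F (A₀ ∪ A₁ ∪ A₂) := by
  obtain ⟨E, hFE, -, hE⟩ := z1b_clo F (A₀ ∪ A₁ ∪ A₂)
  have fA := (hA₀.union hA₁).union hA₂
  have fB := (hB₀.union hB₁).union hB₂
  have key : ∀ A B : Set ℂ, A.Finite → B.Finite → A ⊆ A₀ ∪ A₁ ∪ A₂ →
      (∀ z ∈ A, IsAlgebraic (IntermediateField.adjoin F B) z) →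
      rk E B + rk F A ≤ rk F B := by
    intro A B hA hB hAs hAB
    obtain ⟨E', hFE', -, hE'⟩ := z1b_clo F A
    have hle : E' ≤ E := by
      intro w hw
      refine (hE w).2 ?_
      have h1 := (hE' w).1 hw
      refine z1b_up F _ ((IntermediateField.adjoin F (A₀ ∪ A₁ ∪ A₂)).restrictScalars ℚ) ?_ w h1
      intro u hu
      have h2 : IntermediateField.adjoin F A ≤ IntermediateField.adjoin F (A₀ ∪ A₁ ∪ A₂) :=
        IntermediateField.adjoin.mono F _ _ hAs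
      exact h2 hu
    have h3 := rk_field E' E hle B hB
    have h4 := rk_add F E' hFE' A B hA hB hE'
    have h5 := rk_mono F (A ∪ B) B (hA.union hB) hB (by
      rintro z (hz | hz)
      · exact hAB z hz
      · exact z1b_self F B z hz)
    omega
  have q0 := key A₀ B₀ hA₀ hB₀ (fun z hz => Or.inl (Or.inl hz)) h₀
  have q1 := key A₁ B₁ hA₁ hB₁ (fun z hz => Or.inl (Or.inr hz)) h₁
  have q2 := key A₂ B₂ hA₂ hB₂ (fun z hz => Or.inr hz) h₂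
  have r1 := rk_mono F (B₀ ∪ B₁ ∪ B₂) ((A₀ ∪ A₁ ∪ A₂) ∪ (B₀ ∪ B₁ ∪ B₂)) fB (fA.union fB)
    (fun z hz => z1b_self F _ z (Or.inr hz))
  have r2 := rk_add F E hFE (A₀ ∪ A₁ ∪ A₂) (B₀ ∪ B₁ ∪ B₂) fA fB hE
  have r3 := rk_union E (B₀ ∪ B₁) B₂ (hB₀.union hB₁) hB₂
  have r4 := rk_union E B₀ B₁ hB₀ hB₁
  omega

end GAL
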