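import Pool.Agent.GAL.U0
import Pool.Agent.GAL.U1
import Pool.Agent.GAL.U2

set_option autoImplicit false

open MvPolynomial LTD

namespace GAL

open GAV

variable {g s N κ M μ : ℕ} {k : IntermediateField ℚ ℂ}

/-! ## [GAL-U3] the additive quadruples of a semi-abelian variety (file U3.lean)

`ratA_alg`: choose `i` with `pr_i(θ v) ≠ 0` (`G.pr_ne`), `pr_{i,j}(θ v) = c θ^A_j(v.1)`, `c ≠ 0`, and `b` with `θ_b(v) ≠ 0`: `pr_{i,j}(θ v) = θ_b(v)^d pr_{i,j}(θ v/θ_b v)`, so the quotients `θ^A_a(v.1)/θ^A_b(v.1)` are quotients of elements of `F(rat v)` (coefficients in `k ≤ F`). `stab2`: `indep4`, then `coset4` for `G.toGV`; by `indep_sub` (with `A_j = A.rat v_j.1`, `B_j = G.rat v_j`, `ratA_alg`)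
the four inequalities hold for the points `v_j.1` of `toGV G.A` as well (`v₃.1 = v₀.1 - (v₁.1 - v₂.1)`): `coset4` for `toGV G.A`. -/

theorem u3_mem (F : IntermediateField ℚ ℂ) (hk : k ≤ F) (q : Fin (M + 1) → ℂ) (S : Set ℂ)
    (hq : ∀ i, q i ∈ IntermediateField.adjoin F S) (f : MvPolynomial (Fin (M + 1)) k) :
    aeval q f ∈ IntermediateField.adjoin F S := by
  rw [aeval_def, eval₂_eq]
  refine sum_mem fun m _ => mul_mem ?_ (prod_mem fun i _ => pow_mem (hq i) _)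
  exact (IntermediateField.adjoin F S).algebraMap_mem ⟨_, hk (coeff m f).2⟩

theorem ratA_alg (G : SAV g s N κ M μ k) (F : IntermediateField ℚ ℂ) (hk : k ≤ F)
    (v : (Fin g → ℂ) × (Fin s → ℂ)) :
    ∀ x ∈ (toGV G.A).rat v.1, x ∈ IntermediateField.adjoin F (G.toGV.rat v) := by
  rintro x ⟨⟨a, b⟩, rfl⟩
  obtain ⟨i, j, hij⟩ := G.pr_ne v
  obtain ⟨c, hc⟩ := G.pr_eq i v
  have hc0 : c ≠ 0 := by
    rintro rfl
    exact hij (by rw [hc, zero_mul])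
  obtain ⟨m0, hm0⟩ := exists_ne G.toGV v
  have key : ∀ j, aeval (G.θ v) (G.pr i j) =
      (G.θ v m0) ^ G.d * aeval (fun l => G.θ v l / G.θ v m0) (G.pr i j) := by
    intro j
    rw [← aeval_hom _ _ (G.pr_hom i j)]
    have : (G.θ v m0) • (fun l => G.θ v l / G.θ v m0) = G.θ v := by
      funext l
      rw [Pi.smul_apply, smul_eq_mul, mul_div_cancel₀ _ hm0]
    rw [this]
  have h1 : G.A.θ v.1 a / G.A.θ v.1 b =
      aeval (fun l => G.θ v l / G.θ v m0) (G.pr i a) /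
        aeval (fun l => G.θ v l / G.θ v m0) (G.pr i b) := by
    have ha := hc a
    have hb := hc b
    rw [key] at ha hb
    rw [← mul_div_mul_left _ _ hc0, ← ha, ← hb, mul_div_mul_left _ _ (pow_ne_zero _ hm0)]
  have hq : ∀ l, G.θ v l / G.θ v m0 ∈ IntermediateField.adjoin F (G.toGV.rat v) :=
    fun l => IntermediateField.subset_adjoin F _ ⟨(l, m0), rfl⟩
  show G.A.θ v.1 a / G.A.θ v.1 b ∈ _
  rw [h1]
  exact div_mem (u3_mem F hk _ _ hq _) (u3_mem F hk _ _ hq _)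

theorem stab2 (G : SAV g s N κ M μ k) (F E₀ E₁ : IntermediateField ℚ ℂ) (hk : k ≤ F)
    (hF : Clo F) (t : ℕ) (ht : Algebra.trdeg ℚ F ≤ (t : Cardinal))
    (v₀ v₁ v₂ v₃ : (Fin g → ℂ) × (Fin s → ℂ)) (hv : v₃ = v₀ - (v₁ - v₂))
    (hE₀ : ∀ z : ℂ, z ∈ E₀ ↔ IsAlgebraic (IntermediateField.adjoin F (G.toGV.rat v₀)) z)
    (hE₁ : ∀ z : ℂ, z ∈ E₁ ↔
      IsAlgebraic (IntermediateField.adjoin F (G.toGV.rat v₀ ∪ G.toGV.rat v₁)) z)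
    (δ : ℕ) (h0 : rk F (G.toGV.rat v₀) = δ) (h1 : rk F (G.toGV.rat v₁) = δ)
    (h2 : rk F (G.toGV.rat v₂) = δ) (h3 : rk F (G.toGV.rat v₃) = δ)
    (h4 : δ ≤ rk E₀ (G.toGV.rat v₁)) (h5 : δ ≤ rk E₁ (G.toGV.rat v₂)) :
    ∃ (S : AddSubgroup ((Fin g → ℂ) × (Fin s → ℂ))) (SA : AddSubgroup (Fin g → ℂ)),
      G.toGV.ZC (S : Set ((Fin g → ℂ) × (Fin s → ℂ))) ∧ (toGV G.A).ZC (SA : Set (Fin g → ℂ)) ∧
      ∀ v, v = v₀ ∨ v = v₁ ∨ v = v₂ → (∀ z, z ∈ G.toGV.V F v ↔ z - v ∈ S) ∧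
        ∀ z, z ∈ (toGV G.A).V F v.1 ↔ z - v.1 ∈ SA := by
  obtain ⟨i1, i2, i3, i4⟩ := indep4 G.toGV F E₀ E₁ hk hF t ht v₀ v₁ v₂ v₃ hv hE₀ hE₁ δ h0 h1 h2
    h3 h4 h5
  obtain ⟨S, hS, s0, s1, s2, s3⟩ := coset4 G.toGV F hk hF t ht v₀ v₁ v₂ v₃ hv i1 i2 i3 i4
  have ha : ∀ v : (Fin g → ℂ) × (Fin s → ℂ), ∀ z ∈ (toGV G.A).rat v.1,
      IsAlgebraic (IntermediateField.adjoin F (G.toGV.rat v)) z := by
    intro v z hz
    exact isAlgebraic_algebraMap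
      (⟨z, ratA_alg G F hk v z hz⟩ : IntermediateField.adjoin F (G.toGV.rat v))
  have hfA : ∀ w : Fin g → ℂ, ((toGV G.A).rat w).Finite := fun w => rat_fin _ w
  have hfG : ∀ v : (Fin g → ℂ) × (Fin s → ℂ), (G.toGV.rat v).Finite := fun v => rat_fin _ v
  have hv1 : v₃.1 = v₀.1 - (v₁.1 - v₂.1) := by
    rw [hv]
    rfl
  have j1 := indep_sub F _ _ _ _ _ _ (hfA v₀.1) (hfA v₁.1) (hfA v₂.1) (hfG v₀) (hfG v₁) (hfG v₂)
    (ha v₀) (ha v₁) (ha v₂) i1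
  have j2 := indep_sub F _ _ _ _ _ _ (hfA v₃.1) (hfA v₂.1) (hfA v₁.1) (hfG v₃) (hfG v₂) (hfG v₁)
    (ha v₃) (ha v₂) (ha v₁) i2
  have j3 := indep_sub F _ _ _ _ _ _ (hfA v₀.1) (hfA v₃.1) (hfA v₂.1) (hfG v₀) (hfG v₃) (hfG v₂)
    (ha v₀) (ha v₃) (ha v₂) i3
  have j4 := indep_sub F _ _ _ _ _ _ (hfA v₃.1) (hfA v₀.1) (hfA v₁.1) (hfG v₃) (hfG v₀) (hfG v₁)
    (ha v₃) (ha v₀) (ha v₁) i4
  obtain ⟨SA, hSA, a0, a1, a2, a3⟩ := coset4 (toGV G.A) F hk hF t ht v₀.1 v₁.1 v₂.1 v₃.1 hv1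
    j1 j2 j3 j4
  refine ⟨S, SA, hS, hSA, ?_⟩
  rintro v (rfl | rfl | rfl)
  · exact ⟨s0, a0⟩
  · exact ⟨s1, a1⟩
  · exact ⟨s2, a2⟩

end GAL
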