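import Pool.Agent.GAL.P7

set_option autoImplicit false

open MvPolynomial LTD Module

namespace GAL

open GAV

variable {E : Type} [NormedAddCommGroup E] [NormedSpace ℂ E] {M μ : ℕ} {k : IntermediateField ℚ ℂ}

/-! ## [GAL-U9] the rank is at least the dimension of the stabiliser (file U9.lean)

VARIANT of `generic_rkG` (`GAL/P7.lean`, see also `GAV/Z9.lean`). `θ_b(v) ≠ 0`; `li_sub` for `T` at `v`: `a, L`, the forms `L_i` are linearly independent on `T`. CLAIM: the numbers `f_i(v) = θ_{a_i}(v)/θ_b(v)` are algebraically independent over `F`; then `le_rk`. By induction on the degree bound `d` of `P ∈ F[Y]` (`∑ m_i ≤ d` on the support): `P(f(v)) = 0 ⟹ P = 0`. The homogenisation of `P` (degree `d`) vanishes at `θ v`, so at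
`θ(v + x)` for `x ∈ T` (`hV`), so `P(f(v + x)) = 0` for all `x ∈ T` near `0`. Differentiate at `x = 0` along `T`: `∑_i ∂_iP(f(v)) L_i|_T = 0`, so `∂_iP(f(v)) = 0` for all `i`, by induction `∂_iP = 0`, `P` is constant (characteristic 0, `GAV.z9_const`), `P = P(f(v)) = 0`. -/

/-- linearly independent functionals, as many as the dimension, take all values -/
private theorem u9_surj {T : Submodule ℂ E} {n : ℕ} (ℓ : Fin n → T →ₗ[ℂ] ℂ) (hli : LinearIndependent ℂ ℓ)
    (w : Fin n → ℂ) : ∃ u : T, ∀ i, ℓ i u = w i := by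
  classical
  have h1 : LinearMap.range (LinearMap.pi ℓ) = ⊤ := by
    by_contra hcon
    obtain ⟨φ, hφ, hφ2⟩ := Submodule.exists_le_ker_of_lt_top _ (lt_top_iff_ne_top.2 hcon)
    have h2 : ∑ i, (φ (Pi.single i 1)) • ℓ i = 0 := by
      refine LinearMap.ext fun u => ?_
      have h3 : φ (LinearMap.pi ℓ u) = 0 := LinearMap.mem_ker.1 (hφ2 (LinearMap.mem_range_self _ u))
      rw [LinearMap.pi_apply_eq_sum_univ φ] at h3
      rw [LinearMap.sum_apply, LinearMap.zero_apply, ← h3]
      refine Finset.sum_congr rfl fun i _ => ?_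
      rw [LinearMap.smul_apply, LinearMap.pi_apply, smul_eq_mul, smul_eq_mul, mul_comm]
      congr 2
      funext j
      by_cases hj : i = j
      · subst hj
        simp
      · rw [Pi.single_eq_of_ne (fun h => hj h.symm)]
        simp [hj]
    have h4 := Fintype.linearIndependent_iff.1 hli _ h2
    refine hφ (LinearMap.pi_ext fun i x => ?_)
    have h5 : (Pi.single i x : Fin n → ℂ) = x • Pi.single i (1 : ℂ) := by
      rw [← Pi.single_smul, smul_eq_mul, mul_one]
    rw [h5, map_smul, h4 i, smul_zero, LinearMap.zero_apply]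
  obtain ⟨u, hu⟩ := LinearMap.range_eq_top.1 h1 w
  exact ⟨u, fun i => congrFun hu i⟩

/-- a polynomial in quotients of coordinates which vanishes on `T` near `z₀` is zero -/
private theorem u9_core (G : GV E M μ k) (T : Submodule ℂ E) (z₀ : E) (b : Fin (M + 1))
    (hb : G.θ z₀ b ≠ 0) {n : ℕ} (a : Fin n → Fin (M + 1)) (L : Fin n → E →L[ℂ] ℂ)
    (hL : ∀ i, HasFDerivAt (fun z => G.θ z (a i) / G.θ z b) (L i) z₀)
    (hli : LinearIndependent ℂ (fun i => (L i : E →ₗ[ℂ] ℂ).comp T.subtype))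
    (P : MvPolynomial (Fin n) ℂ)
    (h : ∀ u ∈ T, G.θ (z₀ + u) b ≠ 0 →
      aeval (fun i => G.θ (z₀ + u) (a i) / G.θ (z₀ + u) b) P = 0) : P = 0 := by
  classical
  by_contra hP
  obtain ⟨y₀, hy₀⟩ : ∃ y₀ : Fin n → ℂ, y₀ = fun i => G.θ z₀ (a i) / G.θ z₀ b := ⟨_, rfl⟩
  obtain ⟨R, hR⟩ : ∃ R : MvPolynomial (Fin n) ℂ, R = aeval (fun i => X i + C (y₀ i)) P := ⟨_, rfl⟩
  have hRP : aeval (fun i => X i - C (y₀ i)) R = P := by
    rw [hR, ← AlgHom.comp_apply]
    have h1 : (aeval (fun i => X i - C (y₀ i))).comp (aeval (fun i => X i + C (y₀ i))) =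
        AlgHom.id ℂ (MvPolynomial (Fin n) ℂ) := by
      refine MvPolynomial.algHom_ext fun i => ?_
      rw [AlgHom.comp_apply, aeval_X, map_add, aeval_X, AlgHom.id_apply]
      have h2 : (aeval (fun i => (X i : MvPolynomial (Fin n) ℂ) - C (y₀ i))) (C (y₀ i)) = C (y₀ i) :=
        (aeval_C _ _)
      rw [h2, sub_add_cancel]
    rw [h1, AlgHom.id_apply]
  have hR0 : R ≠ 0 := by
    rintro rfl
    rw [map_zero] at hRP
    exact hP hRP.symm
  have hRv : ∀ y : Fin n → ℂ, aeval (fun i => y i - y₀ i) R = aeval y P := by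
    intro y
    rw [hR, ← AlgHom.comp_apply]
    have h1 : (aeval (fun i => y i - y₀ i)).comp (aeval (fun i => X i + C (y₀ i))) =
        (aeval y : MvPolynomial (Fin n) ℂ →ₐ[ℂ] ℂ) := by
      refine MvPolynomial.algHom_ext fun i => ?_
      rw [AlgHom.comp_apply, aeval_X, map_add, aeval_X, aeval_X, aeval_C]
      exact sub_add_cancel _ _
    rw [h1]
  -- the lowest degree
  obtain ⟨c₀, hc₀, hmin⟩ := Finset.exists_min_image R.support (fun c => ∑ i, c i)
    (MvPolynomial.support_nonempty.2 hR0)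
  obtain ⟨m, hm⟩ : ∃ m, m = ∑ i, c₀ i := ⟨_, rfl⟩
  -- expansion
  have hexp : ∀ (s : ℂ) (w : Fin n → ℂ), aeval (fun i => s * w i) R =
      s ^ m * ∑ c ∈ R.support, coeff c R * (s ^ (∑ i, c i - m) * ∏ i, w i ^ c i) := by
    intro s w
    rw [aeval_def, eval₂_eq', Finset.mul_sum]
    refine Finset.sum_congr rfl fun c hc => ?_
    have h1 : m ≤ ∑ i, c i := by rw [hm]; exact hmin c hc
    have h2 : ∏ i, (s * w i) ^ c i = s ^ (∑ i, c i) * ∏ i, w i ^ c i := by
      rw [← Finset.prod_pow_eq_pow_sum, ← Finset.prod_mul_distrib]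
      exact Finset.prod_congr rfl fun i _ => mul_pow _ _ _
    have h3 : s ^ (∑ i, c i) = s ^ m * s ^ (∑ i, c i - m) := by
      rw [← pow_add]
      congr 1
      omega
    rw [h2, h3]
    show coeff c R * _ = _
    ring
  -- the limit
  have hlim : ∀ u : T, ∑ c ∈ R.support, coeff c R * ((0 : ℂ) ^ (∑ i, c i - m) * ∏ i, L i u ^ c i) = 0 := by
    intro u
    obtain ⟨w, hw⟩ : ∃ w : ℂ → Fin n → ℂ, w = fun s i =>
        s⁻¹ * (G.θ (z₀ + s • (u : E)) (a i) / G.θ (z₀ + s • (u : E)) b - y₀ i) := ⟨_, rfl⟩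
    have hw1 : ∀ i, Filter.Tendsto (fun s => w s i) (nhdsWithin 0 {0}ᶜ) (nhds (L i u)) := by
      intro i
      have h1 : HasDerivAt (fun s : ℂ => z₀ + s • (u : E)) (u : E) 0 := by
        have h2 := ((hasDerivAt_id (0 : ℂ)).smul_const (u : E)).const_add z₀
        rw [one_smul] at h2
        exact h2
      have h3 : HasFDerivAt (fun z => G.θ z (a i) / G.θ z b) (L i) (z₀ + (0 : ℂ) • (u : E)) := by
        rw [zero_smul, add_zero]
        exact hL i
      have h4 : HasDerivAt (fun s : ℂ => G.θ (z₀ + s • (u : E)) (a i) / G.θ (z₀ + s • (u : E)) b)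
          (L i u) 0 := by
        have h5 := HasFDerivAt.comp_hasDerivAt (l := fun z => G.θ z (a i) / G.θ z b)
          (f := fun s : ℂ => z₀ + s • (u : E)) (0 : ℂ) h3 h1
        exact h5
      rw [hasDerivAt_iff_tendsto_slope_zero] at h4
      refine h4.congr fun s => ?_
      rw [hw, hy₀, zero_add, smul_eq_mul]
      simp only [zero_smul, add_zero]
    have hs : Filter.Tendsto (fun s : ℂ => s) (nhdsWithin 0 {0}ᶜ) (nhds (0 : ℂ)) :=
      tendsto_nhdsWithin_of_tendsto_nhds Filter.tendsto_id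
    have hlim1 : Filter.Tendsto (fun s => ∑ c ∈ R.support, coeff c R *
        (s ^ (∑ i, c i - m) * ∏ i, w s i ^ c i)) (nhdsWithin 0 {0}ᶜ)
        (nhds (∑ c ∈ R.support, coeff c R * ((0 : ℂ) ^ (∑ i, c i - m) * ∏ i, L i u ^ c i))) := by
      refine tendsto_finsetSum _ fun c _ => ?_
      refine Filter.Tendsto.const_mul _ ((hs.pow _).mul ?_)
      exact tendsto_finsetProd _ fun i _ => (hw1 i).pow _
    refine tendsto_nhds_unique_of_eventuallyEq hlim1 tendsto_const_nhds ?_
    have h5 : ∀ᶠ s in nhdsWithin (0 : ℂ) {0}ᶜ, G.θ (z₀ + s • (u : E)) b ≠ 0 := by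
      have h6 : Continuous fun s : ℂ => G.θ (z₀ + s • (u : E)) b := by
        have h7 : Continuous fun s : ℂ => z₀ + s • (u : E) := by fun_prop
        exact ((continuous_apply b).comp G.diff.continuous).comp h7
      have h8 : G.θ (z₀ + (0 : ℂ) • (u : E)) b ≠ 0 := by
        rw [zero_smul, add_zero]
        exact hb
      exact (h6.continuousAt.eventually_ne h8).filter_mono nhdsWithin_le_nhds
    filter_upwards [h5, self_mem_nhdsWithin] with s hs1 hs2
    have hs3 : s ≠ 0 := hs2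
    have h6 := h (s • (u : E)) (T.smul_mem s u.2) hs1
    rw [← hRv] at h6
    have h7 : (fun i => G.θ (z₀ + s • (u : E)) (a i) / G.θ (z₀ + s • (u : E)) b - y₀ i) =
        fun i => s * w s i := by
      funext i
      rw [hw]
      show _ = s * (s⁻¹ * _)
      rw [mul_inv_cancel_left₀ hs3]
    rw [h7, hexp] at h6
    exact (mul_eq_zero.1 h6).resolve_left (pow_ne_zero _ hs3)
  -- the lowest part vanishes
  have hzero : homogeneousComponent m R = 0 := by
    refine MvPolynomial.funext fun w => ?_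
    obtain ⟨u, hu⟩ := u9_surj _ hli w
    rw [map_zero, ← hlim u, homogeneousComponent_apply, map_sum]
    rw [Finset.sum_filter]
    refine Finset.sum_congr rfl fun c hc => ?_
    have h1 : m ≤ ∑ i, c i := by rw [hm]; exact hmin c hc
    have h2 : ∏ i, L i u ^ c i = ∏ i, w i ^ c i :=
      Finset.prod_congr rfl fun i _ => by
        have h3 : L i u = w i := hu i
        rw [h3]
    rw [h2]
    by_cases hcm : ∑ i, c i = m
    · rw [if_pos (by rw [Finsupp.degree_eq_sum]; exact hcm), hcm, Nat.sub_self, pow_zero, one_mul,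
        eval_monomial, Finsupp.prod_fintype _ _ (fun i => pow_zero _)]
    · rw [if_neg (by rw [Finsupp.degree_eq_sum]; exact hcm), zero_pow (by omega), zero_mul, mul_zero]
  have h1 := congrArg (coeff c₀) hzero
  rw [coeff_homogeneousComponent, if_pos (by rw [Finsupp.degree_eq_sum]; exact hm.symm), coeff_zero] at h1
  exact (mem_support_iff.1 hc₀) h1

/-- homogenisation: an algebraic relation between quotients of coordinates at `v` holds everywhere -/
private theorem u9_hom {n : ℕ} (G : GV E M μ k) (F : IntermediateField ℚ ℂ) (v : E)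
    (b : Fin (M + 1)) (hb : G.θ v b ≠ 0) (a : Fin n → Fin (M + 1)) (d : ℕ) (P : MvPolynomial (Fin n) F)
    (hP : ∀ m ∈ P.support, ∑ i, m i ≤ d) (h0 : aeval (fun i => G.θ v (a i) / G.θ v b) P = 0)
    (z : E) (h : z ∈ G.V F v) (hz : G.θ z b ≠ 0) : aeval (fun i => G.θ z (a i) / G.θ z b) P = 0 := by
  classical
  obtain ⟨H, hH⟩ : ∃ H : MvPolynomial (Fin (M + 1)) F, H = ∑ m ∈ P.support,
      C (coeff m P) * ((∏ i, X (a i) ^ (m i)) * X b ^ (d - ∑ i, m i)) := ⟨_, rfl⟩
  have hhom : H.IsHomogeneous d := by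
    rw [hH]
    refine IsHomogeneous.sum _ _ _ fun m hm => ?_
    have h1 : (∏ i, (X (a i) : MvPolynomial (Fin (M + 1)) F) ^ (m i)).IsHomogeneous (∑ i, m i) :=
      IsHomogeneous.prod _ _ _ fun i _ => isHomogeneous_X_pow (a i) (m i)
    have h2 := (isHomogeneous_C (Fin (M + 1)) (coeff m P)).mul (h1.mul (isHomogeneous_X_pow b (d - ∑ i, m i)))
    have h3 : 0 + (∑ i, m i + (d - ∑ i, m i)) = d := by
      have := hP m hm
      omega
    rwa [h3] at h2
  have key : ∀ z : E, G.θ z b ≠ 0 →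
      aeval (G.θ z) H = (G.θ z b) ^ d * aeval (fun i => G.θ z (a i) / G.θ z b) P := by
    intro z hz
    rw [hH, map_sum, aeval_def (fun i => G.θ z (a i) / G.θ z b), eval₂_eq', Finset.mul_sum]
    refine Finset.sum_congr rfl fun m hm => ?_
    have h3 := hP m hm
    rw [map_mul, map_mul, map_pow, aeval_C, aeval_X, map_prod]
    have h4 : ∏ i, aeval (G.θ z) ((X (a i) : MvPolynomial (Fin (M + 1)) F) ^ (m i)) = ∏ i, G.θ z (a i) ^ (m i) :=
      Finset.prod_congr rfl fun i _ => by rw [map_pow, aeval_X]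
    have h5 : ∏ i, (G.θ z (a i) / G.θ z b) ^ (m i) = (∏ i, G.θ z (a i) ^ (m i)) / G.θ z b ^ (∑ i, m i) := by
      rw [← Finset.prod_pow_eq_pow_sum, ← Finset.prod_div_distrib]
      exact Finset.prod_congr rfl fun i _ => div_pow _ _ _
    have h6 : G.θ z b ^ d = G.θ z b ^ (∑ i, m i) * G.θ z b ^ (d - ∑ i, m i) := by
      rw [← pow_add]
      congr 1
      omega
    rw [h4, h5, h6]
    have h7 : G.θ z b ^ (∑ i, m i) ≠ 0 := pow_ne_zero _ hz
    field_simp
  have h1 : aeval (G.θ v) H = 0 := by rw [key v hb, h0, mul_zero]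
  have h2 := h H d hhom h1
  rw [key z hz] at h2
  exact (mul_eq_zero.1 h2).resolve_left (pow_ne_zero _ hz)

theorem rk_ge_TT (G : GV E M μ k) (F : IntermediateField ℚ ℂ) (v : E) (T : Submodule ℂ E)
    [FiniteDimensional ℂ T] (hV : ∀ x ∈ T, v + x ∈ G.V F v) : finrank ℂ T ≤ rk F (G.rat v) := by
  obtain ⟨b, hb⟩ := exists_ne G v
  obtain ⟨a, L, hL, hli⟩ := li_sub G T v b hb
  refine le_rk F _ (fun i => G.θ v (a i) / G.θ v b) (G.rat v) (rat_fin G v) ?_ ?_
  · rw [algebraicIndependent_iff]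
    intro P hP
    have h1 : MvPolynomial.map (algebraMap F ℂ) P = 0 := by
      refine u9_core G T v b hb a L hL hli _ fun x hx hz => ?_
      rw [aeval_map_algebraMap]
      exact u9_hom G F v b hb a (P.support.sup fun m => ∑ i, m i) P
        (fun m hm => Finset.le_sup (f := fun m : Fin (finrank ℂ T) →₀ ℕ => ∑ i, m i) hm)
        hP (v + x) (hV x hx) hz
    have h2 : MvPolynomial.map (algebraMap F ℂ) P = MvPolynomial.map (algebraMap F ℂ) 0 := by
      rw [h1, map_zero]
    exact MvPolynomial.map_injective _ (algebraMap F ℂ).injective h2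
  · intro i
    refine isAlgebraic_algebraMap (⟨G.θ v (a i) / G.θ v b, ?_⟩ : IntermediateField.adjoin F (G.rat v))
    exact IntermediateField.subset_adjoin F _ ⟨(a i, b), rfl⟩

end GAL
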