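import Pool.Agent.GAL.U0
import Pool.Agent.GAL.U3
import Pool.Agent.GAL.U9
import Pool.Agent.GAL.N2

set_option autoImplicit false

open LTD Module

namespace GAL

open GAV

/-! ## [GAL-U10] the induction on the rank, general directions (file U10.lean)

VARIANT of `claim` (`GAL/N2.lean`, copy the proof; no predicate `P`, no condition on the locus). Induction on `δ ≤ δ₀`. `δ = 0`: the set is empty. Step `δ → δ + 1 ≤ δ₀`: `n = hD`; `n = 0`: the box has one element, the bound is `≥ 1`. `B = 2^{n+2+2δ}(2H+1)^{n-D/(4^δ m₀)}`, `Bd = 2^{n+2}(2H+1)^{n-D/m₀}`. The set is the union of that for `δ` and of `X = {a ∈ box | rk F (rat (v a)) = δ}`.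
`z12_energy`: `|X|⁴ ≤ (4H+1)^n |T|`, `T` = the triples with `a₀ - (a₁ - a₂) ∈ X` (`ptl_sub`). `E₀, E₁` from `clo_ratG, clo2_ratG`: either `rk E₀ (rat (v a₁)) < δ` [`P₀`], or `rk E₁ (rat (v a₂)) < δ` [`P₁`], or `stab2` (U3.lean) gives `S, SA` for `v a₀, v a₁, v a₂`. Some `ρ i ∉ TT S`: otherwise all `c • ρ i ∈ S` and `δ₀ ≤ finrank (TT S)` (`hδ₀`), but `rk_ge_TT` (U9.lean; `v + x ∈ V_F(v)` for `x ∈ TT S`) gives
`finrank (TT S) ≤ rk F (rat (v a₀)) = δ < δ₀`. `Q a b := ∃ S SA, ZC, ZC, (∃ i, ρ i ∉ TT S), V_F(v a) = v a + S, V_F((v a).1) = (v a).1 + SA, and the same for b`. For given `a` the groups `S, SA` are determined by the locus of `v a`, so `{b ∈ box | Q a b}` is contained in a set as in `hH` (or is empty): `≤ Bd`. `triple'`, `num'` (`β = 2 + 2δ`, `m = 4^δ m₀`):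
`|X| ≤ 2^{n+2+2δ}(2H+1)^{n-D/(4^{δ+1}m₀)}`; the sum of both is `≤ 2^{n+2+2(δ+1)}(2H+1)^{n-D/(4^{δ+1}m₀)}`. -/

theorem u10_bound (n D m₀ β δ A : ℕ) (hA : 1 ≤ A) :
    2 ^ (n + β) * A ^ (n - D / m₀) ≤ 2 ^ (n + (β + 2 * δ)) * A ^ (n - D / (4 ^ δ * m₀)) := by
  refine Nat.mul_le_mul (Nat.pow_le_pow_right (by norm_num) (by omega))
    (Nat.pow_le_pow_right hA ?_)
  have h6 : D / (4 ^ δ * m₀) ≤ D / m₀ := by
    rw [mul_comm, ← Nat.div_div_eq_div_mul]
    exact Nat.div_le_self _ _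
  omega

theorem u10_bound' (n D m A c : ℕ) (hA : 1 ≤ A) :
    c * A ^ (n - D / m) ≤ c * A ^ (n - D / (4 * m)) := by
  refine Nat.mul_le_mul_left _ (Nat.pow_le_pow_right hA ?_)
  have h6 : D / (4 * m) ≤ D / m := by
    rw [mul_comm, ← Nat.div_div_eq_div_mul]
    exact Nat.div_le_self _ _
  omega

theorem claimS {g s N κ M μ : ℕ} {k : IntermediateField ℚ ℂ} (G : SAV g s N κ M μ k) {h D : ℕ}
    (r : (Fin g → ℂ) × (Fin s → ℂ)) (ρ : Fin h → (Fin g → ℂ) × (Fin s → ℂ)) (w : Fin D → ℂ) (H : ℕ)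
    (δ₀ : ℕ) (hδ₀ : G.toGV.GenDim ρ δ₀) (m₀ T : ℕ) (hm₀ : 1 ≤ m₀)
    (hH : ∀ F : IntermediateField ℚ ℂ, k ≤ F → Algebra.trdeg ℚ F ≤ (T : Cardinal) → Clo F →
      ∀ (S : AddSubgroup ((Fin g → ℂ) × (Fin s → ℂ))) (SA : AddSubgroup (Fin g → ℂ)),
        G.toGV.ZC (S : Set ((Fin g → ℂ) × (Fin s → ℂ))) → (toGV G.A).ZC (SA : Set (Fin g → ℂ)) →
        (∃ i, ρ i ∉ TT S) →
        Set.ncard {a : Fin h → Fin D → ℤ | a ∈ z12_box h D H ∧
          (∀ z, z ∈ G.toGV.V F (ptl r ρ w a) ↔ z - ptl r ρ w a ∈ S) ∧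
          ∀ z, z ∈ (toGV G.A).V F (ptl r ρ w a).1 ↔ z - (ptl r ρ w a).1 ∈ SA} ≤
          (2 * H + 1) ^ (h * D - D / m₀)) :
    ∀ δ t : ℕ, δ ≤ δ₀ → t + 2 * (M + 1) * δ ≤ T → ∀ F : IntermediateField ℚ ℂ, k ≤ F →
      Algebra.trdeg ℚ F ≤ (t : Cardinal) → Clo F →
        Set.ncard {a : Fin h → Fin D → ℤ | a ∈ z12_box h D H ∧
          rk F (G.toGV.rat (ptl r ρ w a)) < δ} ≤
          2 ^ (h * D + 2 + 2 * δ) * (2 * H + 1) ^ (h * D - D / (4 ^ δ * m₀)) := by
  classical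
  intro δ
  induction δ with
  | zero =>
    intro t _ _ F _ _ _
    have h1 : {a : Fin h → Fin D → ℤ | a ∈ z12_box h D H ∧
          rk F (G.toGV.rat (ptl r ρ w a)) < 0} = ∅ := by
      rw [Set.eq_empty_iff_forall_notMem]
      rintro a ⟨_, ha⟩
      omega
    rw [h1, Set.ncard_empty]
    exact Nat.zero_le _
  | succ δ ih =>
    intro t hδ htT F hk ht hF
    obtain ⟨n, hnd⟩ : ∃ n, n = h * D := ⟨_, rfl⟩
    rcases Nat.eq_zero_or_pos n with hn0 | hn
    · -- the box has one element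
      have h1 : Set.ncard {a : Fin h → Fin D → ℤ | a ∈ z12_box h D H ∧
          rk F (G.toGV.rat (ptl r ρ w a)) < δ + 1} ≤ 1 := by
        have h2 := Set.ncard_le_ncard (s := {a : Fin h → Fin D → ℤ | a ∈ z12_box h D H ∧
          rk F (G.toGV.rat (ptl r ρ w a)) < δ + 1})
          (t := (z12_box h D H : Set (Fin h → Fin D → ℤ))) (fun a ha => ha.1)
          (z12_box h D H).finite_toSet
        rw [Set.ncard_coe_finset, z12_card, ← hnd, hn0, pow_zero] at h2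
        exact h2
      exact h1.trans (Nat.mul_pos (pow_pos (by norm_num) _) (pow_pos (by omega) _))
    have hh : 1 ≤ h := by
      rcases Nat.eq_zero_or_pos h with h0 | h0
      · rw [h0, zero_mul] at hnd
        omega
      · exact h0
    have hDn : ∀ m, D / m ≤ n := by
      intro m
      refine (Nat.div_le_self _ _).trans ?_
      rw [hnd]
      exact Nat.le_mul_of_pos_left _ (by omega)
    have e1T : t + (M + 1) + 2 * (M + 1) * δ ≤ T := by
      refine le_trans ?_ htT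
      have e : 2 * (M + 1) * (δ + 1) = 2 * (M + 1) * δ + 2 * (M + 1) := by ring
      rw [e]
      omega
    have e2T : t + 2 * (M + 1) + 2 * (M + 1) * δ ≤ T := by
      refine le_trans ?_ htT
      have e : 2 * (M + 1) * (δ + 1) = 2 * (M + 1) * δ + 2 * (M + 1) := by ring
      rw [e]
      omega
    have e0T : t + 2 * (M + 1) * δ ≤ T := by
      refine le_trans ?_ e1T
      omega
    have htT' : Algebra.trdeg ℚ F ≤ (T : Cardinal) := ht.trans (by exact_mod_cast (by omega))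
    have hB := ih t (by omega) e0T F hk ht hF
    have hH1 := hH F hk htT' hF
    obtain ⟨v, hv⟩ : ∃ v : (Fin h → Fin D → ℤ) → (Fin g → ℂ) × (Fin s → ℂ), v = ptl r ρ w :=
      ⟨_, rfl⟩
    have hsub : ∀ a b c, v (a - (b - c)) = v a - (v b - v c) := by
      intro a b c
      rw [hv]
      exact ptl_sub _ _ _ a b c
    rw [← hv] at hB hH1 ⊢
    obtain ⟨S, hSd⟩ : ∃ S : Finset (Fin h → Fin D → ℤ), S = (z12_box h D H).filter fun a =>
        rk F (G.toGV.rat (v a)) = δ := ⟨_, rfl⟩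
    have hSm : ∀ a, a ∈ S ↔ a ∈ z12_box h D H ∧ rk F (G.toGV.rat (v a)) = δ := by
      intro a
      rw [hSd, Finset.mem_filter]
    have hS : S ⊆ z12_box h D H := fun a ha => ((hSm a).1 ha).1
    -- the fields
    have hE0 := fun a => clo_ratG G.toGV F t ht (v a)
    choose E₀ f1 f2 f3 f4 using hE0
    have hE1 := fun a b => clo2_ratG G.toGV F t ht (v a) (v b)
    choose E₁ e1 e2 e3 e4 using hE1
    have hT := triple' (z12_box h D H) S hS
      ((S ×ˢ S ×ˢ S).filter fun x => x.1 - (x.2.1 - x.2.2) ∈ S) (Finset.filter_subset _ _)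
      (fun a b => rk (E₀ a) (G.toGV.rat (v b)) < δ)
      (fun a b c => rk (E₁ a b) (G.toGV.rat (v c)) < δ)
      (fun a b => ∃ (S' : AddSubgroup ((Fin g → ℂ) × (Fin s → ℂ)))
        (SA : AddSubgroup (Fin g → ℂ)),
        G.toGV.ZC (S' : Set ((Fin g → ℂ) × (Fin s → ℂ))) ∧
        (toGV G.A).ZC (SA : Set (Fin g → ℂ)) ∧ (∃ i, ρ i ∉ TT S') ∧
        ((∀ z, z ∈ G.toGV.V F (v a) ↔ z - v a ∈ S') ∧
          ∀ z, z ∈ (toGV G.A).V F (v a).1 ↔ z - (v a).1 ∈ SA) ∧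
        ((∀ z, z ∈ G.toGV.V F (v b) ↔ z - v b ∈ S') ∧
          ∀ z, z ∈ (toGV G.A).V F (v b).1 ↔ z - (v b).1 ∈ SA))
      (2 ^ (h * D + 2 + 2 * δ) * (2 * H + 1) ^ (h * D - D / (4 ^ δ * m₀)))
      ((2 * H + 1) ^ (h * D - D / m₀)) (by
        intro x hx
        rw [Finset.mem_filter, Finset.mem_product, Finset.mem_product] at hx
        obtain ⟨⟨x1, x2, x3⟩, x4⟩ := hx
        by_contra hcon
        rw [not_or, not_or] at hcon
        obtain ⟨c1, c2, c3⟩ := hcon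
        obtain ⟨-, r1⟩ := (hSm _).1 x1
        obtain ⟨-, r2⟩ := (hSm _).1 x2
        obtain ⟨-, r3⟩ := (hSm _).1 x3
        obtain ⟨-, r4⟩ := (hSm _).1 x4
        have g1 : δ ≤ rk (E₀ x.1) (G.toGV.rat (v x.2.1)) := not_lt.1 c1
        have g2 : δ ≤ rk (E₁ x.1 x.2.1) (G.toGV.rat (v x.2.2)) := not_lt.1 c2
        obtain ⟨S', SA, z1, z2, s0⟩ := stab2 G F (E₀ x.1) (E₁ x.1 x.2.1) hk hF t ht (v x.1)
          (v x.2.1) (v x.2.2) (v (x.1 - (x.2.1 - x.2.2))) (hsub _ _ _) (f4 _) (e4 _ _) δ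
          r1 r2 r3 r4 g1 g2
        have hne : ∃ i, ρ i ∉ TT S' := by
          by_contra hno
          push Not at hno
          have k1 : δ₀ ≤ finrank ℂ (TT S') := hδ₀ S' z1 fun c i => hno i c
          have k2 : finrank ℂ (TT S') ≤ rk F (G.toGV.rat (v x.1)) := by
            refine rk_ge_TT G.toGV F (v x.1) (TT S') fun y hy => ?_
            rw [(s0 _ (Or.inl rfl)).1, add_sub_cancel_left]
            have := hy 1
            rwa [one_smul] at this
          omega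
        exact c3 ⟨⟨S', SA, z1, z2, hne, s0 _ (Or.inl rfl), s0 _ (Or.inr (Or.inl rfl))⟩,
          ⟨S', SA, z1, z2, hne, s0 _ (Or.inl rfl), s0 _ (Or.inr (Or.inr rfl))⟩⟩)
      (by
        intro a _
        rw [hv]
        exact ih (t + (M + 1)) (by omega) e1T (E₀ a) (hk.trans (f1 a)) (f3 a) (f2 a))
      (by
        intro a _ b _
        rw [hv]
        exact ih (t + 2 * (M + 1)) (by omega) e2T (E₁ a b) (hk.trans (e1 a b)) (e3 a b) (e2 a b))
      (by
        intro a _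
        by_cases hex : ∃ (S' : AddSubgroup ((Fin g → ℂ) × (Fin s → ℂ)))
            (SA : AddSubgroup (Fin g → ℂ)),
            G.toGV.ZC (S' : Set ((Fin g → ℂ) × (Fin s → ℂ))) ∧
            (toGV G.A).ZC (SA : Set (Fin g → ℂ)) ∧ (∃ i, ρ i ∉ TT S') ∧
            ((∀ z, z ∈ G.toGV.V F (v a) ↔ z - v a ∈ S') ∧
              ∀ z, z ∈ (toGV G.A).V F (v a).1 ↔ z - (v a).1 ∈ SA)
        · obtain ⟨S', SA, g1, g2, g3, g4, g5⟩ := hex
          refine le_trans (Set.ncard_le_ncard ?_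
            ((z12_box h D H).finite_toSet.subset fun b hb => hb.1)) (hH1 S' SA g1 g2 g3)
          rintro b ⟨hb, S'', SA', s1, s2, s3, ⟨s4, s5⟩, ⟨s6, s7⟩⟩
          have hSS : S'' = S' := by
            ext z
            have i1 := s4 (v a + z)
            have i2 := g4 (v a + z)
            rw [add_sub_cancel_left] at i1 i2
            rw [← i1, i2]
          have hSA : SA' = SA := by
            ext z
            have i1 := s5 ((v a).1 + z)
            have i2 := g5 ((v a).1 + z)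
            rw [add_sub_cancel_left] at i1 i2
            rw [← i1, i2]
          rw [hSS] at s6
          rw [hSA] at s7
          exact ⟨hb, s6, s7⟩
        · have h1 : {b | b ∈ z12_box h D H ∧ (∃ (S' : AddSubgroup ((Fin g → ℂ) × (Fin s → ℂ)))
              (SA : AddSubgroup (Fin g → ℂ)),
              G.toGV.ZC (S' : Set ((Fin g → ℂ) × (Fin s → ℂ))) ∧
              (toGV G.A).ZC (SA : Set (Fin g → ℂ)) ∧ (∃ i, ρ i ∉ TT S') ∧
              ((∀ z, z ∈ G.toGV.V F (v a) ↔ z - v a ∈ S') ∧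
                ∀ z, z ∈ (toGV G.A).V F (v a).1 ↔ z - (v a).1 ∈ SA) ∧
              ((∀ z, z ∈ G.toGV.V F (v b) ↔ z - v b ∈ S') ∧
                ∀ z, z ∈ (toGV G.A).V F (v b).1 ↔ z - (v b).1 ∈ SA))} = ∅ := by
            rw [Set.eq_empty_iff_forall_notMem]
            rintro b ⟨_, S', SA, g1, g2, g3, g4, _⟩
            exact hex ⟨S', SA, g1, g2, g3, g4⟩
          show Set.ncard {b | b ∈ z12_box h D H ∧
              (∃ (S' : AddSubgroup ((Fin g → ℂ) × (Fin s → ℂ))) (SA : AddSubgroup (Fin g → ℂ)),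
              G.toGV.ZC (S' : Set ((Fin g → ℂ) × (Fin s → ℂ))) ∧
              (toGV G.A).ZC (SA : Set (Fin g → ℂ)) ∧ (∃ i, ρ i ∉ TT S') ∧
              ((∀ z, z ∈ G.toGV.V F (v a) ↔ z - v a ∈ S') ∧
                ∀ z, z ∈ (toGV G.A).V F (v a).1 ↔ z - (v a).1 ∈ SA) ∧
              ((∀ z, z ∈ G.toGV.V F (v b) ↔ z - v b ∈ S') ∧
                ∀ z, z ∈ (toGV G.A).V F (v b).1 ↔ z - (v b).1 ∈ SA))} ≤ _
          rw [h1, Set.ncard_empty]
          exact Nat.zero_le _)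
    have hx := z12_energy H S hS
    have hx2 := hx.trans (Nat.mul_le_mul_left _ hT)
    rw [z12_card, ← hnd] at hx2
    have hA1 : 1 ≤ 2 * H + 1 := by omega
    have hb0 : (2 * H + 1) ^ (n - D / m₀) ≤ 2 ^ (n + 2) * (2 * H + 1) ^ (n - D / m₀) :=
      Nat.le_mul_of_pos_left _ (pow_pos (by norm_num) _)
    have hb1 := hb0.trans (u10_bound n D m₀ 2 δ (2 * H + 1) hA1)
    have hx3 := num' n D (4 ^ δ * m₀) (2 + 2 * δ) H S.card
      (2 ^ (n + 2 + 2 * δ) * (2 * H + 1) ^ (n - D / (4 ^ δ * m₀)))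
      ((2 * H + 1) ^ (n - D / m₀)) hn (by omega) (hDn _)
      (by rw [← add_assoc]) hb1 hx2
    rw [← hnd] at hB ⊢
    -- the sum
    have hsplit : {a : Fin h → Fin D → ℤ | a ∈ z12_box h D H ∧
        rk F (G.toGV.rat (v a)) < δ + 1} ⊆
        {a : Fin h → Fin D → ℤ | a ∈ z12_box h D H ∧ rk F (G.toGV.rat (v a)) < δ} ∪
          (S : Set _) := by
      rintro a ⟨ha1, ha2⟩
      rcases Nat.lt_or_ge (rk F (G.toGV.rat (v a))) δ with h5 | h5
      · exact Or.inl ⟨ha1, h5⟩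
      · right
        rw [Finset.mem_coe, hSm]
        exact ⟨ha1, by omega⟩
    have hfin : ({a : Fin h → Fin D → ℤ | a ∈ z12_box h D H ∧ rk F (G.toGV.rat (v a)) < δ} ∪
          (S : Set _)).Finite :=
      ((z12_box h D H).finite_toSet.subset fun a ha => ha.1).union S.finite_toSet
    obtain ⟨W, hW⟩ : ∃ W, W = 2 ^ (n + (2 + 2 * δ)) * (2 * H + 1) ^ (n - D / (4 * (4 ^ δ * m₀))) :=
      ⟨_, rfl⟩
    have hw2 : 2 ^ (n + (2 + 2 * δ)) * (2 * H + 1) ^ (n - D / (4 ^ δ * m₀)) ≤ W := by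
      rw [hW]
      exact u10_bound' n D (4 ^ δ * m₀) (2 * H + 1) _ hA1
    have hw1 : 2 ^ (n + 2 + 2 * δ) * (2 * H + 1) ^ (n - D / (4 ^ δ * m₀)) ≤ W := by
      rw [add_assoc n 2]
      exact hw2
    have hw3 : S.card ≤ W := by
      rw [hW]
      exact hx3
    have hend : 2 ^ (n + 2 + 2 * (δ + 1)) * (2 * H + 1) ^ (n - D / (4 ^ (δ + 1) * m₀)) = 4 * W := by
      have ee : 4 ^ (δ + 1) * m₀ = 4 * (4 ^ δ * m₀) := by
        rw [pow_succ]
        ring
      have ef : n + 2 + 2 * (δ + 1) = 2 + (n + (2 + 2 * δ)) := by ring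
      rw [hW, ee, ef, pow_add 2 2]
      ring
    rw [hend]
    calc Set.ncard {a : Fin h → Fin D → ℤ | a ∈ z12_box h D H ∧
        rk F (G.toGV.rat (v a)) < δ + 1}
        ≤ _ := Set.ncard_le_ncard hsplit hfin
      _ ≤ _ := Set.ncard_union_le _ _
      _ ≤ W + W := by
          rw [Set.ncard_coe_finset]
          exact Nat.add_le_add (hB.trans hw1) hw3
      _ ≤ 4 * W := by omega

end GAL
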