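import Pool.Agent.GAL.U8
import Pool.Agent.GAL.U10
import Pool.Agent.ELT.F7

set_option autoImplicit false

open LTD Module

namespace GAL

open GAV

/-! ## [GAL-U11] THE THEOREM (file U11.lean)

`sav_rank`: `n = g + s`, `T = t + 2(M+1)n`, `m₀` from `count_G g κ M T`, `m = 4^n m₀`, `C = 2^{2+2n}`. If `δ > n` then `GenDim ρ δ` is impossible (`H = ⊤` is Zariski closed (no polynomials), `TT ⊤ = ⊤` has dimension `g + s`), so `δ ≤ n`. `claimS` for `δ₀ = δ`: `2^{hD+2+2δ}(2H+1)^{hD-D/(4^δ m₀)} ≤ C 2^{hD}(2H+1)^{hD-D/m}` (`Nat.div_le_div_left`).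
`sav_trdeg`: as `E10.lean` (`GAL/E10.lean`): `m, C` from `sav_rank` for `t + l`; `F₁` = closure of `F(range R)`. If `rk F₁ (rat v) ≥ δ` there are `δ` numbers in `rat v` algebraically independent over `F₁` (`rk_basis`), `ELT.f7_trdeg`.
`sav_Q1`: `m, C` from `sav_trdeg` for `l = 0` (`R` empty). The set of the `finrank ℂ (TT H)`, `H` Zariski closed with all `c • ρ i ∈ H`, is nonempty (`⊤`); let `H₀` attain the minimum `δ`: `GenDim ρ δ`. `v - r ∈ H₀` for `v = ptl r ρ w a` (`(∑ a_ij w_j) • ρ i ∈ H₀`), so `dd v ≤ δ` (`Nat.sInf_le`, `y = r`, `hr`). `trdeg_F F(∅) = 0 ≤`; `Set.range R ∪ X = X`. -/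

private theorem u11_zc_top {g s N κ M μ : ℕ} {k : IntermediateField ℚ ℂ} (G : SAV g s N κ M μ k) :
    G.toGV.ZC (((⊤ : AddSubgroup ((Fin g → ℂ) × (Fin s → ℂ))) :
      AddSubgroup ((Fin g → ℂ) × (Fin s → ℂ))) : Set ((Fin g → ℂ) × (Fin s → ℂ))) := by
  refine ⟨∅, ?_, ?_⟩
  · intro f hf
    exact absurd hf (Set.notMem_empty f)
  · intro z
    constructor
    · intro _ f hf
      exact absurd hf (Set.notMem_empty f)
    · intro _
      exact AddSubgroup.mem_top z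

private theorem u11_tt_top (g s : ℕ) :
    finrank ℂ (TT (⊤ : AddSubgroup ((Fin g → ℂ) × (Fin s → ℂ)))) = g + s := by
  have h1 : TT (⊤ : AddSubgroup ((Fin g → ℂ) × (Fin s → ℂ))) = ⊤ := by
    rw [eq_top_iff]
    intro x _ c
    exact AddSubgroup.mem_top _
  rw [h1, finrank_top, Module.finrank_prod, Module.finrank_fin_fun, Module.finrank_fin_fun]

theorem sav_rank (g s N κ M μ t : ℕ) : ∃ m C : ℕ, 1 ≤ m ∧ ∀ k F : IntermediateField ℚ ℂ,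
    k ≤ F → Algebra.trdeg ℚ F ≤ (t : Cardinal) → Clo F →
    ∀ (G : SAV g s N κ M μ k) (h : ℕ) (ρ : Fin h → (Fin g → ℂ) × (Fin s → ℂ)) (δ : ℕ),
    G.toGV.GenDim ρ δ →
    ∀ (r : (Fin g → ℂ) × (Fin s → ℂ)) (K : IntermediateField ℚ ℂ) (D : ℕ) (w : Basis (Fin D) ℚ K)
      (H : ℕ),
        Set.ncard {a : Fin h → Fin D → ℤ | (∀ i j, |a i j| ≤ (H : ℤ)) ∧
          rk F (G.toGV.rat (ptl r ρ (fun j => ((w j : K) : ℂ)) a)) < δ} ≤
          C * 2 ^ (h * D) * (2 * H + 1) ^ (h * D - D / m) := by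
  obtain ⟨m₀, hm₀, H₀⟩ := count_G g κ M (t + 2 * (M + 1) * (g + s))
  refine ⟨4 ^ (g + s) * m₀, 2 ^ (2 + 2 * (g + s)), ?_, ?_⟩
  · exact Nat.one_le_iff_ne_zero.2 (Nat.mul_ne_zero (by positivity) (by omega))
  intro k F hkF ht hF G h ρ δ hδ r K D w H
  have hδn : δ ≤ g + s := by
    have h1 := hδ ⊤ (u11_zc_top G) (fun c i => AddSubgroup.mem_top _)
    rwa [u11_tt_top] at h1
  have h1 := claimS G r ρ (fun j => ((w j : K) : ℂ)) H δ hδ m₀ (t + 2 * (M + 1) * (g + s)) hm₀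
    (fun F' hk' ht' hF' S SA hS hSA hne =>
      H₀ s N μ k F' hk' ht' hF' G h ρ r K D w H S SA hS hSA hne)
    δ t le_rfl (Nat.add_le_add_left (Nat.mul_le_mul_left _ hδn) t) F hkF ht hF
  have h2 : {a : Fin h → Fin D → ℤ | (∀ i j, |a i j| ≤ (H : ℤ)) ∧
      rk F (G.toGV.rat (ptl r ρ (fun j => ((w j : K) : ℂ)) a)) < δ} =
      {a : Fin h → Fin D → ℤ | a ∈ z12_box h D H ∧
        rk F (G.toGV.rat (ptl r ρ (fun j => ((w j : K) : ℂ)) a)) < δ} := by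
    ext a
    constructor
    · rintro ⟨ha, hb⟩
      exact ⟨z12_mem.2 ha, hb⟩
    · rintro ⟨ha, hb⟩
      exact ⟨z12_mem.1 ha, hb⟩
  rw [h2]
  refine h1.trans ?_
  apply Nat.mul_le_mul
  · rw [← pow_add]
    exact Nat.pow_le_pow_right (by norm_num) (by omega)
  · apply Nat.pow_le_pow_right (by omega)
    have h3 : 4 ^ δ * m₀ ≤ 4 ^ (g + s) * m₀ :=
      Nat.mul_le_mul_right _ (Nat.pow_le_pow_right (by norm_num) hδn)
    have h4 : D / (4 ^ (g + s) * m₀) ≤ D / (4 ^ δ * m₀) :=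
      Nat.div_le_div_left h3 (Nat.mul_pos (by positivity) (by omega))
    omega

theorem sav_trdeg (g s N κ M μ t l : ℕ) : ∃ m C : ℕ, 1 ≤ m ∧ ∀ k F : IntermediateField ℚ ℂ,
    k ≤ F → Algebra.trdeg ℚ F ≤ (t : Cardinal) → ∀ R : Fin l → ℂ,
    ∀ (G : SAV g s N κ M μ k) (h : ℕ) (ρ : Fin h → (Fin g → ℂ) × (Fin s → ℂ)) (δ : ℕ),
    G.toGV.GenDim ρ δ →
    ∀ (r : (Fin g → ℂ) × (Fin s → ℂ)) (K : IntermediateField ℚ ℂ) (D : ℕ) (w : Basis (Fin D) ℚ K)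
      (H : ℕ),
        Set.ncard {a : Fin h → Fin D → ℤ | (∀ i j, |a i j| ≤ (H : ℤ)) ∧
          ¬ Algebra.trdeg F (IntermediateField.adjoin F (Set.range R)) + (δ : Cardinal) ≤
            Algebra.trdeg F (IntermediateField.adjoin F (Set.range R ∪
              G.toGV.rat (ptl r ρ (fun j => ((w j : K) : ℂ)) a)))} ≤
          C * 2 ^ (h * D) * (2 * H + 1) ^ (h * D - D / m) := by
  obtain ⟨m, C, hm, hmain⟩ := sav_rank g s N κ M μ (t + l)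
  refine ⟨m, C, hm, ?_⟩
  intro k F hkF ht R G h ρ δ hδ r K D w H
  obtain ⟨F₁, hFF₁, hclo, htr, hmem⟩ := LTD.clo_adjoin F t l ht R
  have h1 := hmain k F₁ (hkF.trans hFF₁) htr hclo G h ρ δ hδ r K D w H
  refine le_trans (Set.ncard_le_ncard ?_ ?_) h1
  · rintro a ⟨ha, hneg⟩
    refine ⟨ha, ?_⟩
    by_contra hcon
    have h3 := not_lt.1 hcon
    apply hneg
    obtain ⟨y, hy, hyi, -⟩ := rk_basis F₁
      (G.toGV.rat (ptl r ρ (fun j => ((w j : K) : ℂ)) a)) (Set.finite_range _)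
    have h5 := ELT.f7_trdeg F F₁ hFF₁ (Set.range R)
      (by
        rintro z ⟨i, rfl⟩
        rw [hmem]
        exact isAlgebraic_algebraMap (⟨R i, IntermediateField.subset_adjoin F _ ⟨i, rfl⟩⟩ :
          IntermediateField.adjoin F (Set.range R)))
      (fun i : Fin δ => y (Fin.castLE h3 i))
      (hyi.comp _ (Fin.castLE_injective h3))
      (G.toGV.rat (ptl r ρ (fun j => ((w j : K) : ℂ)) a)) (fun i => hy _)
    rwa [Fintype.card_fin] at h5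
  · exact (z12_box h D H).finite_toSet.subset (fun a ha => z12_mem.2 ha.1)

theorem sav_Q1 (g s N κ M μ t : ℕ) : ∃ m C : ℕ, 1 ≤ m ∧ ∀ k F : IntermediateField ℚ ℂ,
    k ≤ F → Algebra.trdeg ℚ F ≤ (t : Cardinal) →
    ∀ (G : SAV g s N κ M μ k) (h : ℕ) (ρ : Fin h → (Fin g → ℂ) × (Fin s → ℂ))
      (r : (Fin g → ℂ) × (Fin s → ℂ)), (∀ x ∈ G.toGV.rat r, IsAlgebraic ℚ x) →
    ∀ (K : IntermediateField ℚ ℂ) (D : ℕ) (w : Basis (Fin D) ℚ K) (H : ℕ),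
        Set.ncard {a : Fin h → Fin D → ℤ | (∀ i j, |a i j| ≤ (H : ℤ)) ∧
          ¬ ((G.toGV.dd (ptl r ρ (fun j => ((w j : K) : ℂ)) a) : ℕ) : Cardinal) ≤
            Algebra.trdeg F (IntermediateField.adjoin F
              (G.toGV.rat (ptl r ρ (fun j => ((w j : K) : ℂ)) a)))} ≤
          C * 2 ^ (h * D) * (2 * H + 1) ^ (h * D - D / m) := by
  obtain ⟨m, C, hm, hmain⟩ := sav_trdeg g s N κ M μ t 0
  refine ⟨m, C, hm, ?_⟩
  intro k F hkF ht G h ρ r hr K D w H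
  set 𝒟 : Set ℕ := {n | ∃ H' : AddSubgroup ((Fin g → ℂ) × (Fin s → ℂ)),
    G.toGV.ZC (H' : Set ((Fin g → ℂ) × (Fin s → ℂ))) ∧ (∀ (c : ℂ) i, c • ρ i ∈ H') ∧
      n = finrank ℂ (TT H')} with h𝒟
  have hne : 𝒟.Nonempty := ⟨_, ⊤, u11_zc_top G, fun c i => AddSubgroup.mem_top _, rfl⟩
  obtain ⟨H₀, hH₀, hc₀, hd₀⟩ := Nat.sInf_mem hne
  have hδ : G.toGV.GenDim ρ (sInf 𝒟) := by
    intro H' hH' hc'
    exact Nat.sInf_le ⟨H', hH', hc', rfl⟩
  have h1 := hmain k F hkF ht Fin.elim0 G h ρ (sInf 𝒟) hδ r K D w H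
  refine le_trans (Set.ncard_le_ncard ?_ ?_) h1
  · rintro a ⟨ha, hneg⟩
    refine ⟨ha, fun hle => hneg ?_⟩
    have hdd : G.toGV.dd (ptl r ρ (fun j => ((w j : K) : ℂ)) a) ≤ sInf 𝒟 := by
      apply Nat.sInf_le
      refine ⟨H₀, r, hH₀, hr, ?_, hd₀⟩
      unfold ptl
      rw [add_sub_cancel_left]
      exact H₀.sum_mem (fun i _ => hc₀ _ i)
    have hrange : Set.range (Fin.elim0 : Fin 0 → ℂ) = ∅ := Set.range_eq_empty _
    rw [hrange, Set.empty_union] at hle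
    calc ((G.toGV.dd (ptl r ρ (fun j => ((w j : K) : ℂ)) a) : ℕ) : Cardinal)
        ≤ ((sInf 𝒟 : ℕ) : Cardinal) := by exact_mod_cast hdd
      _ ≤ Algebra.trdeg F (IntermediateField.adjoin F (∅ : Set ℂ)) + ((sInf 𝒟 : ℕ) : Cardinal) :=
        le_add_self
      _ ≤ _ := hle
  · exact (z12_box h D H).finite_toSet.subset (fun a ha => z12_mem.2 ha.1)

end GAL
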