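import Pool.Agent.GAL.E1
import Pool.Agent.GAL.E2
import Pool.Agent.GAL.E3
import Pool.Agent.GAV.Z1b
import Pool.Agent.GAV.Z5

set_option autoImplicit false

open LTD MvPolynomial

namespace GAL

open GAV

variable {g s N κ M μ : ℕ} {k : IntermediateField ℚ ℂ}

/-! ## [GAL-U4] points with the same locus lift (file U4.lean)

`gen_rel'`: as `gen_rel` (`GAL/E2.lean`): the homogenisation `f^h` vanishes at `θ x` iff it vanishes at `θ y` (`hxy`, `hyx`). `fib'`: as `fib` (`GAL/E3.lean`, copy the proof): `θ^A_{b'}(x) ≠ 0` implies `θ^A_{b'}(y) ≠ 0` by `hy'` (the polynomial `X_{b'}`), `gen_rel'` in place of `gen_rel`; the rest is the same. -/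

/-- The homogenisation. -/
private noncomputable def u4_hom {N : ℕ} {F : IntermediateField ℚ ℂ} (b : Fin (N + 1))
    (f : MvPolynomial (Fin (N + 1)) F) : MvPolynomial (Fin (N + 1)) F :=
  ∑ m ∈ f.support, monomial m (coeff m f) * X b ^ (f.totalDegree - m.degree)

private theorem u4_deg {N : ℕ} {F : IntermediateField ℚ ℂ} (f : MvPolynomial (Fin (N + 1)) F)
    (m : Fin (N + 1) →₀ ℕ) (hm : m ∈ f.support) : m.degree ≤ f.totalDegree :=
  le_totalDegree hm

private theorem u4_ishom {N : ℕ} {F : IntermediateField ℚ ℂ} (b : Fin (N + 1))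
    (f : MvPolynomial (Fin (N + 1)) F) : (u4_hom b f).IsHomogeneous f.totalDegree := by
  refine IsHomogeneous.sum _ _ _ fun m hm => ?_
  have h1 := (isHomogeneous_monomial (R := F) (coeff m f) (rfl : m.degree = m.degree)).mul
    ((isHomogeneous_X F b).pow (f.totalDegree - m.degree))
  have h2 := u4_deg f m hm
  have h3 : m.degree + 1 * (f.totalDegree - m.degree) = f.totalDegree := by omega
  rwa [h3] at h1

private theorem u4_eval {N : ℕ} {F : IntermediateField ℚ ℂ} (b : Fin (N + 1))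
    (f : MvPolynomial (Fin (N + 1)) F) (p : Fin (N + 1) → ℂ) (hp : p b ≠ 0) :
    aeval p (u4_hom b f) = p b ^ f.totalDegree * aeval (fun j => p j / p b) f := by
  have hp' : p = (p b) • (fun j => p j / p b) := by
    funext j
    simp only [Pi.smul_apply, smul_eq_mul]
    rw [mul_div_cancel₀ _ hp]
  have h1 : aeval (fun j => p j / p b) f =
      ∑ m ∈ f.support, aeval (fun j => p j / p b) (monomial m (coeff m f)) := by
    conv_lhs => rw [f.as_sum]
    rw [map_sum]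
  rw [h1, Finset.mul_sum, u4_hom, map_sum]
  refine Finset.sum_congr rfl fun m hm => ?_
  have h2 := u4_deg f m hm
  have h3 : aeval p (monomial m (coeff m f)) =
      p b ^ m.degree * aeval (fun j => p j / p b) (monomial m (coeff m f)) := by
    conv_lhs => rw [hp']
    exact z8_smul F _ _ (isHomogeneous_monomial (R := F) (coeff m f) (rfl : m.degree = m.degree)) _ _
  rw [map_mul, map_pow, aeval_X, h3]
  have h4 : p b ^ f.totalDegree = p b ^ m.degree * p b ^ (f.totalDegree - m.degree) := by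
    rw [← pow_add]
    congr 1
    omega
  rw [h4]
  ring

private theorem u4_one (A : AV g N κ k) (F : IntermediateField ℚ ℂ) (x y : Fin g → ℂ)
    (hx : y ∈ (toGV A).V F x) (b : Fin (N + 1))
    (hb : A.θ x b ≠ 0) (hb' : A.θ y b ≠ 0) (f : MvPolynomial (Fin (N + 1)) F)
    (hf : aeval (fun j => A.θ x j / A.θ x b) f = 0) :
    aeval (fun j => A.θ y j / A.θ y b) f = 0 := by
  have h1 : aeval (A.θ x) (u4_hom b f) = 0 := by
    rw [u4_eval b f _ hb, hf, mul_zero]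
  have h2 : aeval (A.θ y) (u4_hom b f) = 0 := hx (u4_hom b f) _ (u4_ishom b f) h1
  rw [u4_eval b f _ hb'] at h2
  exact (mul_eq_zero.mp h2).resolve_left (pow_ne_zero _ hb')

/-- an element which is algebraic over a field generated by elements of a closed field is in it -/
private theorem u4_mem (E₀ Ω : IntermediateField ℚ ℂ) (hE : E₀ ≤ Ω) (hΩ : Clo Ω) (S : Set ℂ)
    (hS : S ⊆ Ω) (z : ℂ) (hz : IsAlgebraic (IntermediateField.adjoin E₀ S) z) : z ∈ Ω := by
  have hmem : ∀ x ∈ IntermediateField.adjoin E₀ S, x ∈ Ω := by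
    have h1 : IntermediateField.adjoin E₀ S ≤ IntermediateField.extendScalars hE := by
      rw [IntermediateField.adjoin_le_iff]
      intro x hx
      exact (IntermediateField.mem_extendScalars hE).2 (hS hx)
    intro x hx
    exact (IntermediateField.mem_extendScalars hE).1 (h1 hx)
  let f : IntermediateField.adjoin E₀ S →+* Ω :=
    (algebraMap (IntermediateField.adjoin E₀ S) ℂ).codRestrict Ω.toSubring
      (fun x => hmem _ x.2)
  let _ : Algebra (IntermediateField.adjoin E₀ S) Ω := f.toAlgebra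
  have _ : IsScalarTower (IntermediateField.adjoin E₀ S) Ω ℂ :=
    IsScalarTower.of_algebraMap_eq (fun _ => rfl)
  exact hΩ z (hz.tower_top Ω)

theorem gen_rel' (A : AV g N κ k) (F : IntermediateField ℚ ℂ) (x y : Fin g → ℂ)
    (hxy : y ∈ (toGV A).V F x) (hyx : x ∈ (toGV A).V F y) (b : Fin (N + 1))
    (hb : A.θ x b ≠ 0) (hb' : A.θ y b ≠ 0) (f : MvPolynomial (Fin (N + 1)) F) :
    aeval (fun j => A.θ x j / A.θ x b) f = 0 ↔ aeval (fun j => A.θ y j / A.θ y b) f = 0 := by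
  exact ⟨u4_one A F x y hxy b hb hb' f, u4_one A F y x hyx b hb' hb f⟩

theorem fib' (G : SAV g s N κ M μ k) (F : IntermediateField ℚ ℂ) (hk : k ≤ F) (hF : Clo F) (t : ℕ)
    (ht : Algebra.trdeg ℚ F ≤ (t : Cardinal)) (v : (Fin g → ℂ) × (Fin s → ℂ)) (y : Fin g → ℂ)
    (hy : y ∈ (toGV G.A).V F v.1) (hy' : v.1 ∈ (toGV G.A).V F y) :
    ∃ z ∈ G.toGV.V F v, z.1 - y ∈ G.A.Λ := by
  obtain ⟨b', hb'⟩ : ∃ b, G.A.θ v.1 b ≠ 0 := exists_ne (toGV G.A) v.1
  have hb'y : G.A.θ y b' ≠ 0 := by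
    intro h0
    apply hb'
    have h1 := hy' (X b') 1 (isHomogeneous_X _ _) (by rw [aeval_X]; exact h0)
    rw [aeval_X] at h1
    exact h1
  set q : Fin (N + 1) → ℂ := fun j => G.A.θ v.1 j / G.A.θ v.1 b' with hq
  set q' : Fin (N + 1) → ℂ := fun j => G.A.θ y j / G.A.θ y b' with hq'
  have hrel : ∀ f : MvPolynomial (Fin (N + 1)) F, aeval q f = 0 ↔ aeval q' f = 0 :=
    fun f => gen_rel' G.A F v.1 y hy hy' b' hb' hb'y f
  obtain ⟨E₀, t₀, hE, hcloE, htrE, hmemE⟩ := Z5_clo F t ht (Set.range q) (Set.finite_range _)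
  obtain ⟨E₁, t₁, hE1, hcloE1, htrE1, hmemE1⟩ :=
    Z5_clo F t ht (Set.range q') (Set.finite_range _)
  have hqE : ∀ j, q j ∈ E₀ := fun j => (hmemE _).2
    (Z5_alg_mem F _ _ (IntermediateField.subset_adjoin F _ ⟨j, rfl⟩))
  have hqE1 : ∀ j, q' j ∈ E₁ := fun j => (hmemE1 _).2
    (Z5_alg_mem F _ _ (IntermediateField.subset_adjoin F _ ⟨j, rfl⟩))
  obtain ⟨u, huR, hu, hualg⟩ := rk_basis E₀ (G.toGV.rat v) (rat_fin G.toGV v)
  obtain ⟨u', hu', -⟩ := fresh E₁ t₁ htrE1 ∅ Set.countable_empty (rk E₀ (G.toGV.rat v))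
  have hrel2 := ind_rel F E₀ E₁ hE hE1 q q' hqE hqE1 hrel u u' hu hu'
  obtain ⟨Ω, tΩ, hFΩ, hcloΩ, -, hΩ⟩ :=
    Z5_clo F t ht (Set.range (Sum.elim q u)) (Set.finite_range _)
  obtain ⟨σ, hσF, hσY⟩ := emb2 F (Sum.elim q u) (Sum.elim q' u') hrel2 Ω hΩ
  have hYΩ : ∀ i, Sum.elim q u i ∈ Ω := fun i => (hΩ _).2
    (Z5_alg_mem F _ _ (IntermediateField.subset_adjoin F _ ⟨i, rfl⟩))
  have hEΩ : E₀ ≤ Ω := by
    intro z hz
    rw [hΩ]
    refine Z5_alg_mono F _ _ ?_ z ((hmemE z).1 hz)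
    apply IntermediateField.adjoin.mono
    rintro _ ⟨j, rfl⟩
    exact ⟨Sum.inl j, rfl⟩
  have hratΩ : ∀ z ∈ G.toGV.rat v, z ∈ Ω := by
    intro z hz
    refine u4_mem E₀ Ω hEΩ hcloΩ (Set.range u) ?_ z (hualg z hz)
    rintro _ ⟨i, rfl⟩
    exact hYΩ (Sum.inr i)
  obtain ⟨b, hb⟩ := exists_ne G.toGV v
  obtain ⟨z, hzV, c, hc, hz⟩ := spec G.toGV F Ω hk hFΩ σ hσF v b hb hratΩ
  obtain ⟨i, j₀, hij⟩ := G.pr_ne v
  obtain ⟨c₁, hc₁⟩ := G.pr_eq i v
  obtain ⟨c₂, hc₂⟩ := G.pr_eq i z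
  have hc₁0 : c₁ ≠ 0 := by
    rintro rfl
    apply hij
    rw [hc₁, zero_mul]
  -- the coordinates in `Ω`
  let P : Fin (M + 1) → Ω := fun j => ⟨G.θ v j / G.θ v b, hratΩ _ ⟨(j, b), rfl⟩⟩
  let Q : Fin (N + 1) → Ω := fun j => ⟨q j, hYΩ (Sum.inl j)⟩
  let ik : k →+* Ω := (IntermediateField.inclusion (hk.trans hFΩ)).toRingHom
  have hik : ∀ x : k, ((ik x : Ω) : ℂ) = x := fun x => rfl
  have hPc : (fun j => ((P j : Ω) : ℂ)) = (G.θ v b)⁻¹ • G.θ v := by
    funext j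
    rw [Pi.smul_apply, smul_eq_mul]
    exact div_eq_inv_mul _ _
  have hval : ∀ j, ((eval₂ ik P (G.pr i j) : Ω) : ℂ) = (G.θ v b)⁻¹ ^ G.d * (c₁ * G.A.θ v.1 j) := by
    intro j
    have h1 := eval₂_comp_left (algebraMap Ω ℂ) ik P (G.pr i j)
    have h2 : ((eval₂ ik P (G.pr i j) : Ω) : ℂ) = aeval (fun j => ((P j : Ω) : ℂ)) (G.pr i j) := by
      rw [aeval_def]
      exact h1
    rw [h2, hPc, aeval_hom (G.pr i j) G.d (G.pr_hom i j), hc₁ j]
  have hσik : σ.comp ik = algebraMap k ℂ := by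
    ext x
    exact hσF (ik x) (hk x.2)
  have hσval : ∀ j, σ (eval₂ ik P (G.pr i j)) = c ^ G.d * (c₂ * G.A.θ z.1 j) := by
    intro j
    have h1 := eval₂_comp_left σ ik P (G.pr i j)
    rw [hσik] at h1
    have h2 : (σ ∘ P : Fin (M + 1) → ℂ) = c • G.θ z := by
      funext j
      exact hz j (P j) rfl
    rw [h2] at h1
    rw [h1, ← aeval_def, aeval_hom (G.pr i j) G.d (G.pr_hom i j), hc₂ j]
  have hmul : ∀ j, eval₂ ik P (G.pr i j) = eval₂ ik P (G.pr i b') * Q j := by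
    intro j
    apply Subtype.ext
    show ((eval₂ ik P (G.pr i j) : Ω) : ℂ) = ((eval₂ ik P (G.pr i b') : Ω) : ℂ) * q j
    rw [hval, hval, hq]
    field_simp
  have hne : c ^ G.d * (c₂ * G.A.θ z.1 b') ≠ 0 := by
    rw [← hσval b']
    intro h0
    have h1 : eval₂ ik P (G.pr i b') = 0 := by
      apply σ.injective
      rw [h0, map_zero]
    have h2 := hval b'
    rw [h1] at h2
    have h3 : (G.θ v b)⁻¹ ^ G.d * (c₁ * G.A.θ v.1 b') ≠ 0 :=
      mul_ne_zero (pow_ne_zero _ (inv_ne_zero hb)) (mul_ne_zero hc₁0 hb')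
    exact h3 h2.symm
  have hfin : ∀ j, c ^ G.d * (c₂ * G.A.θ z.1 j) = c ^ G.d * (c₂ * G.A.θ z.1 b') * q' j := by
    intro j
    rw [← hσval j, ← hσval b', hmul j, map_mul]
    congr 1
    exact hσY (Sum.inl j) (Q j) rfl
  have hcd : c ^ G.d ≠ 0 := left_ne_zero_of_mul hne
  have hc2 : c₂ ≠ 0 := left_ne_zero_of_mul (right_ne_zero_of_mul hne)
  refine ⟨z, hzV, G.A.inj z.1 y (G.A.θ z.1 b' / G.A.θ y b') ?_⟩
  funext j
  have h1 := hfin j
  rw [mul_assoc, mul_assoc] at h1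
  have h2 := mul_left_cancel₀ hc2 (mul_left_cancel₀ hcd h1)
  rw [h2, Pi.smul_apply, smul_eq_mul, hq']
  field_simp

end GAL
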