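import Pool.Agent.GAL.T10
import Pool.Agent.GAL.H2
import Pool.Agent.GAL.H3
import Pool.Agent.GAL.C4

set_option autoImplicit false

open LTD Module

namespace GAL

open GAV

/-! ## [GAL-U6] counting, the abelian case (file U6.lean)

`m` from `line_count g κ T`. `TT_rat` (H2.lean): `TT SA` is rational; `compl` (H3.lean): `T₁`, `IsCompl (TT SA) T₁`, rational. `π : ℂ^g →ₗ[ℂ] ℂ^g` the projection onto `T₁` along `TT SA` (`Submodule.projectionOnto` followed by the inclusion): `π x ∈ T₁`, `x - π x ∈ TT SA`, `π x = 0 ↔ x ∈ TT SA`. `π (ρ i) ≠ 0` for the `i` of `hi`. For `a` in the set: `proj_rat`: `A.rat (π (v a)) ⊆ F`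
and `π (ptl r ρ w a) = ptl (π r) (fun i => π (ρ i)) w a` (linear). `line_count`. -/

theorem count_A (g κ T : ℕ) : ∃ m : ℕ, 1 ≤ m ∧ ∀ (N : ℕ) (k F : IntermediateField ℚ ℂ),
    k ≤ F → Algebra.trdeg ℚ F ≤ (T : Cardinal) → Clo F → ∀ (A : AV g N κ k) (h : ℕ)
      (ρ : Fin h → Fin g → ℂ) (r : Fin g → ℂ)
      (K : IntermediateField ℚ ℂ) (D : ℕ) (w : Basis (Fin D) ℚ K) (H : ℕ)
      (SA : AddSubgroup (Fin g → ℂ)), (toGV A).ZC (SA : Set (Fin g → ℂ)) →
        (∃ i, ρ i ∉ TT SA) →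
        Set.ncard {a : Fin h → Fin D → ℤ | a ∈ z12_box h D H ∧
          ∀ z, z ∈ (toGV A).V F (ptl r ρ (fun j => ((w j : K) : ℂ)) a) ↔
            z - ptl r ρ (fun j => ((w j : K) : ℂ)) a ∈ SA} ≤
          (2 * H + 1) ^ (h * D - D / m) := by
  obtain ⟨m, hm, hcount⟩ := line_count g κ T
  refine ⟨m, hm, ?_⟩
  intro N k F hk hT hF A h ρ r K D w H SA hSA hi
  obtain ⟨T₁, hc, hT₁⟩ := compl A (TT SA) (TT_rat A SA hSA)
  let P : (Fin g → ℂ) →ₗ[ℂ] (Fin g → ℂ) :=
    T₁.subtype.comp (Submodule.projectionOnto T₁ (TT SA) hc.symm)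
  have hP1 : ∀ x, P x ∈ T₁ := fun x => (Submodule.projectionOnto T₁ (TT SA) hc.symm x).2
  have hPT : ∀ x, P x = 0 ↔ x ∈ TT SA := by
    intro x
    rw [← Submodule.projectionOnto_apply_eq_zero_iff hc.symm]
    constructor
    · intro h0
      exact Subtype.ext h0
    · intro h0
      show ((Submodule.projectionOnto T₁ (TT SA) hc.symm x : T₁) : Fin g → ℂ) = 0
      rw [h0]
      rfl
  have hP2 : ∀ x, x - P x ∈ TT SA := by
    intro x
    rw [← hPT, map_sub]
    have h1 : P (P x) = P x := by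
      show ((Submodule.projectionOnto T₁ (TT SA) hc.symm
        ((Submodule.projectionOnto T₁ (TT SA) hc.symm x : T₁) : Fin g → ℂ) : T₁) :
          Fin g → ℂ) = ((Submodule.projectionOnto T₁ (TT SA) hc.symm x : T₁) : Fin g → ℂ)
      rw [Submodule.projectionOnto_apply_left]
    rw [h1, sub_self]
  have hlin : ∀ a : Fin h → Fin D → ℤ, P (ptl r ρ (fun j => ((w j : K) : ℂ)) a) =
      ptl (P r) (fun i => P (ρ i)) (fun j => ((w j : K) : ℂ)) a := by
    intro a
    unfold ptl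
    rw [map_add, map_sum]
    congr 1
    refine Finset.sum_congr rfl fun i _ => ?_
    rw [map_smul]
  have hi' : ∃ i, (fun i => P (ρ i)) i ≠ 0 := by
    obtain ⟨i, hi⟩ := hi
    refine ⟨i, ?_⟩
    intro h0
    exact hi ((hPT _).1 h0)
  refine le_trans (Set.ncard_le_ncard ?_ ?_) (hcount N k F hk hT hF A h (P r) (fun i => P (ρ i)) hi' K D w H)
  · rintro a ⟨ha, hV⟩
    refine ⟨ha, ?_⟩
    rw [← hlin]
    exact proj_rat A F hk hF T hT SA hSA T₁ hT₁ hc (ptl r ρ (fun j => ((w j : K) : ℂ)) a) hV _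
      (hP1 _) (hP2 _)
  · exact (z12_box h D H).finite_toSet.subset fun a ha => ha.1

end GAL
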