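import Pool.Agent.GAL.N2
import Pool.Agent.GAL.U5
import Pool.Agent.GAL.E5
import Pool.Agent.GAL.E6
import Pool.Agent.GAL.E7

set_option autoImplicit false

open LTD Module

namespace GAL

open GAV

/-! ## [GAL-U7] counting, the toric case (file U7.lean)

`lam_ex'`: the linear form `(t, u) ↦ ∑ a_j u_j` on `T × ℂ^s` vanishes on the kernel of `Φ : (t, u) ↦ t + (0, u)` (`t = (0,-u)`, `ha`), so it factors through the range of `Φ` and extends to a linear form on `ℂ^g × ℂ^s` (`LinearMap.exists_extend`; compare `lam_ex` in `E7.lean`).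
`count_T`: `m` from `exp_cnt (T + (M + 1))`. If the set is empty: clear. Otherwise fix `a*` in it, `v* = v(a*)`, `F*` = closure of `F(rat v*)` (`clo_ratG`, N2.lean), `F ≤ F*`, `rat v* ⊆ F*`. `TT_proj` (U5.lean) for `v*`: every `x ∈ TT SA` is the first component of an element of `TT S`. Choose `t_i ∈ TT S` with `t_i.1 = (ρ i).1` (`hA`), `ρ i - t_i = (0, u_i)`. For the `i` of `hi`: `(0,u_i) ∉ TT S`,
so `(0, c • u_i) ∉ S` for some `c`. `chars` (E5.lean) for `c • u_i`: `a` with `exp(∑ a_j u'_j) = 1` for all `(0,u') ∈ S` and `exp(∑ a_j c u_ij) ≠ 1`, so `∑ a_j u_ij ≠ 0`. If `(0,u) ∈ TT S` then `exp(c' ∑ a_j u_j) = 1` for all `c' ∈ ℂ`, so `∑ a_j u_j = 0`. `lam_ex'` for `TT S`: `lam`; `lam (ρ i) = ∑ a_j u_ij ≠ 0`.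
Let `a'` be in the set, `v = v(a')`, `x = v - v* = ∑_i (∑_j (a'_ij - a*_ij) w_j) ρ_i`; `x.1 ∈ TT SA` (a submodule), choose `t ∈ TT S` with `t.1 = x.1`, `x - t = (0,u₀)`. CLAIM: `z ∈ V_{F*}((0,u₀))` implies `z - (0,u₀) ∈ S`. The translation `z ↦ z + v* = z - (0 - v*)` is a morphism over `F*` (`mor_sub, mor_id, mor_const`; `v*` is rational over `F*`: `θ_j(v*)/θ_b(v*) ∈ F*`), so (`mor_V`)
`z + v* ∈ V_{F*}((0,u₀) + v*) = V_{F*}(v - t) ⊆ V_F(v - t)` (`V_field`) and `V_F(v - t) ⊆ V_F(v) = v + S` (`V_trans`; `v - t ∈ v + S`). So `z + v* - v ∈ S` and `z - (0,u₀) = (z + v* - v) + t ∈ S`. `tor_rat` (E6.lean) over `F*`: `exp(∑ a_j u₀_j) ∈ F*`, and `lam x = lam t + ∑ a_j u₀_j = ∑ a_j u₀_j`. So `exp(lam v - lam v*) ∈ F*`,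
`lam v - lam v* = (lam r - lam v*) + ∑_i (∑_j a'_ij w_j) lam (ρ i)`: `exp_cnt`. -/

theorem lam_ex' (g s : ℕ) (T : Submodule ℂ ((Fin g → ℂ) × (Fin s → ℂ))) (a : Fin s → ℤ)
    (ha : ∀ u : Fin s → ℂ, ((0 : Fin g → ℂ), u) ∈ T → ∑ j, (a j : ℂ) * u j = 0) :
    ∃ lam : ((Fin g → ℂ) × (Fin s → ℂ)) →ₗ[ℂ] ℂ, (∀ t ∈ T, lam t = 0) ∧
      ∀ u : Fin s → ℂ, lam ((0 : Fin g → ℂ), u) = ∑ j, (a j : ℂ) * u j := by
  let ψ : (Fin s → ℂ) →ₗ[ℂ] ℂ := ∑ j, (a j : ℂ) • LinearMap.proj j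
  have hψ : ∀ u, ψ u = ∑ j, (a j : ℂ) * u j := by
    intro u
    simp [ψ]
  let Φ : (T × (Fin s → ℂ)) →ₗ[ℂ] ((Fin g → ℂ) × (Fin s → ℂ)) :=
    T.subtype.coprod (LinearMap.inr ℂ (Fin g → ℂ) (Fin s → ℂ))
  have hΦ : ∀ t u, Φ (t, u) = (t : (Fin g → ℂ) × (Fin s → ℂ)) + ((0 : Fin g → ℂ), u) :=
    fun t u => rfl
  let f : Module.Dual ℂ (T × (Fin s → ℂ)) := ψ ∘ₗ LinearMap.snd ℂ T (Fin s → ℂ)
  have hf : f ∈ (LinearMap.ker Φ).dualAnnihilator := by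
    rw [Submodule.mem_dualAnnihilator]
    rintro ⟨t, u⟩ htu
    rw [LinearMap.mem_ker, hΦ] at htu
    show ψ u = 0
    have h1 : ((0 : Fin g → ℂ), -u) = (t : (Fin g → ℂ) × (Fin s → ℂ)) := by
      have h2 : (t : (Fin g → ℂ) × (Fin s → ℂ)) = -((0 : Fin g → ℂ), u) :=
        eq_neg_of_add_eq_zero_left htu
      rw [h2]
      refine Prod.ext ?_ rfl
      show (0 : Fin g → ℂ) = -(0 : Fin g → ℂ)
      rw [neg_zero]
    have h3 : ((0 : Fin g → ℂ), -u) ∈ T := by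
      rw [h1]
      exact t.2
    have h4 := ha _ h3
    rw [← hψ, map_neg, neg_eq_zero] at h4
    exact h4
  rw [← LinearMap.range_dualMap_eq_dualAnnihilator_ker] at hf
  obtain ⟨lam, hlam⟩ := hf
  have hl : ∀ p, lam (Φ p) = f p := fun p => by
    rw [← hlam]
    rfl
  refine ⟨lam, fun t ht => ?_, fun u => ?_⟩
  · have h1 := hl (⟨t, ht⟩, 0)
    have h2 : Φ (⟨t, ht⟩, 0) = t := by
      rw [hΦ]
      show t + 0 = t
      rw [add_zero]
    rw [h2] at h1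
    rw [h1]
    show ψ 0 = 0
    rw [map_zero]
  · have h1 := hl (0, u)
    have h2 : Φ (0, u) = ((0 : Fin g → ℂ), u) := by
      rw [hΦ]
      show (0 : (Fin g → ℂ) × (Fin s → ℂ)) + ((0 : Fin g → ℂ), u) = ((0 : Fin g → ℂ), u)
      rw [zero_add]
    rw [h2] at h1
    rw [h1]
    exact hψ u

/-- the translation by a rational point is a morphism -/
theorem u7_mor {E : Type} [NormedAddCommGroup E] [NormedSpace ℂ E] {M μ : ℕ}
    {k : IntermediateField ℚ ℂ} (G : GV E M μ k) (F : IntermediateField ℚ ℂ) (hk : k ≤ F) (v : E)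
    (hv : ∀ x ∈ G.rat v, x ∈ F) : Mor F G G (fun z => z + v) := by
  obtain ⟨b, hb⟩ := exists_ne G v
  obtain ⟨c, hc, h0⟩ := G.zero
  have h1 : Mor F G G (fun _ => v) :=
    mor_const G G v (fun j => (⟨G.θ v j / G.θ v b, hv _ ⟨(j, b), rfl⟩⟩ : F)) (G.θ v b)⁻¹
      (inv_ne_zero hb) (fun j => div_eq_inv_mul _ _)
  have h2 : Mor F G G (fun _ => (0 : E)) :=
    mor_const G G 0 (fun j => (⟨c * G.θ 0 j, hk (h0 j)⟩ : F)) c hc (fun j => rfl)
  have h3 := mor_sub (IntermediateField.inclusion hk).toRingHom (fun x => rfl) G G _ _ h2 h1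
  have h4 := mor_sub (IntermediateField.inclusion hk).toRingHom (fun x => rfl) G G _ _
    (mor_id G) h3
  have h5 : (fun z : E => z - (0 - v)) = fun z => z + v := by
    funext z
    abel
  rw [h5] at h4
  exact h4

/-- for one point -/
theorem u7_pt {g s N κ M μ : ℕ} {k : IntermediateField ℚ ℂ} (G : SAV g s N κ M μ k)
    (F F' : IntermediateField ℚ ℂ) (hk : k ≤ F) (hFF : F ≤ F') (hF : Clo F') (T : ℕ)
    (ht : Algebra.trdeg ℚ F' ≤ (T : Cardinal)) (S : AddSubgroup ((Fin g → ℂ) × (Fin s → ℂ)))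
    (a : Fin s → ℤ)
    (ha : ∀ u' : Fin s → ℂ, ((0 : Fin g → ℂ), u') ∈ S →
      Complex.exp (∑ j, (a j : ℂ) * u' j) = 1)
    (lam : ((Fin g → ℂ) × (Fin s → ℂ)) →ₗ[ℂ] ℂ) (hl1 : ∀ t ∈ TT S, lam t = 0)
    (hl2 : ∀ u : Fin s → ℂ, lam ((0 : Fin g → ℂ), u) = ∑ j, (a j : ℂ) * u j)
    (v v' t : (Fin g → ℂ) × (Fin s → ℂ)) (hv' : ∀ x ∈ G.toGV.rat v', x ∈ F')
    (htS : t ∈ TT S) (htv : t.1 = (v - v').1)
    (hv : ∀ z, z ∈ G.toGV.V F v ↔ z - v ∈ S) :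
    Complex.exp (lam v - lam v') ∈ F' := by
  set u₀ := (v - v' - t).2 with hu₀
  have h1 : v - v' - t = ((0 : Fin g → ℂ), u₀) := by
    refine Prod.ext ?_ rfl
    show (v - v').1 - t.1 = 0
    rw [htv, sub_self]
  have htS' : t ∈ S := by
    have := htS 1
    rwa [one_smul] at this
  have h2 : v - t ∈ G.toGV.V F v := by
    rw [hv]
    have h3 : v - t - v = -t := by abel
    rw [h3]
    exact S.neg_mem htS'
  have h4 := tor_rat G F' (hk.trans hFF) hF T ht S u₀ (fun z hz => by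
    have h5 : z + v' ∈ G.toGV.V F' (((0 : Fin g → ℂ), u₀) + v') :=
      mor_V G.toGV G.toGV F' (fun z => z + v') (u7_mor G.toGV F' (hk.trans hFF) v' hv')
      ((0 : Fin g → ℂ), u₀) z hz
    have h6 : ((0 : Fin g → ℂ), u₀) + v' = v - t := by
      rw [← h1]
      abel
    rw [h6] at h5
    have h7 := (hv _).1 (V_trans G.toGV F h2 (V_field G.toGV hFF (v - t) (z + v') h5))
    rw [← h1]
    have h8 : z - (v - v' - t) = (z + v' - v) + t := by abel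
    rw [h8]
    exact S.add_mem h7 htS') a ha
  have h9 : lam v - lam v' = ∑ j, (a j : ℂ) * u₀ j := by
    rw [← hl2, ← h1, map_sub, map_sub, hl1 t htS, sub_zero]
  rw [h9]
  exact h4

theorem count_T (M T : ℕ) : ∃ m : ℕ, 1 ≤ m ∧ ∀ (g s N κ μ : ℕ) (k F : IntermediateField ℚ ℂ),
    k ≤ F → Algebra.trdeg ℚ F ≤ (T : Cardinal) → Clo F → ∀ (G : SAV g s N κ M μ k) (h : ℕ)
      (ρ : Fin h → (Fin g → ℂ) × (Fin s → ℂ)) (r : (Fin g → ℂ) × (Fin s → ℂ))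
      (K : IntermediateField ℚ ℂ) (D : ℕ) (w : Basis (Fin D) ℚ K) (H : ℕ)
      (S : AddSubgroup ((Fin g → ℂ) × (Fin s → ℂ))) (SA : AddSubgroup (Fin g → ℂ)),
        G.toGV.ZC (S : Set ((Fin g → ℂ) × (Fin s → ℂ))) → (∃ i, ρ i ∉ TT S) →
        (∀ i, (ρ i).1 ∈ TT SA) →
        Set.ncard {a : Fin h → Fin D → ℤ | a ∈ z12_box h D H ∧
          (∀ z, z ∈ G.toGV.V F (ptl r ρ (fun j => ((w j : K) : ℂ)) a) ↔
            z - ptl r ρ (fun j => ((w j : K) : ℂ)) a ∈ S) ∧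
          ∀ z, z ∈ (toGV G.A).V F (ptl r ρ (fun j => ((w j : K) : ℂ)) a).1 ↔
            z - (ptl r ρ (fun j => ((w j : K) : ℂ)) a).1 ∈ SA} ≤
          (2 * H + 1) ^ (h * D - D / m) := by
  obtain ⟨m, hm, hcnt⟩ := exp_cnt (T + (M + 1))
  refine ⟨m, hm, ?_⟩
  intro g s N κ μ k F hk ht hF G h ρ r K D w H S SA hS hρS hρA
  set A := {a : Fin h → Fin D → ℤ | a ∈ z12_box h D H ∧
          (∀ z, z ∈ G.toGV.V F (ptl r ρ (fun j => ((w j : K) : ℂ)) a) ↔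
            z - ptl r ρ (fun j => ((w j : K) : ℂ)) a ∈ S) ∧
          ∀ z, z ∈ (toGV G.A).V F (ptl r ρ (fun j => ((w j : K) : ℂ)) a).1 ↔
            z - (ptl r ρ (fun j => ((w j : K) : ℂ)) a).1 ∈ SA} with hA
  rcases A.eq_empty_or_nonempty with hAe | ⟨a₀, ha₀⟩
  · rw [hAe, Set.ncard_empty]
    exact Nat.zero_le _
  set v₀ := ptl r ρ (fun j => ((w j : K) : ℂ)) a₀ with hv₀
  obtain ⟨F', hFF, hF', ht', hmem'⟩ := clo_ratG G.toGV F T ht v₀
  have hrat : ∀ x ∈ G.toGV.rat v₀, x ∈ F' := fun x hx => (hmem' x).2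
    (isAlgebraic_algebraMap (R := IntermediateField.adjoin F (G.toGV.rat v₀))
      ⟨x, IntermediateField.subset_adjoin F _ hx⟩)
  have hT : ∀ x ∈ TT SA, ∃ y ∈ TT S, y.1 = x := fun x hx =>
    TT_proj G F hk hF T ht v₀ S hS (fun z hz => (ha₀.2.1 z).1 hz) SA ha₀.2.2 x hx
  obtain ⟨i, hi⟩ := hρS
  obtain ⟨t, htS, htρ⟩ := hT (ρ i).1 (hρA i)
  set u := (ρ i - t).2 with hu
  have h2 : ρ i - t = ((0 : Fin g → ℂ), u) := by
    refine Prod.ext ?_ rfl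
    show (ρ i).1 - t.1 = 0
    rw [htρ, sub_self]
  have h3 : ∃ c : ℂ, ((0 : Fin g → ℂ), c • u) ∉ S := by
    by_contra hcon
    push Not at hcon
    apply hi
    have h4 : ρ i = ((0 : Fin g → ℂ), u) + t := by
      rw [← h2, sub_add_cancel]
    rw [h4]
    refine (TT S).add_mem ?_ htS
    intro c
    have h5 : c • ((0 : Fin g → ℂ), u) = ((0 : Fin g → ℂ), c • u) := by
      refine Prod.ext ?_ rfl
      show c • (0 : Fin g → ℂ) = (0 : Fin g → ℂ)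
      rw [smul_zero]
    rw [h5]
    exact hcon c
  obtain ⟨c, hc⟩ := h3
  obtain ⟨a, ha1, ha2⟩ := chars G S hS (c • u) hc
  have h6 : ∀ (d : ℂ) (u' : Fin s → ℂ), ∑ j, (a j : ℂ) * (d • u') j =
      d * ∑ j, (a j : ℂ) * u' j := by
    intro d u'
    rw [Finset.mul_sum]
    refine Finset.sum_congr rfl fun j _ => ?_
    rw [Pi.smul_apply, smul_eq_mul]
    ring
  have h7 : ∑ j, (a j : ℂ) * u j ≠ 0 := by
    intro h0
    apply ha2
    rw [h6, h0, mul_zero, Complex.exp_zero]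
  have h8 : ∀ u' : Fin s → ℂ, ((0 : Fin g → ℂ), u') ∈ TT S → ∑ j, (a j : ℂ) * u' j = 0 := by
    intro u' hu'
    by_contra h0
    have h9 := hu' (∑ j, (a j : ℂ) * u' j)⁻¹
    have h10 : (∑ j, (a j : ℂ) * u' j)⁻¹ • ((0 : Fin g → ℂ), u') =
        ((0 : Fin g → ℂ), (∑ j, (a j : ℂ) * u' j)⁻¹ • u') := by
      refine Prod.ext ?_ rfl
      show (∑ j, (a j : ℂ) * u' j)⁻¹ • (0 : Fin g → ℂ) = 0
      rw [smul_zero]
    rw [h10] at h9
    have h11 := ha1 _ h9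
    rw [h6, inv_mul_cancel₀ h0] at h11
    have h12 : ‖Complex.exp 1‖ = Real.exp 1 := by
      rw [Complex.norm_exp, Complex.one_re]
    rw [h11, norm_one] at h12
    have h13 := Real.add_one_lt_exp (one_ne_zero (α := ℝ))
    linarith
  obtain ⟨lam, hl1, hl2⟩ := lam_ex' g s (TT S) a h8
  have h14 : lam (ρ i) ≠ 0 := by
    have h15 : ρ i = ((0 : Fin g → ℂ), u) + t := by
      rw [← h2, sub_add_cancel]
    rw [h15, map_add, hl1 t htS, hl2, add_zero]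
    exact h7
  -- the first components
  have hfst : ∀ b : Fin h → Fin D → ℤ, (ptl r ρ (fun j => ((w j : K) : ℂ)) b).1 =
      r.1 + ∑ i, (∑ j, ((b i j : ℤ) : ℂ) * ((w j : K) : ℂ)) • (ρ i).1 := by
    intro b
    unfold ptl
    rw [Prod.fst_add, Prod.fst_sum]
    rfl
  refine le_trans (Set.ncard_le_ncard ?_ ?_) (hcnt F' ht' h (fun i => lam (ρ i))
    (lam r - lam v₀) ⟨i, h14⟩ K D w H)
  · rintro a' ⟨hb, hv, -⟩
    refine ⟨hb, ?_⟩
    have hxA : (ptl r ρ (fun j => ((w j : K) : ℂ)) a' - v₀).1 ∈ TT SA := by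
      rw [Prod.fst_sub, hv₀, hfst, hfst, add_sub_add_left_eq_sub]
      exact (TT SA).sub_mem (Submodule.sum_mem _ fun i _ => (TT SA).smul_mem _ (hρA i))
        (Submodule.sum_mem _ fun i _ => (TT SA).smul_mem _ (hρA i))
    obtain ⟨t', ht'S, ht'v⟩ := hT _ hxA
    have h16 := u7_pt G F F' hk hFF hF' (T + (M + 1)) ht' S a ha1 lam hl1 hl2 _ v₀ t' hrat
      ht'S ht'v hv
    have h17 : lam (ptl r ρ (fun j => ((w j : K) : ℂ)) a') - lam v₀ =
        lam r - lam v₀ + ∑ i, (∑ j, ((a' i j : ℤ) : ℂ) * ((w j : K) : ℂ)) * lam (ρ i) := by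
      have h18 : lam (ptl r ρ (fun j => ((w j : K) : ℂ)) a') =
          lam r + ∑ i, (∑ j, ((a' i j : ℤ) : ℂ) * ((w j : K) : ℂ)) * lam (ρ i) := by
        rw [ptl, map_add, map_sum]
        congr 1
        refine Finset.sum_congr rfl fun i _ => ?_
        rw [map_smul, smul_eq_mul]
      rw [h18]
      ring
    rw [h17] at h16
    exact h16
  · exact (z12_box h D H).finite_toSet.subset fun a' ha' => ha'.1

end GAL
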