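import Pool.Agent.GAL.U3
import Pool.Agent.GAL.U6
import Pool.Agent.GAL.U7

set_option autoImplicit false

open LTD Module

namespace GAL

open GAV

/-! ## [GAL-U8] counting (file U8.lean)

`m = max` of the `m`'s of `count_A g κ T` and `count_T M T` (a larger `m` gives a weaker bound: `Nat.div_le_div_left`, `Nat.pow_le_pow_right`). If `(ρ i).1 ∉ TT SA` for some `i`: the set is contained in that of `count_A` for `G.A`, `fun i => (ρ i).1`, `r.1`: `(ptl r ρ w a).1 = ptl r.1 (fun i => (ρ i).1) w a` (finite sets: `z12_box` is a finset). Otherwise `count_T`. -/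

theorem count_G (g κ M T : ℕ) : ∃ m : ℕ, 1 ≤ m ∧ ∀ (s N μ : ℕ) (k F : IntermediateField ℚ ℂ),
    k ≤ F → Algebra.trdeg ℚ F ≤ (T : Cardinal) → Clo F → ∀ (G : SAV g s N κ M μ k) (h : ℕ)
      (ρ : Fin h → (Fin g → ℂ) × (Fin s → ℂ)) (r : (Fin g → ℂ) × (Fin s → ℂ))
      (K : IntermediateField ℚ ℂ) (D : ℕ) (w : Basis (Fin D) ℚ K) (H : ℕ)
      (S : AddSubgroup ((Fin g → ℂ) × (Fin s → ℂ))) (SA : AddSubgroup (Fin g → ℂ)),
        G.toGV.ZC (S : Set ((Fin g → ℂ) × (Fin s → ℂ))) → (toGV G.A).ZC (SA : Set (Fin g → ℂ)) →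
        (∃ i, ρ i ∉ TT S) →
        Set.ncard {a : Fin h → Fin D → ℤ | a ∈ z12_box h D H ∧
          (∀ z, z ∈ G.toGV.V F (ptl r ρ (fun j => ((w j : K) : ℂ)) a) ↔
            z - ptl r ρ (fun j => ((w j : K) : ℂ)) a ∈ S) ∧
          ∀ z, z ∈ (toGV G.A).V F (ptl r ρ (fun j => ((w j : K) : ℂ)) a).1 ↔
            z - (ptl r ρ (fun j => ((w j : K) : ℂ)) a).1 ∈ SA} ≤
          (2 * H + 1) ^ (h * D - D / m) := by
  obtain ⟨m₁, hm₁, hA⟩ := count_A g κ T
  obtain ⟨m₂, hm₂, hT'⟩ := count_T M T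
  refine ⟨max m₁ m₂, le_trans hm₁ (le_max_left _ _), ?_⟩
  intro s N μ k F hk hT hF G h ρ r K D w H S SA hS hSA hi
  have hpow : ∀ m, m ≤ max m₁ m₂ → 1 ≤ m →
      (2 * H + 1) ^ (h * D - D / m) ≤ (2 * H + 1) ^ (h * D - D / max m₁ m₂) := by
    intro m hm h1
    refine Nat.pow_le_pow_right (by omega) ?_
    exact Nat.sub_le_sub_left (Nat.div_le_div_left hm h1) _
  by_cases hc : ∃ i, (ρ i).1 ∉ TT SA
  · have h1 := hA N k F hk hT hF G.A h (fun i => (ρ i).1) r.1 K D w H SA hSA hc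
    refine le_trans (Set.ncard_le_ncard ?_ ?_) (le_trans h1 (hpow m₁ (le_max_left _ _) hm₁))
    · rintro a ⟨ha, -, hV⟩
      refine ⟨ha, ?_⟩
      have hfst : (ptl r ρ (fun j => ((w j : K) : ℂ)) a).1 =
          ptl r.1 (fun i => (ρ i).1) (fun j => ((w j : K) : ℂ)) a := by
        unfold ptl
        rw [Prod.fst_add, Prod.fst_sum]
        rfl
      rw [← hfst]
      exact hV
    · exact (z12_box h D H).finite_toSet.subset fun a ha => ha.1
  · push Not at hc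
    exact le_trans (hT' g s N κ μ k F hk hT hF G h ρ r K D w H S SA hS hi hc)
      (hpow m₂ (le_max_right _ _) hm₂)

end GAL
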